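import Pool.Agent.Work.MP_8d2b2d_co.RP.Eng2

/-!
# The certificate checker, recursor form

The same functions as in `Eng` and `Eng2`, specialised to natural numbers and written with
recursors, which the kernel reduces faster; each one is proved equal to the original.
-/

namespace Pool.Agent.Work.MP_8d2b2d_co.RP.Fa

/-- sparse lists of signed numbers -/
abbrev SL := List (Nat × (Nat × Nat))

noncomputable def mergeL (p : SL) : SL → SL :=
  List.rec (motive := fun _ => SL → SL) (fun q => q)
    (fun x _ f q => List.rec (motive := fun _ => SL) (List.cons x (f []))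
      (fun y q' ih => Bool.rec (motive := fun _ => SL)
        (Bool.rec (motive := fun _ => SL) (List.cons y ih) (List.cons x (f (List.cons y q')))
          (Nat.ble x.1 y.1))
        (List.cons (x.1, (Nat.add x.2.1 y.2.1, Nat.add x.2.2 y.2.2)) (f q'))
        (Nat.beq x.1 y.1)) q) p

theorem mergeL_eq (p q : SL) : mergeL p q = RP.mergeL (sadd arN) p q := by
  induction p generalizing q with
  | nil => rfl
  | cons x p ihp =>
    have hf : (mergeL p : SL → SL) = RP.mergeL (sadd arN) p := funext ihp
    induction q with
    | nil =>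
      show List.cons x (mergeL p []) = x :: RP.mergeL (sadd arN) p []
      rw [hf]
    | cons y q ihq =>
      show Bool.rec (motive := fun _ => SL)
        (Bool.rec (motive := fun _ => SL) (List.cons y (mergeL (x :: p) q))
          (List.cons x (mergeL p (List.cons y q))) (Nat.ble x.1 y.1))
        (List.cons (x.1, (Nat.add x.2.1 y.2.1, Nat.add x.2.2 y.2.2)) (mergeL p q))
        (Nat.beq x.1 y.1) = _
      rw [ihq, hf]
      show _ = cond (Nat.beq x.1 y.1) ((x.1, sadd arN x.2 y.2) :: RP.mergeL (sadd arN) p q)
        (cond (Nat.ble x.1 y.1) (x :: RP.mergeL (sadd arN) p (y :: q))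
          (y :: RP.mergeL (sadd arN) (x :: p) q))
      cases Nat.beq x.1 y.1 <;> cases Nat.ble x.1 y.1 <;> rfl

noncomputable def filt (p : Nat → Bool) (l : SL) : SL :=
  List.rec (motive := fun _ => SL) [] (fun x _ ih => Bool.rec (motive := fun _ => SL) ih
    (List.cons x ih) (p x.1)) l

theorem filt_eq (p : Nat → Bool) (l : SL) : filt p l = RP.filt p l := by
  induction l with
  | nil => rfl
  | cons x l ih =>
    show Bool.rec (motive := fun _ => SL) (filt p l) (List.cons x (filt p l)) (p x.1) =
      cond (p x.1) (x :: RP.filt p l) (RP.filt p l)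
    rw [ih]
    cases p x.1 <;> rfl

noncomputable def imgD (s t : Nat) (kc : Nat) (l : SL) : SL :=
  List.rec (motive := fun _ => SL) [] (fun x _ ih =>
    List.cons (Nat.add (Nat.sub x.1 (Nat.pow 16 s)) (Nat.pow 16 t),
      (Nat.mul kc x.2.1, Nat.mul kc x.2.2)) ih) l

theorem imgD_eq (s t kc : Nat) (l : SL) : imgD s t kc l = RP.imgD (engA arN) s t kc l := by
  induction l with
  | nil => rfl
  | cons x l ih =>
    show List.cons _ (imgD s t kc l) = _ :: RP.imgD (engA arN) s t kc l
    rw [ih]
    rfl

noncomputable def imgA (s a : Nat) (kc : Nat) (l : SL) : SL :=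
  List.rec (motive := fun _ => SL) [] (fun x _ ih => Bool.rec (motive := fun _ => SL)
    (List.cons (Nat.sub (Nat.sub x.1 (Nat.pow 16 s)) (Nat.pow 16 a),
      (Nat.mul (dg a x.1) (Nat.mul kc x.2.1), Nat.mul (dg a x.1) (Nat.mul kc x.2.2))) ih)
    ih (Nat.beq (dg a x.1) 0)) l

theorem imgA_eq (s a kc : Nat) (l : SL) : imgA s a kc l = RP.imgA (engA arN) s a kc l := by
  induction l with
  | nil => rfl
  | cons x l ih =>
    show Bool.rec (motive := fun _ => SL)
      (List.cons (Nat.sub (Nat.sub x.1 (Nat.pow 16 s)) (Nat.pow 16 a),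
      (Nat.mul (dg a x.1) (Nat.mul kc x.2.1), Nat.mul (dg a x.1) (Nat.mul kc x.2.2)))
        (imgA s a kc l)) (imgA s a kc l) (Nat.beq (dg a x.1) 0) =
      cond (Nat.beq (dg a x.1) 0) (RP.imgA (engA arN) s a kc l) (_ :: RP.imgA (engA arN) s a kc l)
    rw [ih]
    cases Nat.beq (dg a x.1) 0 <;> rfl

/-- conjunction -/
noncomputable def an (a b : Bool) : Bool := Bool.rec (motive := fun _ => Bool) false b a

theorem an_eq (a b : Bool) : an a b = and a b := by cases a <;> rfl

/-- conditional -/
noncomputable def cd {T : Type} (c : Bool) (a b : T) : T := Bool.rec (motive := fun _ => T) b a c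

theorem cd_eq {T : Type} (c : Bool) (a b : T) : cd c a b = cond c a b := by cases c <;> rfl

noncomputable def actv (s d : Nat) (k : Nat) : Bool :=
  an (Nat.ble 1 (dg s k)) (an (Nat.ble (dg d k) 14)
    (an (Nat.ble (dg (Nat.add d 1) k) 14) (Nat.ble (dg (Nat.add d 2) k) 14)))

theorem actv_eq (s d : Nat) : actv s d = RP.actv s d := by
  funext k
  simp only [actv, RP.actv, an_eq]

noncomputable def imgs (s d a : Nat) (l : SL) (row : List (Nat × Nat)) : SL → SL :=
  List.rec (motive := fun _ => SL → SL) (fun acc => acc)
    (fun jk _ ih acc => ih (mergeL (mergeL acc (imgD s (Nat.add d jk.1) jk.2 l))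
      (imgA s (Nat.add a jk.1) jk.2 l))) row

theorem imgs_eq (s d a : Nat) (l : SL) (row : List (Nat × Nat)) (acc : SL) :
    imgs s d a l row acc = RP.imgs (engA arN) s d a l row acc := by
  induction row generalizing acc with
  | nil => rfl
  | cons jk row ih =>
    show imgs s d a l row _ = RP.imgs (engA arN) s d a l row _
    rw [ih, mergeL_eq, mergeL_eq, imgD_eq, imgA_eq]
    rfl

noncomputable def step (s d a : Nat) (row : List (Nat × Nat)) (l : SL) : SL :=
  imgs s d a (filt (actv s d) l) row (filt (fun k => cd (actv s d k) false true) l)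

theorem step_eq (s d a : Nat) (row : List (Nat × Nat)) (l : SL) :
    step s d a row l = RP.step (engA arN) s d a row l := by
  rw [step, RP.step, imgs_eq, filt_eq, filt_eq, actv_eq]
  congr 2
  funext k
  rw [cd_eq]
  cases RP.actv s d k <;> rfl

noncomputable def run (K : Nat → List (Nat × Nat)) (prog : List (Bool × Nat)) : SL → SL :=
  List.rec (motive := fun _ => SL → SL) (fun l => l)
    (fun c _ ih l => ih (Bool.rec (motive := fun _ => SL)
      (step c.2 9 6 (K c.2) l) (step (Nat.add 6 c.2) 3 0 (K c.2) l) c.1)) prog

theorem run_eq (K : Nat → List (Nat × Nat)) (prog : List (Bool × Nat)) (l : SL) :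
    run K prog l = RP.run (engA arN) K prog l := by
  induction prog generalizing l with
  | nil => rfl
  | cons c prog ih =>
    rw [RP.run]
    show run K prog _ = _
    rw [ih]
    congr 1
    rcases c with ⟨b, i⟩
    cases b
    · exact step_eq i 9 6 (K i) l
    · exact step_eq (Nat.add 6 i) 3 0 (K i) l

noncomputable def nmin (a b : Nat) : Nat := cd (Nat.ble a b) a b

noncomputable def canW (a b c a' b' c' : Nat) : Nat :=
  nmin (nmin (wcode a b c a' b' c') (wcode b c a c' a' b'))
    (nmin (nmin (wcode c a b b' c' a') (wcode a' b' c' a b c))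
      (nmin (wcode b' c' a' c a b) (wcode c' a' b' b c a)))

theorem canW_eq (a b c a' b' c' : Nat) : canW a b c a' b' c' = RP.canW a b c a' b' c' := by
  simp only [canW, RP.canW, nmin, RP.nmin, cd_eq]

noncomputable def isW (k : Nat) : Bool :=
  an (an (Nat.beq (dg 0 k) 0) (an (Nat.beq (dg 1 k) 0) (Nat.beq (dg 2 k) 0)))
    (an (Nat.beq (dg 6 k) 0) (an (Nat.beq (dg 7 k) 0) (Nat.beq (dg 8 k) 0)))

theorem isW_eq (k : Nat) : isW k = RP.isW k := by
  simp only [isW, RP.isW, an_eq]

noncomputable def cfM (k : Nat) : Nat :=
  cd (isW k) (canW (dg 3 k) (dg 4 k) (dg 5 k) (dg 9 k) (dg 10 k) (dg 11 k)) k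

noncomputable def cfG (k : Nat) : Nat :=
  cd (isW k) (canW (dg 9 k) (dg 4 k) (dg 11 k) (dg 3 k) (dg 10 k) (dg 5 k)) k

theorem cfM_eq : cfM = RP.cfM := by
  funext k; simp only [cfM, RP.cfM, cd_eq, isW_eq, canW_eq]

theorem cfG_eq : cfG = RP.cfG := by
  funext k; simp only [cfG, RP.cfG, cd_eq, isW_eq, canW_eq]

noncomputable def sint (z : Int) : Nat × Nat :=
  Int.rec (motive := fun _ => Nat × Nat) (fun n => (n, 0)) (fun n => (0, Nat.succ n)) z

theorem sint_eq (z : Int) : sint z = RP.sint arN z := by cases z <;> rfl

noncomputable def spoly (x : Nat) (p : List Int) : Nat × Nat :=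
  List.rec (motive := fun _ => Nat × Nat) (0, 0)
    (fun a _ ih => (Nat.add (sint a).1 (Nat.mul x ih.1), Nat.add (sint a).2 (Nat.mul x ih.2))) p

theorem spoly_eq (x : Nat) (p : List Int) : spoly x p = RP.spoly arN x p := by
  induction p with
  | nil => rfl
  | cons a p ih =>
    rw [RP.spoly, ← ih, ← sint_eq]
    rfl

noncomputable def npoly (x : Nat) (p : List Nat) : Nat :=
  List.rec (motive := fun _ => Nat) 0 (fun a _ ih => Nat.add a (Nat.mul x ih)) p

theorem npoly_eq (x : Nat) (p : List Nat) : npoly x p = RP.npoly arN x p := by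
  induction p with
  | nil => rfl
  | cons a p ih => rw [RP.npoly, ← ih]; rfl

noncomputable def slist (x : Nat) (l : List (Nat × List Int)) : SL :=
  List.rec (motive := fun _ => SL) [] (fun y _ ih => List.cons (y.1, spoly x y.2) ih) l

theorem slist_eq (x : Nat) (l : List (Nat × List Int)) : slist x l = RP.slist arN x l := by
  induction l with
  | nil => rfl
  | cons a l ih => rw [RP.slist, ← ih, ← spoly_eq]; rfl

noncomputable def krow (x : Nat) (l : List (Nat × List Nat)) : List (Nat × Nat) :=
  List.rec (motive := fun _ => List (Nat × Nat)) []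
    (fun y _ ih => List.cons (y.1, npoly x y.2) ih) l

theorem krow_eq (x : Nat) (l : List (Nat × List Nat)) : krow x l = RP.krow arN x l := by
  induction l with
  | nil => rfl
  | cons a l ih => rw [RP.krow, ← ih, ← npoly_eq]; rfl

noncomputable def neglist (l : SL) : SL :=
  List.rec (motive := fun _ => SL) [] (fun y _ ih => List.cons (y.1, (y.2.2, y.2.1)) ih) l

theorem neglist_eq (l : SL) : neglist l = RP.neglist l := by
  induction l with
  | nil => rfl
  | cons a l ih => rw [RP.neglist, ← ih]; rfl

noncomputable def smulS (a b : Nat × Nat) : Nat × Nat :=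
  (Nat.add (Nat.mul a.1 b.1) (Nat.mul a.2 b.2), Nat.add (Nat.mul a.1 b.2) (Nat.mul a.2 b.1))

noncomputable def scaleL (c : Nat × Nat) (l : SL) : SL :=
  List.rec (motive := fun _ => SL) [] (fun y _ ih => List.cons (y.1, smulS c y.2) ih) l

theorem scaleL_eq (c : Nat × Nat) (l : SL) : scaleL c l = RP.scaleL arN c l := by
  induction l with
  | nil => rfl
  | cons a l ih => rw [RP.scaleL, ← ih]; rfl

noncomputable def linM (cs : List (Nat × Nat)) : List SL → SL :=
  List.rec (motive := fun _ => List SL → SL) (fun _ => [])
    (fun c _ ih ms => List.rec (motive := fun _ => SL) []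
      (fun m ms' _ => mergeL (scaleL c m) (ih ms')) ms) cs

theorem linM_eq (cs : List (Nat × Nat)) (ms : List SL) : linM cs ms = RP.linM arN cs ms := by
  induction cs generalizing ms with
  | nil => rfl
  | cons c cs ih =>
    cases ms with
    | nil => rfl
    | cons m ms =>
      rw [RP.linM, ← ih, ← scaleL_eq, ← mergeL_eq]; rfl

noncomputable def shiftL (k : Nat) (c : Nat × Nat) (l : SL) : SL :=
  List.rec (motive := fun _ => SL) [] (fun y _ ih =>
    List.cons (Nat.add k (Nat.mul 16777216 y.1), smulS c y.2) ih) l

theorem shiftL_eq (k : Nat) (c : Nat × Nat) (l : SL) : shiftL k c l = RP.shiftL arN k c l := by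
  induction l with
  | nil => rfl
  | cons a l ih => rw [RP.shiftL, ← ih]; rfl

noncomputable def tensL (w : SL) (l : SL) : List SL :=
  List.rec (motive := fun _ => List SL) [] (fun y _ ih => List.cons (shiftL y.1 y.2 w) ih) l

theorem tensL_eq (w l : SL) : tensL w l = RP.tensL arN w l := by
  induction l with
  | nil => rfl
  | cons a l ih => rw [RP.tensL, ← ih, ← shiftL_eq]; rfl

/-- concatenation -/
noncomputable def app {T : Type} (l : List T) (k : List T) : List T :=
  List.rec (motive := fun _ => List T) k (fun y _ ih => List.cons y ih) l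

theorem app_eq {T : Type} (l k : List T) : app l k = List.append l k := by
  induction l with
  | nil => rfl
  | cons a l ih =>
    show List.cons a (app l k) = a :: List.append l k
    rw [ih]

noncomputable def quadL (H : List (List (Nat × Nat))) : List SL → List SL :=
  List.rec (motive := fun _ => List SL → List SL) (fun _ => [])
    (fun h _ ih ms => List.rec (motive := fun _ => List SL) []
      (fun m ms' _ => app (tensL (linM h (List.cons m ms')) m) (ih ms')) ms) H

theorem quadL_eq (H : List (List (Nat × Nat))) (ms : List SL) :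
    quadL H ms = RP.quadL arN H ms := by
  induction H generalizing ms with
  | nil => rfl
  | cons h H ih =>
    cases ms with
    | nil => rfl
    | cons m ms =>
      rw [RP.quadL, ← ih, ← app_eq, ← tensL_eq, ← linM_eq]; rfl

/-- pairwise merge with a pending list -/
noncomputable def pairU (ls : List SL) : List SL → List SL :=
  List.rec (motive := fun _ => List SL → List SL) (fun pend => pend)
    (fun a _ ih pend => List.rec (motive := fun _ => List SL) (ih (List.cons a []))
      (fun p _ _ => List.cons (mergeL p a) (ih [])) pend) ls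

theorem pairU_eq (ls : List SL) : pairU ls [] = RP.pairUp (sadd arN) ls ∧
    ∀ p, pairU ls [p] = RP.pairUp (sadd arN) (p :: ls) := by
  induction ls with
  | nil => exact ⟨rfl, fun _ => rfl⟩
  | cons a ls ih =>
    refine ⟨?_, fun p => ?_⟩
    · show pairU ls [a] = _
      exact ih.2 a
    · show List.cons (mergeL p a) (pairU ls []) = _
      rw [RP.pairUp, ih.1, mergeL_eq]

noncomputable def flat (ls : List SL) : SL :=
  List.rec (motive := fun _ => SL) [] (fun a _ ih => app a ih) ls

theorem flat_eq (ls : List SL) : flat ls = RP.flat ls := by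
  induction ls with
  | nil => rfl
  | cons a l ih => rw [RP.flat, ← ih, ← app_eq]; rfl

noncomputable def mergeAll (n : Nat) : List SL → SL :=
  Nat.rec (motive := fun _ => List SL → SL) (fun ls => flat ls)
    (fun _ ih ls => ih (pairU ls [])) n

theorem mergeAll_eq (n : Nat) (ls : List SL) : mergeAll n ls = RP.mergeAll (sadd arN) n ls := by
  induction n generalizing ls with
  | zero => rw [RP.mergeAll, ← flat_eq]; rfl
  | succ n ih =>
    rw [RP.mergeAll, ← ih, ← (pairU_eq ls).1]; rfl

/-- difference of natural numbers -/
noncomputable def subZ (m n : Nat) : Int :=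
  cd (Nat.ble n m) (Int.ofNat (Nat.sub m n)) (Int.negSucc (Nat.pred (Nat.sub n m)))

noncomputable def addZ (a b : Int) : Int :=
  Int.rec (motive := fun _ => Int)
    (fun m => Int.rec (motive := fun _ => Int) (fun n => Int.ofNat (Nat.add m n))
      (fun n => subZ m (Nat.succ n)) b)
    (fun m => Int.rec (motive := fun _ => Int) (fun n => subZ n (Nat.succ m))
      (fun n => Int.negSucc (Nat.succ (Nat.add m n))) b) a

theorem subZ_eq (m n : Nat) : subZ m n = Int.subNatNat m n := by
  unfold subZ Int.subNatNat
  rw [cd_eq]
  by_cases h : n ≤ m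
  · have h1 : Nat.ble n m = true := Nat.ble_eq_true_of_le h
    have h2 : n - m = 0 := Nat.sub_eq_zero_of_le h
    rw [h1, h2]
    rfl
  · have h1 : Nat.ble n m = false := by
      cases hb : Nat.ble n m
      · rfl
      · exact absurd (Nat.le_of_ble_eq_true hb) h
    obtain ⟨k, hk⟩ : ∃ k, n - m = k + 1 := ⟨n - m - 1, by omega⟩
    have h3 : Nat.sub n m = k + 1 := hk
    rw [h1, hk, h3]
    rfl

theorem addZ_eq (a b : Int) : addZ a b = Int.add a b := by
  cases a with
  | ofNat m =>
    cases b with
    | ofNat n => rfl
    | negSucc n => exact subZ_eq m (Nat.succ n)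
  | negSucc m =>
    cases b with
    | ofNat n => exact subZ_eq n (Nat.succ m)
    | negSucc n => rfl

/-- opposite of a natural number -/
noncomputable def negZ (m : Nat) : Int :=
  cd (Nat.beq m 0) (Int.ofNat 0) (Int.negSucc (Nat.pred m))

theorem negZ_eq (m : Nat) : negZ m = Int.negOfNat m := by
  cases m <;> rfl

noncomputable def mulZ (a b : Int) : Int :=
  Int.rec (motive := fun _ => Int)
    (fun m => Int.rec (motive := fun _ => Int) (fun n => Int.ofNat (Nat.mul m n))
      (fun n => negZ (Nat.mul m (Nat.succ n))) b)
    (fun m => Int.rec (motive := fun _ => Int) (fun n => negZ (Nat.mul (Nat.succ m) n))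
      (fun n => Int.ofNat (Nat.mul (Nat.succ m) (Nat.succ n))) b) a

theorem mulZ_eq (a b : Int) : mulZ a b = Int.mul a b := by
  cases a with
  | ofNat m =>
    cases b with
    | ofNat n => rfl
    | negSucc n => exact negZ_eq _
  | negSucc m =>
    cases b with
    | ofNat n => exact negZ_eq _
    | negSucc n => rfl

noncomputable def addRow (p : List Int) : List Int → List Int :=
  List.rec (motive := fun _ => List Int → List Int) (fun q => q)
    (fun a p' ih q => List.rec (motive := fun _ => List Int) (List.cons a p')
      (fun b q' _ => List.cons (addZ a b) (ih q')) q) p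

theorem addRow_eq (p q : List Int) : addRow p q = RP.addRow p q := by
  induction p generalizing q with
  | nil => rfl
  | cons a p ih =>
    cases q with
    | nil => rfl
    | cons b q => rw [RP.addRow, ← ih, ← addZ_eq]; rfl

noncomputable def mulRow (c : Int) (p : List Int) : List Int :=
  List.rec (motive := fun _ => List Int) [] (fun a _ ih => List.cons (mulZ c a) ih) p

theorem mulRow_eq (c : Int) (p : List Int) : mulRow c p = RP.mulRow c p := by
  induction p with
  | nil => rfl
  | cons a p ih => rw [RP.mulRow, ← ih, ← mulZ_eq]; rfl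

noncomputable def addH (p : List (List Int)) : List (List Int) → List (List Int) :=
  List.rec (motive := fun _ => List (List Int) → List (List Int)) (fun q => q)
    (fun a p' ih q => List.rec (motive := fun _ => List (List Int)) (List.cons a p')
      (fun b q' _ => List.cons (addRow a b) (ih q')) q) p

theorem addH_eq (p q : List (List Int)) : addH p q = RP.addH p q := by
  induction p generalizing q with
  | nil => rfl
  | cons a p ih =>
    cases q with
    | nil => rfl
    | cons b q => rw [RP.addH, ← ih, ← addRow_eq]; rfl

noncomputable def isZ (z : Int) : Bool :=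
  Int.rec (motive := fun _ => Bool) (fun n => Nat.beq n 0) (fun _ => false) z

theorem isZ_eq' (z : Int) : isZ z = RP.isZ z := by cases z <;> rfl

noncomputable def outer (d : Nat) (l : List Int) : List (List Int) :=
  List.rec (motive := fun _ => List (List Int)) []
    (fun a cs ih => List.cons (Bool.rec (motive := fun _ => List Int)
      (mulRow (mulZ (Int.ofNat d) a) (List.cons a (mulRow (Int.ofNat 2) cs))) [] (isZ a)) ih) l

theorem outer_eq (d : Nat) (l : List Int) : outer d l = RP.outer d l := by
  induction l with
  | nil => rfl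
  | cons a l ih =>
    show List.cons (Bool.rec (motive := fun _ => List Int)
      (mulRow (mulZ (Int.ofNat d) a) (List.cons a (mulRow (Int.ofNat 2) l))) [] (isZ a))
      (outer d l) = _
    rw [RP.outer, ih, isZ_eq', mulZ_eq, mulRow_eq, mulRow_eq]
    cases RP.isZ a <;> rfl

noncomputable def iabs (z : Int) : Nat :=
  Int.rec (motive := fun _ => Nat) (fun n => n) (fun n => Nat.succ n) z

theorem iabs_eq' (z : Int) : iabs z = RP.iabs z := by cases z <;> rfl

noncomputable def sumAbs (l : List Int) : Nat :=
  List.rec (motive := fun _ => Nat) 0 (fun a _ ih => Nat.add (iabs a) ih) l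

theorem sumAbs_eq (l : List Int) : sumAbs l = RP.sumAbs l := by
  induction l with
  | nil => rfl
  | cons a l ih => rw [RP.sumAbs, ← ih, ← iabs_eq']; rfl

noncomputable def addDiag (p : List Int) : List (List Int) → List (List Int) :=
  List.rec (motive := fun _ => List (List Int) → List (List Int)) (fun q => q)
    (fun a _ ih q => List.rec (motive := fun _ => List (List Int))
      (List.cons (List.cons (Int.ofNat (iabs a)) []) (ih []))
      (fun h H _ => List.cons (addRow (List.cons (Int.ofNat (iabs a)) []) h) (ih H)) q) p

theorem addDiag_eq (p : List Int) (q : List (List Int)) : addDiag p q = RP.addDiag p q := by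
  induction p generalizing q with
  | nil => rfl
  | cons a p ih =>
    cases q with
    | nil => rw [RP.addDiag, ← ih, ← iabs_eq']; rfl
    | cons b q => rw [RP.addDiag, ← ih, ← iabs_eq', ← addRow_eq]; rfl

noncomputable def ddH (l : List (Nat × List Int)) : List (List Int) :=
  List.rec (motive := fun _ => List (List Int)) []
    (fun y _ ih => List.cons (List.cons (Int.ofNat (Nat.add y.1 (sumAbs y.2)))
      (mulRow (Int.ofNat 2) y.2)) (addDiag y.2 ih)) l

theorem ddH_eq (l : List (Nat × List Int)) : ddH l = RP.ddH l := by
  induction l with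
  | nil => rfl
  | cons a l ih => rw [RP.ddH, ← ih, ← sumAbs_eq, ← addDiag_eq, ← mulRow_eq]; rfl

noncomputable def sumSq (l : List (Nat × List Int)) (H : List (List Int)) : List (List Int) :=
  List.rec (motive := fun _ => List (List Int)) H (fun y _ ih => addH (outer y.1 y.2) ih) l

theorem sumSq_eq (l : List (Nat × List Int)) (H : List (List Int)) :
    sumSq l H = RP.sumSq l H := by
  induction l with
  | nil => rfl
  | cons a l ih => rw [RP.sumSq, ← ih, ← outer_eq, ← addH_eq]; rfl

noncomputable def blkH (b : Blk) : List (List Int) := sumSq b.sq (ddH b.dd)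

theorem blkH_eq (b : Blk) : blkH b = RP.blkH b := by
  rw [blkH, RP.blkH, sumSq_eq, ddH_eq]

noncomputable def cRow (c : Nat) (p : List Int) : List (Nat × Nat) :=
  List.rec (motive := fun _ => List (Nat × Nat)) []
    (fun a _ ih => List.cons (Nat.mul c (sint a).1, Nat.mul c (sint a).2) ih) p

theorem cRow_eq (c : Nat) (p : List Int) : cRow c p = RP.cRow arN c p := by
  induction p with
  | nil => rfl
  | cons a p ih => rw [RP.cRow, ← ih, ← sint_eq]; rfl

noncomputable def cMat (c : Nat) (H : List (List Int)) : List (List (Nat × Nat)) :=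
  List.rec (motive := fun _ => List (List (Nat × Nat))) []
    (fun a _ ih => List.cons (cRow c a) ih) H

theorem cMat_eq (c : Nat) (H : List (List Int)) : cMat c H = RP.cMat arN c H := by
  induction H with
  | nil => rfl
  | cons a p ih => rw [RP.cMat, ← ih, ← cRow_eq]; rfl

noncomputable def addRowM (p : List (Nat × Nat)) : List (Nat × Nat) → List (Nat × Nat) :=
  List.rec (motive := fun _ => List (Nat × Nat) → List (Nat × Nat)) (fun q => q)
    (fun a p' ih q => List.rec (motive := fun _ => List (Nat × Nat)) (List.cons a p')
      (fun b q' _ => List.cons (Nat.add a.1 b.1, Nat.add a.2 b.2) (ih q')) q) p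

theorem addRowM_eq (p q : List (Nat × Nat)) : addRowM p q = RP.addRowM arN p q := by
  induction p generalizing q with
  | nil => rfl
  | cons a p ih =>
    cases q with
    | nil => rfl
    | cons b q => rw [RP.addRowM, ← ih]; rfl

noncomputable def addHM (p : List (List (Nat × Nat))) :
    List (List (Nat × Nat)) → List (List (Nat × Nat)) :=
  List.rec (motive := fun _ => List (List (Nat × Nat)) → List (List (Nat × Nat))) (fun q => q)
    (fun a p' ih q => List.rec (motive := fun _ => List (List (Nat × Nat))) (List.cons a p')
      (fun b q' _ => List.cons (addRowM a b) (ih q')) q) p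

theorem addHM_eq (p q : List (List (Nat × Nat))) : addHM p q = RP.addHM arN p q := by
  induction p generalizing q with
  | nil => rfl
  | cons a p ih =>
    cases q with
    | nil => rfl
    | cons b q => rw [RP.addHM, ← ih, ← addRowM_eq]; rfl

noncomputable def totH (x : Nat) (l : List Blk) : List (List (Nat × Nat)) :=
  List.rec (motive := fun _ => List (List (Nat × Nat))) []
    (fun b _ ih => addHM (cMat (npoly x b.C) (blkH b)) ih) l

theorem totH_eq (x : Nat) (l : List Blk) : totH x l = RP.totH arN x l := by
  induction l with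
  | nil => rfl
  | cons b l ih =>
    rw [RP.totH, ← ih, ← addHM_eq, ← cMat_eq, ← npoly_eq, ← blkH_eq]; rfl

noncomputable def slists (x : Nat) (l : List (List (Nat × List Int))) : List SL :=
  List.rec (motive := fun _ => List SL) [] (fun m _ ih => List.cons (slist x m) ih) l

theorem slists_eq (x : Nat) (l : List (List (Nat × List Int))) :
    slists x l = RP.slists arN x l := by
  induction l with
  | nil => rfl
  | cons b l ih => rw [RP.slists, ← ih, ← slist_eq]; rfl

noncomputable def gramRun (x : Nat) (KG : Nat → List (Nat × List Nat)) (c : Cert) : SL :=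
  run (fun i => krow x (KG i)) (app (prgSide false) (prgSide true))
    (mergeAll 8 (quadL (totH x c.blks) (slists x c.basis)))

theorem gramRun_eq (x : Nat) (KG : Nat → List (Nat × List Nat)) (c : Cert) :
    gramRun x KG c = RP.gramRun arN x KG c := by
  rw [gramRun, RP.gramRun, run_eq, mergeAll_eq, quadL_eq, totH_eq, slists_eq, app_eq]
  congr 1
  funext i
  exact krow_eq x _

noncomputable def targRun (x : Nat) (KM : Nat → List (Nat × List Nat)) (c : Cert) : SL :=
  run (fun i => krow x (KM i)) (app (prgSide false) (prgSide true))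
    (neglist (slist x c.target))

theorem targRun_eq (x : Nat) (KM : Nat → List (Nat × List Nat)) (c : Cert) :
    targRun x KM c = RP.targRun arN x KM c := by
  rw [targRun, RP.targRun, run_eq, neglist_eq, slist_eq, app_eq]
  congr 1
  funext i
  exact krow_eq x _

noncomputable def singles (cf : Nat → Nat) (l : SL) : List SL :=
  List.rec (motive := fun _ => List SL) []
    (fun y _ ih => List.cons (List.cons (cf y.1, y.2) []) ih) l

theorem singles_eq (cf : Nat → Nat) (l : SL) : singles cf l = RP.singles cf l := by
  induction l with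
  | nil => rfl
  | cons b l ih => rw [RP.singles, ← ih]; rfl

noncomputable def total (x : Nat) (KG KM : Nat → List (Nat × List Nat)) (c : Cert) : SL :=
  mergeAll 12 (app (singles cfM (targRun x KM c)) (singles cfG (gramRun x KG c)))

theorem total_eq (x : Nat) (KG KM : Nat → List (Nat × List Nat)) (c : Cert) :
    total x KG KM c = RP.total arN x KG KM c := by
  rw [total, RP.total, mergeAll_eq, app_eq, singles_eq, singles_eq, targRun_eq, gramRun_eq,
    cfM_eq, cfG_eq]

noncomputable def allW (l : SL) : Bool :=
  List.rec (motive := fun _ => Bool) true (fun y _ ih => an (isW y.1) ih) l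

theorem allW_eq (l : SL) : allW l = RP.allW l := by
  induction l with
  | nil => rfl
  | cons y l ih => rw [RP.allW, ← ih, ← an_eq, ← isW_eq]; rfl

noncomputable def allEq (l : SL) : Bool :=
  List.rec (motive := fun _ => Bool) true (fun y _ ih => an (Nat.beq y.2.1 y.2.2) ih) l

theorem allEq_eq (l : SL) : allEq l = RP.allEq l := by
  induction l with
  | nil => rfl
  | cons y l ih => rw [RP.allEq, ← ih, ← an_eq]; rfl

noncomputable def allLt (X : Nat) (l : SL) : Bool :=
  List.rec (motive := fun _ => Bool) true (fun y _ ih =>
    an (an (Nat.ble (Nat.succ y.2.1) X) (Nat.ble (Nat.succ y.2.2) X)) ih) l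

theorem allLt_eq (X : Nat) (l : SL) : allLt X l = RP.allLt X l := by
  induction l with
  | nil => rfl
  | cons y l ih => rw [RP.allLt, ← ih, ← an_eq, ← an_eq]; rfl

noncomputable def chk1 (X : Nat) (KG KM : Nat → List (Nat × List Nat)) (c : Cert) : Bool :=
  an (smallBasis c.basis) (an (allW (gramRun X KG c)) (allEq (total X KG KM c)))

theorem chk1_eq (X : Nat) (KG KM : Nat → List (Nat × List Nat)) (c : Cert) :
    chk1 X KG KM c = check1 X KG KM c := by
  rw [chk1, check1, an_eq, an_eq, allW_eq, gramRun_eq, allEq_eq, total_eq]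

noncomputable def chk2 (X : Nat) (KG KM : Nat → List (Nat × List Nat)) (c : Cert) : Bool :=
  allLt X (total 1 KG KM c)

theorem chk2_eq (X : Nat) (KG KM : Nat → List (Nat × List Nat)) (c : Cert) :
    chk2 X KG KM c = check2 X KG KM c := by
  rw [chk2, check2, allLt_eq, total_eq]

end Pool.Agent.Work.MP_8d2b2d_co.RP.Fa
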