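import Pool.Agent.Work.MP_8d2b2d_co.RP.Data
import Pool.Agent.Work.MP_8d2b2d_co.RP.Fast

/-!
# The bound for the coefficients of the certificate
-/

set_option maxRecDepth 100000

namespace Pool.Agent.Work.MP_8d2b2d_co.RP

theorem dCert_check2 : check2 (2 ^ 144) KG5 KM5 dCert = true := by
  rw [← Fa.chk2_eq]
  decide +kernel

end Pool.Agent.Work.MP_8d2b2d_co.RP
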