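import Pool.Agent.Work.MP_8d2b2d_co.RP.EvalF
import Pool.Agent.Work.MP_8d2b2d_co.RP.Chk1
import Pool.Agent.Work.MP_8d2b2d_co.RP.Chk2

/-!
# Pate's inequality for `k = 3`
-/

namespace Pool.Agent.Work.MP_8d2b2d_co.RP

open scoped ComplexOrder in
/-- **Pate's inequality for `k = 3`**, every size, every positive semidefinite matrix -/
theorem pate_three_all (m : ℕ) (M : Matrix (Fin m) (Fin m) ℂ) (hM : M.PosSemidef) :
    ((Nat.factorial 3 : ℕ) : ℂ) ^ m * M.permanent ^ 3 ≤
      (Matrix.kroneckerMap (fun x y => x * y) (Matrix.of fun _ _ : Fin 3 => (1 : ℂ))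
        M).permanent :=
  pate_three_of_check (2 ^ 144) dCert [6476266294985605313986560000000] rfl (fun r _ => by simp [evI])
    dCert_check1 dCert_check2 m M hM

end Pool.Agent.Work.MP_8d2b2d_co.RP
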