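import Mathlib

/-!
# Endpoint of the path: the `2k`-cycle

`(p^k + q^k)^m (per M)^k ≤ per (S ⊗ M)` for `S a b = p [a + b = 0] + q [a + b = 1]`, `a b : Fin k`.
-/

set_option autoImplicit false
set_option linter.unusedSectionVars false
set_option linter.deprecated false

namespace Pool.Agent.Work.MP_8d2b2d_co.RP

open Finset Matrix

section Comb

variable {I J B : Type} [Fintype I] [DecidableEq I] [Fintype J] [DecidableEq J]
  [Fintype B] [DecidableEq B]

/-- equivalences compatible with two colourings -/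
def fibEquiv (f : I → B) (h : J → B) : {σ : I ≃ J // ∀ i, h (σ i) = f i} ≃
    (∀ b, ({i // f i = b} ≃ {j // h j = b})) where
  toFun σ b :=
    { toFun := fun x => ⟨σ.1 x.1, (σ.2 x.1).trans x.2⟩
      invFun := fun y => ⟨σ.1.symm y.1, (σ.2 (σ.1.symm y.1)).symm.trans (by simp [y.2])⟩
      left_inv := fun x => by simp
      right_inv := fun y => by simp }
  invFun e := ⟨Equiv.ofFiberEquiv e, fun x => Equiv.ofFiberEquiv_map e x⟩
  left_inv := fun σ => by
    apply Subtype.ext
    ext x
    rfl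
  right_inv := fun e => by
    funext a
    ext x
    obtain ⟨x, rfl⟩ := x
    rfl

/-- permanent of a rectangular array, zero unless the sizes agree -/
noncomputable def ep {R : Type} [CommRing R] (w : I → J → R) : R :=
  ∑ σ : I ≃ J, ∏ i, w i (σ i)

lemma ep_reindex {R : Type} [CommRing R] {I' J' : Type} [Fintype I'] [DecidableEq I'] [Fintype J']
    [DecidableEq J'] (e : I' ≃ I) (e' : J' ≃ J) (w : I → J → R) :
    ep (fun x y => w (e x) (e' y)) = ep w := by
  unfold ep
  refine Fintype.sum_equiv (Equiv.equivCongr e e') _ _ fun σ => ?_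
  refine Fintype.prod_equiv e _ _ fun i => ?_
  simp

lemma ep_eq_zero {R : Type} [CommRing R] (w : I → J → R) (h : Fintype.card I ≠ Fintype.card J) :
    ep w = 0 := by
  unfold ep
  apply Finset.sum_eq_zero
  intro σ _
  exact absurd (Fintype.card_congr σ) h

/-- decomposition along colourings -/
lemma sum_fib {R : Type} [CommRing R] (f : I → B) (h : J → B) (w : I → J → R) :
    ∑ σ : I ≃ J, (if ∀ i, h (σ i) = f i then ∏ i, w i (σ i) else 0) =
      ∏ b, ep (fun (x : {i // f i = b}) (y : {j // h j = b}) => w x.1 y.1) := by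
  classical
  unfold ep
  rw [Finset.prod_univ_sum, ← Finset.sum_filter]
  rw [Finset.sum_subtype (p := fun σ : I ≃ J => ∀ i, h (σ i) = f i) _ (by simp)]
  rw [Fintype.piFinset_univ]
  refine Fintype.sum_equiv (fibEquiv f h) _ _ fun σ => ?_
  rw [← Equiv.prod_comp (Equiv.sigmaFiberEquiv f), Fintype.prod_sigma]
  rfl

/-- choice of the column sets -/
lemma sum_sets {R K : Type} [CommRing R] [Fintype K] [DecidableEq K] (σ : I ≃ K × J)
    (f : I → K × Bool) (Y : R) :
    ∑ C : K → Finset J, (if ∀ x, ((σ x).1, decide ((σ x).2 ∈ C (σ x).1)) = f x then Y else 0) =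
      if ∀ x, (σ x).1 = (f x).1 then Y else 0 := by
  classical
  by_cases h : ∀ x, (σ x).1 = (f x).1
  · rw [if_pos h]
    have key : ∀ C : K → Finset J, (∀ x, ((σ x).1, decide ((σ x).2 ∈ C (σ x).1)) = f x) ↔
        C = fun b => univ.filter (fun j => (f (σ.symm (b, j))).2 = true) := by
      intro C
      constructor
      · intro hC
        funext b
        ext j
        have h1 := hC (σ.symm (b, j))
        simp only [Equiv.apply_symm_apply] at h1
        simp only [mem_filter, mem_univ, true_and]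
        rw [← h1]
        simp
      · intro hC x
        rw [hC]
        apply Prod.ext
        · exact h x
        · simp
    simp only [key]
    rw [Finset.sum_ite_eq']
    simp
  · rw [if_neg h]
    apply Finset.sum_eq_zero
    intro C _
    rw [if_neg]
    intro hC
    apply h
    intro x
    rw [← hC x]

end Comb

section Kron

variable {ι K : Type} [Fintype ι] [DecidableEq ι] [Fintype K] [DecidableEq K]

/-- permanent of the submatrix with rows `R` and columns `C` -/
noncomputable def GG (M : Matrix ι ι ℂ) (R C : Finset ι) : ℂ :=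
  ep (fun (x : {i // i ∈ R}) (y : {j // j ∈ C}) => M x.1 y.1)

lemma GG_eq_zero (M : Matrix ι ι ℂ) {R C : Finset ι} (h : #R ≠ #C) : GG M R C = 0 := by
  apply ep_eq_zero
  simpa using h

/-- transfer matrix -/
noncomputable def Phi (M : Matrix ι ι ℂ) (R R' : Finset ι) : ℂ :=
  ∑ C : Finset ι, GG M R C * GG M R'ᶜ Cᶜ

lemma Phi_eq_zero (M : Matrix ι ι ℂ) {R R' : Finset ι} (h : #R ≠ #R') : Phi M R R' = 0 := by
  unfold Phi
  apply Finset.sum_eq_zero
  intro C _
  by_cases h1 : #R = #C
  · rw [GG_eq_zero M (R := R'ᶜ) (C := Cᶜ), mul_zero]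
    rw [card_compl, card_compl]
    have h2 := card_le_univ R'
    have h3 := card_le_univ C
    omega
  · rw [GG_eq_zero M h1, zero_mul]

lemma permanent_eq_ep (M : Matrix ι ι ℂ) : M.permanent = ep (fun i j => M i j) := by
  rw [← permanent_transpose, permanent, ep]
  rfl

/-- Laplace expansion -/
lemma Phi_self (M : Matrix ι ι ℂ) (R : Finset ι) : Phi M R R = M.permanent := by
  rw [permanent_eq_ep]
  have h1 : ∀ C : Finset ι, GG M R C * GG M Rᶜ Cᶜ =
      ∑ σ : ι ≃ ι, (if ∀ i, decide (σ i ∈ C) = decide (i ∈ R) then ∏ i, M i (σ i) else 0) := by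
    intro C
    rw [sum_fib (fun i => decide (i ∈ R)) (fun j => decide (j ∈ C)) (fun i j => M i j),
      Fintype.prod_bool]
    congr 1
    · unfold GG
      exact (ep_reindex (Equiv.subtypeEquivRight (fun x => by simp))
        (Equiv.subtypeEquivRight (fun x => by simp))
        (fun (x : {i // i ∈ R}) (y : {j // j ∈ C}) => M x.1 y.1)).symm
    · unfold GG
      exact (ep_reindex (Equiv.subtypeEquivRight (fun x => by simp))
        (Equiv.subtypeEquivRight (fun x => by simp))
        (fun (x : {i // i ∈ Rᶜ}) (y : {j // j ∈ Cᶜ}) => M x.1 y.1)).symm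
  unfold Phi
  rw [Finset.sum_congr rfl (fun C _ => h1 C), Finset.sum_comm]
  unfold ep
  refine Finset.sum_congr rfl fun σ _ => ?_
  have key : ∀ C : Finset ι, (∀ i, decide (σ i ∈ C) = decide (i ∈ R)) ↔
      C = R.map σ.toEmbedding := by
    intro C
    constructor
    · intro hC
      ext j
      have h2 := hC (σ.symm j)
      simp only [Equiv.apply_symm_apply, decide_eq_decide] at h2
      rw [h2]
      simp [Finset.mem_map_equiv]
    · intro hC i
      rw [hC]
      simp
  simp only [key]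
  rw [Finset.sum_ite_eq']
  simp

/-- the colour of a row: target block and kind of the edge -/
def fR (α β : Equiv.Perm K) (R : K → Finset ι) (x : K × ι) : K × Bool :=
  if x.2 ∈ R x.1 then (α x.1, true) else (β x.1, false)

lemma fiber_true (α β : Equiv.Perm K) (R : K → Finset ι) (b : K) (x : K × ι) :
    fR α β R x = (b, true) ↔ x.1 = α.symm b ∧ x.2 ∈ R (α.symm b) := by
  unfold fR
  split_ifs with h
  · constructor
    · intro h1
      have h2 : α x.1 = b := congrArg Prod.fst h1
      rw [← h2]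
      simpa using h
    · rintro ⟨h1, -⟩
      rw [h1]
      simp
  · constructor
    · intro h1
      exact absurd (congrArg Prod.snd h1) (by simp)
    · rintro ⟨h1, h2⟩
      rw [← h1] at h2
      exact absurd h2 h

lemma fiber_false (α β : Equiv.Perm K) (R : K → Finset ι) (b : K) (x : K × ι) :
    fR α β R x = (b, false) ↔ x.1 = β.symm b ∧ x.2 ∈ (R (β.symm b))ᶜ := by
  unfold fR
  split_ifs with h
  · constructor
    · intro h1
      exact absurd (congrArg Prod.snd h1) (by simp)
    · rintro ⟨h1, h2⟩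
      rw [← h1] at h2
      exact absurd h (by simpa using h2)
  · constructor
    · intro h1
      have h2 : β x.1 = b := congrArg Prod.fst h1
      rw [← h2]
      simpa using h
    · rintro ⟨h1, -⟩
      rw [h1]
      simp

/-- a slice of a product -/
def slice (b : K) (A : Finset ι) : {i // i ∈ A} ≃ {x : K × ι // x.1 = b ∧ x.2 ∈ A} where
  toFun i := ⟨(b, i.1), rfl, i.2⟩
  invFun x := ⟨x.1.2, x.2.2⟩
  left_inv := fun i => rfl
  right_inv := fun x => by
    apply Subtype.ext
    apply Prod.ext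
    · exact x.2.1.symm
    · rfl

lemma ep_fiber (M : Matrix ι ι ℂ) (f h : K × ι → K × Bool) (c : K × Bool) (a b : K)
    (A C : Finset ι) (hf : ∀ x, f x = c ↔ x.1 = a ∧ x.2 ∈ A) (hh : ∀ x, h x = c ↔ x.1 = b ∧ x.2 ∈ C) :
    ep (fun (x : {x : K × ι // f x = c}) (y : {y : K × ι // h y = c}) => M x.1.2 y.1.2) =
      GG M A C := by
  unfold GG
  exact (ep_reindex ((slice a A).trans (Equiv.subtypeEquivRight (fun x => (hf x).symm)))
    ((slice b C).trans (Equiv.subtypeEquivRight (fun x => (hh x).symm)))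
    (fun (x : {x : K × ι // f x = c}) (y : {y : K × ι // h y = c}) => M x.1.2 y.1.2)).symm

/-- expansion of the permanent of `(p P_α + q P_β) ⊗ M` -/
theorem kron_expand (p q : ℂ) (α β : Equiv.Perm K) (M : Matrix ι ι ℂ) :
    ep (fun (x y : K × ι) => ((if y.1 = α x.1 then p else 0) + (if y.1 = β x.1 then q else 0)) *
      M x.2 y.2) =
    ∑ R : K → Finset ι, (∏ a, p ^ #(R a) * q ^ #(R a)ᶜ) *
      ∏ b, Phi M (R (α.symm b)) (R (β.symm b)) := by
  -- the sum over the permutations, for a fixed `R`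
  have hR : ∀ R : K → Finset ι, ∑ σ : (K × ι) ≃ (K × ι),
      (if ∀ x, (σ x).1 = (fR α β R x).1 then ∏ x, M x.2 (σ x).2 else 0) =
      ∏ b, Phi M (R (α.symm b)) (R (β.symm b)) := by
    intro R
    have h1 : ∀ σ : (K × ι) ≃ (K × ι),
        (if ∀ x, (σ x).1 = (fR α β R x).1 then ∏ x, M x.2 (σ x).2 else 0) =
        ∑ C : K → Finset ι, (if ∀ x, ((σ x).1, decide ((σ x).2 ∈ C (σ x).1)) = fR α β R x then
          ∏ x, M x.2 (σ x).2 else 0) := fun σ => (sum_sets σ (fR α β R) _).symm
    rw [Finset.sum_congr rfl (fun σ _ => h1 σ), Finset.sum_comm]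
    have h2 : ∀ C : K → Finset ι, ∑ σ : (K × ι) ≃ (K × ι),
        (if ∀ x, ((σ x).1, decide ((σ x).2 ∈ C (σ x).1)) = fR α β R x then
          ∏ x, M x.2 (σ x).2 else 0) =
        ∏ b, (GG M (R (α.symm b)) (C b) * GG M (R (β.symm b))ᶜ (C b)ᶜ) := by
      intro C
      rw [sum_fib (fR α β R) (fun y : K × ι => (y.1, decide (y.2 ∈ C y.1)))
        (fun x y => M x.2 y.2), Fintype.prod_prod_type]
      refine Finset.prod_congr rfl fun b _ => ?_
      rw [Fintype.prod_bool]
      congr 1
      · refine ep_fiber M _ _ _ (α.symm b) b _ _ (fiber_true α β R b) fun x => ?_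
        constructor
        · intro h
          have h3 : x.1 = b := congrArg Prod.fst h
          have h4 := congrArg Prod.snd h
          simp only [decide_eq_true_eq] at h4
          exact ⟨h3, h3 ▸ h4⟩
        · rintro ⟨h3, h4⟩
          rw [h3]
          simp [h4]
      · refine ep_fiber M _ _ _ (β.symm b) b _ _ (fiber_false α β R b) fun x => ?_
        constructor
        · intro h
          have h3 : x.1 = b := congrArg Prod.fst h
          have h4 := congrArg Prod.snd h
          simp only [decide_eq_false_iff_not] at h4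
          exact ⟨h3, by rw [mem_compl]; exact h3 ▸ h4⟩
        · rintro ⟨h3, h4⟩
          rw [mem_compl] at h4
          rw [h3]
          simp [h4]
    rw [Finset.sum_congr rfl (fun C _ => h2 C)]
    unfold Phi
    rw [Finset.prod_univ_sum, Fintype.piFinset_univ]
  -- expansion of the product for a fixed permutation
  have hσ : ∀ σ : (K × ι) ≃ (K × ι),
      ∏ x : K × ι, (((if (σ x).1 = α x.1 then p else 0) + (if (σ x).1 = β x.1 then q else 0)) *
        M x.2 (σ x).2) =
      ∑ R : K → Finset ι, (∏ a, p ^ #(R a) * q ^ #(R a)ᶜ) *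
        (if ∀ x, (σ x).1 = (fR α β R x).1 then ∏ x, M x.2 (σ x).2 else 0) := by
    intro σ
    have h1 : ∀ a, ∏ i, (((if (σ (a, i)).1 = α a then p else 0) +
        (if (σ (a, i)).1 = β a then q else 0)) * M i (σ (a, i)).2) =
        ∑ R : Finset ι, p ^ #R * q ^ #Rᶜ * ∏ i, (if (σ (a, i)).1 = (if i ∈ R then α a else β a) then
          M i (σ (a, i)).2 else 0) := by
      intro a
      have h2 : ∀ i, ((if (σ (a, i)).1 = α a then p else 0) +
          (if (σ (a, i)).1 = β a then q else 0)) * M i (σ (a, i)).2 =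
          p * (if (σ (a, i)).1 = α a then M i (σ (a, i)).2 else 0) +
          q * (if (σ (a, i)).1 = β a then M i (σ (a, i)).2 else 0) := by
        intro i
        split_ifs <;> ring
      rw [Finset.prod_congr rfl (fun i _ => h2 i), Fintype.prod_add]
      refine Finset.sum_congr rfl fun R _ => ?_
      rw [Finset.prod_mul_distrib, Finset.prod_mul_distrib, Finset.prod_const, Finset.prod_const]
      have h3 : ∏ i, (if (σ (a, i)).1 = (if i ∈ R then α a else β a) then
          M i (σ (a, i)).2 else 0) =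
          (∏ i ∈ R, (if (σ (a, i)).1 = α a then M i (σ (a, i)).2 else 0)) *
          ∏ i ∈ Rᶜ, (if (σ (a, i)).1 = β a then M i (σ (a, i)).2 else 0) := by
        rw [← Finset.prod_mul_prod_compl R]
        congr 1
        · refine Finset.prod_congr rfl fun i hi => ?_
          simp only [if_pos hi]
        · refine Finset.prod_congr rfl fun i hi => ?_
          have hi' : i ∉ R := by simpa using hi
          simp only [if_neg hi']
      rw [h3]
      ring
    rw [Fintype.prod_prod_type]
    simp only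
    rw [Finset.prod_congr rfl (fun a _ => h1 a), Finset.prod_univ_sum, Fintype.piFinset_univ]
    refine Finset.sum_congr rfl fun R _ => ?_
    rw [Finset.prod_mul_distrib]
    congr 1
    rw [← Fintype.prod_prod_type (fun x : K × ι =>
      if (σ (x.1, x.2)).1 = (if x.2 ∈ R x.1 then α x.1 else β x.1) then
        M x.2 (σ (x.1, x.2)).2 else 0), Fintype.prod_ite_zero]
    have h4 : ∀ x : K × ι, (fR α β R x).1 = (if x.2 ∈ R x.1 then α x.1 else β x.1) := by
      intro x
      unfold fR
      split_ifs <;> rfl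
    simp only [h4]
  unfold ep
  rw [Finset.sum_congr rfl (fun σ _ => hσ σ), Finset.sum_comm]
  refine Finset.sum_congr rfl fun R _ => ?_
  rw [← Finset.mul_sum, hR R]

/-- closed walks -/
lemma sum_walk {R T : Type} [CommRing R] [Fintype T] [DecidableEq T] (A : Matrix T T R) (n : ℕ) :
    ∀ (B : Matrix T T R), ∑ r : Fin (n + 1) → T, (∏ a : Fin n, A (r a.castSucc) (r a.succ)) *
      B (r (Fin.last n)) (r 0) = (A ^ n * B).trace := by
  induction n with
  | zero =>
    intro B
    rw [Fintype.sum_equiv (Equiv.funUnique (Fin 1) T)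
      (fun r : Fin 1 → T => (∏ a : Fin 0, A (r a.castSucc) (r a.succ)) * B (r (Fin.last 0)) (r 0))
      (fun t => B t t) (fun r => by simp)]
    simp [Matrix.trace]
  | succ n ih =>
    intro B
    rw [pow_succ, Matrix.mul_assoc, ← ih (A * B)]
    rw [← (Fin.snocEquiv (fun _ => T)).sum_comp, Fintype.sum_prod_type, Finset.sum_comm]
    refine Finset.sum_congr rfl fun r _ => ?_
    rw [Matrix.mul_apply, Finset.mul_sum]
    refine Finset.sum_congr rfl fun t _ => ?_
    rw [Fin.prod_univ_castSucc]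
    simp only [Fin.snocEquiv_apply]
    have h1 : ∀ a : Fin n, (Fin.snoc (α := fun _ => T) r t a.castSucc.succ : T) = r a.succ := by
      intro a
      rw [← Fin.castSucc_succ, Fin.snoc_castSucc]
    simp only [Fin.snoc_castSucc, h1, Fin.succ_last, Fin.snoc_last]
    have h2 : (Fin.snoc (α := fun _ => T) r t 0 : T) = r 0 := by
      rw [← Fin.castSucc_zero, Fin.snoc_castSucc]
    rw [h2]
    ring

lemma sum_cycle {R T : Type} [CommRing R] [Fintype T] [DecidableEq T] (A : Matrix T T R) (k : ℕ)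
    [NeZero k] : ∑ r : Fin k → T, ∏ a : Fin k, A (r a) (r (a + 1)) = (A ^ k).trace := by
  obtain ⟨n, rfl⟩ : ∃ n, k = n + 1 := ⟨k - 1, (Nat.succ_pred_eq_of_ne_zero (NeZero.ne k)).symm⟩
  rw [pow_succ, ← sum_walk A n A]
  refine Finset.sum_congr rfl fun r _ => ?_
  rw [Fin.prod_univ_castSucc]
  congr 1
  · refine Finset.prod_congr rfl fun a _ => ?_
    rw [Fin.coeSucc_eq_succ]
  · simp

end Kron

section Sqrt

open scoped MatrixOrder ComplexOrder in
lemma psd_factor {n : Type} [Fintype n] [DecidableEq n] {M : Matrix n n ℂ}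
    (hM : M.PosSemidef) : ∃ B : Matrix n n ℂ, M = Bᴴ * B := by
  obtain ⟨B, hB⟩ := CStarAlgebra.nonneg_iff_eq_star_mul_self.mp hM.nonneg
  exact ⟨B, hB⟩

end Sqrt

section Trace

open scoped ComplexOrder

variable {n : Type} [Fintype n] [DecidableEq n]

lemma trace_pow_eq {A : Matrix n n ℂ} (hA : A.IsHermitian) (k : ℕ) :
    (A ^ k).trace = ∑ i, (hA.eigenvalues i : ℂ) ^ k := by
  conv_lhs => rw [hA.spectral_theorem]
  rw [← map_pow, Unitary.conjStarAlgAut_apply, Matrix.trace_mul_cycle, Unitary.coe_star_mul_self,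
    Matrix.one_mul, Matrix.diagonal_pow, Matrix.trace_diagonal]
  refine Finset.sum_congr rfl fun i _ => ?_
  simp

/-- `(tr P)^k ≤ n^(k-1) tr P^k` for a positive semidefinite matrix -/
lemma trace_pow_le {A : Matrix n n ℂ} (hA : A.PosSemidef) (k : ℕ) :
    A.trace ^ (k + 1) ≤ (Fintype.card n : ℂ) ^ k * (A ^ (k + 1)).trace := by
  have h1 := trace_pow_eq hA.isHermitian (k + 1)
  have h2 := trace_pow_eq hA.isHermitian 1
  rw [pow_one] at h2
  simp only [pow_one] at h2
  rw [h1, h2]
  have h3 : ∀ i ∈ (univ : Finset n), 0 ≤ hA.isHermitian.eigenvalues i :=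
    fun i _ => hA.eigenvalues_nonneg i
  rcases isEmpty_or_nonempty n with hn | hn
  · simp
  have h5 := pow_sum_div_card_le_sum_pow (s := (univ : Finset n))
    (f := hA.isHermitian.eigenvalues) h3 k
  rw [div_le_iff₀ (by positivity)] at h5
  have h6 : ((∑ i, hA.isHermitian.eigenvalues i) ^ (k + 1) : ℝ) ≤
      (Fintype.card n : ℝ) ^ k * ∑ i, hA.isHermitian.eigenvalues i ^ (k + 1) := by
    rw [mul_comm]
    simpa using h5
  exact_mod_cast h6

lemma trace_mul_pow_comm (X Y : Matrix n n ℂ) (k : ℕ) :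
    ((X * Y) ^ (k + 1)).trace = ((Y * X) ^ (k + 1)).trace := by
  have h : ∀ k : ℕ, (X * Y) ^ (k + 1) = X * (Y * X) ^ k * Y := by
    intro k
    induction k with
    | zero => simp
    | succ k ih =>
      rw [pow_succ, ih, pow_succ (Y * X) k]
      simp only [Matrix.mul_assoc]
  rw [h k, Matrix.trace_mul_comm, pow_succ', Matrix.mul_assoc]

/-- product of two positive semidefinite matrices -/
lemma trace_mul_pow_le {G H : Matrix n n ℂ} (hG : G.PosSemidef) (hH : H.PosSemidef) (k : ℕ) :
    (G * H).trace ^ (k + 1) ≤ (Fintype.card n : ℂ) ^ k * ((G * H) ^ (k + 1)).trace := by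
  obtain ⟨B, rfl⟩ := psd_factor hG
  have h1 := trace_pow_le (hH.mul_mul_conjTranspose_same B) k
  have h2 := trace_mul_pow_comm Bᴴ (B * H) k
  have h3 : (Bᴴ * B * H).trace = (B * H * Bᴴ).trace := by
    rw [Matrix.mul_assoc, Matrix.trace_mul_comm]
  rw [← Matrix.mul_assoc] at h2
  rw [h2, h3]
  exact h1

end Trace

section Blocks

variable {T L R : Type} [Fintype T] [DecidableEq T] [Fintype L] [DecidableEq L] [CommRing R]

lemma trace_blocks (f : T → L) (A : Matrix T T R) (hA : ∀ x y, f x ≠ f y → A x y = 0) (k : ℕ) :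
    (A ^ k).trace = ∑ l, ((A.submatrix (Subtype.val : {x // f x = l} → T) Subtype.val) ^ k).trace := by
  let e := Equiv.sigmaFiberEquiv f
  have h1 : A.submatrix e e = Matrix.blockDiagonal'
      (fun l => A.submatrix (Subtype.val : {x // f x = l} → T) Subtype.val) := by
    ext ⟨l, x⟩ ⟨l', y⟩
    by_cases h : l = l'
    · subst h
      rw [Matrix.blockDiagonal'_apply_eq]
      rfl
    · rw [Matrix.blockDiagonal'_apply_ne _ _ _ h]
      apply hA
      change f x.1 ≠ f y.1
      rw [x.2, y.2]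
      exact h
  have h2 : ∀ k : ℕ, (A.submatrix e e) ^ k = (A ^ k).submatrix e e := by
    intro k
    induction k with
    | zero => rw [pow_zero, pow_zero]; exact (Matrix.submatrix_one_equiv e).symm
    | succ k ih => rw [pow_succ, ih, pow_succ, Matrix.submatrix_mul_equiv]
  have h3 : (A ^ k).trace = ((A ^ k).submatrix e e).trace := by
    unfold Matrix.trace
    exact (e.sum_comp (fun x => (A ^ k).diag x)).symm
  rw [h3, ← h2, h1, ← Matrix.blockDiagonal'_pow, Matrix.trace_blockDiagonal']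
  rfl

end Blocks

section PSD

open scoped ComplexOrder

variable {ι : Type} [Fintype ι] [DecidableEq ι]

/-- the sets of size `l` -/
abbrev Sl (ι : Type) [Fintype ι] [DecidableEq ι] (l : ℕ) := {R : Finset ι // #R = l}

/-- permanental minors of size `l` -/
noncomputable def Gl (M : Matrix ι ι ℂ) (l : ℕ) : Matrix (Sl ι l) (Sl ι l) ℂ :=
  Matrix.of fun R C => GG M R.1 C.1

/-- complementary permanental minors -/
noncomputable def Hl (M : Matrix ι ι ℂ) (l : ℕ) : Matrix (Sl ι l) (Sl ι l) ℂ :=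
  Matrix.of fun R C => GG M (R.1)ᶜ (C.1)ᶜ

/-- the factor -/
noncomputable def Pl (B : Matrix ι ι ℂ) (l : ℕ) : Matrix (Fin l → ι) (Sl ι l) ℂ :=
  Matrix.of fun c R => ∑ τ : Fin l ≃ {x // x ∈ R.1}, ∏ t, B (c t) (τ t).1

lemma Pl_gram (B : Matrix ι ι ℂ) (l : ℕ) :
    (Pl B l)ᴴ * Pl B l = (l.factorial : ℂ) • Gl (Bᴴ * B) l := by
  ext R C
  rw [Matrix.mul_apply, Matrix.smul_apply]
  simp only [Matrix.conjTranspose_apply, Pl, Gl, Matrix.of_apply]
  have h1 : ∀ c : Fin l → ι, star (∑ τ : Fin l ≃ {x // x ∈ R.1}, ∏ t, B (c t) (τ t).1) *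
      (∑ τ : Fin l ≃ {x // x ∈ C.1}, ∏ t, B (c t) (τ t).1) =
      ∑ τ : Fin l ≃ {x // x ∈ R.1}, ∑ τ' : Fin l ≃ {x // x ∈ C.1},
        ∏ t, star (B (c t) (τ t).1) * B (c t) (τ' t).1 := by
    intro c
    rw [star_sum, Finset.sum_mul_sum]
    refine Finset.sum_congr rfl fun τ _ => Finset.sum_congr rfl fun τ' _ => ?_
    rw [star_prod, Finset.prod_mul_distrib]
  rw [Finset.sum_congr rfl (fun c _ => h1 c), Finset.sum_comm]
  have h2 : ∀ τ : Fin l ≃ {x // x ∈ R.1},
      ∑ c : Fin l → ι, ∑ τ' : Fin l ≃ {x // x ∈ C.1},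
        ∏ t, star (B (c t) (τ t).1) * B (c t) (τ' t).1 = GG (Bᴴ * B) R.1 C.1 := by
    intro τ
    rw [Finset.sum_comm]
    have h3 : ∀ τ' : Fin l ≃ {x // x ∈ C.1},
        ∑ c : Fin l → ι, ∏ t, star (B (c t) (τ t).1) * B (c t) (τ' t).1 =
        ∏ t, (Bᴴ * B) (τ t).1 (τ' t).1 := by
      intro τ'
      simp only [Matrix.mul_apply, Matrix.conjTranspose_apply]
      rw [Finset.prod_univ_sum, Fintype.piFinset_univ]
    rw [Finset.sum_congr rfl (fun τ' _ => h3 τ')]
    unfold GG ep
    refine Fintype.sum_equiv (Equiv.equivCongr τ (Equiv.refl _)) _ _ fun τ' => ?_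
    refine Fintype.prod_equiv τ _ _ fun t => ?_
    simp
  rw [Finset.sum_congr rfl (fun τ _ => h2 τ), Finset.sum_const, Finset.card_univ]
  have h4 : Fintype.card (Fin l ≃ {x // x ∈ R.1}) = l.factorial := by
    have h5 : Fintype.card {x // x ∈ R.1} = l := by
      rw [Fintype.card_coe]
      exact R.2
    rw [Fintype.card_equiv (Fintype.equivOfCardEq (by rw [h5, Fintype.card_fin])), Fintype.card_fin]
  rw [h4, nsmul_eq_mul, smul_eq_mul]

lemma Gl_posSemidef {M : Matrix ι ι ℂ} (hM : M.PosSemidef) (l : ℕ) : (Gl M l).PosSemidef := by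
  obtain ⟨B, rfl⟩ := psd_factor hM
  have h1 : Gl (Bᴴ * B) l = ((l.factorial : ℂ)⁻¹) • ((Pl B l)ᴴ * Pl B l) := by
    rw [Pl_gram, smul_smul, inv_mul_cancel₀, one_smul]
    exact_mod_cast l.factorial_ne_zero
  rw [h1]
  apply Matrix.PosSemidef.smul (Matrix.posSemidef_conjTranspose_mul_self _)
  have h2 : ((l.factorial : ℂ)⁻¹) = (((l.factorial : ℝ)⁻¹ : ℝ) : ℂ) := by push_cast; rfl
  rw [h2]
  exact Complex.zero_le_real.2 (by positivity)

lemma Hl_posSemidef {M : Matrix ι ι ℂ} (hM : M.PosSemidef) (l : ℕ) : (Hl M l).PosSemidef := by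
  have h1 : Hl M l = (Gl M (Fintype.card ι - l)).submatrix
      (fun R : Sl ι l => (⟨(R.1)ᶜ, by rw [card_compl, R.2]⟩ : Sl ι (Fintype.card ι - l)))
      (fun R : Sl ι l => (⟨(R.1)ᶜ, by rw [card_compl, R.2]⟩ : Sl ι (Fintype.card ι - l))) := by
    ext R C
    rfl
  rw [h1]
  exact (Gl_posSemidef hM _).submatrix _

lemma Phi_block (M : Matrix ι ι ℂ) (l : ℕ) :
    (Matrix.of (fun R R' : Finset ι => Phi M R R')).submatrix
      (Subtype.val : Sl ι l → Finset ι) Subtype.val = Gl M l * (Hl M l)ᵀ := by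
  ext R R'
  rw [Matrix.mul_apply]
  simp only [Matrix.submatrix_apply, Matrix.of_apply, Matrix.transpose_apply, Gl, Hl]
  unfold Phi
  rw [← Finset.sum_filter_add_sum_filter_not univ (fun C : Finset ι => #C = l)]
  have h1 : ∑ C ∈ univ.filter (fun C : Finset ι => ¬ #C = l), GG M R.1 C * GG M (R'.1)ᶜ Cᶜ = 0 := by
    apply Finset.sum_eq_zero
    intro C hC
    have h2 : ¬ #C = l := (mem_filter.1 hC).2
    rw [GG_eq_zero M (R := R.1) (C := C), zero_mul]
    rw [R.2]
    exact fun h => h2 h.symm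
  rw [h1, add_zero]
  exact Finset.sum_subtype (p := fun C : Finset ι => #C = l) _ (by simp)
    (fun C => GG M R.1 C * GG M (R'.1)ᶜ Cᶜ)

lemma card_Sl (l : ℕ) : Fintype.card (Sl ι l) = (Fintype.card ι).choose l := by
  rw [Fintype.card_subtype]
  have h1 : (univ.filter fun R : Finset ι => #R = l) = powersetCard l univ := by
    ext R
    simp [mem_powersetCard]
  rw [h1, card_powersetCard, Finset.card_univ]

/-- the trace of one block -/
lemma trace_block (M : Matrix ι ι ℂ) (l : ℕ) :
    (Gl M l * (Hl M l)ᵀ).trace = ((Fintype.card ι).choose l : ℂ) * M.permanent := by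
  rw [← Phi_block]
  simp only [Matrix.trace, Matrix.diag_apply, Matrix.submatrix_apply, Matrix.of_apply, Phi_self]
  rw [Finset.sum_const, Finset.card_univ, card_Sl, nsmul_eq_mul]

lemma block_bound {M : Matrix ι ι ℂ} (hM : M.PosSemidef) {l : ℕ} (hl : l ≤ Fintype.card ι) (k : ℕ) :
    ((Fintype.card ι).choose l : ℂ) * M.permanent ^ (k + 1) ≤
      ((Gl M l * (Hl M l)ᵀ) ^ (k + 1)).trace := by
  have h1 := trace_mul_pow_le (Gl_posSemidef hM l) (Hl_posSemidef hM l).transpose k
  rw [trace_block, card_Sl] at h1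
  have h2 : (0 : ℝ) < ((Fintype.card ι).choose l : ℝ) := by exact_mod_cast Nat.choose_pos hl
  have h3 : (0 : ℂ) ≤ (((Fintype.card ι).choose l : ℂ) ^ k)⁻¹ := by
    have h6 : (((Fintype.card ι).choose l : ℂ) ^ k)⁻¹ =
        ((((Fintype.card ι).choose l : ℝ) ^ k)⁻¹ : ℝ) := by push_cast; rfl
    rw [h6]
    exact Complex.zero_le_real.2 (by positivity)
  have h4 : (((Fintype.card ι).choose l : ℂ) ^ k) ≠ 0 := by
    apply pow_ne_zero
    exact_mod_cast h2.ne'
  have h5 := mul_le_mul_of_nonneg_left h1 h3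
  rw [← mul_assoc, inv_mul_cancel₀ h4, one_mul] at h5
  refine le_trans (le_of_eq ?_) h5
  rw [mul_pow, pow_succ ((Fintype.card ι).choose l : ℂ) k]
  field_simp

end PSD

section Final

open scoped ComplexOrder

variable {ι : Type} [Fintype ι] [DecidableEq ι]

/-- the permanent of the cycle as a trace -/
theorem cycle_trace {k : ℕ} [NeZero k] (p q : ℂ) (M : Matrix ι ι ℂ) :
    ep (fun (x y : Fin k × ι) => ((if x.1 + y.1 = 0 then p else 0) +
      (if x.1 + y.1 = 1 then q else 0)) * M x.2 y.2) =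
    ∑ l ∈ range (Fintype.card ι + 1), (p ^ l * q ^ (Fintype.card ι - l)) ^ k *
      ((Gl M l * (Hl M l)ᵀ) ^ k).trace := by
  have h1 : (fun (x y : Fin k × ι) => ((if x.1 + y.1 = 0 then p else 0) +
      (if x.1 + y.1 = 1 then q else 0)) * M x.2 y.2) =
      (fun (x y : Fin k × ι) => ((if y.1 = (Equiv.neg (Fin k)) x.1 then p else 0) +
        (if y.1 = (Equiv.subLeft (1 : Fin k)) x.1 then q else 0)) * M x.2 y.2) := by
    funext x y
    have h2 : (x.1 + y.1 = 0) ↔ (y.1 = (Equiv.neg (Fin k)) x.1) := by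
      rw [Equiv.neg_apply, add_comm, eq_neg_iff_add_eq_zero]
    have h3 : (x.1 + y.1 = 1) ↔ (y.1 = (Equiv.subLeft (1 : Fin k)) x.1) := by
      rw [Equiv.subLeft_apply, eq_sub_iff_add_eq, add_comm]
    simp only [h2, h3]
  rw [h1, kron_expand]
  -- the weighted transfer matrix
  set A : Matrix (Finset ι) (Finset ι) ℂ :=
    Matrix.of fun R R' => p ^ #R * q ^ #Rᶜ * Phi M R R' with hA
  have h4 : ∀ R : Fin k → Finset ι, (∏ a, p ^ #(R a) * q ^ #(R a)ᶜ) *
      ∏ b, Phi M (R ((Equiv.neg (Fin k)).symm b)) (R ((Equiv.subLeft (1 : Fin k)).symm b)) =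
      ∏ a, A (R a) (R (a + 1)) := by
    intro R
    have h5 : ∏ b, Phi M (R ((Equiv.neg (Fin k)).symm b))
        (R ((Equiv.subLeft (1 : Fin k)).symm b)) = ∏ a, Phi M (R a) (R (a + 1)) := by
      refine Fintype.prod_equiv (Equiv.neg (Fin k)) _ _ fun b => ?_
      have h6 : (Equiv.neg (Fin k)).symm b = -b := rfl
      have h7 : (Equiv.subLeft (1 : Fin k)).symm b = -b + 1 := rfl
      rw [h6, h7, Equiv.neg_apply]
    rw [h5, ← Finset.prod_mul_distrib]
    rfl
  rw [Finset.sum_congr rfl (fun R _ => h4 R), sum_cycle]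
  rw [trace_blocks (fun R : Finset ι => (⟨#R, Nat.lt_succ_of_le (card_le_univ R)⟩ :
    Fin (Fintype.card ι + 1))) A]
  · rw [Finset.sum_range]
    refine Finset.sum_congr rfl fun l _ => ?_
    have hl : (l : ℕ) ≤ Fintype.card ι := Nat.lt_succ_iff.1 l.2
    have h8 : ((Gl M l * (Hl M l)ᵀ) ^ k).trace =
        (((Matrix.of (fun R R' : Finset ι => Phi M R R')).submatrix
          (Subtype.val : {R : Finset ι // (⟨#R, Nat.lt_succ_of_le (card_le_univ R)⟩ :
            Fin (Fintype.card ι + 1)) = l} → Finset ι) Subtype.val) ^ k).trace := by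
      rw [← Phi_block]
      let e : Sl ι l ≃ {R : Finset ι // (⟨#R, Nat.lt_succ_of_le (card_le_univ R)⟩ :
            Fin (Fintype.card ι + 1)) = l} :=
        Equiv.subtypeEquivRight fun R => by
          constructor
          · intro h
            exact Fin.ext h
          · intro h
            exact congrArg Fin.val h
      have h9 : ∀ (X : Matrix _ _ ℂ), (X.submatrix e e).trace = X.trace := by
        intro X
        unfold Matrix.trace
        exact e.sum_comp (fun x => X.diag x)
      have h10 : ∀ (X : Matrix _ _ ℂ) (k : ℕ), (X.submatrix e e) ^ k = (X ^ k).submatrix e e := by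
        intro X k
        induction k with
        | zero => rw [pow_zero, pow_zero]; exact (Matrix.submatrix_one_equiv e).symm
        | succ k ih => rw [pow_succ, ih, pow_succ, Matrix.submatrix_mul_equiv]
      rw [← h9, ← h10]
      rfl
    rw [h8]
    have h11 : A.submatrix (Subtype.val : {R : Finset ι //
          (⟨#R, Nat.lt_succ_of_le (card_le_univ R)⟩ : Fin (Fintype.card ι + 1)) = l} → Finset ι)
          (Subtype.val : {R : Finset ι //
          (⟨#R, Nat.lt_succ_of_le (card_le_univ R)⟩ : Fin (Fintype.card ι + 1)) = l} → Finset ι) =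
        (p ^ (l : ℕ) * q ^ (Fintype.card ι - l)) •
        (Matrix.of (fun R R' : Finset ι => Phi M R R')).submatrix
          (Subtype.val : {R : Finset ι // (⟨#R, Nat.lt_succ_of_le (card_le_univ R)⟩ :
            Fin (Fintype.card ι + 1)) = l} → Finset ι) Subtype.val := by
      ext R R'
      have h12 : #R.1 = l := congrArg Fin.val R.2
      simp only [hA, Matrix.submatrix_apply, Matrix.smul_apply, Matrix.of_apply, smul_eq_mul,
        card_compl, h12]
    rw [h11, smul_pow, Matrix.trace_smul, smul_eq_mul]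
  · intro R R' h
    have h13 : #R ≠ #R' := fun h14 => h (Fin.ext h14)
    simp only [hA, Matrix.of_apply]
    rw [Phi_eq_zero M h13, mul_zero]

/-- ENDPOINT: the `2k`-cycle -/
theorem cycle_bound {k m : ℕ} (hk : 2 ≤ k) [NeZero k] (p q : ℝ) (hp : 0 ≤ p) (hq : 0 ≤ q)
    (M : Matrix (Fin m) (Fin m) ℂ) (hM : M.PosSemidef) :
    (((p ^ k + q ^ k) ^ m : ℝ) : ℂ) * M.permanent ^ k ≤
      (Matrix.kroneckerMap (· * ·) (Matrix.of (fun a b : Fin k =>
        (((if a + b = 0 then p else 0) + (if a + b = 1 then q else 0) : ℝ) : ℂ))) M).permanent := by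
  have h1 : (Matrix.kroneckerMap (· * ·) (Matrix.of (fun a b : Fin k =>
        (((if a + b = 0 then p else 0) + (if a + b = 1 then q else 0) : ℝ) : ℂ))) M).permanent =
      ep (fun (x y : Fin k × Fin m) => ((if x.1 + y.1 = 0 then (p : ℂ) else 0) +
        (if x.1 + y.1 = 1 then (q : ℂ) else 0)) * M x.2 y.2) := by
    rw [permanent_eq_ep]
    congr 1
    funext x y
    simp only [Matrix.kroneckerMap_apply, Matrix.of_apply, Complex.ofReal_add,
      apply_ite Complex.ofReal, Complex.ofReal_zero]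
  rw [h1, cycle_trace]
  have h2 : (((p ^ k + q ^ k) ^ m : ℝ) : ℂ) * M.permanent ^ k =
      ∑ l ∈ range (Fintype.card (Fin m) + 1),
        ((p : ℂ) ^ l * (q : ℂ) ^ (Fintype.card (Fin m) - l)) ^ k *
          (((Fintype.card (Fin m)).choose l : ℂ) * M.permanent ^ k) := by
    rw [Fintype.card_fin]
    push_cast
    rw [add_pow, Finset.sum_mul]
    refine Finset.sum_congr rfl fun l _ => ?_
    rw [mul_pow, ← pow_mul, ← pow_mul, ← pow_mul, ← pow_mul, mul_comm k l, mul_comm k (m - l)]
    ring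
  rw [h2]
  refine Finset.sum_le_sum fun l hl => ?_
  have hl' : l ≤ Fintype.card (Fin m) := Nat.lt_succ_iff.1 (mem_range.1 hl)
  obtain ⟨k', rfl⟩ : ∃ k', k = k' + 1 := ⟨k - 1, by omega⟩
  apply mul_le_mul_of_nonneg_left (block_bound hM hl' k')
  have h3 : ((p : ℂ) ^ l * (q : ℂ) ^ (Fintype.card (Fin m) - l)) ^ (k' + 1) =
      (((p ^ l * q ^ (Fintype.card (Fin m) - l)) ^ (k' + 1) : ℝ) : ℂ) := by
    push_cast
    rfl
  rw [h3]
  exact Complex.zero_le_real.2 (by positivity)

end Final

end Pool.Agent.Work.MP_8d2b2d_co.RP
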