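/-!
# The computable evaluator (definitions)

Monomials are coded by a natural number in base 16: digits 0,1,2 = free multiplications at the
left sites 0,1,2; digits 3,4,5 = derivatives at the left sites; digits 6,..,11 the same for the
right vector. A sparse list is a list of (code, coefficient).
-/

namespace Pool.Agent.Work.MP_8d2b2d_co.RP

/-- `i`-th digit -/
def dg (i k : Nat) : Nat := Nat.mod (Nat.div k (Nat.pow 16 i)) 16

/-- arithmetic of the coefficients -/
structure Eng (R M : Type) where
  add : M → M → M
  kmul : R → M → M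
  nmul : Nat → M → M

section

variable {R M : Type}

/-- auxiliary function for the merge -/
def mergeAux (add : M → M → M) (x : Nat × M) (f : List (Nat × M) → List (Nat × M)) :
    List (Nat × M) → List (Nat × M)
  | [] => x :: f []
  | y :: q => cond (Nat.beq x.1 y.1) ((x.1, add x.2 y.2) :: f q)
      (cond (Nat.ble x.1 y.1) (x :: f (y :: q)) (y :: mergeAux add x f q))

/-- merge of two sorted sparse lists -/
def mergeL (add : M → M → M) : List (Nat × M) → List (Nat × M) → List (Nat × M)
  | [] => fun q => q
  | x :: p => mergeAux add x (mergeL add p)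

/-- the terms whose code satisfies `p` -/
def filt (p : Nat → Bool) : List (Nat × M) → List (Nat × M)
  | [] => []
  | x :: l => cond (p x.1) (x :: filt p l) (filt p l)

/-- contraction with the derivative -/
def imgD (O : Eng R M) (s t : Nat) (kc : R) : List (Nat × M) → List (Nat × M)
  | [] => []
  | x :: l => (Nat.add (Nat.sub x.1 (Nat.pow 16 s)) (Nat.pow 16 t), O.kmul kc x.2) ::
      imgD O s t kc l

/-- contraction with a multiplication of the other side -/
def imgA (O : Eng R M) (s a : Nat) (kc : R) : List (Nat × M) → List (Nat × M)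
  | [] => []
  | x :: l => cond (Nat.beq (dg a x.1) 0) (imgA O s a kc l)
      ((Nat.sub (Nat.sub x.1 (Nat.pow 16 s)) (Nat.pow 16 a),
        O.nmul (dg a x.1) (O.kmul kc x.2)) :: imgA O s a kc l)

/-- the code can be rewritten -/
def actv (s d : Nat) (k : Nat) : Bool :=
  and (Nat.ble 1 (dg s k)) (and (Nat.ble (dg d k) 14)
    (and (Nat.ble (dg (Nat.add d 1) k) 14) (Nat.ble (dg (Nat.add d 2) k) 14)))

/-- the images of a row of the coupling matrix -/
def imgs (O : Eng R M) (s d a : Nat) (l : List (Nat × M)) :
    List (Nat × R) → List (Nat × M) → List (Nat × M)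
  | [], acc => acc
  | jk :: row, acc => imgs O s d a l row (mergeL O.add
      (mergeL O.add acc (imgD O s (Nat.add d jk.1) jk.2 l)) (imgA O s (Nat.add a jk.1) jk.2 l))

/-- one rewriting step: the multiplication with digit `s` is moved to the other side, whose
derivatives have the digits `d, d+1, d+2` and whose multiplications the digits `a, a+1, a+2` -/
def step (O : Eng R M) (s d a : Nat) (row : List (Nat × R)) (l : List (Nat × M)) :
    List (Nat × M) :=
  imgs O s d a (filt (actv s d) l) row (filt (fun k => not (actv s d k)) l)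

/-- a program: `(false, i)` = move the multiplication `i` of the left vector, `(true, i)` the
same for the right vector -/
def run (O : Eng R M) (K : Nat → List (Nat × R)) : List (Bool × Nat) → List (Nat × M) →
    List (Nat × M)
  | [], l => l
  | c :: prog, l => run O K prog (cond c.1 (step O (Nat.add 6 c.2) 3 0 (K c.2) l)
      (step O c.2 9 6 (K c.2) l))

/-- insertion into a sorted sparse list -/
def ins (add : M → M → M) (k : Nat) (c : M) : List (Nat × M) → List (Nat × M)
  | [] => [(k, c)]
  | y :: l => cond (Nat.beq k y.1) ((y.1, add y.2 c) :: l)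
      (cond (Nat.ble k y.1) ((k, c) :: y :: l) (y :: ins add k c l))

/-- all the terms, with codes changed by `cf`, are inserted -/
def insAll (add : M → M → M) (cf : Nat → Nat) : List (Nat × M) → List (Nat × M) →
    List (Nat × M)
  | [], acc => acc
  | x :: l, acc => insAll add cf l (ins add (cf x.1) x.2 acc)

end

/-- code of a word: derivatives at the bras 0,1,2 and at the kets 0,1,2 -/
def wcode (a b c a' b' c' : Nat) : Nat :=
  Nat.add (Nat.mul a (Nat.pow 16 3)) (Nat.add (Nat.mul b (Nat.pow 16 4))
    (Nat.add (Nat.mul c (Nat.pow 16 5)) (Nat.add (Nat.mul a' (Nat.pow 16 9))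
      (Nat.add (Nat.mul b' (Nat.pow 16 10)) (Nat.mul c' (Nat.pow 16 11))))))

/-- minimum of two numbers -/
def nmin (a b : Nat) : Nat := cond (Nat.ble a b) a b

/-- smallest code of a word modulo the six symmetries -/
def canW (a b c a' b' c' : Nat) : Nat :=
  nmin (nmin (wcode a b c a' b' c') (wcode b c a c' a' b'))
    (nmin (nmin (wcode c a b b' c' a') (wcode a' b' c' a b c))
      (nmin (wcode b' c' a' c a b) (wcode c' a' b' b c a)))

/-- the code has no multiplications -/
def isW (k : Nat) : Bool :=
  and (and (Nat.beq (dg 0 k) 0) (and (Nat.beq (dg 1 k) 0) (Nat.beq (dg 2 k) 0)))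
    (and (Nat.beq (dg 6 k) 0) (and (Nat.beq (dg 7 k) 0) (Nat.beq (dg 8 k) 0)))

/-- canonical code, codes in bra-ket notation -/
def cfM (k : Nat) : Nat :=
  cond (isW k) (canW (dg 3 k) (dg 4 k) (dg 5 k) (dg 9 k) (dg 10 k) (dg 11 k)) k

/-- canonical code, codes in left-right notation (site 1 is a left bra) -/
def cfG (k : Nat) : Nat :=
  cond (isW k) (canW (dg 9 k) (dg 4 k) (dg 11 k) (dg 3 k) (dg 10 k) (dg 5 k)) k

end Pool.Agent.Work.MP_8d2b2d_co.RP
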