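import Pool.Agent.Work.MP_8d2b2d_co.RP.Eng

/-!
# The certificate checker (definitions)
-/

namespace Pool.Agent.Work.MP_8d2b2d_co.RP

/-- arithmetic of the parameter polynomials with nonnegative coefficients -/
structure Ar (R : Type) where
  add : R → R → R
  mul : R → R → R
  nc : Nat → R

section

variable {R : Type} (A : Ar R) (x : R)

/-- signed numbers are pairs (positive part, negative part) -/
def sadd (a b : R × R) : R × R := (A.add a.1 b.1, A.add a.2 b.2)

def smulS (a b : R × R) : R × R :=
  (A.add (A.mul a.1 b.1) (A.mul a.2 b.2), A.add (A.mul a.1 b.2) (A.mul a.2 b.1))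

def kmulS (k : R) (a : R × R) : R × R := (A.mul k a.1, A.mul k a.2)

def nmulS (n : Nat) (a : R × R) : R × R := kmulS A (A.nc n) a

/-- the arithmetic of the evaluator -/
def engA : Eng R (R × R) := ⟨sadd A, kmulS A, nmulS A⟩

def sint : Int → R × R
  | Int.ofNat n => (A.nc n, A.nc 0)
  | Int.negSucc n => (A.nc 0, A.nc (Nat.succ n))

/-- integer polynomial in the parameter -/
def spoly : List Int → R × R
  | [] => (A.nc 0, A.nc 0)
  | a :: p => sadd A (sint A a) (kmulS A x (spoly p))

/-- polynomial with natural coefficients in the parameter -/
def npoly : List Nat → R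
  | [] => A.nc 0
  | a :: p => A.add (A.nc a) (A.mul x (npoly p))

/-- sparse list with integer polynomial coefficients -/
def slist : List (Nat × List Int) → List (Nat × (R × R))
  | [] => []
  | y :: l => (y.1, spoly A x y.2) :: slist l

/-- coupling matrix -/
def krow : List (Nat × List Nat) → List (Nat × R)
  | [] => []
  | y :: l => (y.1, npoly A x y.2) :: krow l

/-- change of sign -/
def neglist : List (Nat × (R × R)) → List (Nat × (R × R))
  | [] => []
  | y :: l => (y.1, (y.2.2, y.2.1)) :: neglist l

/-- multiplication of a sparse list by a signed number -/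
def scaleL (c : R × R) : List (Nat × (R × R)) → List (Nat × (R × R))
  | [] => []
  | y :: l => (y.1, smulS A c y.2) :: scaleL c l

/-- linear combination of sparse lists -/
def linM : List (R × R) → List (List (Nat × (R × R))) → List (Nat × (R × R))
  | [], _ => []
  | _ :: _, [] => []
  | c :: cs, m :: ms => mergeL (sadd A) (scaleL A c m) (linM cs ms)

/-- tensor product of a monomial and a sparse list -/
def shiftL (k : Nat) (c : R × R) : List (Nat × (R × R)) → List (Nat × (R × R))
  | [] => []
  | y :: l => (Nat.add k (Nat.mul (Nat.pow 16 6) y.1), smulS A c y.2) :: shiftL k c l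

/-- tensor products of the monomials of a sparse list with a sparse list -/
def tensL (w : List (Nat × (R × R))) : List (Nat × (R × R)) → List (List (Nat × (R × R)))
  | [] => []
  | y :: l => shiftL A y.1 y.2 w :: tensL w l

/-- all the tensor products of the quadratic form with the half matrix `H` -/
def quadL : List (List (R × R)) → List (List (Nat × (R × R))) → List (List (Nat × (R × R)))
  | [], _ => []
  | _ :: _, [] => []
  | h :: H, m :: ms => List.append (tensL A (linM A h (m :: ms)) m) (quadL H ms)

/-- pairwise merge -/
def pairUp (add : R × R → R × R → R × R) : List (List (Nat × (R × R))) →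
    List (List (Nat × (R × R)))
  | a :: b :: ls => mergeL add a b :: pairUp add ls
  | ls => ls

/-- concatenation -/
def flat : List (List (Nat × (R × R))) → List (Nat × (R × R))
  | [] => []
  | a :: ls => List.append a (flat ls)

/-- merge of many lists -/
def mergeAll (add : R × R → R × R → R × R) : Nat → List (List (Nat × (R × R))) →
    List (Nat × (R × R))
  | 0, ls => flat ls
  | n + 1, ls => mergeAll add n (pairUp add ls)

end

/-- rows of integers -/
def addRow : List Int → List Int → List Int
  | [], q => q
  | a :: p, [] => a :: p
  | a :: p, b :: q => Int.add a b :: addRow p q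

def mulRow (c : Int) : List Int → List Int
  | [] => []
  | a :: p => Int.mul c a :: mulRow c p

/-- half matrices: rows `j ≥ i`; an off-diagonal entry counts both orders -/
def addH : List (List Int) → List (List Int) → List (List Int)
  | [], q => q
  | a :: p, [] => a :: p
  | a :: p, b :: q => addRow a b :: addH p q

def isZ : Int → Bool
  | Int.ofNat n => Nat.beq n 0
  | Int.negSucc _ => false

/-- half matrix of `d * (∑ c_i m_i)^2` -/
def outer (d : Nat) : List Int → List (List Int)
  | [] => []
  | a :: cs => cond (isZ a) [] (mulRow (Int.mul (Int.ofNat d) a) (a :: mulRow 2 cs)) ::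
      outer d cs

/-- absolute value -/
def iabs : Int → Nat
  | Int.ofNat n => n
  | Int.negSucc n => Nat.succ n

def sumAbs : List Int → Nat
  | [] => 0
  | a :: p => Nat.add (iabs a) (sumAbs p)

/-- adds the absolute values to the diagonal -/
def addDiag : List Int → List (List Int) → List (List Int)
  | [], H => H
  | a :: p, [] => [Int.ofNat (iabs a)] :: addDiag p []
  | a :: p, h :: H => addRow [Int.ofNat (iabs a)] h :: addDiag p H

/-- half matrix of a diagonally dominant form: `(e, row)`: `e` is the excess of the diagonal
entry, `row` the off-diagonal entries -/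
def ddH : List (Nat × List Int) → List (List Int)
  | [] => []
  | y :: l => (Int.ofNat (Nat.add y.1 (sumAbs y.2)) :: mulRow 2 y.2) :: addDiag y.2 (ddH l)

/-- a block of the certificate: weight, squares, diagonally dominant part -/
structure Blk where
  C : List Nat
  sq : List (Nat × List Int)
  dd : List (Nat × List Int)

def sumSq : List (Nat × List Int) → List (List Int) → List (List Int)
  | [], H => H
  | y :: l, H => addH (outer y.1 y.2) (sumSq l H)

def blkH (b : Blk) : List (List Int) := sumSq b.sq (ddH b.dd)

section

variable {R : Type} (A : Ar R) (x : R)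

def cRow (c : R) : List Int → List (R × R)
  | [] => []
  | a :: p => kmulS A c (sint A a) :: cRow c p

def cMat (c : R) : List (List Int) → List (List (R × R))
  | [] => []
  | h :: H => cRow A c h :: cMat c H

def addRowM : List (R × R) → List (R × R) → List (R × R)
  | [], q => q
  | a :: p, [] => a :: p
  | a :: p, b :: q => sadd A a b :: addRowM p q

def addHM : List (List (R × R)) → List (List (R × R)) → List (List (R × R))
  | [], q => q
  | a :: p, [] => a :: p
  | a :: p, b :: q => addRowM A a b :: addHM p q

def totH : List Blk → List (List (R × R))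
  | [] => []
  | b :: l => addHM A (cMat A (npoly A x b.C) (blkH b)) (totH l)

def slists : List (List (Nat × List Int)) → List (List (Nat × (R × R)))
  | [] => []
  | m :: ms => slist A x m :: slists ms

end

/-- the certificate -/
structure Cert where
  basis : List (List (Nat × List Int))
  blks : List Blk
  target : List (Nat × List Int)

/-- the sides of the program -/
def prgSide (s : Bool) : List (Bool × Nat) :=
  [(s, 1), (s, 1), (s, 0), (s, 0), (s, 2), (s, 2)]

section

variable {R : Type} (A : Ar R) (x : R)

/-- the reduced quadratic form -/
def gramRun (KG : Nat → List (Nat × List Nat)) (c : Cert) : List (Nat × (R × R)) :=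
  run (engA A) (fun i => krow A x (KG i)) (List.append (prgSide false) (prgSide true))
    (mergeAll (sadd A) 8 (quadL A (totH A x c.blks) (slists A x c.basis)))

/-- the reduced target -/
def targRun (KM : Nat → List (Nat × List Nat)) (c : Cert) : List (Nat × (R × R)) :=
  run (engA A) (fun i => krow A x (KM i)) (List.append (prgSide false) (prgSide true))
    (neglist (slist A x c.target))

/-- one-term lists with changed codes -/
def singles (cf : Nat → Nat) : List (Nat × (R × R)) → List (List (Nat × (R × R)))
  | [] => []
  | y :: l => [(cf y.1, y.2)] :: singles cf l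

/-- the total in canonical words -/
def total (KG KM : Nat → List (Nat × List Nat)) (c : Cert) : List (Nat × (R × R)) :=
  mergeAll (sadd A) 12 (List.append (singles cfM (targRun A x KM c))
    (singles cfG (gramRun A x KG c)))

end

/-- arithmetic of the kernel -/
def arN : Ar Nat := ⟨Nat.add, Nat.mul, fun n => n⟩

def allW {M : Type} : List (Nat × M) → Bool
  | [] => true
  | y :: l => and (isW y.1) (allW l)

def allEq : List (Nat × (Nat × Nat)) → Bool
  | [] => true
  | y :: l => and (Nat.beq y.2.1 y.2.2) (allEq l)

def allLt (X : Nat) : List (Nat × (Nat × Nat)) → Bool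
  | [] => true
  | y :: l => and (and (Nat.ble (Nat.succ y.2.1) X) (Nat.ble (Nat.succ y.2.2) X)) (allLt X l)

def smallCodes : List (Nat × List Int) → Bool
  | [] => true
  | y :: l => and (Nat.ble y.1 16777215) (smallCodes l)

def smallBasis : List (List (Nat × List Int)) → Bool
  | [] => true
  | m :: ms => and (smallCodes m) (smallBasis ms)

/-- the checks -/
def check1 (X : Nat) (KG KM : Nat → List (Nat × List Nat)) (c : Cert) : Bool :=
  and (smallBasis c.basis) (and (allW (gramRun arN X KG c)) (allEq (total arN X KG KM c)))

def check2 (X : Nat) (KG KM : Nat → List (Nat × List Nat)) (c : Cert) : Bool :=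
  allLt X (total arN 1 KG KM c)

/-- crossing matrix, parameter `r = t / (2 (1 - t))`, divided by `1 - t` -/
def KG5 : Nat → List (Nat × List Nat)
  | 0 => [(0, [1, 5]), (2, [1])]
  | 1 => [(1, [1])]
  | _ => [(0, [1]), (2, [1, 1])]

/-- full matrix -/
def KM5 : Nat → List (Nat × List Nat)
  | 0 => [(0, [1, 5]), (1, [1, 1]), (2, [1])]
  | 1 => [(0, [1, 1]), (1, [1]), (2, [1, 5])]
  | _ => [(0, [1]), (1, [1, 5]), (2, [1, 1])]

def addI : List Int → List Int → List Int
  | [], q => q
  | a :: p, [] => a :: p
  | a :: p, b :: q => Int.add a b :: addI p q

def smulI (c : Int) : List Int → List Int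
  | [] => []
  | a :: p => Int.mul c a :: smulI c p

def mulI : List Int → List Int → List Int
  | [], _ => []
  | a :: p, q => addI (smulI a q) (0 :: mulI p q)

/-- the target `E * 2 (φ' T - φ row)` -/
def tgt5 (E : List Int) : List (Nat × List Int) :=
  let f3 := mulI E [-18, -108, -279, -378]
  let f1 := mulI E [6, 36, 93, 126]
  let f2 := mulI E [12, 72, 186, 252]
  [(4580180241, mulI E [0, 42, 192]),
   (4563403024, f3), (4563403009, f1), (4563402769, f2),
   (4311744784, f1), (4311744769, f2), (4311744529, f3),
   (285212944, f2), (285212929, f3), (285212689, f1),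
   (4563407121 , f3), (4563468561 , f1), (4564451601 , f2),
   (4311748881 , f1), (4311810321 , f2), (4312793361 , f3),
   (285217041 , f2), (285278481 , f3), (286261521 , f1)]

end Pool.Agent.Work.MP_8d2b2d_co.RP
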