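import Pool.Agent.Work.MP_8d2b2d_co.RP.Last
import Pool.Agent.Work.MP_8d2b2d_co.RP.Cyc

/-!
# Final assembly for `k = 3`: from the certified row inequality to Pate's inequality

`hcert` is the row inequality for unit vectors, possibly multiplied by a positive function of `t`.
-/

namespace Pool.Agent.Work.MP_8d2b2d_co.RP

open MvPolynomial Finset

set_option linter.unusedSectionVars false

section Scale

variable {κ d : Type} [Fintype κ] [DecidableEq κ] [Fintype d] [DecidableEq d]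

/-- the correlation `⟨∏ h(x_a), ∏ h(y_b)⟩` for `h = l_v g` -/
noncomputable def TT (S : κ → κ → ℝ) (v : d → ℂ) (g : MvPolynomial d ℂ) : ℂ :=
  W (cov S) ((∏ a, bra a (Lf v * g)) * ∏ b, ket b (Lf v * g))

lemma Lf_smul (r : ℂ) (v : d → ℂ) : Lf (fun c => r * v c) = C r * Lf v := by
  simp only [Lf, Finset.mul_sum, map_mul, mul_assoc]

lemma bra_C (a : κ) (z : ℂ) : (bra a (C z) : MvPolynomial (Site κ d) ℂ) =
    C ((starRingEnd ℂ) z) := by
  simp [bra, cj]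

lemma Dbra_smul (a : κ) (r : ℂ) (v : d → ℂ) (P : MvPolynomial (Site κ d) ℂ) :
    Dbra a (fun c => r * v c) P = C r * Dbra a v P := by
  simp only [Dbra, Finset.mul_sum, map_mul, mul_assoc]

lemma Dbra_C_mul (a : κ) (r : ℂ) (v : d → ℂ) (P : MvPolynomial (Site κ d) ℂ) :
    Dbra a v (C r * P) = C r * Dbra a v P := by
  simp only [Dbra, Finset.mul_sum]
  refine Finset.sum_congr rfl fun c _ => ?_
  rw [pderiv_C_mul]
  ring

lemma prod_bra_smul (s : Finset κ) (r : ℝ) (v : d → ℂ) (g : MvPolynomial d ℂ) :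
    (∏ a ∈ s, bra a (Lf (fun c => (r : ℂ) * v c) * g) : MvPolynomial (Site κ d) ℂ) =
      C ((r : ℂ) ^ s.card) * ∏ a ∈ s, bra a (Lf v * g) := by
  have h : ∀ a ∈ s, (bra a (Lf (fun c => (r : ℂ) * v c) * g) : MvPolynomial (Site κ d) ℂ) =
      C (r : ℂ) * bra a (Lf v * g) := by
    intro a _
    rw [Lf_smul, mul_assoc, bra_mul, bra_C, Complex.conj_ofReal]
  rw [Finset.prod_congr rfl h, Finset.prod_mul_distrib, Finset.prod_const, C_pow]

lemma prod_ket_smul (s : Finset κ) (r : ℂ) (v : d → ℂ) (g : MvPolynomial d ℂ) :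
    (∏ b ∈ s, ket b (Lf (fun c => r * v c) * g) : MvPolynomial (Site κ d) ℂ) =
      C (r ^ s.card) * ∏ b ∈ s, ket b (Lf v * g) := by
  have h : ∀ b ∈ s, (ket b (Lf (fun c => r * v c) * g) : MvPolynomial (Site κ d) ℂ) =
      C r * ket b (Lf v * g) := by
    intro b _
    rw [Lf_smul, mul_assoc, ket_mul, ket_C]
  rw [Finset.prod_congr rfl h, Finset.prod_mul_distrib, Finset.prod_const, C_pow]

lemma prod_ket_smul' (s : Finset κ) (r : ℂ) (v : d → ℂ) :
    (∏ b ∈ s, ket b (Lf (fun c => r * v c)) : MvPolynomial (Site κ d) ℂ) =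
      C (r ^ s.card) * ∏ b ∈ s, ket b (Lf v) := by
  have h : ∀ b ∈ s, (ket b (Lf (fun c => r * v c)) : MvPolynomial (Site κ d) ℂ) =
      C r * ket b (Lf v) := by
    intro b _
    rw [Lf_smul, ket_mul, ket_C]
  rw [Finset.prod_congr rfl h, Finset.prod_mul_distrib, Finset.prod_const, C_pow]

/-- `W` and constants -/
lemma W_C_mul' {σ : Type} [Fintype σ] [DecidableEq σ] (c : σ → σ → ℂ) (z : ℂ)
    (P : MvPolynomial σ ℂ) : W c (C z * P) = z * W c P := by
  rw [← smul_eq_C_mul, map_smul, smul_eq_mul]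

theorem TT_smul (S : κ → κ → ℝ) (r : ℝ) (v : d → ℂ) (g : MvPolynomial d ℂ) :
    TT S (fun c => (r : ℂ) * v c) g = (r : ℂ) ^ (2 * Fintype.card κ) * TT S v g := by
  rw [TT, prod_bra_smul, prod_ket_smul, TT]
  have h : C ((r : ℂ) ^ (univ : Finset κ).card) * (∏ a, bra a (Lf v * g)) *
      (C ((r : ℂ) ^ (univ : Finset κ).card) * ∏ b, ket b (Lf v * g)) =
      (C ((r : ℂ) ^ (2 * Fintype.card κ)) * ((∏ a, bra a (Lf v * g)) * ∏ b, ket b (Lf v * g)) :
        MvPolynomial (Site κ d) ℂ) := by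
    rw [two_mul, pow_add, C_mul, Finset.card_univ]
    ring
  rw [h, W_C_mul']

theorem rowT_smul (S S' : κ → κ → ℝ) (r : ℝ) (v : d → ℂ) (g : MvPolynomial d ℂ) :
    rowT S S' (fun c => (r : ℂ) * v c) g = (r : ℂ) ^ (2 * Fintype.card κ) * rowT S S' v g := by
  rw [rowT, rowT, Finset.mul_sum]
  refine Finset.sum_congr rfl fun a _ => ?_
  rw [Finset.mul_sum]
  refine Finset.sum_congr rfl fun b _ => ?_
  rw [prod_bra_smul, prod_ket_smul', Dbra_smul, Dbra_C_mul]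
  have h1 : 1 ≤ Fintype.card κ := Fintype.card_pos_iff.2 ⟨a⟩
  have h : C (r : ℂ) * (C ((r : ℂ) ^ (univ : Finset κ).card) *
      Dbra a v (∏ a, bra a (Lf v * g))) *
      (C ((r : ℂ) ^ (univ.erase b : Finset κ).card) * (∏ b' ∈ univ.erase b, ket b' (Lf v)) *
        ∏ b', ket b' g) =
      (C ((r : ℂ) ^ (2 * Fintype.card κ)) * (Dbra a v (∏ a, bra a (Lf v * g)) *
        ((∏ b' ∈ univ.erase b, ket b' (Lf v)) * ∏ b', ket b' g)) :
        MvPolynomial (Site κ d) ℂ) := by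
    rw [Finset.card_erase_of_mem (Finset.mem_univ b), Finset.card_univ]
    have e : (r : ℂ) ^ (2 * Fintype.card κ) = r * r ^ Fintype.card κ * r ^ (Fintype.card κ - 1) := by
      have : 2 * Fintype.card κ = 1 + Fintype.card κ + (Fintype.card κ - 1) := by omega
      rw [this, pow_add, pow_add, pow_one]
    rw [e, C_mul, C_mul]
    ring
  rw [h, W_C_mul', mul_left_comm]

theorem TT_zero [Nonempty κ] (S : κ → κ → ℝ) (g : MvPolynomial d ℂ) :
    TT S (fun _ : d => (0 : ℂ)) g = 0 := by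
  have h := TT_smul S 0 (fun _ : d => (0 : ℂ)) g
  simp only [Complex.ofReal_zero, mul_zero] at h
  rw [h, zero_pow (by positivity), zero_mul]

theorem rowT_zero [Nonempty κ] (S S' : κ → κ → ℝ) (g : MvPolynomial d ℂ) :
    rowT S S' (fun _ : d => (0 : ℂ)) g = 0 := by
  have h := rowT_smul S S' 0 (fun _ : d => (0 : ℂ)) g
  simp only [Complex.ofReal_zero, mul_zero] at h
  rw [h, zero_pow (by positivity), zero_mul]

/-- reduction of a linear inequality between `TT` and `rowT` to unit vectors -/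
theorem of_unit [Nonempty κ] (S S' : κ → κ → ℝ) (x y : ℝ) (v : d → ℂ) (g : MvPolynomial d ℂ)
    (h : ∀ u : d → ℂ, ∑ c, ‖u c‖ ^ 2 = 1 → 0 ≤ (x * TT S u g - y * rowT S S' u g).re) :
    0 ≤ (x * TT S v g - y * rowT S S' v g).re := by
  by_cases hv : v = fun _ => 0
  · rw [hv, TT_zero, rowT_zero]; simp
  · set N : ℝ := ∑ c, ‖v c‖ ^ 2 with hN
    have hNpos : 0 < N := by
      have h0 : 0 ≤ N := Finset.sum_nonneg fun c _ => by positivity
      rcases h0.lt_or_eq with h1 | h1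
      · exact h1
      · exfalso
        apply hv
        funext c
        have h2 := (Finset.sum_eq_zero_iff_of_nonneg (fun c _ => by positivity)).1 h1.symm c
          (Finset.mem_univ c)
        simpa using h2
    set r : ℝ := Real.sqrt N with hr
    have hrpos : 0 < r := Real.sqrt_pos.2 hNpos
    have hr2 : r ^ 2 = N := Real.sq_sqrt hNpos.le
    set u : d → ℂ := fun c => ((r⁻¹ : ℝ) : ℂ) * v c with hu
    have huu : ∑ c, ‖u c‖ ^ 2 = 1 := by
      have : ∀ c, ‖u c‖ ^ 2 = (r ^ 2)⁻¹ * ‖v c‖ ^ 2 := by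
        intro c
        rw [hu]
        simp only [norm_mul, mul_pow, Complex.norm_real, Real.norm_eq_abs, sq_abs, inv_pow]
      simp only [this]
      rw [← Finset.mul_sum, hr2, ← hN, inv_mul_cancel₀ hNpos.ne']
    have hvu : v = fun c => (r : ℂ) * u c := by
      funext c
      rw [hu]
      simp only
      rw [← mul_assoc, ← Complex.ofReal_mul, mul_inv_cancel₀ hrpos.ne']
      simp
    have h1 := h u huu
    rw [hvu, TT_smul, rowT_smul]
    have e : (x : ℂ) * ((r : ℂ) ^ (2 * Fintype.card κ) * TT S u g) -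
        y * ((r : ℂ) ^ (2 * Fintype.card κ) * rowT S S' u g) =
        ((r ^ (2 * Fintype.card κ) : ℝ) : ℂ) * (x * TT S u g - y * rowT S S' u g) := by
      push_cast; ring
    rw [e, Complex.re_ofReal_mul]
    exact mul_nonneg (by positivity) h1

end Scale

section Final

open scoped ComplexOrder Kronecker

/-- permanent of the path -/
noncomputable def ph (a t : ℝ) : ℝ := sp a 0 t ^ 3 + sp a 1 t ^ 3 + sp a 2 t ^ 3 +
  3 * sp a 0 t * sp a 1 t * sp a 2 t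

/-- its derivative -/
noncomputable def ph' (a t : ℝ) : ℝ := 3 * sp a 0 t ^ 2 * sp' a 0 + 3 * sp a 1 t ^ 2 * sp' a 1 +
  3 * sp a 2 t ^ 2 * sp' a 2 + 3 * (sp' a 0 * sp a 1 t * sp a 2 t +
    sp a 0 t * sp' a 1 * sp a 2 t + sp a 0 t * sp a 1 t * sp' a 2)

/-- the matrix of the path -/
noncomputable def SA (a t : ℝ) : ZMod 3 → ZMod 3 → ℝ := fun x y => sp a (x + y) t

/-- its derivative -/
noncomputable def SA' (a : ℝ) : ZMod 3 → ZMod 3 → ℝ := fun x y => sp' a (x + y)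

lemma sp_zero (a t : ℝ) : sp a 0 t = 1 - t + a * t := by simp [sp]

lemma sp_one (a t : ℝ) : sp a 1 t = 1 - t + (3 - a) * t := by
  unfold sp; rw [if_neg (by decide), if_pos rfl]

lemma sp_two (a t : ℝ) : sp a 2 t = 1 - t := by
  unfold sp; rw [if_neg (by decide), if_neg (by decide)]

lemma sp'_zero (a : ℝ) : sp' a 0 = a - 1 := by simp [sp']

lemma sp'_one (a : ℝ) : sp' a 1 = 2 - a := by
  unfold sp'; rw [if_neg (by decide), if_pos rfl]

lemma sp'_two (a : ℝ) : sp' a 2 = -1 := by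
  unfold sp'; rw [if_neg (by decide), if_neg (by decide)]

lemma ph_eq (a t : ℝ) : ph a t = (1 - t + a * t) ^ 3 + (1 - t + (3 - a) * t) ^ 3 + (1 - t) ^ 3 +
    3 * (1 - t + a * t) * (1 - t + (3 - a) * t) * (1 - t) := by
  rw [ph, sp_zero, sp_one, sp_two]

lemma ph'_eq (a t : ℝ) : ph' a t = 3 * (1 - t + a * t) ^ 2 * (a - 1) +
    3 * (1 - t + (3 - a) * t) ^ 2 * (2 - a) + 3 * (1 - t) ^ 2 * (-1) +
    3 * ((a - 1) * (1 - t + (3 - a) * t) * (1 - t) + (1 - t + a * t) * (2 - a) * (1 - t) +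
      (1 - t + a * t) * (1 - t + (3 - a) * t) * (-1)) := by
  rw [ph', sp_zero, sp_one, sp_two, sp'_zero, sp'_one, sp'_two]

lemma ph_pos {a t : ℝ} (ha : 0 ≤ a ∧ a ≤ 3) (ht : t ∈ Set.Ioo (0:ℝ) 1) : 0 < ph a t := by
  rw [ph_eq]
  obtain ⟨ht0, ht1⟩ := ht
  obtain ⟨ha0, ha3⟩ := ha
  have p0 : 0 ≤ 1 - t + a * t := by nlinarith
  have p1 : 0 ≤ 1 - t + (3 - a) * t := by nlinarith
  have p2 : 0 < 1 - t := by linarith
  positivity

/-- the row hypothesis of `pate_three_of_row_of_cycle` from the certified inequality for unit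
vectors; `E t` is any positive factor -/
theorem row_of_cert (a : ℝ) (ha : 0 ≤ a ∧ a ≤ 3) (E : ℝ → ℝ)
    (hE : ∀ t ∈ Set.Ioo (0:ℝ) 1, 0 < E t)
    (hcert : ∀ t ∈ Set.Ioo (0:ℝ) 1, ∀ (n : ℕ) (v : Fin n → ℂ) (g : MvPolynomial (Fin n) ℂ),
      ∑ c, ‖v c‖ ^ 2 = 1 →
      0 ≤ E t * ((ph' a t : ℂ) * TT (SA a t) v g - (ph a t : ℂ) * rowT (SA a t) (SA' a) v g).re) :
    ∀ t ∈ Set.Ioo (0:ℝ) 1, ∀ (n : ℕ) (v : Fin n → ℂ) (g : MvPolynomial (Fin n) ℂ),
      let s : ZMod 3 → ℝ → ℝ := fun r t => if r = 0 then 1 - t + a * t else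
        if r = 1 then 1 - t + (3 - a) * t else 1 - t
      let s' : ZMod 3 → ℝ := fun r => if r = 0 then a - 1 else if r = 1 then 2 - a else -1
      let φ := s 0 t ^ 3 + s 1 t ^ 3 + s 2 t ^ 3 + 3 * s 0 t * s 1 t * s 2 t
      let φ' := 3 * s 0 t ^ 2 * s' 0 + 3 * s 1 t ^ 2 * s' 1 + 3 * s 2 t ^ 2 * s' 2 +
        3 * (s' 0 * s 1 t * s 2 t + s 0 t * s' 1 * s 2 t + s 0 t * s 1 t * s' 2)
      (rowT (fun a b : ZMod 3 => s (a + b) t) (fun a b => s' (a + b)) v g).re ≤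
        φ' / φ * (W (cov (fun a b : ZMod 3 => s (a + b) t))
          ((∏ a, bra a (Lf v * g)) * ∏ b, ket b (Lf v * g))).re := by
  intro t ht n v g
  have h1 : 0 ≤ ((ph' a t : ℂ) * TT (SA a t) v g -
      (ph a t : ℂ) * rowT (SA a t) (SA' a) v g).re := by
    refine of_unit (SA a t) (SA' a) (ph' a t) (ph a t) v g fun u hu => ?_
    exact nonneg_of_mul_nonneg_right (hcert t ht n u g hu) (hE t ht)
  rw [Complex.sub_re, Complex.re_ofReal_mul, Complex.re_ofReal_mul, sub_nonneg] at h1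
  have h2 := ph_pos ha ht
  have h3 : (rowT (SA a t) (SA' a) v g).re ≤ ph' a t / ph a t * (TT (SA a t) v g).re := by
    rw [div_mul_eq_mul_div, le_div_iff₀ h2]
    linarith
  exact h3

/-- Pate's inequality for `k = 3` and every `m` from the certified inequality. -/
theorem pate_three_of_cert (a : ℝ) (ha : 0 ≤ a ∧ a ≤ 3) (E : ℝ → ℝ)
    (hE : ∀ t ∈ Set.Ioo (0:ℝ) 1, 0 < E t)
    (hcert : ∀ t ∈ Set.Ioo (0:ℝ) 1, ∀ (n : ℕ) (v : Fin n → ℂ) (g : MvPolynomial (Fin n) ℂ),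
      ∑ c, ‖v c‖ ^ 2 = 1 →
      0 ≤ E t * ((ph' a t : ℂ) * TT (SA a t) v g - (ph a t : ℂ) * rowT (SA a t) (SA' a) v g).re)
    (m : ℕ) (M : Matrix (Fin m) (Fin m) ℂ) (hM : M.PosSemidef) :
    (6 : ℂ) ^ m * M.permanent ^ 3 ≤
      (Matrix.kroneckerMap (· * ·) (Matrix.of (fun _ _ : Fin 3 => (1 : ℂ))) M).permanent :=
  pate_three_of_row_of_cycle a ha
    (fun m p q hp hq M hM => cycle_bound (k := 3) (by norm_num) p q hp hq M hM)
    (row_of_cert a ha E hE hcert) m M hM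

/-- the shape of the hand-in -/
theorem pate_three_of_cert' (a : ℝ) (ha : 0 ≤ a ∧ a ≤ 3) (E : ℝ → ℝ)
    (hE : ∀ t ∈ Set.Ioo (0:ℝ) 1, 0 < E t)
    (hcert : ∀ t ∈ Set.Ioo (0:ℝ) 1, ∀ (n : ℕ) (v : Fin n → ℂ) (g : MvPolynomial (Fin n) ℂ),
      ∑ c, ‖v c‖ ^ 2 = 1 →
      0 ≤ E t * ((ph' a t : ℂ) * TT (SA a t) v g - (ph a t : ℂ) * rowT (SA a t) (SA' a) v g).re)
    (m : ℕ) (M : Matrix (Fin m) (Fin m) ℂ) (hM : M.PosSemidef) :
    ((Nat.factorial 3 : ℕ) : ℂ) ^ m * M.permanent ^ 3 ≤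
      (Matrix.kroneckerMap (fun x y => x * y) (Matrix.of fun _ _ : Fin 3 => (1 : ℂ)) M).permanent := by
  have h := pate_three_of_cert a ha E hE hcert m M hM
  have e : ((Nat.factorial 3 : ℕ) : ℂ) = 6 := by norm_num [Nat.factorial]
  rw [e]
  exact h

end Final

end Pool.Agent.Work.MP_8d2b2d_co.RP
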