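import Pool.Agent.Work.MP_8d2b2d_co.RP.WPerm
import Pool.Agent.Work.MP_8d2b2d_co.RP.Fin3

/-!
# The correlations `MM p q p' q'` and their recursion

`MM S v g p q p' q' = ⟨∏ a, bra a (l_v ^ p a * D ^ q a g) * ∏ b, ket b (l_v ^ p' b * D ^ q' b g)⟩`,
where `D` is the derivative in the direction `v̄`.
-/

namespace Pool.Agent.Work.MP_8d2b2d_co.RP

open MvPolynomial Finset

set_option linter.unusedSectionVars false

section EvalA

variable {κ d : Type} [Fintype κ] [DecidableEq κ] [Fintype d] [DecidableEq d]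

/-- the derivative in the direction `v̄` -/
noncomputable def dd (v : d → ℂ) (f : MvPolynomial d ℂ) : MvPolynomial d ℂ :=
  ∑ c, C ((starRingEnd ℂ) (v c)) * pderiv c f

/-- `l_v ^ p * D ^ q g` -/
noncomputable def mo (v : d → ℂ) (g : MvPolynomial d ℂ) (p q : ℕ) : MvPolynomial d ℂ :=
  Lf v ^ p * (dd v)^[q] g

/-- the square of the norm of `v` -/
noncomputable def nu (v : d → ℂ) : ℝ := ∑ c, ‖v c‖ ^ 2

/-- the correlations -/
noncomputable def MM (S : κ → κ → ℝ) (v : d → ℂ) (g : MvPolynomial d ℂ) (p q p' q' : κ → ℕ) : ℂ :=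
  W (cov S) ((∏ a, bra a (mo v g (p a) (q a))) * ∏ b, ket b (mo v g (p' b) (q' b)))

lemma dd_mul (v : d → ℂ) (f h : MvPolynomial d ℂ) : dd v (f * h) = dd v f * h + f * dd v h := by
  simp only [dd, Finset.sum_mul, Finset.mul_sum]
  rw [← Finset.sum_add_distrib]
  refine Finset.sum_congr rfl fun c _ => ?_
  rw [pderiv_mul]
  ring

lemma dd_Lf (v : d → ℂ) : dd v (Lf v) = C ((nu v : ℝ) : ℂ) := by
  have h : ((nu v : ℝ) : ℂ) = ∑ c, (starRingEnd ℂ) (v c) * v c := by
    unfold nu
    rw [Complex.ofReal_sum]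
    refine Finset.sum_congr rfl fun c _ => ?_
    rw [mul_comm, Complex.mul_conj, Complex.normSq_eq_norm_sq]
  rw [h, dd, map_sum]
  refine Finset.sum_congr rfl fun c _ => ?_
  rw [pderiv_Lf, C_mul]

lemma dd_pow (v : d → ℂ) (p : ℕ) :
    dd v (Lf v ^ p) = C (((nu v : ℝ) : ℂ) * (p : ℂ)) * Lf v ^ (p - 1) := by
  induction p with
  | zero => simp [dd]
  | succ p ih =>
    rw [pow_succ, dd_mul, ih, dd_Lf]
    rcases Nat.eq_zero_or_pos p with rfl | hp
    · simp
    · have e : Lf v ^ p = Lf v ^ (p - 1) * Lf v := by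
        rw [← pow_succ]
        congr 1
        omega
      rw [e]
      simp only [Nat.add_sub_cancel]
      rw [e]
      push_cast
      simp only [C_mul, C_add, C_1]
      ring

/-- the derivative of `l_v ^ p * D ^ q g` -/
lemma dd_mo (v : d → ℂ) (g : MvPolynomial d ℂ) (p q : ℕ) :
    dd v (mo v g p q) = C (((nu v : ℝ) : ℂ) * (p : ℂ)) * mo v g (p - 1) q + mo v g p (q + 1) := by
  unfold mo
  rw [dd_mul, dd_pow, Function.iterate_succ_apply']
  ring

lemma bra_add (a : κ) (f h : MvPolynomial d ℂ) :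
    (bra a (f + h) : MvPolynomial (Site κ d) ℂ) = bra a f + bra a h := by
  simp [bra, cj]

lemma ket_add (b : κ) (f h : MvPolynomial d ℂ) :
    (ket b (f + h) : MvPolynomial (Site κ d) ℂ) = ket b f + ket b h := by
  simp [ket]

lemma pderiv_inl_prod_bra_of_notMem (b : κ) (c : d) (s : Finset κ) (hb : b ∉ s)
    (f : κ → MvPolynomial d ℂ) :
    pderiv (Sum.inl (b, c) : Site κ d) (∏ b' ∈ s, bra b' (f b')) = 0 := by
  induction s using Finset.induction_on with
  | empty => simp
  | insert b' s hb' ih =>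
    rw [Finset.prod_insert hb', pderiv_mul, ih (fun h => hb (Finset.mem_insert_of_mem h)),
      pderiv_inl_bra_of_ne b b' (fun h => hb (h ▸ Finset.mem_insert_self _ _))]
    simp

lemma pderiv_inl_prod_bra (b : κ) (c : d) (f : κ → MvPolynomial d ℂ) :
    pderiv (Sum.inl (b, c) : Site κ d) (∏ b', bra b' (f b')) =
      bra b (pderiv c (f b)) * ∏ b' ∈ univ.erase b, bra b' (f b') := by
  rw [← Finset.mul_prod_erase univ _ (Finset.mem_univ b), pderiv_mul,
    pderiv_inl_prod_bra_of_notMem b c _ (Finset.notMem_erase b univ), pderiv_inl_bra, mul_zero,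
    add_zero]

/-- the derivative at a ket of a product -/
lemma Dket_prod (b : κ) (v : d → ℂ) (F H : κ → MvPolynomial d ℂ) :
    Dket b v ((∏ a, bra a (F a)) * ∏ b', ket b' (H b')) =
      (∏ a, bra a (F a)) * (ket b (dd v (H b)) * ∏ b' ∈ univ.erase b, ket b' (H b')) := by
  have h1 : (ket b (dd v (H b)) : MvPolynomial (Site κ d) ℂ) =
      ∑ c, C ((starRingEnd ℂ) (v c)) * ket b (pderiv c (H b)) := by
    rw [dd, ket_sum]
    refine Finset.sum_congr rfl fun c _ => ?_
    rw [ket_mul, ket_C]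
  rw [h1, Dket, Finset.sum_mul, Finset.mul_sum]
  refine Finset.sum_congr rfl fun c _ => ?_
  rw [pderiv_mul, pderiv_inr_prod_bra, pderiv_inr_prod_ket]
  ring

/-- the derivative at a bra of a product -/
lemma Dbra_prod (a : κ) (v : d → ℂ) (F H : κ → MvPolynomial d ℂ) :
    Dbra a v ((∏ a', bra a' (F a')) * ∏ b, ket b (H b)) =
      (bra a (dd v (F a)) * ∏ a' ∈ univ.erase a, bra a' (F a')) * ∏ b, ket b (H b) := by
  have h1 : (bra a (dd v (F a)) : MvPolynomial (Site κ d) ℂ) =
      ∑ c, C (v c) * bra a (pderiv c (F a)) := by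
    have h2 : (bra a (dd v (F a)) : MvPolynomial (Site κ d) ℂ) =
        ∑ c, bra a (C ((starRingEnd ℂ) (v c)) * pderiv c (F a)) := by
      simp [dd, bra, cj]
    rw [h2]
    refine Finset.sum_congr rfl fun c _ => ?_
    rw [bra_mul, bra_C, Complex.conj_conj]
  rw [h1, Dbra, Finset.sum_mul, Finset.sum_mul]
  refine Finset.sum_congr rfl fun c _ => ?_
  rw [pderiv_mul, pderiv_inl_prod_ket, pderiv_inl_prod_bra]
  ring

lemma prod_update {M : Type} [CommMonoid M] (G : κ → ℕ → ℕ → M) (p q : κ → ℕ) (a : κ) (x y : ℕ) :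
    ∏ a', G a' (Function.update p a x a') (Function.update q a y a') =
      G a x y * ∏ a' ∈ univ.erase a, G a' (p a') (q a') := by
  rw [← Finset.mul_prod_erase univ _ (Finset.mem_univ a)]
  rw [Function.update_self, Function.update_self]
  congr 1
  refine Finset.prod_congr rfl fun a' ha' => ?_
  rw [Function.update_of_ne (Finset.ne_of_mem_erase ha'),
    Function.update_of_ne (Finset.ne_of_mem_erase ha')]

lemma prod_bra_succ (v : d → ℂ) (g : MvPolynomial d ℂ) (p q : κ → ℕ) (a : κ) :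
    (∏ a', bra a' (mo v g (Function.update p a (p a + 1) a') (q a')) :
      MvPolynomial (Site κ d) ℂ) = bra a (Lf v) * ∏ a', bra a' (mo v g (p a') (q a')) := by
  have h := prod_update (fun a' x y => (bra a' (mo v g x y) : MvPolynomial (Site κ d) ℂ)) p q a
    (p a + 1) (q a)
  rw [Function.update_eq_self] at h
  rw [h, ← Finset.mul_prod_erase univ _ (Finset.mem_univ a), ← mul_assoc]
  congr 1
  rw [← bra_mul]
  congr 1
  unfold mo
  rw [pow_succ]
  ring

lemma prod_ket_succ (v : d → ℂ) (g : MvPolynomial d ℂ) (p q : κ → ℕ) (a : κ) :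
    (∏ a', ket a' (mo v g (Function.update p a (p a + 1) a') (q a')) :
      MvPolynomial (Site κ d) ℂ) = ket a (Lf v) * ∏ a', ket a' (mo v g (p a') (q a')) := by
  have h := prod_update (fun a' x y => (ket a' (mo v g x y) : MvPolynomial (Site κ d) ℂ)) p q a
    (p a + 1) (q a)
  rw [Function.update_eq_self] at h
  rw [h, ← Finset.mul_prod_erase univ _ (Finset.mem_univ a), ← mul_assoc]
  congr 1
  rw [← ket_mul]
  congr 1
  unfold mo
  rw [pow_succ]
  ring

/-- **the recursion at a bra** -/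
theorem MM_bra (S : κ → κ → ℝ) (v : d → ℂ) (g : MvPolynomial d ℂ) (p q p' q' : κ → ℕ) (a : κ) :
    MM S v g (Function.update p a (p a + 1)) q p' q' =
      ∑ b, (S a b : ℂ) * (MM S v g p q p' (Function.update q' b (q' b + 1)) +
        ((nu v : ℝ) : ℂ) * (p' b : ℂ) *
          MM S v g p q (Function.update p' b (p' b - 1)) q') := by
  unfold MM
  rw [prod_bra_succ, mul_assoc, ibp_bra]
  refine Finset.sum_congr rfl fun b _ => ?_
  rw [Dket_prod b v (fun a => mo v g (p a) (q a)) (fun b => mo v g (p' b) (q' b))]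
  congr 1
  have h1 := prod_update (fun a' x y => (ket a' (mo v g x y) : MvPolynomial (Site κ d) ℂ)) p' q' b
    (p' b) (q' b + 1)
  have h2 := prod_update (fun a' x y => (ket a' (mo v g x y) : MvPolynomial (Site κ d) ℂ)) p' q' b
    (p' b - 1) (q' b)
  rw [Function.update_eq_self] at h1 h2
  rw [h1, h2, dd_mo, ket_add, ket_mul, ket_C, ← W_C_mul', ← map_add]
  congr 1
  ring

/-- **the recursion at a ket** -/
theorem MM_ket (S : κ → κ → ℝ) (v : d → ℂ) (g : MvPolynomial d ℂ) (p q p' q' : κ → ℕ) (b : κ) :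
    MM S v g p q (Function.update p' b (p' b + 1)) q' =
      ∑ a, (S a b : ℂ) * (MM S v g p (Function.update q a (q a + 1)) p' q' +
        ((nu v : ℝ) : ℂ) * (p a : ℂ) *
          MM S v g (Function.update p a (p a - 1)) q p' q') := by
  unfold MM
  rw [prod_ket_succ, mul_left_comm, ibp_ket]
  refine Finset.sum_congr rfl fun a _ => ?_
  rw [Dbra_prod a v (fun a => mo v g (p a) (q a)) (fun b => mo v g (p' b) (q' b))]
  congr 1
  have h1 := prod_update (fun a' x y => (bra a' (mo v g x y) : MvPolynomial (Site κ d) ℂ)) p q a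
    (p a) (q a + 1)
  have h2 := prod_update (fun a' x y => (bra a' (mo v g x y) : MvPolynomial (Site κ d) ℂ)) p q a
    (p a - 1) (q a)
  rw [Function.update_eq_self] at h1 h2
  have h3 : (starRingEnd ℂ) (((nu v : ℝ) : ℂ) * (p a : ℂ)) = ((nu v : ℝ) : ℂ) * (p a : ℂ) := by
    rw [map_mul, Complex.conj_ofReal, Complex.conj_natCast]
  rw [h1, h2, dd_mo, bra_add, bra_mul, bra_C, h3, ← W_C_mul', ← map_add]
  congr 1
  ring

/-- the correlation of the theorem -/
theorem TT_eq_MM (S : κ → κ → ℝ) (v : d → ℂ) (g : MvPolynomial d ℂ) :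
    TT S v g = MM S v g (fun _ => 1) (fun _ => 0) (fun _ => 1) (fun _ => 0) := by
  unfold TT MM mo
  simp

/-- the row term -/
theorem rowT_eq_MM (S S' : κ → κ → ℝ) (v : d → ℂ) (g : MvPolynomial d ℂ) :
    rowT S S' v g = ∑ a, ∑ b, (S' a b : ℂ) * (((nu v : ℝ) : ℂ) *
      MM S v g (Function.update (fun _ => 1) a 0) (fun _ => 0)
        (Function.update (fun _ => 1) b 0) (fun _ => 0) +
      MM S v g (fun _ => 1) (Function.update (fun _ => 0) a 1)
        (Function.update (fun _ => 1) b 0) (fun _ => 0)) := by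
  unfold rowT
  refine Finset.sum_congr rfl fun a _ => Finset.sum_congr rfl fun b _ => ?_
  congr 1
  have k : (∏ b' ∈ univ.erase b, ket b' (Lf v)) * (∏ b', ket b' g) =
      (∏ b', ket b' (mo v g (Function.update (fun _ => 1) b 0 b') ((fun _ => 0) b')) :
        MvPolynomial (Site κ d) ℂ) := by
    have h := prod_update (fun a' x y => (ket a' (mo v g x y) : MvPolynomial (Site κ d) ℂ))
      (fun _ => 1) (fun _ => 0) b 0 0
    rw [show Function.update (fun _ : κ => 0) b 0 = fun _ => 0 from Function.update_eq_self b _] at h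
    rw [h, ← Finset.mul_prod_erase univ _ (Finset.mem_univ b)]
    have e : ∀ b', ket b' (mo v g 1 0) = (ket b' (Lf v) * ket b' g : MvPolynomial (Site κ d) ℂ) := by
      intro b'
      rw [← ket_mul]
      simp [mo]
    rw [Finset.prod_congr rfl fun b' _ => e b', Finset.prod_mul_distrib]
    have e2 : (ket b (mo v g 0 0) : MvPolynomial (Site κ d) ℂ) = ket b g := by simp [mo]
    rw [e2]
    ring
  rw [k]
  have h0 : Dbra a v (∏ a', bra a' (Lf v * g)) *
      (∏ b', ket b' (mo v g (Function.update (fun _ => 1) b 0 b') ((fun _ => 0) b'))) =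
      Dbra a v ((∏ a', bra a' (Lf v * g)) *
        (∏ b', ket b' (mo v g (Function.update (fun _ => 1) b 0 b') ((fun _ => 0) b'))) :
        MvPolynomial (Site κ d) ℂ) := by
    unfold Dbra
    rw [Finset.sum_mul]
    refine Finset.sum_congr rfl fun c _ => ?_
    rw [pderiv_mul, pderiv_inl_prod_ket]
    ring
  rw [h0, Dbra_prod a v (fun _ => Lf v * g)]
  unfold MM
  have h1 := prod_update (fun a' x y => (bra a' (mo v g x y) : MvPolynomial (Site κ d) ℂ))
    (fun _ => 1) (fun _ => 0) a 0 0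
  have h2 := prod_update (fun a' x y => (bra a' (mo v g x y) : MvPolynomial (Site κ d) ℂ))
    (fun _ => 1) (fun _ => 0) a 1 1
  rw [show Function.update (fun _ : κ => 0) a 0 = fun _ => 0 from Function.update_eq_self a _] at h1
  rw [show Function.update (fun _ : κ => 1) a 1 = fun _ => 1 from Function.update_eq_self a _] at h2
  rw [h1, h2, ← W_C_mul', ← map_add]
  have e3 : ∀ a', (bra a' (Lf v * g) : MvPolynomial (Site κ d) ℂ) = bra a' (mo v g 1 0) := by
    intro a'
    simp [mo]
  have e4 : dd v (Lf v * g) = C ((nu v : ℝ) : ℂ) * mo v g 0 0 + mo v g 1 1 := by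
    have h := dd_mo v g 1 0
    have e5 : mo v g 1 0 = Lf v * g := by simp [mo]
    rw [e5] at h
    rw [h]
    simp
  have e6 : (starRingEnd ℂ) ((nu v : ℝ) : ℂ) = ((nu v : ℝ) : ℂ) := Complex.conj_ofReal _
  rw [e4, bra_add, bra_mul, bra_C, e6, Finset.prod_congr rfl fun a' _ => e3 a']
  congr 1
  ring

/-- relabelling of the sites -/
def reSite (e e' : κ ≃ κ) : Site κ d ≃ Site κ d :=
  Equiv.sumCongr (Equiv.prodCongr e (Equiv.refl d)) (Equiv.prodCongr e' (Equiv.refl d))

lemma rename_bra (e e' : κ ≃ κ) (a : κ) (f : MvPolynomial d ℂ) :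
    rename (reSite e e') (bra a f) = (bra (e a) f : MvPolynomial (Site κ d) ℂ) := by
  unfold bra
  rw [rename_rename]
  rfl

lemma rename_ket (e e' : κ ≃ κ) (b : κ) (f : MvPolynomial d ℂ) :
    rename (reSite e e') (ket b f) = (ket (e' b) f : MvPolynomial (Site κ d) ℂ) := by
  unfold ket
  rw [rename_rename]
  rfl

/-- **symmetries of the matrix** -/
theorem MM_perm (S : κ → κ → ℝ) (v : d → ℂ) (g : MvPolynomial d ℂ) (e e' : κ ≃ κ)
    (hS : ∀ a b, S (e a) (e' b) = S a b) (p q p' q' : κ → ℕ) :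
    MM S v g (p ∘ e) (q ∘ e) (p' ∘ e') (q' ∘ e') = MM S v g p q p' q' := by
  have h1 : (∏ a, bra a (mo v g (p a) (q a)) : MvPolynomial (Site κ d) ℂ) =
      rename (reSite e e') (∏ a, bra a (mo v g ((p ∘ e) a) ((q ∘ e) a))) := by
    rw [map_prod]
    rw [← Equiv.prod_comp e]
    refine Finset.prod_congr rfl fun a _ => ?_
    rw [rename_bra]
    rfl
  have h2 : (∏ b, ket b (mo v g (p' b) (q' b)) : MvPolynomial (Site κ d) ℂ) =
      rename (reSite e e') (∏ b, ket b (mo v g ((p' ∘ e') b) ((q' ∘ e') b))) := by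
    rw [map_prod]
    rw [← Equiv.prod_comp e']
    refine Finset.prod_congr rfl fun b _ => ?_
    rw [rename_ket]
    rfl
  unfold MM
  rw [h1, h2, ← map_mul, W_rename (cov S) (cov_comm S)]
  congr 2
  funext x y
  rcases x with x | x <;> rcases y with y | y
  · rfl
  · show (if x.2 = y.2 then (S x.1 y.1 : ℂ) else 0) =
      if x.2 = y.2 then (S (e x.1) (e' y.1) : ℂ) else 0
    rw [hS]
  · show (if y.2 = x.2 then (S y.1 x.1 : ℂ) else 0) =
      if y.2 = x.2 then (S (e y.1) (e' x.1) : ℂ) else 0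
    rw [hS]
  · rfl

/-- **complex conjugation** exchanges the bras and the kets -/
theorem MM_conj (S : κ → κ → ℝ) (hS : ∀ a b, S a b = S b a) (v : d → ℂ) (g : MvPolynomial d ℂ)
    (p q p' q' : κ → ℕ) :
    (starRingEnd ℂ) (MM S v g p q p' q') = MM S v g p' q' p q := by
  have hc : (fun i j : Site κ d => (starRingEnd ℂ) (cov S i j)) = cov S := by
    funext x y
    rcases x with x | x <;> rcases y with y | y <;> simp [cov, apply_ite (starRingEnd ℂ)]
  unfold MM
  rw [← W_cj (cov S) (cov_comm S), hc]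
  have h1 : cj (∏ a, bra a (mo v g (p a) (q a)) : MvPolynomial (Site κ d) ℂ) =
      rename (Equiv.sumComm (κ × d) (κ × d)) (∏ a, ket a (mo v g (p a) (q a))) := by
    rw [map_prod, cj, map_prod]
    refine Finset.prod_congr rfl fun a _ => ?_
    unfold bra ket
    rw [MvPolynomial.map_rename, rename_rename]
    have e : (map (starRingEnd ℂ)) (cj (mo v g (p a) (q a))) = mo v g (p a) (q a) := by
      unfold cj
      rw [MvPolynomial.map_map]
      have e2 : (starRingEnd ℂ).comp (starRingEnd ℂ) = RingHom.id ℂ := by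
        ext z
        simp
      rw [e2, MvPolynomial.map_id]
    rw [e]
    rfl
  have h2 : cj (∏ b, ket b (mo v g (p' b) (q' b)) : MvPolynomial (Site κ d) ℂ) =
      rename (Equiv.sumComm (κ × d) (κ × d)) (∏ b, bra b (mo v g (p' b) (q' b))) := by
    rw [map_prod, cj, map_prod]
    refine Finset.prod_congr rfl fun b _ => ?_
    unfold bra ket
    rw [MvPolynomial.map_rename, rename_rename]
    rfl
  have h3 : cj ((∏ a, bra a (mo v g (p a) (q a))) * ∏ b, ket b (mo v g (p' b) (q' b)) :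
      MvPolynomial (Site κ d) ℂ) = cj (∏ a, bra a (mo v g (p a) (q a))) *
        cj (∏ b, ket b (mo v g (p' b) (q' b))) := by
    simp [cj]
  rw [h3, h1, h2, ← map_mul, W_rename (cov S) (cov_comm S), mul_comm]
  congr 2
  funext x y
  rcases x with x | x <;> rcases y with y | y
  · rfl
  · show (if y.2 = x.2 then (S y.1 x.1 : ℂ) else 0) = if x.2 = y.2 then (S x.1 y.1 : ℂ) else 0
    rw [hS]
    by_cases hxy : x.2 = y.2
    · rw [if_pos hxy, if_pos hxy.symm]
    · rw [if_neg hxy, if_neg (Ne.symm hxy)]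
  · show (if x.2 = y.2 then (S x.1 y.1 : ℂ) else 0) = if y.2 = x.2 then (S y.1 x.1 : ℂ) else 0
    rw [hS]
    by_cases hxy : x.2 = y.2
    · rw [if_pos hxy, if_pos hxy.symm]
    · rw [if_neg hxy, if_neg (Ne.symm hxy)]
  · rfl

end EvalA

end Pool.Agent.Work.MP_8d2b2d_co.RP
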