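import Pool.Agent.Work.MP_8d2b2d_co.RP.Sites

/-!
# Reflection positivity of the Wick functional

The derivative of the sesquilinear form in the coupling `t K` is a sum of the same forms applied to
`D_r U`, so positivity follows by induction on the degree.
-/

namespace Pool.Agent.Work.MP_8d2b2d_co.RP

open MvPolynomial Finset
open scoped ComplexOrder

set_option linter.unusedSectionVars false

section WRP

variable {τ : Type} [Fintype τ] [DecidableEq τ]

/-- the covariance of the two halves -/
def cv (L K : τ → τ → ℂ) : τ ⊕ τ → τ ⊕ τ → ℂ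
  | .inl i, .inl j => (starRingEnd ℂ) (L i j)
  | .inr i, .inr j => L i j
  | .inl i, .inr j => K i j
  | .inr i, .inl j => K j i

lemma cv_symm (L K : τ → τ → ℂ) (hL : ∀ i j, L i j = L j i) (p q : τ ⊕ τ) :
    cv L K p q = cv L K q p := by
  rcases p with i | i <;> rcases q with j | j <;> simp [cv, hL i j]

/-- the sesquilinear form -/
noncomputable def G (L K : τ → τ → ℂ) (U V : MvPolynomial τ ℂ) : ℂ :=
  W (cv L K) (rename Sum.inl (cj U) * rename Sum.inr V)

lemma cj_add (U V : MvPolynomial τ ℂ) : cj (U + V) = cj U + cj V := by simp [cj]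
lemma cj_mul (U V : MvPolynomial τ ℂ) : cj (U * V) = cj U * cj V := by simp [cj]
lemma cj_C (c : ℂ) : cj (C c : MvPolynomial τ ℂ) = C ((starRingEnd ℂ) c) := by simp [cj]
lemma cj_X (i : τ) : cj (X i : MvPolynomial τ ℂ) = X i := by simp [cj]
lemma cj_one : cj (1 : MvPolynomial τ ℂ) = 1 := by simp [cj]
lemma cj_cj (U : MvPolynomial τ ℂ) : cj (cj U) = U := by
  simp only [cj, MvPolynomial.map_map]
  have : ((starRingEnd ℂ).comp (starRingEnd ℂ)) = RingHom.id ℂ := by
    ext x; simp
  rw [this, MvPolynomial.map_id]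
lemma cj_pderiv (i : τ) (U : MvPolynomial τ ℂ) : cj (pderiv i U) = pderiv i (cj U) := by
  simp only [cj]; rw [pderiv_map]
lemma cj_sum {ι : Type*} (s : Finset ι) (f : ι → MvPolynomial τ ℂ) :
    cj (∑ i ∈ s, f i) = ∑ i ∈ s, cj (f i) := by simp [cj]

lemma pderiv_inl_rename_inl (i : τ) (U : MvPolynomial τ ℂ) :
    pderiv (Sum.inl i : τ ⊕ τ) (rename Sum.inl U) = rename Sum.inl (pderiv i U) :=
  pderiv_rename Sum.inl_injective i U

lemma pderiv_inr_rename_inr (i : τ) (U : MvPolynomial τ ℂ) :
    pderiv (Sum.inr i : τ ⊕ τ) (rename Sum.inr U) = rename Sum.inr (pderiv i U) :=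
  pderiv_rename Sum.inr_injective i U

lemma pderiv_inl_rename_inr (i : τ) (U : MvPolynomial τ ℂ) :
    pderiv (Sum.inl i : τ ⊕ τ) (rename Sum.inr U) = 0 := by
  refine pderiv_eq_zero_of_notMem_vars fun h => ?_
  have := vars_rename (Sum.inr : τ → τ ⊕ τ) U h
  simp at this

lemma pderiv_inr_rename_inl (i : τ) (U : MvPolynomial τ ℂ) :
    pderiv (Sum.inr i : τ ⊕ τ) (rename Sum.inl U) = 0 := by
  refine pderiv_eq_zero_of_notMem_vars fun h => ?_
  have := vars_rename (Sum.inl : τ → τ ⊕ τ) U h
  simp at this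

lemma G_add_left (L K : τ → τ → ℂ) (U U' V : MvPolynomial τ ℂ) :
    G L K (U + U') V = G L K U V + G L K U' V := by
  simp only [G, cj_add, map_add, add_mul]

lemma G_add_right (L K : τ → τ → ℂ) (U V V' : MvPolynomial τ ℂ) :
    G L K U (V + V') = G L K U V + G L K U V' := by
  simp only [G, map_add, mul_add]

lemma G_C_left (L K : τ → τ → ℂ) (c : ℂ) (U V : MvPolynomial τ ℂ) :
    G L K (C c * U) V = (starRingEnd ℂ) c * G L K U V := by
  simp only [G, cj_mul, cj_C, map_mul, rename_C]
  rw [mul_assoc, ← smul_eq_C_mul, map_smul, smul_eq_mul]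

lemma G_C_right (L K : τ → τ → ℂ) (c : ℂ) (U V : MvPolynomial τ ℂ) :
    G L K U (C c * V) = c * G L K U V := by
  simp only [G, map_mul, rename_C]
  rw [mul_left_comm, ← smul_eq_C_mul, map_smul, smul_eq_mul]

lemma G_sum_left {ι : Type*} (L K : τ → τ → ℂ) (s : Finset ι) (f : ι → MvPolynomial τ ℂ)
    (V : MvPolynomial τ ℂ) : G L K (∑ i ∈ s, f i) V = ∑ i ∈ s, G L K (f i) V := by
  simp only [G, cj_sum, map_sum, Finset.sum_mul]

lemma G_sum_right {ι : Type*} (L K : τ → τ → ℂ) (s : Finset ι) (f : ι → MvPolynomial τ ℂ)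
    (U : MvPolynomial τ ℂ) : G L K U (∑ i ∈ s, f i) = ∑ i ∈ s, G L K U (f i) := by
  simp only [G, map_sum, Finset.mul_sum]

lemma G_one_one (L K : τ → τ → ℂ) : G L K 1 1 = 1 := by
  simp [G, cj_one, W_one]

/-- derivative in the coupling -/
lemma G_hasDerivAt (L K : τ → τ → ℂ) (U V : MvPolynomial τ ℂ) (s : ℝ) :
    HasDerivAt (fun t : ℝ => G L (fun i j => (t : ℂ) * K i j) U V)
      (∑ i, ∑ j, K i j * G L (fun i j => (s : ℂ) * K i j) (pderiv i U) (pderiv j V)) s := by
  have h := W_hasDerivAt (σ := τ ⊕ τ) (fun t : ℝ => cv L (fun i j => (t : ℂ) * K i j))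
    (cv (fun _ _ => 0) K) s (by
      intro p q
      rcases p with i | i <;> rcases q with j | j
      · simpa [cv] using hasDerivAt_const s _
      · simpa [cv] using (Complex.ofRealCLM.hasDerivAt (x := s)).mul_const (K i j)
      · simpa [cv] using (Complex.ofRealCLM.hasDerivAt (x := s)).mul_const (K j i)
      · simpa [cv] using hasDerivAt_const s _) (rename Sum.inl (cj U) * rename Sum.inr V)
  refine h.congr_deriv ?_
  simp only [Fintype.sum_sum_type, cv, map_zero, zero_mul, Finset.sum_const_zero, zero_add,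
    add_zero]
  have e1 : ∀ i j : τ, pderiv (Sum.inl i : τ ⊕ τ) (pderiv (Sum.inr j)
      (rename Sum.inl (cj U) * rename Sum.inr V)) =
      rename Sum.inl (cj (pderiv i U)) * rename Sum.inr (pderiv j V) := by
    intro i j
    rw [pderiv_mul, pderiv_inr_rename_inl, zero_mul, zero_add, pderiv_inr_rename_inr, pderiv_mul,
      pderiv_inl_rename_inl, pderiv_inl_rename_inr, mul_zero, add_zero, cj_pderiv]
  have e2 : ∀ i j : τ, pderiv (Sum.inr i : τ ⊕ τ) (pderiv (Sum.inl j)
      (rename Sum.inl (cj U) * rename Sum.inr V)) =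
      rename Sum.inl (cj (pderiv j U)) * rename Sum.inr (pderiv i V) := by
    intro i j
    rw [pderiv_mul, pderiv_inl_rename_inl, pderiv_inl_rename_inr, mul_zero, add_zero, pderiv_mul,
      pderiv_inr_rename_inl, pderiv_inr_rename_inr, zero_mul, zero_add, cj_pderiv]
  simp only [e1, e2]
  rw [Finset.sum_comm (f := fun i j => K j i * _)]
  simp only [G]
  ring

/-- uniqueness up to the value at `1` -/
lemma W_unique' {σ : Type} [Fintype σ] [DecidableEq σ] (C : σ → σ → ℂ)
    (hC : ∀ i j, C i j = C j i) (F : MvPolynomial σ ℂ →ₗ[ℂ] ℂ)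
    (h2 : ∀ i P, F (X i * P) = ∑ j, C i j * F (pderiv j P)) (P : MvPolynomial σ ℂ) :
    F P = F 1 * W C P := by
  have h := W_unique C hC (F - F 1 • W C + W C) (by simp [W_one]) (by
    intro i P
    simp only [LinearMap.add_apply, LinearMap.sub_apply, LinearMap.smul_apply, smul_eq_mul, h2,
      W_X_mul C hC, Finset.mul_sum]
    rw [← Finset.sum_sub_distrib, ← Finset.sum_add_distrib]
    exact Finset.sum_congr rfl fun j _ => by ring)
  have h' := LinearMap.congr_fun h P
  simp only [LinearMap.add_apply, LinearMap.sub_apply, LinearMap.smul_apply, smul_eq_mul] at h'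
  linear_combination h'

/-- no coupling: the functional factorizes -/
lemma W_cv_zero (L : τ → τ → ℂ) (hL : ∀ i j, L i j = L j i) (A B : MvPolynomial τ ℂ) :
    W (cv L (fun _ _ => 0)) (rename Sum.inl A * rename Sum.inr B) =
      W (fun i j => (starRingEnd ℂ) (L i j)) A * W L B := by
  have hcv := cv_symm L (fun _ _ => 0) hL
  have hL' : ∀ i j, (starRingEnd ℂ) (L i j) = (starRingEnd ℂ) (L j i) := fun i j => by rw [hL i j]
  -- the right half
  have hB : W (cv L (fun _ _ => 0)) (rename Sum.inr B) = W L B := by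
    let F : MvPolynomial τ ℂ →ₗ[ℂ] ℂ :=
      (W (cv L (fun _ _ => 0))).comp (rename (Sum.inr : τ → τ ⊕ τ)).toLinearMap
    have h := W_unique' L hL F (by
      intro i P
      simp only [F, LinearMap.comp_apply, AlgHom.toLinearMap_apply, map_mul, rename_X]
      rw [W_X_mul _ hcv, Fintype.sum_sum_type]
      simp only [pderiv_inl_rename_inr, pderiv_inr_rename_inr, map_zero, mul_zero,
        Finset.sum_const_zero, zero_add, cv]) B
    simpa [F, W_one] using h
  let F : MvPolynomial τ ℂ →ₗ[ℂ] ℂ :=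
    ((W (cv L (fun _ _ => 0))).comp (LinearMap.mulRight ℂ (rename Sum.inr B))).comp
      (rename (Sum.inl : τ → τ ⊕ τ)).toLinearMap
  have h := W_unique' (fun i j => (starRingEnd ℂ) (L i j)) hL' F (by
    intro i P
    simp only [F, LinearMap.comp_apply, AlgHom.toLinearMap_apply, map_mul, rename_X,
      LinearMap.mulRight_apply]
    rw [mul_assoc, W_X_mul _ hcv, Fintype.sum_sum_type]
    simp only [pderiv_mul, pderiv_inl_rename_inl, pderiv_inl_rename_inr, pderiv_inr_rename_inr,
      pderiv_inr_rename_inl, mul_zero, add_zero, zero_mul, zero_add, cv, Finset.sum_const_zero]) A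
  have e : F A = W (cv L (fun _ _ => 0)) (rename Sum.inl A * rename Sum.inr B) := rfl
  have e1 : F 1 = W L B := by
    rw [← hB]
    simp [F]
  rw [← e, h, e1, mul_comm]

lemma G_zero_self (L : τ → τ → ℂ) (hL : ∀ i j, L i j = L j i) (U : MvPolynomial τ ℂ) :
    0 ≤ G L (fun _ _ => 0) U U := by
  rw [G, W_cv_zero L hL, W_cj L hL, ← Complex.star_def]
  exact star_mul_self_nonneg _

lemma mono_aux (f f' : ℝ → ℂ) (h : ∀ t, HasDerivAt f (f' t) t) (h' : ∀ t, 0 ≤ t → 0 ≤ f' t)
    (t : ℝ) (ht : 0 ≤ t) : f 0 ≤ f t := by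
  have hre : ∀ t, HasDerivAt (fun t => (f t).re) (f' t).re t := fun t =>
    (Complex.reCLM.hasFDerivAt (x := f t)).comp_hasDerivAt t (h t)
  have him : ∀ t, HasDerivAt (fun t => (f t).im) (f' t).im t := fun t =>
    (Complex.imCLM.hasFDerivAt (x := f t)).comp_hasDerivAt t (h t)
  rw [Complex.le_def]
  constructor
  · refine monotoneOn_of_deriv_nonneg (convex_Ici (0 : ℝ))
      (fun x _ => (hre x).continuousAt.continuousWithinAt)
      (fun x _ => (hre x).differentiableAt.differentiableWithinAt) (fun x hx => ?_)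
      (Set.mem_Ici.2 le_rfl) (Set.mem_Ici.2 ht) ht
    rw [interior_Ici] at hx
    rw [(hre x).deriv]
    exact (Complex.le_def.1 (h' x (le_of_lt hx))).1
  · have h1 : MonotoneOn (fun t => (f t).im) (Set.Ici 0) := by
      refine monotoneOn_of_deriv_nonneg (convex_Ici (0 : ℝ))
        (fun x _ => (him x).continuousAt.continuousWithinAt)
        (fun x _ => (him x).differentiableAt.differentiableWithinAt) (fun x hx => ?_)
      rw [interior_Ici] at hx
      rw [(him x).deriv]
      exact le_of_eq (Complex.le_def.1 (h' x (le_of_lt hx))).2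
    have h2 : AntitoneOn (fun t => (f t).im) (Set.Ici 0) := by
      refine antitoneOn_of_deriv_nonpos (convex_Ici (0 : ℝ))
        (fun x _ => (him x).continuousAt.continuousWithinAt)
        (fun x _ => (him x).differentiableAt.differentiableWithinAt) (fun x hx => ?_)
      rw [interior_Ici] at hx
      rw [(him x).deriv]
      exact le_of_eq (Complex.le_def.1 (h' x (le_of_lt hx))).2.symm
    exact le_antisymm (h1 (Set.mem_Ici.2 le_rfl) (Set.mem_Ici.2 ht) ht)
      (h2 (Set.mem_Ici.2 le_rfl) (Set.mem_Ici.2 ht) ht)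

/-- positivity of the form for a Gram coupling -/
lemma G_nonneg_aux {ι : Type*} (s : Finset ι) (L K : τ → τ → ℂ) (hL : ∀ i j, L i j = L j i)
    (a : ι → τ → ℂ) (hK : ∀ i j, K i j = ∑ r ∈ s, (starRingEnd ℂ) (a r i) * a r j) :
    ∀ (n : ℕ) (U : MvPolynomial τ ℂ), U.totalDegree ≤ n → ∀ t : ℝ, 0 ≤ t →
      0 ≤ G L (fun i j => (t : ℂ) * K i j) U U := by
  intro n
  induction n with
  | zero =>
    intro U hU t ht
    have h0 : U.totalDegree = 0 := Nat.le_zero.1 hU
    rw [totalDegree_eq_zero_iff_eq_C] at h0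
    rw [h0, show (C (coeff 0 U) : MvPolynomial τ ℂ) = C (coeff 0 U) * 1 by rw [mul_one], G_C_left,
      G_C_right, G_one_one, mul_one, ← Complex.star_def]
    exact star_mul_self_nonneg _
  | succ n ih =>
    intro U hU t ht
    have hd := fun s : ℝ => G_hasDerivAt L K U U s
    have h0 : 0 ≤ G L (fun i j => ((0 : ℝ) : ℂ) * K i j) U U := by
      have : (fun i j => ((0 : ℝ) : ℂ) * K i j) = fun _ _ => (0 : ℂ) := by
        funext i j; simp
      rw [this]
      exact G_zero_self L hL U
    refine h0.trans (mono_aux (fun t : ℝ => G L (fun i j => (t : ℂ) * K i j) U U) _ hd ?_ t ht)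
    intro u hu
    set D : ι → MvPolynomial τ ℂ := fun r => ∑ j, C (a r j) * pderiv j U with hD
    have key : ∑ i, ∑ j, K i j * G L (fun i j => (u : ℂ) * K i j) (pderiv i U) (pderiv j U) =
        ∑ r ∈ s, G L (fun i j => (u : ℂ) * K i j) (D r) (D r) := by
      have e : ∀ r, G L (fun i j => (u : ℂ) * K i j) (D r) (D r) = ∑ i, ∑ j,
          (starRingEnd ℂ) (a r i) * a r j *
            G L (fun i j => (u : ℂ) * K i j) (pderiv i U) (pderiv j U) := by
        intro r
        simp only [hD]
        rw [G_sum_left]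
        refine Finset.sum_congr rfl fun i _ => ?_
        rw [G_C_left, G_sum_right, Finset.mul_sum]
        refine Finset.sum_congr rfl fun j _ => ?_
        rw [G_C_right]
        ring
      simp only [e]
      symm
      rw [Finset.sum_comm]
      refine Finset.sum_congr rfl fun i _ => ?_
      rw [Finset.sum_comm]
      refine Finset.sum_congr rfl fun j _ => ?_
      rw [← Finset.sum_mul, ← hK]
    rw [key]
    refine Finset.sum_nonneg fun r _ => ih (D r) ?_ u hu
    refine (totalDegree_finsetSum _ _).trans (Finset.sup_le fun j _ => ?_)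
    refine (totalDegree_mul _ _).trans ?_
    rw [totalDegree_C, zero_add]
    refine (totalDegree_pderiv_le j U).trans ?_
    omega

/-- REFLECTION POSITIVITY, abstract form: covariance `conj L` on the left half, `L` on the right half,
`K` positive semidefinite across. -/
theorem W_rp (L K : τ → τ → ℂ) (hL : ∀ i j, L i j = L j i) (hK : (Matrix.of K).PosSemidef)
    (U : MvPolynomial τ ℂ) :
    0 ≤ W (fun p q : τ ⊕ τ => match p, q with
        | .inl i, .inl j => (starRingEnd ℂ) (L i j)
        | .inr i, .inr j => L i j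
        | .inl i, .inr j => K i j
        | .inr i, .inl j => K j i)
      (rename Sum.inl (cj U) * rename Sum.inr U) := by
  obtain ⟨m, v, hv⟩ := Matrix.posSemidef_iff_eq_sum_vecMulVec.1 hK
  have hK' : ∀ i j, K i j = ∑ r ∈ (Finset.univ : Finset (Fin m)),
      (starRingEnd ℂ) (star (v r i)) * star (v r j) := by
    intro i j
    have h := congrFun (congrFun hv i) j
    rw [Matrix.of_apply, Matrix.sum_apply] at h
    rw [h]
    refine Finset.sum_congr rfl fun r _ => ?_
    rw [Matrix.vecMulVec_apply, Pi.star_apply]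
    simp
  have h := G_nonneg_aux Finset.univ L K hL (fun r i => star (v r i)) hK' U.totalDegree U le_rfl 1
    zero_le_one
  have e : (fun i j => ((1 : ℝ) : ℂ) * K i j) = K := by
    funext i j; simp
  rw [e, G] at h
  have e2 : (fun p q : τ ⊕ τ => match p, q with
        | .inl i, .inl j => (starRingEnd ℂ) (L i j)
        | .inr i, .inr j => L i j
        | .inl i, .inr j => K i j
        | .inr i, .inl j => K j i) = cv L K := by
    funext p q
    rcases p with i | i <;> rcases q with j | j <;> rfl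
  rw [e2]
  simpa using h

end WRP

section Sites

variable {κ d : Type} [Fintype κ] [DecidableEq κ] [Fintype d] [DecidableEq d]

/-- the half-space map -/
def hl (N : κ → Prop) [DecidablePred N] (p : κ × d) : Site κ d :=
  if N p.1 then Sum.inl p else Sum.inr p

/-- the mirror map -/
def hr (N : κ → Prop) [DecidablePred N] (p : κ × d) : Site κ d :=
  if N p.1 then Sum.inr p else Sum.inl p

/-- both halves together are all the sites -/
def halves (N : κ → Prop) [DecidablePred N] : (κ × d) ⊕ (κ × d) ≃ Site κ d where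
  toFun := Sum.elim (hl N) (hr N)
  invFun p := match p with
    | .inl p => if N p.1 then Sum.inl p else Sum.inr p
    | .inr p => if N p.1 then Sum.inr p else Sum.inl p
  left_inv := by
    rintro (p | p) <;> by_cases h : N p.1 <;> simp [hl, hr, h]
  right_inv := by
    rintro (p | p) <;> by_cases h : N p.1 <;> simp [hl, hr, h]

lemma cov_symm (S : κ → κ → ℝ) (p q : Site κ d) : cov S p q = cov S q p := by
  rcases p with p | p <;> rcases q with q | q <;> rfl

/-- REFLECTION POSITIVITY for a symmetric `S` with `S` psd on `{N}` and on `{¬N}`: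
a left polynomial `U` in the variables bra `a` (`N a`), ket `a` (`¬ N a`). -/
theorem W_rp_site (S : κ → κ → ℝ) (hS : ∀ a b, S a b = S b a) (N : κ → Prop) [DecidablePred N]
    (h1 : (Matrix.of (fun a b : {a // N a} => S a b)).PosSemidef)
    (h2 : (Matrix.of (fun a b : {a // ¬ N a} => S a b)).PosSemidef)
    (U : MvPolynomial (κ × d) ℂ) :
    0 ≤ W (cov (d := d) S)
      (rename (fun p : κ × d => if N p.1 then Sum.inl p else Sum.inr p) U *
       rename (fun p : κ × d => if N p.1 then Sum.inr p else Sum.inl p) (cj U)) := by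
  -- the couplings inside a half and across
  set L : κ × d → κ × d → ℂ := fun p q =>
    if (N p.1 ↔ N q.1) then 0 else if p.2 = q.2 then (S p.1 q.1 : ℂ) else 0 with hL
  set K : κ × d → κ × d → ℂ := fun p q =>
    if (N p.1 ↔ N q.1) then (if p.2 = q.2 then (S p.1 q.1 : ℂ) else 0) else 0 with hK
  have hLs : ∀ p q, L p q = L q p := by
    intro p q
    simp only [hL]
    rw [hS p.1 q.1]
    by_cases h : (N p.1 ↔ N q.1)
    · rw [if_pos h, if_pos h.symm]
    · rw [if_neg h, if_neg (fun h' => h (Iff.symm h'))]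
      by_cases h' : p.2 = q.2
      · rw [if_pos h', if_pos h'.symm]
      · rw [if_neg h', if_neg (fun hh => h' hh.symm)]
  have hcov : (fun p q : (κ × d) ⊕ (κ × d) => cov S (halves N p) (halves N q)) = cv L K := by
    funext p q
    rcases p with p | p <;> rcases q with q | q <;> by_cases hp : N p.1 <;>
      by_cases hq : N q.1 <;> by_cases hpq : p.2 = q.2 <;>
      simp [halves, hl, hr, cv, cov, hL, hK, hp, hq, hS q.1 p.1, hpq, Ne.symm]
  obtain ⟨m1, v1, hv1⟩ := Matrix.posSemidef_iff_eq_sum_vecMulVec.1 h1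
  obtain ⟨m2, v2, hv2⟩ := Matrix.posSemidef_iff_eq_sum_vecMulVec.1 h2
  have hv1' : ∀ a b : {a // N a}, S a b = ∑ r, v1 r a * v1 r b := by
    intro a b
    have h := congrFun (congrFun hv1 a) b
    rw [Matrix.of_apply, Matrix.sum_apply] at h
    rw [h]
    exact Finset.sum_congr rfl fun r _ => by rw [Matrix.vecMulVec_apply, Pi.star_apply]; simp
  have hv2' : ∀ a b : {a // ¬ N a}, S a b = ∑ r, v2 r a * v2 r b := by
    intro a b
    have h := congrFun (congrFun hv2 a) b
    rw [Matrix.of_apply, Matrix.sum_apply] at h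
    rw [h]
    exact Finset.sum_congr rfl fun r _ => by rw [Matrix.vecMulVec_apply, Pi.star_apply]; simp
  let A : (Fin m1 × d) ⊕ (Fin m2 × d) → κ × d → ℂ := fun r p =>
    match r with
    | .inl r => if h : N p.1 then (if p.2 = r.2 then (v1 r.1 ⟨p.1, h⟩ : ℂ) else 0) else 0
    | .inr r => if h : N p.1 then 0 else (if p.2 = r.2 then (v2 r.1 ⟨p.1, h⟩ : ℂ) else 0)
  have hKA : ∀ p q, K p q = ∑ r ∈ (Finset.univ : Finset ((Fin m1 × d) ⊕ (Fin m2 × d))),
      (starRingEnd ℂ) (A r p) * A r q := by
    intro p q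
    rw [Fintype.sum_sum_type, Fintype.sum_prod_type, Fintype.sum_prod_type]
    by_cases hp : N p.1 <;> by_cases hq : N q.1
    · have e := hv1' ⟨p.1, hp⟩ ⟨q.1, hq⟩
      simp only at e
      by_cases hpq : p.2 = q.2
      · simp [hK, A, hp, hq, hpq, e, apply_ite, ite_mul]
      · simp [hK, A, hp, hq, hpq, apply_ite, ite_mul]
    · simp [hK, A, hp, hq]
    · simp [hK, A, hp, hq]
    · have e := hv2' ⟨p.1, hp⟩ ⟨q.1, hq⟩
      simp only at e
      by_cases hpq : p.2 = q.2
      · simp [hK, A, hp, hq, hpq, e, apply_ite, ite_mul]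
      · simp [hK, A, hp, hq, hpq, apply_ite, ite_mul]
  have h := G_nonneg_aux Finset.univ L K hLs A hKA _ (cj U) le_rfl 1 zero_le_one
  have e1 : (fun i j => ((1 : ℝ) : ℂ) * K i j) = K := by
    funext i j; simp
  rw [e1, G, cj_cj, ← hcov, ← W_rename _ (cov_symm S) (halves N), map_mul, rename_rename,
    rename_rename] at h
  exact h

end Sites

end Pool.Agent.Work.MP_8d2b2d_co.RP
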