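import Pool.Agent.Work.MP_8d2b2d_co.RP.EvalA
import Pool.Agent.Work.MP_8d2b2d_co.RP.WRP

/-!
# The reflection form: operators on left vectors

`RB S N U V` is the (real part of the) reflection form of two left vectors. `Am a` is the free
multiplication by the linear form at the left site `a` (the couplings inside the half removed),
`Dm a` the derivative at the left site `a`.
-/

namespace Pool.Agent.Work.MP_8d2b2d_co.RP

open MvPolynomial Finset

set_option linter.unusedSectionVars false

section Half

variable {κ d : Type} [Fintype κ] [DecidableEq κ] [Fintype d] [DecidableEq d]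

/-- the reflection form -/
noncomputable def GF (S : κ → κ → ℝ) (N : κ → Prop) [DecidablePred N]
    (U V : MvPolynomial (κ × d) ℂ) : ℂ :=
  W (cov S) (rename (hl N) U * rename (hr N) (cj V))

/-- its real part -/
noncomputable def RB (S : κ → κ → ℝ) (N : κ → Prop) [DecidablePred N]
    (U V : MvPolynomial (κ × d) ℂ) : ℝ := (GF S N U V).re

/-- the coefficients of the linear form at the left site `a` -/
noncomputable def vc (N : κ → Prop) [DecidablePred N] (v : d → ℂ) (a : κ) (c : d) : ℂ :=
  if N a then (starRingEnd ℂ) (v c) else v c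

/-- the linear form at the left site `a` -/
noncomputable def ml (N : κ → Prop) [DecidablePred N] (v : d → ℂ) (a : κ) :
    MvPolynomial (κ × d) ℂ := ∑ c, C (vc N v a c) * X (a, c)

/-- the derivative at the left site `a` -/
noncomputable def dl (N : κ → Prop) [DecidablePred N] (v : d → ℂ) (a : κ)
    (U : MvPolynomial (κ × d) ℂ) : MvPolynomial (κ × d) ℂ :=
  ∑ c, C ((starRingEnd ℂ) (vc N v a c)) * pderiv (a, c) U

/-- free multiplication at the left site `a` -/
noncomputable def al (S : κ → κ → ℝ) (N : κ → Prop) [DecidablePred N] (v : d → ℂ) (a : κ)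
    (U : MvPolynomial (κ × d) ℂ) : MvPolynomial (κ × d) ℂ :=
  ml N v a * U - ∑ b, C ((if N a ↔ N b then 0 else S a b : ℝ) : ℂ) * dl N v b U

variable (S : κ → κ → ℝ) (N : κ → Prop) [DecidablePred N] (v : d → ℂ)

lemma hl_inj : Function.Injective (hl N : κ × d → Site κ d) := by
  intro p q h
  have h1 := (halves (d := d) N).injective (a₁ := Sum.inl p) (a₂ := Sum.inl q) h
  exact Sum.inl.inj h1

lemma hr_inj : Function.Injective (hr N : κ × d → Site κ d) := by
  intro p q h
  have h1 := (halves (d := d) N).injective (a₁ := Sum.inr p) (a₂ := Sum.inr q) h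
  exact Sum.inr.inj h1

lemma hl_ne_hr (p q : κ × d) : (hl N p : Site κ d) ≠ hr N q := by
  intro h
  have h1 := (halves (d := d) N).injective (a₁ := Sum.inl p) (a₂ := Sum.inr q) h
  exact Sum.inl_ne_inr h1

lemma pderiv_rename_ne {α β : Type} [DecidableEq β] (f : α → β) (x : β) (hx : ∀ a, f a ≠ x)
    (P : MvPolynomial α ℂ) : pderiv x (rename f P) = 0 := by
  refine pderiv_eq_zero_of_notMem_vars fun hh => ?_
  have := vars_rename f P hh
  rw [Finset.mem_image] at this
  obtain ⟨y, _, h1⟩ := this
  exact hx y h1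

lemma pderiv_hl_hr (p : κ × d) (V : MvPolynomial (κ × d) ℂ) :
    pderiv (hl N p) (rename (hr N : κ × d → Site κ d) V) = 0 :=
  pderiv_rename_ne _ _ (fun q h => hl_ne_hr N p q h.symm) V

lemma pderiv_hr_hl (p : κ × d) (V : MvPolynomial (κ × d) ℂ) :
    pderiv (hr N p) (rename (hl N : κ × d → Site κ d) V) = 0 :=
  pderiv_rename_ne _ _ (fun q h => hl_ne_hr N q p h) V

lemma pderiv_hl_hl (p : κ × d) (V : MvPolynomial (κ × d) ℂ) :
    pderiv (hl N p) (rename (hl N : κ × d → Site κ d) V) = rename (hl N) (pderiv p V) :=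
  pderiv_rename (hl_inj N) p V

lemma pderiv_hr_hr (p : κ × d) (V : MvPolynomial (κ × d) ℂ) :
    pderiv (hr N p) (rename (hr N : κ × d → Site κ d) V) = rename (hr N) (pderiv p V) :=
  pderiv_rename (hr_inj N) p V

lemma cj_dl (a : κ) (V : MvPolynomial (κ × d) ℂ) :
    cj (dl N v a V) = ∑ c, C (vc N v a c) * pderiv (a, c) (cj V) := by
  rw [dl, cj_sum]
  refine Finset.sum_congr rfl fun c _ => ?_
  rw [cj_mul, cj_C, cj_pderiv, Complex.conj_conj]

lemma rename_ml (a : κ) : rename (hl N) (ml N v a) =
    (if N a then bra a (Lf v) else ket a (Lf v) : MvPolynomial (Site κ d) ℂ) := by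
  by_cases h : N a
  · simp [ml, vc, h, hl, bra, Lf, cj]
  · simp [ml, vc, h, hl, ket, Lf]

/-- integration by parts for the plain multiplication -/
theorem GF_ml (hS : ∀ a b, S a b = S b a) (a : κ) (U V : MvPolynomial (κ × d) ℂ) :
    GF S N (ml N v a * U) V =
      ∑ b, ((if N a ↔ N b then 0 else S a b : ℝ) : ℂ) * GF S N (dl N v b U) V +
      ∑ b, ((if N a ↔ N b then S a b else 0 : ℝ) : ℂ) * GF S N U (dl N v b V) := by
  have hD : ∀ b, (if N a then Dket b v (rename (hl N) U * rename (hr N) (cj V)) else
      Dbra b v (rename (hl N) U * rename (hr N) (cj V))) =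
      if N a ↔ N b then rename (hl N) U * rename (hr N) (cj (dl N v b V)) else
        rename (hl N) (dl N v b U) * rename (hr N) (cj V) := by
    intro b
    by_cases ha : N a <;> by_cases hb : N b
    · have e : ∀ c : d, (Sum.inr (b, c) : Site κ d) = hr N (b, c) := by intro c; simp [hr, hb]
      simp only [ha, hb, if_true, Dket, e, cj_dl, map_sum, map_mul, Finset.mul_sum]
      refine Finset.sum_congr rfl fun c _ => ?_
      rw [pderiv_mul, pderiv_hr_hl, pderiv_hr_hr, rename_C]
      simp only [vc, hb, if_true]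
      ring
    · have e : ∀ c : d, (Sum.inr (b, c) : Site κ d) = hl N (b, c) := by intro c; simp [hl, hb]
      simp only [ha, hb, if_true, Dket, e, dl, map_sum, map_mul, Finset.sum_mul, iff_false,
        not_true_eq_false, if_false]
      refine Finset.sum_congr rfl fun c _ => ?_
      rw [pderiv_mul, pderiv_hl_hl, pderiv_hl_hr, rename_C]
      simp only [vc, hb, if_false]
      ring
    · have e : ∀ c : d, (Sum.inl (b, c) : Site κ d) = hl N (b, c) := by intro c; simp [hl, hb]
      simp only [ha, hb, if_false, Dbra, e, dl, map_sum, map_mul, Finset.sum_mul, iff_true]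
      refine Finset.sum_congr rfl fun c _ => ?_
      rw [pderiv_mul, pderiv_hl_hl, pderiv_hl_hr, rename_C]
      simp only [vc, hb, if_true, Complex.conj_conj]
      ring
    · have e : ∀ c : d, (Sum.inl (b, c) : Site κ d) = hr N (b, c) := by intro c; simp [hr, hb]
      simp only [ha, hb, if_false, Dbra, e, cj_dl, map_sum, map_mul, Finset.mul_sum, iff_self,
        if_true]
      refine Finset.sum_congr rfl fun c _ => ?_
      rw [pderiv_mul, pderiv_hr_hl, pderiv_hr_hr, rename_C]
      simp only [vc, hb, if_false]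
      ring
  have h1 : GF S N (ml N v a * U) V = ∑ b, (S a b : ℂ) * W (cov S)
      (if N a ↔ N b then rename (hl N) U * rename (hr N) (cj (dl N v b V)) else
        rename (hl N) (dl N v b U) * rename (hr N) (cj V)) := by
    rw [GF, map_mul (rename (hl N)), rename_ml, mul_assoc]
    simp only [← hD]
    by_cases ha : N a
    · simp only [ha, if_true]
      rw [ibp_bra]
    · simp only [ha, if_false]
      rw [ibp_ket]
      exact Finset.sum_congr rfl fun b _ => by rw [hS b a]
  rw [h1, ← Finset.sum_add_distrib]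
  refine Finset.sum_congr rfl fun b _ => ?_
  by_cases h : N a ↔ N b
  · simp only [h, if_true, GF]; simp
  · simp only [h, if_false, GF]; simp

lemma GF_add_left (U U' V : MvPolynomial (κ × d) ℂ) :
    GF S N (U + U') V = GF S N U V + GF S N U' V := by
  rw [GF, map_add, add_mul, map_add]; rfl

lemma GF_C_left (c : ℂ) (U V : MvPolynomial (κ × d) ℂ) :
    GF S N (C c * U) V = c * GF S N U V := by
  rw [GF, map_mul (rename (hl N)), rename_C, mul_assoc, W_C_mul']; rfl

lemma GF_sub_left (U U' V : MvPolynomial (κ × d) ℂ) :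
    GF S N (U - U') V = GF S N U V - GF S N U' V := by
  rw [GF, map_sub, sub_mul, map_sub]; rfl

lemma GF_zero_left (V : MvPolynomial (κ × d) ℂ) : GF S N 0 V = 0 := by
  rw [GF, map_zero, zero_mul, map_zero]

lemma GF_sum_left {ι : Type*} (s : Finset ι) (f : ι → MvPolynomial (κ × d) ℂ)
    (V : MvPolynomial (κ × d) ℂ) : GF S N (∑ i ∈ s, f i) V = ∑ i ∈ s, GF S N (f i) V := by
  rw [GF, map_sum, Finset.sum_mul, map_sum]; rfl

/-- the form is Hermitian -/
theorem GF_conj (hS : ∀ a b, S a b = S b a) (U V : MvPolynomial (κ × d) ℂ) :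
    (starRingEnd ℂ) (GF S N U V) = GF S N V U := by
  have hc : (fun i j : Site κ d => (starRingEnd ℂ) (cov S i j)) = cov S := by
    funext x y
    rcases x with x | x <;> rcases y with y | y <;> simp [cov, apply_ite (starRingEnd ℂ)]
  have h1 : cj (rename (hl N) U * rename (hr N) (cj V)) =
      rename (Equiv.sumComm (κ × d) (κ × d)) (rename (hl N) V * rename (hr N) (cj U)) := by
    have e1 : cj (rename (hl N) U) = rename (Equiv.sumComm (κ × d) (κ × d))
        (rename (hr N) (cj U)) := by
      rw [cj, MvPolynomial.map_rename, rename_rename]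
      have : (hl N : κ × d → Site κ d) = (Equiv.sumComm (κ × d) (κ × d)) ∘ (hr N) := by
        funext p
        by_cases h : N p.1 <;> simp [hl, hr, h]
      rw [this]
      rfl
    have e2 : cj (rename (hr N) (cj V)) = rename (Equiv.sumComm (κ × d) (κ × d))
        (rename (hl N) V) := by
      rw [cj, MvPolynomial.map_rename, rename_rename]
      have : (hr N : κ × d → Site κ d) = (Equiv.sumComm (κ × d) (κ × d)) ∘ (hl N) := by
        funext p
        by_cases h : N p.1 <;> simp [hl, hr, h]
      rw [this]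
      have e3 : (map (starRingEnd ℂ)) (cj V) = V := cj_cj V
      rw [e3]
    rw [cj_mul, e1, e2, map_mul, mul_comm]
  unfold GF
  rw [← W_cj (cov S) (cov_comm S), hc, h1, W_rename (cov S) (cov_comm S)]
  congr 2
  funext x y
  rcases x with x | x <;> rcases y with y | y
  · rfl
  · show (if y.2 = x.2 then (S y.1 x.1 : ℂ) else 0) = if x.2 = y.2 then (S x.1 y.1 : ℂ) else 0
    rw [hS]
    by_cases hxy : x.2 = y.2
    · rw [if_pos hxy, if_pos hxy.symm]
    · rw [if_neg hxy, if_neg (Ne.symm hxy)]
  · show (if x.2 = y.2 then (S x.1 y.1 : ℂ) else 0) = if y.2 = x.2 then (S y.1 x.1 : ℂ) else 0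
    rw [hS]
    by_cases hxy : x.2 = y.2
    · rw [if_pos hxy, if_pos hxy.symm]
    · rw [if_neg hxy, if_neg (Ne.symm hxy)]
  · rfl

/-- integration by parts for the free multiplication -/
theorem GF_al (hS : ∀ a b, S a b = S b a) (a : κ) (U V : MvPolynomial (κ × d) ℂ) :
    GF S N (al S N v a U) V =
      ∑ b, ((if N a ↔ N b then S a b else 0 : ℝ) : ℂ) * GF S N U (dl N v b V) := by
  rw [al, GF_sub_left, GF_ml S N v hS, GF_sum_left]
  simp only [GF_C_left]
  ring

lemma RB_add_left (U U' V : MvPolynomial (κ × d) ℂ) :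
    RB S N (U + U') V = RB S N U V + RB S N U' V := by
  rw [RB, GF_add_left, Complex.add_re]; rfl

lemma RB_smul_left (c : ℝ) (U V : MvPolynomial (κ × d) ℂ) :
    RB S N (C (c : ℂ) * U) V = c * RB S N U V := by
  rw [RB, GF_C_left, Complex.re_ofReal_mul]; rfl

lemma RB_symm (hS : ∀ a b, S a b = S b a) (U V : MvPolynomial (κ × d) ℂ) :
    RB S N U V = RB S N V U := by
  rw [RB, RB, ← GF_conj S N hS V U, Complex.conj_re]

lemma RB_al (hS : ∀ a b, S a b = S b a) (a : κ) (U V : MvPolynomial (κ × d) ℂ) :
    RB S N (al S N v a U) V =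
      ∑ b, (if N a ↔ N b then S a b else 0) * RB S N U (dl N v b V) := by
  rw [RB, GF_al S N v hS, Complex.re_sum]
  refine Finset.sum_congr rfl fun b _ => ?_
  rw [Complex.re_ofReal_mul]; rfl

/-- **positivity** -/
theorem RB_nonneg (hS : ∀ a b, S a b = S b a)
    (h1 : (Matrix.of (fun a b : {a // N a} => S a b)).PosSemidef)
    (h2 : (Matrix.of (fun a b : {a // ¬ N a} => S a b)).PosSemidef)
    (U : MvPolynomial (κ × d) ℂ) : 0 ≤ RB S N U U := by
  have h := W_rp_site S hS N h1 h2 U
  exact (Complex.le_def.1 h).1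

lemma dl_add (a : κ) (U V : MvPolynomial (κ × d) ℂ) :
    dl N v a (U + V) = dl N v a U + dl N v a V := by
  simp only [dl, map_add, mul_add, Finset.sum_add_distrib]

lemma dl_C_mul (a : κ) (c : ℂ) (U : MvPolynomial (κ × d) ℂ) :
    dl N v a (C c * U) = C c * dl N v a U := by
  simp only [dl, pderiv_C_mul, Finset.mul_sum]
  exact Finset.sum_congr rfl fun c _ => by ring

lemma dl_sub (a : κ) (U V : MvPolynomial (κ × d) ℂ) :
    dl N v a (U - V) = dl N v a U - dl N v a V := by
  simp only [dl, map_sub, mul_sub, Finset.sum_sub_distrib]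

lemma dl_sum {ι : Type*} (a : κ) (s : Finset ι) (f : ι → MvPolynomial (κ × d) ℂ) :
    dl N v a (∑ i ∈ s, f i) = ∑ i ∈ s, dl N v a (f i) := by
  simp only [dl, map_sum, Finset.mul_sum]
  rw [Finset.sum_comm]

lemma dl_comm (a b : κ) (U : MvPolynomial (κ × d) ℂ) :
    dl N v a (dl N v b U) = dl N v b (dl N v a U) := by
  have h : ∀ a b : κ, dl N v a (dl N v b U) = ∑ c, ∑ c', C ((starRingEnd ℂ) (vc N v a c)) *
      (C ((starRingEnd ℂ) (vc N v b c')) * pderiv (a, c) (pderiv (b, c') U)) := by
    intro a b
    rw [dl]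
    refine Finset.sum_congr rfl fun c _ => ?_
    rw [dl, map_sum, Finset.mul_sum]
    refine Finset.sum_congr rfl fun c' _ => ?_
    rw [pderiv_C_mul]
  rw [h a b, h b a, Finset.sum_comm]
  refine Finset.sum_congr rfl fun c _ => Finset.sum_congr rfl fun c' _ => ?_
  rw [pderiv_comm]
  ring

lemma dl_ml (a b : κ) (U : MvPolynomial (κ × d) ℂ) :
    dl N v a (ml N v b * U) = ml N v b * dl N v a U +
      (if a = b then C ((nu v : ℝ) : ℂ) * U else 0) := by
  have h0 : ∀ c, pderiv (a, c) (ml N v b) = if a = b then C (vc N v b c) else 0 := by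
    intro c
    rw [ml, map_sum]
    by_cases hab : a = b
    · subst hab
      rw [if_pos rfl, Finset.sum_eq_single c]
      · rw [pderiv_C_mul, pderiv_X_self, mul_one]
      · intro c' _ hc
        rw [pderiv_C_mul, pderiv_X_of_ne, mul_zero]
        intro h
        exact hc (Prod.mk.inj h).2
      · intro h; exact absurd (Finset.mem_univ _) h
    · rw [if_neg hab]
      refine Finset.sum_eq_zero fun c' _ => ?_
      rw [pderiv_C_mul, pderiv_X_of_ne, mul_zero]
      intro h
      exact hab (Prod.mk.inj h).1.symm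
  have h1 : dl N v a (ml N v b * U) = ml N v b * dl N v a U +
      (∑ c, C ((starRingEnd ℂ) (vc N v a c)) * pderiv (a, c) (ml N v b)) * U := by
    rw [dl, dl, Finset.mul_sum, Finset.sum_mul, ← Finset.sum_add_distrib]
    refine Finset.sum_congr rfl fun c _ => ?_
    rw [pderiv_mul]
    ring
  rw [h1]
  congr 1
  simp only [h0]
  by_cases hab : a = b
  · subst hab
    simp only [if_true]
    congr 1
    have h : ((nu v : ℝ) : ℂ) = ∑ c, (starRingEnd ℂ) (vc N v a c) * vc N v a c := by
      unfold nu
      rw [Complex.ofReal_sum]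
      refine Finset.sum_congr rfl fun c _ => ?_
      unfold vc
      by_cases ha : N a
      · rw [if_pos ha, Complex.conj_conj, Complex.mul_conj, Complex.normSq_eq_norm_sq]
      · rw [if_neg ha, mul_comm, Complex.mul_conj, Complex.normSq_eq_norm_sq]
    rw [h, map_sum]
    exact Finset.sum_congr rfl fun c _ => by rw [C_mul]
  · simp [hab]

/-- the commutation relation -/
theorem dl_al (a b : κ) (U : MvPolynomial (κ × d) ℂ) :
    dl N v a (al S N v b U) = al S N v b (dl N v a U) +
      (if a = b then C ((nu v : ℝ) : ℂ) * U else 0) := by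
  rw [al, dl_sub, dl_sum, dl_ml, al]
  simp only [dl_C_mul, dl_comm N v a]
  ring

lemma al_add (a : κ) (U V : MvPolynomial (κ × d) ℂ) :
    al S N v a (U + V) = al S N v a U + al S N v a V := by
  simp only [al, dl_add, mul_add, Finset.sum_add_distrib]
  ring

lemma al_C_mul (a : κ) (c : ℂ) (U : MvPolynomial (κ × d) ℂ) :
    al S N v a (C c * U) = C c * al S N v a U := by
  simp only [al, dl_C_mul, mul_sub, Finset.mul_sum]
  congr 1
  · ring
  · exact Finset.sum_congr rfl fun b _ => by ring


lemma al_sub (a : κ) (U V : MvPolynomial (κ × d) ℂ) :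
    al S N v a (U - V) = al S N v a U - al S N v a V := by
  simp only [al, dl_sub, mul_sub, Finset.sum_sub_distrib]
  ring

lemma al_sum {ι : Type*} (a : κ) (s : Finset ι) (f : ι → MvPolynomial (κ × d) ℂ) :
    al S N v a (∑ i ∈ s, f i) = ∑ i ∈ s, al S N v a (f i) := by
  classical
  induction s using Finset.induction_on with
  | empty => simp [al, dl]
  | insert i s hi ih => rw [Finset.sum_insert hi, Finset.sum_insert hi, al_add, ih]

/-- the free multiplications commute -/
theorem al_comm (hS : ∀ a b, S a b = S b a) (a b : κ) (U : MvPolynomial (κ × d) ℂ) :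
    al S N v a (al S N v b U) = al S N v b (al S N v a U) := by
  -- both sides in terms of the plain multiplications
  have key : ∀ a b : κ, al S N v a (al S N v b U) =
      ml N v a * (ml N v b * U) -
      (∑ c, C ((if N a ↔ N c then 0 else S a c : ℝ) : ℂ) * (ml N v b * dl N v c U)) -
      (∑ c, C ((if N b ↔ N c then 0 else S b c : ℝ) : ℂ) * (ml N v a * dl N v c U)) -
      C ((if N a ↔ N b then 0 else S a b : ℝ) : ℂ) * (C ((nu v : ℝ) : ℂ) * U) +
      ∑ c, ∑ e, C ((if N a ↔ N c then 0 else S a c : ℝ) : ℂ) *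
        (C ((if N b ↔ N e then 0 else S b e : ℝ) : ℂ) * dl N v c (dl N v e U)) := by
    intro a b
    rw [al, al]
    simp only [dl_sub, dl_ml, dl_sum, dl_C_mul, mul_sub, mul_add, Finset.sum_sub_distrib,
      Finset.sum_add_distrib, Finset.mul_sum, mul_ite, mul_zero, Finset.sum_ite_eq',
      Finset.mem_univ, if_true]
    have e1 : ∑ x, ml N v a * (C ((if N b ↔ N x then 0 else S b x : ℝ) : ℂ) * dl N v x U) =
        ∑ c, C ((if N b ↔ N c then 0 else S b c : ℝ) : ℂ) * (ml N v a * dl N v c U) :=
      Finset.sum_congr rfl fun c _ => by ring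
    rw [e1]
    ring
  rw [key a b, key b a]
  have e2 : (if N a ↔ N b then 0 else S a b : ℝ) = if N b ↔ N a then 0 else S b a := by
    rw [hS a b]
    by_cases h : (N a ↔ N b)
    · rw [if_pos h, if_pos h.symm]
    · rw [if_neg h, if_neg (fun h' => h (Iff.symm h'))]
  have e3 : ∑ c, ∑ e, C ((if N a ↔ N c then 0 else S a c : ℝ) : ℂ) *
        (C ((if N b ↔ N e then 0 else S b e : ℝ) : ℂ) * dl N v c (dl N v e U)) =
      ∑ c, ∑ e, C ((if N b ↔ N c then 0 else S b c : ℝ) : ℂ) *
        (C ((if N a ↔ N e then 0 else S a e : ℝ) : ℂ) * dl N v c (dl N v e U)) := by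
    rw [Finset.sum_comm]
    refine Finset.sum_congr rfl fun c _ => Finset.sum_congr rfl fun e _ => ?_
    rw [dl_comm]
    ring
  rw [e2, e3]
  ring

/-- a polynomial at the left site `a` -/
noncomputable def hm (a : κ) (f : MvPolynomial d ℂ) : MvPolynomial (κ × d) ℂ :=
  rename (fun c => (a, c)) (if N a then cj f else f)

lemma rename_hl_hm (a : κ) (f : MvPolynomial d ℂ) : rename (hl N) (hm N a f) =
    (if N a then bra a f else ket a f : MvPolynomial (Site κ d) ℂ) := by
  unfold hm
  rw [rename_rename]
  by_cases h : N a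
  · rw [if_pos h, if_pos h, bra]
    congr 2
    funext c
    simp [hl, h]
  · rw [if_neg h, if_neg h, ket]
    congr 2
    funext c
    simp [hl, h]

lemma rename_hr_hm (a : κ) (f : MvPolynomial d ℂ) : rename (hr N) (cj (hm N a f)) =
    (if N a then ket a f else bra a f : MvPolynomial (Site κ d) ℂ) := by
  unfold hm
  have e : cj (rename (fun c => (a, c)) (if N a then cj f else f) : MvPolynomial (κ × d) ℂ) =
      rename (fun c => (a, c)) (cj (if N a then cj f else f)) := by
    rw [cj, MvPolynomial.map_rename]; rfl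
  rw [e, rename_rename]
  by_cases h : N a
  · rw [if_pos h, if_pos h, ket, cj_cj]
    congr 2
    funext c
    simp [hr, h]
  · rw [if_neg h, if_neg h, bra]
    congr 2
    funext c
    simp [hr, h]

/-- the vector with `q a` derivatives at the left site `a` -/
noncomputable def Uq (g : MvPolynomial d ℂ) (q : κ → ℕ) : MvPolynomial (κ × d) ℂ :=
  ∏ a, hm N a (mo v g 0 (q a))

lemma pderiv_hm (a b : κ) (c : d) (f : MvPolynomial d ℂ) :
    pderiv (a, c) (hm N b f) = if a = b then hm N b (pderiv c f) else 0 := by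
  unfold hm
  by_cases h : a = b
  · subst h
    rw [if_pos rfl]
    have hinj : Function.Injective (fun c : d => (a, c)) := fun x y h => (Prod.mk.inj h).2
    have e := pderiv_rename hinj c (if N a then cj f else f)
    rw [e]
    congr 1
    by_cases h : N a
    · rw [if_pos h, if_pos h, cj_pderiv]
    · rw [if_neg h, if_neg h]
  · rw [if_neg h]
    exact pderiv_rename_ne _ _ (fun q hq => h (Prod.mk.inj hq).1.symm) _

lemma dl_hm (a : κ) (f : MvPolynomial d ℂ) :
    ∑ c, C ((starRingEnd ℂ) (vc N v a c)) * hm N a (pderiv c f) = hm N a (dd v f) := by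
  unfold hm
  by_cases h : N a
  · simp only [if_pos h, vc, Complex.conj_conj]
    rw [dd, cj_sum, map_sum]
    refine Finset.sum_congr rfl fun c _ => ?_
    rw [cj_mul, cj_C, Complex.conj_conj, map_mul, rename_C]
  · simp only [if_neg h, vc]
    rw [dd, map_sum]
    refine Finset.sum_congr rfl fun c _ => ?_
    rw [map_mul, rename_C]

lemma pderiv_prod_hm (a : κ) (c : d) (F : κ → MvPolynomial d ℂ) :
    pderiv (a, c) (∏ b, hm N b (F b)) =
      hm N a (pderiv c (F a)) * ∏ b ∈ univ.erase a, hm N b (F b) := by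
  have h : ∀ s : Finset κ, a ∉ s → pderiv (a, c) (∏ b ∈ s, hm N b (F b)) = 0 := by
    intro s hs
    induction s using Finset.induction_on with
    | empty => simp
    | insert b s hb ih =>
      have hab : a ≠ b := by
        rintro rfl
        exact hs (Finset.mem_insert_self _ _)
      rw [Finset.prod_insert hb, pderiv_mul, ih (fun h => hs (Finset.mem_insert_of_mem h)),
        pderiv_hm, if_neg hab]
      simp
  rw [← Finset.mul_prod_erase univ _ (Finset.mem_univ a), pderiv_mul,
    h _ (Finset.notMem_erase a univ), pderiv_hm, if_pos rfl, mul_zero, add_zero]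

/-- the derivative of `Uq` -/
theorem dl_Uq (g : MvPolynomial d ℂ) (q : κ → ℕ) (a : κ) :
    dl N v a (Uq N v g q) = Uq N v g (Function.update q a (q a + 1)) := by
  unfold Uq
  rw [dl]
  simp only [pderiv_prod_hm]
  have e : ∀ c, C ((starRingEnd ℂ) (vc N v a c)) * (hm N a (pderiv c (mo v g 0 (q a))) *
      ∏ b ∈ univ.erase a, hm N b (mo v g 0 (q b))) = (C ((starRingEnd ℂ) (vc N v a c)) *
      hm N a (pderiv c (mo v g 0 (q a)))) * ∏ b ∈ univ.erase a, hm N b (mo v g 0 (q b)) :=
    fun c => by ring
  simp only [e]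
  rw [← Finset.sum_mul, dl_hm]
  have h1 := prod_update (fun a' (_ : ℕ) y => hm N a' (mo v g 0 y)) q q a (q a) (q a + 1)
  rw [h1]
  congr 2
  have h2 := dd_mo v g 0 (q a)
  rw [h2]
  simp

/-- the form of two derivative vectors is a correlation -/
theorem GF_Uq (g : MvPolynomial d ℂ) (q q' : κ → ℕ) :
    GF S N (Uq N v g q) (Uq N v g q') =
      MM S v g (fun _ => 0) (fun a => if N a then q a else q' a) (fun _ => 0)
        (fun a => if N a then q' a else q a) := by
  unfold GF Uq MM
  rw [map_prod]
  have e : cj (∏ a, hm N a (mo v g 0 (q' a))) = ∏ a, cj (hm N a (mo v g 0 (q' a))) := by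
    rw [cj, map_prod]; rfl
  rw [e, map_prod]
  simp only [rename_hl_hm, rename_hr_hm]
  rw [← Finset.prod_mul_distrib, ← Finset.prod_mul_distrib]
  congr 1
  refine Finset.prod_congr rfl fun a _ => ?_
  by_cases h : N a
  · simp only [if_pos h]
  · simp only [if_neg h]
    ring

/-- derivative of a power of a free multiplication -/
lemma dl_al_iter (a b : κ) (n : ℕ) (U : MvPolynomial (κ × d) ℂ) :
    dl N v a ((al S N v b)^[n] U) = (al S N v b)^[n] (dl N v a U) +
      (if a = b then C (((nu v * n : ℝ)) : ℂ) * (al S N v b)^[n - 1] U else 0) := by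
  induction n with
  | zero => simp
  | succ n ih =>
    rw [Function.iterate_succ_apply', dl_al, ih, al_add, Function.iterate_succ_apply']
    by_cases h : a = b
    · subst h
      simp only [if_true, al_C_mul, Nat.add_sub_cancel]
      rcases Nat.eq_zero_or_pos n with rfl | hn
      · simp
      · have e : al S N v a ((al S N v a)^[n - 1] U) = (al S N v a)^[n] U := by
          rw [← Function.iterate_succ_apply' (al S N v a)]
          congr 1
          omega
        rw [e]
        push_cast
        simp only [C_mul, C_add, C_1]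
        ring
    · simp only [if_neg h, add_zero]
      have e0 : al S N v b (0 : MvPolynomial (κ × d) ℂ) = 0 := by
        simp [al, dl]
      rw [e0, add_zero]

lemma al_iter_C_mul (b : κ) (n : ℕ) (c : ℂ) (U : MvPolynomial (κ × d) ℂ) :
    (al S N v b)^[n] (C c * U) = C c * (al S N v b)^[n] U := by
  induction n with
  | zero => rfl
  | succ n ih => rw [Function.iterate_succ_apply', ih, al_C_mul, Function.iterate_succ_apply']

lemma al_iter_add (b : κ) (n : ℕ) (U V : MvPolynomial (κ × d) ℂ) :
    (al S N v b)^[n] (U + V) = (al S N v b)^[n] U + (al S N v b)^[n] V := by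
  induction n with
  | zero => rfl
  | succ n ih => simp only [Function.iterate_succ_apply', ih, al_add]

lemma al_iter_comm (hS : ∀ a b, S a b = S b a) (a b : κ) (n : ℕ) (U : MvPolynomial (κ × d) ℂ) :
    al S N v a ((al S N v b)^[n] U) = (al S N v b)^[n] (al S N v a U) := by
  induction n with
  | zero => rfl
  | succ n ih =>
    rw [Function.iterate_succ_apply', Function.iterate_succ_apply', al_comm S N v hS, ih]

end Half

section NV

variable {d : Type} [Fintype d] [DecidableEq d]
variable (S : ZMod 3 → ZMod 3 → ℝ) (N : ZMod 3 → Prop) [DecidablePred N] (v : d → ℂ)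
  (g : MvPolynomial d ℂ)

/-- the vector `A^p D^q u₀` -/
noncomputable def nv (p q : ZMod 3 → ℕ) : MvPolynomial (ZMod 3 × d) ℂ :=
  (al S N v 0)^[p 0] ((al S N v 1)^[p 1] ((al S N v 2)^[p 2] (Uq N v g q)))

lemma al_nv (hS : ∀ a b, S a b = S b a) (p q : ZMod 3 → ℕ) (a : ZMod 3) :
    al S N v a (nv S N v g p q) = nv S N v g (Function.update p a (p a + 1)) q := by
  unfold nv
  fin_cases a
  · show al S N v 0 _ = (al S N v 0)^[Function.update p 0 (p 0 + 1) 0]
      ((al S N v 1)^[Function.update p 0 (p 0 + 1) 1]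
        ((al S N v 2)^[Function.update p 0 (p 0 + 1) 2] (Uq N v g q)))
    rw [Function.update_self, Function.update_of_ne (by decide), Function.update_of_ne (by decide),
      Function.iterate_succ_apply']
  · show al S N v 1 _ = (al S N v 0)^[Function.update p 1 (p 1 + 1) 0]
      ((al S N v 1)^[Function.update p 1 (p 1 + 1) 1]
        ((al S N v 2)^[Function.update p 1 (p 1 + 1) 2] (Uq N v g q)))
    rw [Function.update_self, Function.update_of_ne (by decide), Function.update_of_ne (by decide),
      Function.iterate_succ_apply', al_iter_comm S N v hS]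
  · show al S N v 2 _ = (al S N v 0)^[Function.update p 2 (p 2 + 1) 0]
      ((al S N v 1)^[Function.update p 2 (p 2 + 1) 1]
        ((al S N v 2)^[Function.update p 2 (p 2 + 1) 2] (Uq N v g q)))
    rw [Function.update_self, Function.update_of_ne (by decide), Function.update_of_ne (by decide),
      Function.iterate_succ_apply', al_iter_comm S N v hS, al_iter_comm S N v hS]

lemma dl_nv (p q : ZMod 3 → ℕ) (a : ZMod 3) :
    dl N v a (nv S N v g p q) = nv S N v g p (Function.update q a (q a + 1)) +
      C ((nu v * p a : ℝ) : ℂ) * nv S N v g (Function.update p a (p a - 1)) q := by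
  unfold nv
  fin_cases a
  · show dl N v 0 _ = (al S N v 0)^[p 0] ((al S N v 1)^[p 1] ((al S N v 2)^[p 2]
        (Uq N v g (Function.update q 0 (q 0 + 1))))) + C ((nu v * p 0 : ℝ) : ℂ) *
        (al S N v 0)^[Function.update p 0 (p 0 - 1) 0]
      ((al S N v 1)^[Function.update p 0 (p 0 - 1) 1]
        ((al S N v 2)^[Function.update p 0 (p 0 - 1) 2] (Uq N v g q)))
    rw [Function.update_self, Function.update_of_ne (by decide), Function.update_of_ne (by decide),
      dl_al_iter, dl_al_iter, dl_al_iter, dl_Uq, if_pos rfl, if_neg (by decide),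
      if_neg (by decide), add_zero, add_zero]
  · show dl N v 1 _ = (al S N v 0)^[p 0] ((al S N v 1)^[p 1] ((al S N v 2)^[p 2]
        (Uq N v g (Function.update q 1 (q 1 + 1))))) + C ((nu v * p 1 : ℝ) : ℂ) *
        (al S N v 0)^[Function.update p 1 (p 1 - 1) 0]
      ((al S N v 1)^[Function.update p 1 (p 1 - 1) 1]
        ((al S N v 2)^[Function.update p 1 (p 1 - 1) 2] (Uq N v g q)))
    rw [Function.update_self, Function.update_of_ne (by decide), Function.update_of_ne (by decide),
      dl_al_iter, dl_al_iter, dl_al_iter, dl_Uq, if_pos rfl, if_neg (by decide),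
      if_neg (by decide), add_zero, add_zero, al_iter_add, al_iter_C_mul]
  · show dl N v 2 _ = (al S N v 0)^[p 0] ((al S N v 1)^[p 1] ((al S N v 2)^[p 2]
        (Uq N v g (Function.update q 2 (q 2 + 1))))) + C ((nu v * p 2 : ℝ) : ℂ) *
        (al S N v 0)^[Function.update p 2 (p 2 - 1) 0]
      ((al S N v 1)^[Function.update p 2 (p 2 - 1) 1]
        ((al S N v 2)^[Function.update p 2 (p 2 - 1) 2] (Uq N v g q)))
    rw [Function.update_self, Function.update_of_ne (by decide), Function.update_of_ne (by decide),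
      dl_al_iter, dl_al_iter, dl_al_iter, dl_Uq, if_pos rfl, if_neg (by decide),
      if_neg (by decide), add_zero, add_zero, al_iter_add, al_iter_add, al_iter_C_mul,
      al_iter_C_mul]

/-- the crossing matrix -/
noncomputable def Kc (a b : ZMod 3) : ℝ := if N a ↔ N b then S a b else 0

/-- the Gram function of the normal ordered monomials -/
noncomputable def gr (p q p' q' : ZMod 3 → ℕ) : ℝ :=
  RB S N (nv S N v g p q) (nv S N v g p' q')

lemma gr_symm (hS : ∀ a b, S a b = S b a) (p q p' q' : ZMod 3 → ℕ) :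
    gr S N v g p q p' q' = gr S N v g p' q' p q := RB_symm S N hS _ _

lemma RB_add_right (hS : ∀ a b, S a b = S b a) (U V V' : MvPolynomial (ZMod 3 × d) ℂ) :
    RB S N U (V + V') = RB S N U V + RB S N U V' := by
  rw [RB_symm S N hS, RB_add_left, RB_symm S N hS V, RB_symm S N hS V']

lemma RB_smul_right (hS : ∀ a b, S a b = S b a) (c : ℝ) (U V : MvPolynomial (ZMod 3 × d) ℂ) :
    RB S N U (C (c : ℂ) * V) = c * RB S N U V := by
  rw [RB_symm S N hS, RB_smul_left, RB_symm S N hS V]

/-- **the recursion** -/
theorem gr_left (hS : ∀ a b, S a b = S b a) (p q p' q' : ZMod 3 → ℕ) (a : ZMod 3) :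
    gr S N v g (Function.update p a (p a + 1)) q p' q' =
      ∑ b, Kc S N a b * (gr S N v g p q p' (Function.update q' b (q' b + 1)) +
        nu v * p' b * gr S N v g p q (Function.update p' b (p' b - 1)) q') := by
  unfold gr
  rw [← al_nv S N v g hS, RB_al S N v hS]
  refine Finset.sum_congr rfl fun b _ => ?_
  rw [dl_nv, RB_add_right S N hS, RB_smul_right S N hS]
  rfl

theorem gr_right (hS : ∀ a b, S a b = S b a) (p q p' q' : ZMod 3 → ℕ) (a : ZMod 3) :
    gr S N v g p q (Function.update p' a (p' a + 1)) q' =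
      ∑ b, Kc S N a b * (gr S N v g p (Function.update q b (q b + 1)) p' q' +
        nu v * p b * gr S N v g (Function.update p b (p b - 1)) q p' q') := by
  rw [gr_symm S N v g hS, gr_left S N v g hS]
  refine Finset.sum_congr rfl fun b _ => ?_
  rw [gr_symm S N v g hS p' q', gr_symm S N v g hS p' q']

/-- the terminal values -/
theorem gr_word (q q' : ZMod 3 → ℕ) :
    gr S N v g (fun _ => 0) q (fun _ => 0) q' =
      (MM S v g (fun _ => 0) (fun a => if N a then q a else q' a) (fun _ => 0)
        (fun a => if N a then q' a else q a)).re := by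
  unfold gr RB
  rw [← GF_Uq]
  rfl

end NV

end Pool.Agent.Work.MP_8d2b2d_co.RP
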