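import Pool.Agent.Work.MP_8d2b2d_co.RP.EvalB
import Pool.Agent.Work.MP_8d2b2d_co.RP.Eng

/-!
# Soundness of the evaluator
-/

namespace Pool.Agent.Work.MP_8d2b2d_co.RP

set_option linter.unusedSectionVars false

section Sound

variable {R M : Type}

/-- value of a sparse list -/
noncomputable def val (φ : M → ℝ) (sem : ℕ → ℝ) : List (ℕ × M) → ℝ
  | [] => 0
  | x :: l => φ x.2 * sem x.1 + val φ sem l

variable (φ : M → ℝ) (sem : ℕ → ℝ)

lemma val_mergeAux (add : M → M → M) (hadd : ∀ a b, φ (add a b) = φ a + φ b) (x : ℕ × M)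
    (f : List (ℕ × M) → List (ℕ × M)) (c : ℝ) (hf : ∀ q, val φ sem (f q) = c + val φ sem q)
    (q : List (ℕ × M)) :
    val φ sem (mergeAux add x f q) = φ x.2 * sem x.1 + c + val φ sem q := by
  induction q with
  | nil =>
    simp only [mergeAux, val, hf]
    ring
  | cons y q ih =>
    rw [mergeAux]
    rcases h1 : Nat.beq x.1 y.1 with _ | _
    · rcases h2 : Nat.ble x.1 y.1 with _ | _
      · simp only [cond_false, val, ih]
        ring
      · simp only [cond_false, cond_true, val, hf]
        ring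
    · have e : x.1 = y.1 := Nat.eq_of_beq_eq_true h1
      simp only [cond_true, val, hf, hadd, e]
      ring

lemma val_mergeL (add : M → M → M) (hadd : ∀ a b, φ (add a b) = φ a + φ b)
    (p q : List (ℕ × M)) : val φ sem (mergeL add p q) = val φ sem p + val φ sem q := by
  induction p generalizing q with
  | nil => simp [mergeL, val]
  | cons x p ih =>
    rw [mergeL, val_mergeAux φ sem add hadd x (mergeL add p) (val φ sem p) ih q]
    simp only [val]

lemma val_filt (p : ℕ → Bool) (l : List (ℕ × M)) :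
    val φ sem (filt p l) + val φ sem (filt (fun k => not (p k)) l) = val φ sem l := by
  induction l with
  | nil => simp [filt, val]
  | cons x l ih =>
    simp only [filt]
    rcases h : p x.1 with _ | _
    · simp only [cond_false, Bool.not_false, cond_true, val]
      linarith
    · simp only [cond_false, Bool.not_true, cond_true, val]
      linarith

lemma filt_mem (p : ℕ → Bool) (l : List (ℕ × M)) : ∀ x ∈ filt p l, p x.1 = true := by
  induction l with
  | nil => intro x hx; simp [filt] at hx
  | cons y l ih =>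
    intro x hx
    rw [filt] at hx
    rcases h : p y.1 with _ | _
    · rw [h, cond_false] at hx
      exact ih x hx
    · rw [h, cond_true, List.mem_cons] at hx
      rcases hx with rfl | hx
      · exact h
      · exact ih x hx

variable (ψ : R → ℝ) (O : Eng R M)

lemma val_imgD (hk : ∀ k a, φ (O.kmul k a) = ψ k * φ a) (s t : ℕ) (kc : R)
    (l : List (ℕ × M)) : val φ sem (imgD O s t kc l) =
      ψ kc * val φ (fun k => sem (k - 16 ^ s + 16 ^ t)) l := by
  induction l with
  | nil => simp [imgD, val]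
  | cons x l ih =>
    simp only [imgD, val, ih, hk]
    have e : Nat.add (Nat.sub x.1 (Nat.pow 16 s)) (Nat.pow 16 t) = x.1 - 16 ^ s + 16 ^ t := rfl
    rw [e]
    ring

lemma val_imgA (hk : ∀ k a, φ (O.kmul k a) = ψ k * φ a)
    (hn : ∀ n a, φ (O.nmul n a) = (n : ℝ) * φ a) (s a : ℕ) (kc : R)
    (l : List (ℕ × M)) : val φ sem (imgA O s a kc l) =
      ψ kc * val φ (fun k => (dg a k : ℝ) * sem (k - 16 ^ s - 16 ^ a)) l := by
  induction l with
  | nil => simp [imgA, val]
  | cons x l ih =>
    simp only [imgA, val]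
    rcases h : Nat.beq (dg a x.1) 0 with _ | _
    · simp only [cond_false, val, ih, hk, hn]
      have e : Nat.sub (Nat.sub x.1 (Nat.pow 16 s)) (Nat.pow 16 a) = x.1 - 16 ^ s - 16 ^ a := rfl
      rw [e]
      ring
    · have e : dg a x.1 = 0 := Nat.eq_of_beq_eq_true h
      simp only [cond_true, ih, e]
      push_cast
      ring

/-- the value of a row of the coupling matrix -/
noncomputable def rowV (s d a : ℕ) : List (ℕ × R) → ℕ → ℝ
  | [], _ => 0
  | jk :: row, k => ψ jk.2 * (sem (k - 16 ^ s + 16 ^ (d + jk.1)) +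
      (dg (a + jk.1) k : ℝ) * sem (k - 16 ^ s - 16 ^ (a + jk.1))) + rowV s d a row k

lemma val_add_sem (f g : ℕ → ℝ) (l : List (ℕ × M)) :
    val φ (fun k => f k + g k) l = val φ f l + val φ g l := by
  induction l with
  | nil => simp [val]
  | cons x l ih => simp only [val, ih]; ring

lemma val_smul_sem (c : ℝ) (f : ℕ → ℝ) (l : List (ℕ × M)) :
    val φ (fun k => c * f k) l = c * val φ f l := by
  induction l with
  | nil => simp [val]
  | cons x l ih => simp only [val, ih]; ring

lemma val_congr (f g : ℕ → ℝ) (l : List (ℕ × M)) (h : ∀ x ∈ l, f x.1 = g x.1) :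
    val φ f l = val φ g l := by
  induction l with
  | nil => rfl
  | cons x l ih =>
    simp only [val]
    rw [h x (List.mem_cons_self), ih (fun y hy => h y (List.mem_cons_of_mem _ hy))]

lemma val_imgs (hadd : ∀ a b, φ (O.add a b) = φ a + φ b)
    (hk : ∀ k a, φ (O.kmul k a) = ψ k * φ a)
    (hn : ∀ n a, φ (O.nmul n a) = (n : ℝ) * φ a) (s d a : ℕ) (l : List (ℕ × M))
    (row : List (ℕ × R)) (acc : List (ℕ × M)) :
    val φ sem (imgs O s d a l row acc) = val φ (rowV sem ψ s d a row) l + val φ sem acc := by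
  induction row generalizing acc with
  | nil =>
    simp only [imgs]
    have : val φ (rowV sem ψ s d a []) l = 0 := by
      have h := val_smul_sem φ 0 (fun _ => 0) l
      simp only [zero_mul] at h
      rw [← h]
      exact val_congr φ _ _ l (fun x _ => rfl)
    rw [this, zero_add]
  | cons jk row ih =>
    simp only [imgs]
    rw [ih, val_mergeL φ sem O.add hadd, val_mergeL φ sem O.add hadd,
      val_imgD φ sem ψ O hk, val_imgA φ sem ψ O hk hn]
    have e : val φ (rowV sem ψ s d a (jk :: row)) l =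
        ψ jk.2 * (val φ (fun k => sem (k - 16 ^ s + 16 ^ (d + jk.1))) l +
          val φ (fun k => (dg (a + jk.1) k : ℝ) * sem (k - 16 ^ s - 16 ^ (a + jk.1))) l) +
        val φ (rowV sem ψ s d a row) l := by
      rw [← val_add_sem, ← val_smul_sem, ← val_add_sem]
      exact val_congr φ _ _ l (fun x _ => rfl)
    rw [e]
    have e1 : Nat.add d jk.1 = d + jk.1 := rfl
    have e2 : Nat.add a jk.1 = a + jk.1 := rfl
    rw [e1, e2]
    ring

lemma val_step (hadd : ∀ a b, φ (O.add a b) = φ a + φ b)
    (hk : ∀ k a, φ (O.kmul k a) = ψ k * φ a)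
    (hn : ∀ n a, φ (O.nmul n a) = (n : ℝ) * φ a) (s d a : ℕ) (row : List (ℕ × R))
    (hsem : ∀ k, actv s d k = true → sem k = rowV sem ψ s d a row k) (l : List (ℕ × M)) :
    val φ sem (step O s d a row l) = val φ sem l := by
  rw [step, val_imgs φ sem ψ O hadd hk hn, ← val_filt φ sem (actv s d) l]
  congr 1
  exact val_congr φ _ _ _ (fun x hx => (hsem x.1 (filt_mem (actv s d) l x hx)).symm)

/-- the two recursions -/
def RecH (sem : ℕ → ℝ) (ψ : R → ℝ) (K : ℕ → List (ℕ × R)) : Prop :=
  (∀ i < 3, ∀ k, actv i 9 k = true → sem k = rowV sem ψ i 9 6 (K i) k) ∧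
  (∀ i < 3, ∀ k, actv (6 + i) 3 k = true → sem k = rowV sem ψ (6 + i) 3 0 (K i) k)

lemma val_run (hadd : ∀ a b, φ (O.add a b) = φ a + φ b)
    (hk : ∀ k a, φ (O.kmul k a) = ψ k * φ a)
    (hn : ∀ n a, φ (O.nmul n a) = (n : ℝ) * φ a) (K : ℕ → List (ℕ × R))
    (hrec : RecH sem ψ K) (prog : List (Bool × ℕ)) (hp : ∀ c ∈ prog, c.2 < 3)
    (l : List (ℕ × M)) : val φ sem (run O K prog l) = val φ sem l := by
  induction prog generalizing l with
  | nil => rfl
  | cons c prog ih =>
    rw [run, ih (fun x hx => hp x (List.mem_cons_of_mem _ hx))]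
    have hc := hp c (List.mem_cons_self)
    rcases h : c.1 with _ | _
    · rw [cond_false]
      exact val_step φ sem ψ O hadd hk hn _ _ _ _ (hrec.1 c.2 hc) l
    · rw [cond_true]
      exact val_step φ sem ψ O hadd hk hn _ _ _ _ (hrec.2 c.2 hc) l

lemma val_ins (add : M → M → M) (hadd : ∀ a b, φ (add a b) = φ a + φ b) (k : ℕ) (c : M)
    (l : List (ℕ × M)) : val φ sem (ins add k c l) = φ c * sem k + val φ sem l := by
  induction l with
  | nil => simp [ins, val]
  | cons y l ih =>
    rw [ins]
    rcases h1 : Nat.beq k y.1 with _ | _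
    · rcases h2 : Nat.ble k y.1 with _ | _
      · simp only [cond_false, val, ih]; ring
      · simp only [cond_false, cond_true, val]
    · have e : k = y.1 := Nat.eq_of_beq_eq_true h1
      simp only [cond_true, val, hadd, e]; ring

lemma val_insAll (add : M → M → M) (hadd : ∀ a b, φ (add a b) = φ a + φ b) (cf : ℕ → ℕ)
    (semo : ℕ → ℝ) (l acc : List (ℕ × M)) (hcf : ∀ x ∈ l, sem (cf x.1) = semo x.1) :
    val φ sem (insAll add cf l acc) = val φ semo l + val φ sem acc := by
  induction l generalizing acc with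
  | nil => simp [insAll, val]
  | cons x l ih =>
    rw [insAll, ih _ (fun y hy => hcf y (List.mem_cons_of_mem _ hy)), val_ins φ sem add hadd,
      hcf x (List.mem_cons_self)]
    simp only [val]
    ring

end Sound

section Natural

variable {R M R' M' : Type} (O : Eng R M) (O' : Eng R' M') (θ : M → M') (θ₀ : R → R')

/-- change of coefficients -/
def mapS (θ : M → M') : List (ℕ × M) → List (ℕ × M')
  | [] => []
  | x :: l => (x.1, θ x.2) :: mapS θ l

/-- homomorphism of the arithmetics -/
structure EngHom : Prop where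
  add : ∀ a b, θ (O.add a b) = O'.add (θ a) (θ b)
  kmul : ∀ k a, θ (O.kmul k a) = O'.kmul (θ₀ k) (θ a)
  nmul : ∀ n a, θ (O.nmul n a) = O'.nmul n (θ a)

lemma mapS_mergeAux (h : EngHom O O' θ θ₀) (x : ℕ × M)
    (f : List (ℕ × M) → List (ℕ × M)) (f' : List (ℕ × M') → List (ℕ × M'))
    (hf : ∀ q, mapS θ (f q) = f' (mapS θ q)) (q : List (ℕ × M)) :
    mapS θ (mergeAux O.add x f q) = mergeAux O'.add (x.1, θ x.2) f' (mapS θ q) := by
  induction q with
  | nil => simp [mergeAux, mapS, hf]
  | cons y q ih =>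
    rw [mergeAux, mapS, mergeAux]
    rcases h1 : Nat.beq x.1 y.1 with _ | _
    · rcases h2 : Nat.ble x.1 y.1 with _ | _
      · simp only [cond_false, mapS, ih]
      · simp only [cond_false, cond_true, mapS, hf]
    · simp only [cond_true, mapS, hf, h.add]

lemma mapS_mergeL (h : EngHom O O' θ θ₀) (p q : List (ℕ × M)) :
    mapS θ (mergeL O.add p q) = mergeL O'.add (mapS θ p) (mapS θ q) := by
  induction p generalizing q with
  | nil => rfl
  | cons x p ih =>
    rw [mergeL, mapS_mergeAux O O' θ θ₀ h x _ (mergeL O'.add (mapS θ p)) ih q]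
    rfl

lemma mapS_filt (p : ℕ → Bool) (l : List (ℕ × M)) :
    mapS θ (filt p l) = filt p (mapS θ l) := by
  induction l with
  | nil => rfl
  | cons x l ih =>
    rw [filt, mapS, filt]
    rcases h1 : p x.1 with _ | _
    · simp only [cond_false, ih]
    · simp only [cond_true, mapS, ih]

lemma mapS_imgD (h : EngHom O O' θ θ₀) (s t : ℕ) (kc : R) (l : List (ℕ × M)) :
    mapS θ (imgD O s t kc l) = imgD O' s t (θ₀ kc) (mapS θ l) := by
  induction l with
  | nil => rfl
  | cons x l ih => rw [imgD, mapS, mapS, imgD, ih, h.kmul]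

lemma mapS_imgA (h : EngHom O O' θ θ₀) (s a : ℕ) (kc : R) (l : List (ℕ × M)) :
    mapS θ (imgA O s a kc l) = imgA O' s a (θ₀ kc) (mapS θ l) := by
  induction l with
  | nil => rfl
  | cons x l ih =>
    rw [imgA, mapS, imgA]
    rcases h1 : Nat.beq (dg a x.1) 0 with _ | _
    · simp only [cond_false, mapS, ih, h.kmul, h.nmul]
    · simp only [cond_true, ih]

lemma mapS_imgs (h : EngHom O O' θ θ₀) (s d a : ℕ) (l : List (ℕ × M)) (row : List (ℕ × R))
    (acc : List (ℕ × M)) :
    mapS θ (imgs O s d a l row acc) = imgs O' s d a (mapS θ l) (mapS θ₀ row) (mapS θ acc) := by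
  induction row generalizing acc with
  | nil => rfl
  | cons jk row ih =>
    rw [imgs, ih, mapS_mergeL O O' θ θ₀ h, mapS_mergeL O O' θ θ₀ h, mapS_imgD O O' θ θ₀ h,
      mapS_imgA O O' θ θ₀ h]
    rfl

lemma mapS_step (h : EngHom O O' θ θ₀) (s d a : ℕ) (row : List (ℕ × R)) (l : List (ℕ × M)) :
    mapS θ (step O s d a row l) = step O' s d a (mapS θ₀ row) (mapS θ l) := by
  rw [step, mapS_imgs O O' θ θ₀ h, mapS_filt, mapS_filt]
  rfl

lemma mapS_run (h : EngHom O O' θ θ₀) (K : ℕ → List (ℕ × R)) (prog : List (Bool × ℕ))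
    (l : List (ℕ × M)) :
    mapS θ (run O K prog l) = run O' (fun i => mapS θ₀ (K i)) prog (mapS θ l) := by
  induction prog generalizing l with
  | nil => rfl
  | cons c prog ih =>
    rw [run, ih, run]
    congr 1
    rcases h1 : c.1 with _ | _
    · simp only [cond_false, mapS_step O O' θ θ₀ h]
    · simp only [cond_true, mapS_step O O' θ θ₀ h]

lemma mapS_ins (h : EngHom O O' θ θ₀) (k : ℕ) (c : M) (l : List (ℕ × M)) :
    mapS θ (ins O.add k c l) = ins O'.add k (θ c) (mapS θ l) := by
  induction l with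
  | nil => rfl
  | cons y l ih =>
    rw [ins, mapS, ins]
    rcases h1 : Nat.beq k y.1 with _ | _
    · rcases h2 : Nat.ble k y.1 with _ | _
      · simp only [cond_false, mapS, ih]
      · simp only [cond_false, cond_true, mapS]
    · simp only [cond_true, mapS, h.add]

lemma mapS_insAll (h : EngHom O O' θ θ₀) (cf : ℕ → ℕ) (l acc : List (ℕ × M)) :
    mapS θ (insAll O.add cf l acc) = insAll O'.add cf (mapS θ l) (mapS θ acc) := by
  induction l generalizing acc with
  | nil => rfl
  | cons x l ih => rw [insAll, ih, mapS_ins O O' θ θ₀ h, mapS, insAll]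

end Natural

end Pool.Agent.Work.MP_8d2b2d_co.RP
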