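import Pool.Agent.Work.MP_8d2b2d_co.RP.EvalC

/-!
# Codes and the two recursions
-/

namespace Pool.Agent.Work.MP_8d2b2d_co.RP

open Finset

set_option linter.unusedSectionVars false

section Digits

lemma dg_eq (i k : ℕ) : dg i k = k / 16 ^ i % 16 := rfl

lemma dg_lt (i k : ℕ) : dg i k < 16 := Nat.mod_lt _ (by norm_num)

lemma div_pow_add (k i e : ℕ) : k / 16 ^ (i + 1 + e) = k / 16 ^ i / 16 / 16 ^ e := by
  rw [Nat.div_div_eq_div_mul, Nat.div_div_eq_div_mul, pow_add, pow_add, pow_one, mul_assoc]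

lemma dg_add_low (i e k : ℕ) : dg i (k + 16 ^ (i + 1 + e)) = dg i k := by
  rw [dg_eq, dg_eq]
  have h : (16 : ℕ) ^ (i + 1 + e) = 16 ^ i * (16 * 16 ^ e) := by
    rw [pow_add, pow_add, pow_one, mul_assoc]
  rw [h, Nat.add_mul_div_left _ _ (by positivity), Nat.add_mul_mod_self_left]

lemma dg_add_same (j k : ℕ) (h : dg j k ≤ 14) : dg j (k + 16 ^ j) = dg j k + 1 := by
  rw [dg_eq] at h ⊢
  rw [dg_eq, Nat.add_div_right _ (by positivity)]
  omega

lemma dg_add_ne (i j k : ℕ) (hij : i ≠ j) (h : dg j k ≤ 14) : dg i (k + 16 ^ j) = dg i k := by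
  rcases lt_or_gt_of_ne hij with h1 | h1
  · obtain ⟨e, rfl⟩ : ∃ e, j = i + 1 + e := ⟨j - (i + 1), by omega⟩
    exact dg_add_low i e k
  · obtain ⟨e, rfl⟩ : ∃ e, i = j + 1 + e := ⟨i - (j + 1), by omega⟩
    rw [dg_eq] at h
    rw [dg_eq, dg_eq, div_pow_add, div_pow_add, Nat.add_div_right _ (by positivity)]
    congr 2
    omega

lemma pow_le_of_dg (j k : ℕ) (h : 1 ≤ dg j k) : 16 ^ j ≤ k := by
  by_contra hc
  rw [dg_eq, Nat.div_eq_of_lt (not_le.1 hc)] at h
  omega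

lemma dg_sub_same (j k : ℕ) (h : 1 ≤ dg j k) : dg j (k - 16 ^ j) = dg j k - 1 := by
  have h0 := pow_le_of_dg j k h
  obtain ⟨m, rfl⟩ : ∃ m, k = m + 16 ^ j := ⟨k - 16 ^ j, by omega⟩
  rw [Nat.add_sub_cancel]
  rw [dg_eq] at h ⊢
  rw [dg_eq]
  rw [Nat.add_div_right _ (by positivity)] at h ⊢
  omega

lemma dg_sub_ne (i j k : ℕ) (hij : i ≠ j) (h : 1 ≤ dg j k) : dg i (k - 16 ^ j) = dg i k := by
  have h0 := pow_le_of_dg j k h
  obtain ⟨m, rfl⟩ : ∃ m, k = m + 16 ^ j := ⟨k - 16 ^ j, by omega⟩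
  rw [Nat.add_sub_cancel]
  have h2 : dg j m ≤ 14 := by
    rw [dg_eq] at h ⊢
    rw [Nat.add_div_right _ (by positivity)] at h
    omega
  rw [dg_add_ne i j m hij h2]

end Digits

section Codes

/-- exponents read off a code -/
def fd (o k : ℕ) : ZMod 3 → ℕ := fun a => dg (o + a.val) k

lemma fd_add_same (o j k : ℕ) (a : ZMod 3) (hj : j = o + a.val) (h : dg j k ≤ 14) :
    fd o (k + 16 ^ j) = Function.update (fd o k) a (fd o k a + 1) := by
  subst hj
  funext b
  by_cases hb : b = a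
  · subst hb
    rw [Function.update_self]
    exact dg_add_same _ _ h
  · rw [Function.update_of_ne hb]
    refine dg_add_ne _ _ _ ?_ h
    intro h1
    exact hb (ZMod.val_injective 3 (by omega))

lemma fd_add_ne (o j k : ℕ) (hj : j < o ∨ o + 3 ≤ j) (h : dg j k ≤ 14) :
    fd o (k + 16 ^ j) = fd o k := by
  funext b
  have hb : b.val < 3 := ZMod.val_lt b
  exact dg_add_ne _ _ _ (by omega) h

lemma fd_sub_same (o j k : ℕ) (a : ZMod 3) (hj : j = o + a.val) (h : 1 ≤ dg j k) :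
    fd o (k - 16 ^ j) = Function.update (fd o k) a (fd o k a - 1) := by
  subst hj
  funext b
  by_cases hb : b = a
  · subst hb
    rw [Function.update_self]
    exact dg_sub_same _ _ h
  · rw [Function.update_of_ne hb]
    refine dg_sub_ne _ _ _ ?_ h
    intro h1
    exact hb (ZMod.val_injective 3 (by omega))

lemma fd_sub_ne (o j k : ℕ) (hj : j < o ∨ o + 3 ≤ j) (h : 1 ≤ dg j k) :
    fd o (k - 16 ^ j) = fd o k := by
  funext b
  have hb : b.val < 3 := ZMod.val_lt b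
  exact dg_sub_ne _ _ _ (by omega) h

/-- the recursion of a function of the exponents -/
structure FRec (F : (ZMod 3 → ℕ) → (ZMod 3 → ℕ) → (ZMod 3 → ℕ) → (ZMod 3 → ℕ) → ℝ)
    (c : ZMod 3 → ZMod 3 → ℝ) : Prop where
  left : ∀ p q p' q' a, F (Function.update p a (p a + 1)) q p' q' =
    ∑ b, c a b * (F p q p' (Function.update q' b (q' b + 1)) +
      (p' b : ℝ) * F p q (Function.update p' b (p' b - 1)) q')
  right : ∀ p q p' q' a, F p q (Function.update p' a (p' a + 1)) q' =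
    ∑ b, c a b * (F p (Function.update q b (q b + 1)) p' q' +
      (p b : ℝ) * F (Function.update p b (p b - 1)) q p' q')

/-- the function of the codes -/
def semF (F : (ZMod 3 → ℕ) → (ZMod 3 → ℕ) → (ZMod 3 → ℕ) → (ZMod 3 → ℕ) → ℝ) (k : ℕ) : ℝ :=
  F (fd 0 k) (fd 3 k) (fd 6 k) (fd 9 k)

/-- the rows of the coupling matrix are right -/
def RowsOK {R : Type} (ψ : R → ℝ) (K : ℕ → List (ℕ × R)) (c : ZMod 3 → ZMod 3 → ℝ) : Prop :=
  ∀ (a : ZMod 3) (sem : ℕ → ℝ) (s d e k : ℕ), rowV sem ψ s d e (K a.val) k =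
    ∑ b : ZMod 3, c a b * (sem (k - 16 ^ s + 16 ^ (d + b.val)) +
      (dg (e + b.val) k : ℝ) * sem (k - 16 ^ s - 16 ^ (e + b.val)))

lemma actv_iff (s d k : ℕ) : actv s d k = true ↔
    1 ≤ dg s k ∧ dg d k ≤ 14 ∧ dg (d + 1) k ≤ 14 ∧ dg (d + 2) k ≤ 14 := by
  unfold actv
  rw [Bool.and_eq_true, Bool.and_eq_true, Bool.and_eq_true]
  exact ⟨fun h => ⟨Nat.le_of_ble_eq_true h.1, Nat.le_of_ble_eq_true h.2.1,
    Nat.le_of_ble_eq_true h.2.2.1, Nat.le_of_ble_eq_true h.2.2.2⟩,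
    fun h => ⟨Nat.ble_eq_true_of_le h.1, Nat.ble_eq_true_of_le h.2.1,
      Nat.ble_eq_true_of_le h.2.2.1, Nat.ble_eq_true_of_le h.2.2.2⟩⟩

lemma dg_of_actv (s d k : ℕ) (h : actv s d k = true) (b : ZMod 3) : dg (d + b.val) k ≤ 14 := by
  rw [actv_iff] at h
  fin_cases b
  · exact h.2.1
  · exact h.2.2.1
  · exact h.2.2.2

theorem recH_of_FRec {R : Type} (ψ : R → ℝ) (K : ℕ → List (ℕ × R)) (c : ZMod 3 → ZMod 3 → ℝ)
    (hK : RowsOK ψ K c) (F : (ZMod 3 → ℕ) → (ZMod 3 → ℕ) → (ZMod 3 → ℕ) → (ZMod 3 → ℕ) → ℝ)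
    (hF : FRec F c) : RecH (semF F) ψ K := by
  constructor
  · intro i hi k hk
    obtain ⟨a, ha⟩ : ∃ a : ZMod 3, a.val = i := ⟨(i : ZMod 3), ZMod.val_natCast_of_lt hi⟩
    have hs := (actv_iff i 9 k).1 hk
    have hb := dg_of_actv i 9 k hk
    rw [← ha, hK a]
    have hs0 : 1 ≤ dg a.val k := by rw [ha]; exact hs.1
    -- the code without the multiplication
    set m := k - 16 ^ a.val with hm
    have e0 : fd 0 m = Function.update (fd 0 k) a (fd 0 k a - 1) :=
      fd_sub_same 0 a.val k a (by omega) hs0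
    have hv : a.val < 3 := ZMod.val_lt a
    have e3 : fd 3 m = fd 3 k := fd_sub_ne 3 a.val k (by omega) hs0
    have e6 : fd 6 m = fd 6 k := fd_sub_ne 6 a.val k (by omega) hs0
    have e9 : fd 9 m = fd 9 k := fd_sub_ne 9 a.val k (by omega) hs0
    have h0 : fd 0 k = Function.update (fd 0 m) a (fd 0 m a + 1) := by
      rw [e0]
      funext b
      by_cases hb : b = a
      · subst hb
        rw [Function.update_self, Function.update_self]
        have : 1 ≤ fd 0 k b := by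
          unfold fd; rw [Nat.zero_add]; exact hs0
        omega
      · rw [Function.update_of_ne hb, Function.update_of_ne hb]
    have h1 : semF F k = F (Function.update (fd 0 m) a (fd 0 m a + 1)) (fd 3 m) (fd 6 m)
        (fd 9 m) := by
      unfold semF
      rw [← h0, e3, e6, e9]
    rw [h1, hF.left]
    refine Finset.sum_congr rfl fun b _ => ?_
    have hv' : b.val < 3 := ZMod.val_lt b
    have hb9 : dg (9 + b.val) m ≤ 14 := by
      rw [hm, dg_sub_ne _ _ _ (by omega) hs0]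
      exact hb b
    have t1 : semF F (m + 16 ^ (9 + b.val)) =
        F (fd 0 m) (fd 3 m) (fd 6 m) (Function.update (fd 9 m) b (fd 9 m b + 1)) := by
      unfold semF
      rw [fd_add_ne 0 _ m (by omega) hb9, fd_add_ne 3 _ m (by omega) hb9,
        fd_add_ne 6 _ m (by omega) hb9, fd_add_same 9 _ m b rfl hb9]
    have t2 : (dg (6 + b.val) k : ℝ) = (fd 6 m b : ℝ) := by rw [e6]; rfl
    rw [t1, t2]
    rcases Nat.eq_zero_or_pos (fd 6 m b) with hz | hz
    · rw [hz]; push_cast; ring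
    · have t3 : semF F (m - 16 ^ (6 + b.val)) =
          F (fd 0 m) (fd 3 m) (Function.update (fd 6 m) b (fd 6 m b - 1)) (fd 9 m) := by
        have hz' : 1 ≤ dg (6 + b.val) m := hz
        unfold semF
        rw [fd_sub_ne 0 _ m (by omega) hz', fd_sub_ne 3 _ m (by omega) hz',
          fd_sub_ne 9 _ m (by omega) hz', fd_sub_same 6 _ m b rfl hz']
      rw [t3]
  · intro i hi k hk
    obtain ⟨a, ha⟩ : ∃ a : ZMod 3, a.val = i := ⟨(i : ZMod 3), ZMod.val_natCast_of_lt hi⟩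
    have hs := (actv_iff (6 + i) 3 k).1 hk
    have hb := dg_of_actv (6 + i) 3 k hk
    rw [← ha, hK a]
    have hs0 : 1 ≤ dg (6 + a.val) k := by rw [ha]; exact hs.1
    set m := k - 16 ^ (6 + a.val) with hm
    have e6 : fd 6 m = Function.update (fd 6 k) a (fd 6 k a - 1) :=
      fd_sub_same 6 (6 + a.val) k a rfl hs0
    have hv : a.val < 3 := ZMod.val_lt a
    have e0 : fd 0 m = fd 0 k := fd_sub_ne 0 (6 + a.val) k (by omega) hs0
    have e3 : fd 3 m = fd 3 k := fd_sub_ne 3 (6 + a.val) k (by omega) hs0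
    have e9 : fd 9 m = fd 9 k := fd_sub_ne 9 (6 + a.val) k (by omega) hs0
    have h0 : fd 6 k = Function.update (fd 6 m) a (fd 6 m a + 1) := by
      rw [e6]
      funext b
      by_cases hb : b = a
      · subst hb
        rw [Function.update_self, Function.update_self]
        have : 1 ≤ fd 6 k b := hs0
        omega
      · rw [Function.update_of_ne hb, Function.update_of_ne hb]
    have h1 : semF F k = F (fd 0 m) (fd 3 m) (Function.update (fd 6 m) a (fd 6 m a + 1))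
        (fd 9 m) := by
      unfold semF
      rw [← h0, e3, e0, e9]
    rw [h1, hF.right]
    refine Finset.sum_congr rfl fun b _ => ?_
    have hv' : b.val < 3 := ZMod.val_lt b
    have hb3 : dg (3 + b.val) m ≤ 14 := by
      rw [hm, dg_sub_ne _ _ _ (by omega) hs0]
      exact hb b
    have t1 : semF F (m + 16 ^ (3 + b.val)) =
        F (fd 0 m) (Function.update (fd 3 m) b (fd 3 m b + 1)) (fd 6 m) (fd 9 m) := by
      unfold semF
      rw [fd_add_ne 0 _ m (by omega) hb3, fd_add_ne 9 _ m (by omega) hb3,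
        fd_add_ne 6 _ m (by omega) hb3, fd_add_same 3 _ m b rfl hb3]
    have t2 : (dg (0 + b.val) k : ℝ) = (fd 0 m b : ℝ) := by rw [e0]; rfl
    rw [t1, t2]
    rcases Nat.eq_zero_or_pos (fd 0 m b) with hz | hz
    · rw [hz]; push_cast; ring
    · have t3 : semF F (m - 16 ^ (0 + b.val)) =
          F (Function.update (fd 0 m) b (fd 0 m b - 1)) (fd 3 m) (fd 6 m) (fd 9 m) := by
        have hz' : 1 ≤ dg (0 + b.val) m := hz
        unfold semF
        rw [fd_sub_ne 6 _ m (by omega) hz', fd_sub_ne 3 _ m (by omega) hz',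
          fd_sub_ne 9 _ m (by omega) hz', fd_sub_same 0 _ m b rfl hz']
      rw [t3]

end Codes

section Hat

/-- scaling -/
noncomputable def hatF (ρ : ℝ) (F : (ZMod 3 → ℕ) → (ZMod 3 → ℕ) → (ZMod 3 → ℕ) → (ZMod 3 → ℕ) → ℝ)
    (p q p' q' : ZMod 3 → ℕ) : ℝ :=
  ρ ^ (∑ a, (q a + q' a)) * (ρ⁻¹) ^ (∑ a, (p a + p' a)) * F p q p' q'

lemma sum_update_add (f : ZMod 3 → ℕ) (a : ZMod 3) :
    ∑ b, Function.update f a (f a + 1) b = ∑ b, f b + 1 := by
  rw [← Finset.add_sum_erase univ _ (Finset.mem_univ a),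
    ← Finset.add_sum_erase univ f (Finset.mem_univ a), Function.update_self]
  have : ∑ x ∈ univ.erase a, Function.update f a (f a + 1) x = ∑ x ∈ univ.erase a, f x :=
    Finset.sum_congr rfl fun x hx => by rw [Function.update_of_ne (Finset.ne_of_mem_erase hx)]
  rw [this]
  omega

lemma sum_update_sub (f : ZMod 3 → ℕ) (a : ZMod 3) (h : 0 < f a) :
    ∑ b, Function.update f a (f a - 1) b + 1 = ∑ b, f b := by
  rw [← Finset.add_sum_erase univ _ (Finset.mem_univ a),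
    ← Finset.add_sum_erase univ f (Finset.mem_univ a), Function.update_self]
  have : ∑ x ∈ univ.erase a, Function.update f a (f a - 1) x = ∑ x ∈ univ.erase a, f x :=
    Finset.sum_congr rfl fun x hx => by rw [Function.update_of_ne (Finset.ne_of_mem_erase hx)]
  rw [this]
  omega

theorem FRec.hat {F : (ZMod 3 → ℕ) → (ZMod 3 → ℕ) → (ZMod 3 → ℕ) → (ZMod 3 → ℕ) → ℝ}
    {c : ZMod 3 → ZMod 3 → ℝ} (hF : FRec F c) (ρ : ℝ) (hρ : 0 < ρ) :
    FRec (hatF ρ F) (fun a b => c a b / ρ ^ 2) := by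
  have hι : ρ * ρ⁻¹ = 1 := mul_inv_cancel₀ hρ.ne'
  constructor
  · intro p q p' q' a
    unfold hatF
    rw [hF.left, Finset.mul_sum]
    refine Finset.sum_congr rfl fun b _ => ?_
    simp only [Finset.sum_add_distrib, sum_update_add]
    rw [div_eq_mul_inv, ← inv_pow]
    generalize ρ⁻¹ = ι at *
    rcases Nat.eq_zero_or_pos (p' b) with hz | hz
    · rw [hz]
      push_cast
      linear_combination (-(ρ ^ (∑ x, q x + ∑ x, q' x) * ι ^ (∑ x, p x + 1 + ∑ x, p' x) * c a b *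
        F p q p' (Function.update q' b (q' b + 1)))) * hι
    · have e := sum_update_sub p' b hz
      rw [← e]
      linear_combination (-(ρ ^ (∑ x, q x + ∑ x, q' x) * ι ^ (∑ x, p x + 1 +
        (∑ x, Function.update p' b (p' b - 1) x + 1)) * c a b *
        F p q p' (Function.update q' b (q' b + 1)))) * hι
  · intro p q p' q' a
    unfold hatF
    rw [hF.right, Finset.mul_sum]
    refine Finset.sum_congr rfl fun b _ => ?_
    simp only [Finset.sum_add_distrib, sum_update_add]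
    rw [div_eq_mul_inv, ← inv_pow]
    generalize ρ⁻¹ = ι at *
    rcases Nat.eq_zero_or_pos (p b) with hz | hz
    · rw [hz]
      push_cast
      linear_combination (-(ρ ^ (∑ x, q x + ∑ x, q' x) * ι ^ (∑ x, p x + (∑ x, p' x + 1)) * c a b *
        F p (Function.update q b (q b + 1)) p' q')) * hι
    · have e := sum_update_sub p b hz
      rw [← e]
      linear_combination (-(ρ ^ (∑ x, q x + ∑ x, q' x) *
        ι ^ (∑ x, Function.update p b (p b - 1) x + 1 + (∑ x, p' x + 1)) * c a b *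
        F p (Function.update q b (q b + 1)) p' q')) * hι

end Hat

section Words

variable {d : Type} [Fintype d] [DecidableEq d] (S : ZMod 3 → ZMod 3 → ℝ) (v : d → ℂ)
  (g : MvPolynomial d ℂ)

/-- real part of the correlations -/
noncomputable def mmR (p q p' q' : ZMod 3 → ℕ) : ℝ := (MM S v g p q p' q').re

theorem mmR_FRec (hS : ∀ a b, S a b = S b a) (hv : ∑ c, ‖v c‖ ^ 2 = 1) :
    FRec (mmR S v g) S := by
  have hnu : nu v = 1 := hv
  constructor
  · intro p q p' q' a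
    unfold mmR
    rw [MM_bra, Complex.re_sum]
    refine Finset.sum_congr rfl fun b _ => ?_
    rw [hnu, Complex.re_ofReal_mul, Complex.add_re]
    congr 2
    have e : ((1 : ℝ) : ℂ) * (p' b : ℂ) = ((p' b : ℝ) : ℂ) := by push_cast; ring
    rw [e, Complex.re_ofReal_mul]
  · intro p q p' q' a
    unfold mmR
    rw [MM_ket, Complex.re_sum]
    refine Finset.sum_congr rfl fun b _ => ?_
    rw [hnu, hS b a, Complex.re_ofReal_mul, Complex.add_re]
    congr 2
    have e : ((1 : ℝ) : ℂ) * (p b : ℂ) = ((p b : ℝ) : ℂ) := by push_cast; ring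
    rw [e, Complex.re_ofReal_mul]

theorem gr_FRec (N : ZMod 3 → Prop) [DecidablePred N] (hS : ∀ a b, S a b = S b a)
    (hv : ∑ c, ‖v c‖ ^ 2 = 1) : FRec (gr S N v g) (Kc S N) := by
  have hnu : nu v = 1 := hv
  constructor
  · intro p q p' q' a
    rw [gr_left S N v g hS]
    simp only [hnu, one_mul]
  · intro p q p' q' a
    rw [gr_right S N v g hS]
    simp only [hnu, one_mul]

/-- three exponents -/
def tr (a b c : ℕ) : ZMod 3 → ℕ := fun x => if x = 0 then a else if x = 1 then b else c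

lemma z3 (a : ZMod 3) : a = 0 ∨ a = 1 ∨ a = 2 := by revert a; decide

lemma tr_at0 (a b c : ℕ) : tr a b c 0 = a := if_pos rfl

lemma tr_at1 (a b c : ℕ) : tr a b c 1 = b := by
  unfold tr; rw [if_neg (by decide), if_pos rfl]

lemma tr_at2 (a b c : ℕ) : tr a b c 2 = c := by
  unfold tr; rw [if_neg (by decide), if_neg (by decide)]

lemma fd_eq_tr (o k : ℕ) : fd o k = tr (dg o k) (dg (o + 1) k) (dg (o + 2) k) := by
  funext a
  rcases z3 a with rfl | rfl | rfl
  · rw [tr_at0]; rfl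
  · rw [tr_at1]; rfl
  · rw [tr_at2]; rfl

lemma wcode_eq (a b c a' b' c' : ℕ) : wcode a b c a' b' c' = a * 16 ^ 3 + (b * 16 ^ 4 +
    (c * 16 ^ 5 + (a' * 16 ^ 9 + (b' * 16 ^ 10 + c' * 16 ^ 11)))) := rfl

lemma fd_wcode (a b c a' b' c' : ℕ) (ha : a < 16) (hb : b < 16) (hc : c < 16) (ha' : a' < 16)
    (hb' : b' < 16) (hc' : c' < 16) :
    fd 0 (wcode a b c a' b' c') = tr 0 0 0 ∧ fd 3 (wcode a b c a' b' c') = tr a b c ∧
    fd 6 (wcode a b c a' b' c') = tr 0 0 0 ∧ fd 9 (wcode a b c a' b' c') = tr a' b' c' := by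
  rw [fd_eq_tr, fd_eq_tr, fd_eq_tr, fd_eq_tr]
  simp only [dg_eq, wcode_eq]
  norm_num
  refine ⟨?_, ?_, ?_, ?_⟩ <;> congr 1 <;> omega

/-- hat values of the words -/
noncomputable def wv (ρ : ℝ) (q q' : ZMod 3 → ℕ) : ℝ :=
  hatF ρ (mmR S v g) (fun _ => 0) q (fun _ => 0) q'

lemma wv_conj (hS : ∀ a b, S a b = S b a) (ρ : ℝ) (q q' : ZMod 3 → ℕ) :
    wv S v g ρ q q' = wv S v g ρ q' q := by
  unfold wv hatF mmR
  rw [← MM_conj S hS v g _ q' _ q, Complex.conj_re]
  congr 3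
  exact Finset.sum_congr rfl fun a _ => by ring

lemma wv_shift (s : ZMod 3 → ℝ) (ρ : ℝ) (q q' : ZMod 3 → ℕ) :
    wv (fun a b => s (a + b)) v g ρ q q' =
      wv (fun a b => s (a + b)) v g ρ (fun a => q (a + 1)) (fun b => q' (b - 1)) := by
  have h : MM (fun a b => s (a + b)) v g (fun _ => 0) (fun a => q (a + 1)) (fun _ => 0)
      (fun b => q' (b - 1)) = MM (fun a b => s (a + b)) v g (fun _ => 0) q (fun _ => 0) q' :=
    MM_perm (fun a b => s (a + b)) v g (Equiv.addRight (1 : ZMod 3))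
      (Equiv.subRight (1 : ZMod 3)) (by
        intro a b
        show s (a + 1 + (b - 1)) = s (a + b)
        congr 1
        ring) (fun _ => 0) q (fun _ => 0) q'
  have e3 : ∑ a : ZMod 3, (q (a + 1) + q' (a - 1)) = ∑ a : ZMod 3, (q a + q' a) := by
    rw [Finset.sum_add_distrib, Finset.sum_add_distrib]
    congr 1
    · exact Equiv.sum_comp (Equiv.addRight (1 : ZMod 3)) q
    · exact Equiv.sum_comp (Equiv.subRight (1 : ZMod 3)) q'
  unfold wv hatF mmR
  rw [h, e3]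

lemma tr_shift (a b c : ℕ) : (fun x : ZMod 3 => tr a b c (x + 1)) = tr b c a := by
  funext x
  rcases z3 x with rfl | rfl | rfl
  · rw [tr_at0, show (0 : ZMod 3) + 1 = 1 by decide, tr_at1]
  · rw [tr_at1, show (1 : ZMod 3) + 1 = 2 by decide, tr_at2]
  · rw [tr_at2, show (2 : ZMod 3) + 1 = 0 by decide, tr_at0]

lemma tr_shift' (a b c : ℕ) : (fun x : ZMod 3 => tr a b c (x - 1)) = tr c a b := by
  funext x
  rcases z3 x with rfl | rfl | rfl
  · rw [tr_at0, show (0 : ZMod 3) - 1 = 2 by decide, tr_at2]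
  · rw [tr_at1, show (1 : ZMod 3) - 1 = 0 by decide, tr_at0]
  · rw [tr_at2, show (2 : ZMod 3) - 1 = 1 by decide, tr_at1]

lemma tr_zero : tr 0 0 0 = fun _ => 0 := by
  funext x
  rcases z3 x with rfl | rfl | rfl
  · exact tr_at0 0 0 0
  · exact tr_at1 0 0 0
  · exact tr_at2 0 0 0

lemma wv_tr_shift (s : ZMod 3 → ℝ) (ρ : ℝ) (a b c a' b' c' : ℕ) :
    wv (fun a b => s (a + b)) v g ρ (tr a b c) (tr a' b' c') =
      wv (fun a b => s (a + b)) v g ρ (tr b c a) (tr c' a' b') := by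
  rw [wv_shift, tr_shift, tr_shift']

lemma nmin_cases (P : ℕ → Prop) (a b : ℕ) (ha : P a) (hb : P b) : P (nmin a b) := by
  unfold nmin
  rcases Nat.ble a b with _ | _
  · exact hb
  · exact ha

lemma sem_wcode (ρ : ℝ) (a b c a' b' c' : ℕ) (ha : a < 16) (hb : b < 16) (hc : c < 16)
    (ha' : a' < 16) (hb' : b' < 16) (hc' : c' < 16) :
    semF (hatF ρ (mmR S v g)) (wcode a b c a' b' c') = wv S v g ρ (tr a b c) (tr a' b' c') := by
  obtain ⟨h0, h3, h6, h9⟩ := fd_wcode a b c a' b' c' ha hb hc ha' hb' hc'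
  unfold semF wv
  rw [h0, h3, h6, h9]
  rw [tr_zero]

/-- the canonical word has the same value -/
theorem sem_canW (s : ZMod 3 → ℝ) (hs : ∀ a b : ZMod 3, s (a + b) = s (b + a)) (ρ : ℝ)
    (a b c a' b' c' : ℕ) (ha : a < 16) (hb : b < 16) (hc : c < 16)
    (ha' : a' < 16) (hb' : b' < 16) (hc' : c' < 16) :
    semF (hatF ρ (mmR (fun a b => s (a + b)) v g)) (canW a b c a' b' c') =
      wv (fun a b => s (a + b)) v g ρ (tr a b c) (tr a' b' c') := by
  have hS : ∀ a b : ZMod 3, (fun a b => s (a + b)) a b = (fun a b => s (a + b)) b a := hs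
  set P : ℕ → Prop := fun k => semF (hatF ρ (mmR (fun a b => s (a + b)) v g)) k =
      wv (fun a b => s (a + b)) v g ρ (tr a b c) (tr a' b' c') with hP
  have p1 : P (wcode a b c a' b' c') := sem_wcode _ v g ρ a b c a' b' c' ha hb hc ha' hb' hc'
  have p2 : P (wcode b c a c' a' b') := by
    show semF _ _ = _
    rw [sem_wcode _ v g ρ b c a c' a' b' hb hc ha hc' ha' hb', ← wv_tr_shift]
  have p3 : P (wcode c a b b' c' a') := by
    show semF _ _ = _
    rw [sem_wcode _ v g ρ c a b b' c' a' hc ha hb hb' hc' ha', wv_tr_shift]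
  have p4 : P (wcode a' b' c' a b c) := by
    show semF _ _ = _
    rw [sem_wcode _ v g ρ a' b' c' a b c ha' hb' hc' ha hb hc, wv_conj _ v g hS]
  have p5 : P (wcode b' c' a' c a b) := by
    show semF _ _ = _
    rw [sem_wcode _ v g ρ b' c' a' c a b hb' hc' ha' hc ha hb, ← wv_tr_shift, wv_conj _ v g hS]
  have p6 : P (wcode c' a' b' b c a) := by
    show semF _ _ = _
    rw [sem_wcode _ v g ρ c' a' b' b c a hc' ha' hb' hb hc ha, wv_tr_shift, wv_conj _ v g hS]
  exact nmin_cases P _ _ (nmin_cases P _ _ p1 p2) (nmin_cases P _ _ (nmin_cases P _ _ p3 p4)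
    (nmin_cases P _ _ p5 p6))

lemma isW_iff (k : ℕ) : isW k = true ↔ (dg 0 k = 0 ∧ dg 1 k = 0 ∧ dg 2 k = 0) ∧
    (dg 6 k = 0 ∧ dg 7 k = 0 ∧ dg 8 k = 0) := by
  unfold isW
  simp only [Bool.and_eq_true]
  constructor
  · rintro ⟨⟨h0, h1, h2⟩, ⟨h6, h7, h8⟩⟩
    exact ⟨⟨Nat.eq_of_beq_eq_true h0, Nat.eq_of_beq_eq_true h1, Nat.eq_of_beq_eq_true h2⟩,
      ⟨Nat.eq_of_beq_eq_true h6, Nat.eq_of_beq_eq_true h7, Nat.eq_of_beq_eq_true h8⟩⟩
  · rintro ⟨⟨h0, h1, h2⟩, ⟨h6, h7, h8⟩⟩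
    rw [h0, h1, h2, h6, h7, h8]
    exact ⟨⟨rfl, rfl, rfl⟩, ⟨rfl, rfl, rfl⟩⟩

/-- the canonical code, bra-ket notation -/
theorem sem_cfM (s : ZMod 3 → ℝ) (hs : ∀ a b : ZMod 3, s (a + b) = s (b + a)) (ρ : ℝ) (k : ℕ) :
    semF (hatF ρ (mmR (fun a b => s (a + b)) v g)) (cfM k) =
      semF (hatF ρ (mmR (fun a b => s (a + b)) v g)) k := by
  unfold cfM
  rcases h : isW k with _ | _
  · rfl
  · rw [cond_true, sem_canW v g s hs ρ _ _ _ _ _ _ (dg_lt _ _) (dg_lt _ _) (dg_lt _ _)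
      (dg_lt _ _) (dg_lt _ _) (dg_lt _ _)]
    obtain ⟨⟨h0, h1, h2⟩, ⟨h6, h7, h8⟩⟩ := (isW_iff k).1 h
    unfold semF wv
    have e0 : fd 0 k = fun _ => 0 := by rw [fd_eq_tr, h0, h1, h2, tr_zero]
    have e6 : fd 6 k = fun _ => 0 := by rw [fd_eq_tr, h6, h7, h8, tr_zero]
    rw [e0, e6, fd_eq_tr 3, fd_eq_tr 9]

/-- left-right value of a word -/
lemma hat_gr_word (N : ZMod 3 → Prop) [DecidablePred N] (ρ : ℝ) (q q' : ZMod 3 → ℕ) :
    hatF ρ (gr S N v g) (fun _ => 0) q (fun _ => 0) q' =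
      wv S v g ρ (fun a => if N a then q a else q' a) (fun a => if N a then q' a else q a) := by
  unfold wv hatF mmR
  rw [gr_word]
  congr 3
  refine Finset.sum_congr rfl fun a _ => ?_
  by_cases h : N a
  · simp only [if_pos h]
  · simp only [if_neg h]
    exact add_comm _ _

/-- the canonical code, left-right notation; outside the words the value is not used -/
theorem sem_cfG (s : ZMod 3 → ℝ) (hs : ∀ a b : ZMod 3, s (a + b) = s (b + a)) (ρ : ℝ) (k : ℕ)
    (hk : isW k = true) :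
    semF (hatF ρ (mmR (fun a b => s (a + b)) v g)) (cfG k) =
      semF (hatF ρ (gr (fun a b => s (a + b)) (fun a => a = 1) v g)) k := by
  unfold cfG
  rw [hk, cond_true, sem_canW v g s hs ρ _ _ _ _ _ _ (dg_lt _ _) (dg_lt _ _) (dg_lt _ _)
    (dg_lt _ _) (dg_lt _ _) (dg_lt _ _)]
  obtain ⟨⟨h0, h1, h2⟩, ⟨h6, h7, h8⟩⟩ := (isW_iff k).1 hk
  unfold semF
  have e0 : fd 0 k = fun _ => 0 := by rw [fd_eq_tr, h0, h1, h2, tr_zero]
  have e6 : fd 6 k = fun _ => 0 := by rw [fd_eq_tr, h6, h7, h8, tr_zero]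
  rw [e0, e6, hat_gr_word, fd_eq_tr 3, fd_eq_tr 9]
  congr 1
  · funext x
    rcases z3 x with rfl | rfl | rfl
    · rw [if_neg (by decide), tr_at0, tr_at0]
    · rw [if_pos rfl, tr_at1, tr_at1]
    · rw [if_neg (by decide), tr_at2, tr_at2]
  · funext x
    rcases z3 x with rfl | rfl | rfl
    · rw [if_neg (by decide), tr_at0, tr_at0]
    · rw [if_pos rfl, tr_at1, tr_at1]
    · rw [if_neg (by decide), tr_at2, tr_at2]

end Words

end Pool.Agent.Work.MP_8d2b2d_co.RP
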