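import Pool.Agent.Work.MP_8d2b2d_co.RP.EvalD
import Pool.Agent.Work.MP_8d2b2d_co.RP.Eng2

/-!
# Soundness of the certificate checker
-/

namespace Pool.Agent.Work.MP_8d2b2d_co.RP

open Finset

set_option linter.unusedSectionVars false

section PolyL

/-- polynomials with natural coefficients as lists -/
def addN : List ℕ → List ℕ → List ℕ
  | [], q => q
  | a :: p, [] => a :: p
  | a :: p, b :: q => (a + b) :: addN p q

def smulN (c : ℕ) : List ℕ → List ℕ
  | [] => []
  | a :: p => (c * a) :: smulN c p

def mulN : List ℕ → List ℕ → List ℕ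
  | [], _ => []
  | a :: p, q => addN (smulN a q) (0 :: mulN p q)

/-- evaluation -/
def evT {T : Type} [CommSemiring T] (t : T) : List ℕ → T
  | [] => 0
  | a :: p => (a : T) + t * evT t p

variable {T : Type} [CommSemiring T] (t : T)

lemma evT_addN (p q : List ℕ) : evT t (addN p q) = evT t p + evT t q := by
  induction p generalizing q with
  | nil => simp [addN, evT]
  | cons a p ih =>
    cases q with
    | nil => simp [addN, evT]
    | cons b q => simp only [addN, evT, ih]; push_cast; ring

lemma evT_smulN (c : ℕ) (p : List ℕ) : evT t (smulN c p) = (c : T) * evT t p := by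
  induction p with
  | nil => simp [smulN, evT]
  | cons a p ih => simp only [smulN, evT, ih]; push_cast; ring

lemma evT_mulN (p q : List ℕ) : evT t (mulN p q) = evT t p * evT t q := by
  induction p with
  | nil => simp [mulN, evT]
  | cons a p ih => simp only [mulN, evT_addN, evT_smulN, evT, ih]; push_cast; ring

/-- the arithmetic of the polynomials -/
def arL : Ar (List ℕ) := ⟨addN, mulN, fun n => [n]⟩

/-- the arithmetic of a semiring -/
def arT (T : Type) [CommSemiring T] : Ar T := ⟨(· + ·), (· * ·), fun n => (n : T)⟩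

lemma evT_zero (x : ℕ) (hx : 0 < x) (q : List ℕ) (h : evT x q = 0) (r : ℝ) :
    evT r q = 0 := by
  induction q with
  | nil => rfl
  | cons b q ih =>
    simp only [evT, Nat.cast_id] at h
    have h1 : b = 0 := by omega
    have h2 : evT x q = 0 := by
      have : x * evT x q = 0 := by omega
      rcases Nat.mul_eq_zero.1 this with h3 | h3
      · omega
      · exact h3
    simp only [evT, h1, ih h2]
    push_cast
    ring

/-- a polynomial with small coefficients is determined by one value -/
theorem evT_unique (x : ℕ) (p q : List ℕ) (h : evT x p = evT x q) (hp : evT 1 p < x)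
    (hq : evT 1 q < x) (r : ℝ) : evT r p = evT r q := by
  induction p generalizing q with
  | nil =>
    have hx : 0 < x := by omega
    rw [evT_zero x hx q h.symm r]
    rfl
  | cons a p ih =>
    cases q with
    | nil =>
      have hx : 0 < x := by omega
      rw [evT_zero x hx (a :: p) h r]
      rfl
    | cons b q =>
      simp only [evT, Nat.cast_id, one_mul] at h hp hq
      have ha : a < x := by omega
      have hb : b < x := by omega
      have hab : a = b := by
        have h1 : (a + x * evT x p) % x = (b + x * evT x q) % x := by rw [h]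
        rw [Nat.add_mul_mod_self_left, Nat.add_mul_mod_self_left, Nat.mod_eq_of_lt ha,
          Nat.mod_eq_of_lt hb] at h1
        exact h1
      subst hab
      have h2 : evT x p = evT x q := by
        have h3 : x * evT x p = x * evT x q := by omega
        exact Nat.eq_of_mul_eq_mul_left (by omega) h3
      simp only [evT]
      rw [ih q h2 (by omega) (by omega)]

end PolyL

section ArHom

variable {R R' : Type} (A : Ar R) (A' : Ar R') (θ : R → R')

/-- homomorphism of the arithmetics -/
structure ArHom : Prop where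
  add : ∀ a b, θ (A.add a b) = A'.add (θ a) (θ b)
  mul : ∀ a b, θ (A.mul a b) = A'.mul (θ a) (θ b)
  nc : ∀ n, θ (A.nc n) = A'.nc n

/-- on signed numbers -/
def th2 (a : R × R) : R' × R' := (θ a.1, θ a.2)

variable {A A' θ}

lemma th2_sadd (h : ArHom A A' θ) (a b : R × R) :
    th2 θ (sadd A a b) = sadd A' (th2 θ a) (th2 θ b) := by
  simp only [th2, sadd, h.add]

lemma th2_smulS (h : ArHom A A' θ) (a b : R × R) :
    th2 θ (smulS A a b) = smulS A' (th2 θ a) (th2 θ b) := by
  simp only [th2, smulS, h.add, h.mul]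

lemma th2_kmulS (h : ArHom A A' θ) (k : R) (b : R × R) :
    th2 θ (kmulS A k b) = kmulS A' (θ k) (th2 θ b) := by
  simp only [th2, kmulS, h.mul]

lemma th2_nmulS (h : ArHom A A' θ) (n : ℕ) (b : R × R) :
    th2 θ (nmulS A n b) = nmulS A' n (th2 θ b) := by
  rw [nmulS, th2_kmulS h, h.nc, nmulS]

lemma engHom (h : ArHom A A' θ) : EngHom (engA A) (engA A') (th2 θ) θ where
  add := th2_sadd h
  kmul := th2_kmulS h
  nmul := th2_nmulS h

lemma th2_sint (h : ArHom A A' θ) (z : ℤ) : th2 θ (sint A z) = sint A' z := by
  cases z <;> simp only [sint, th2, h.nc]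

lemma th2_spoly (h : ArHom A A' θ) (x : R) (p : List ℤ) :
    th2 θ (spoly A x p) = spoly A' (θ x) p := by
  induction p with
  | nil => simp only [spoly, th2, h.nc]
  | cons a p ih => rw [spoly, th2_sadd h, th2_sint h, th2_kmulS h, ih, spoly]

lemma th_npoly (h : ArHom A A' θ) (x : R) (p : List ℕ) :
    θ (npoly A x p) = npoly A' (θ x) p := by
  induction p with
  | nil => simp only [npoly, h.nc]
  | cons a p ih => rw [npoly, h.add, h.nc, h.mul, ih, npoly]

lemma mapS_slist (h : ArHom A A' θ) (x : R) (l : List (ℕ × List ℤ)) :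
    mapS (th2 θ) (slist A x l) = slist A' (θ x) l := by
  induction l with
  | nil => rfl
  | cons y l ih => rw [slist, mapS, ih, th2_spoly h, slist]

lemma mapS_krow (h : ArHom A A' θ) (x : R) (l : List (ℕ × List ℕ)) :
    mapS θ (krow A x l) = krow A' (θ x) l := by
  induction l with
  | nil => rfl
  | cons y l ih => rw [krow, mapS, ih, th_npoly h, krow]

lemma mapS_neglist (l : List (ℕ × (R × R))) :
    mapS (th2 θ) (neglist l) = neglist (mapS (th2 θ) l) := by
  induction l with
  | nil => rfl
  | cons y l ih => rw [neglist, mapS, ih, mapS, neglist]; rfl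

lemma mapS_scaleL (h : ArHom A A' θ) (c : R × R) (l : List (ℕ × (R × R))) :
    mapS (th2 θ) (scaleL A c l) = scaleL A' (th2 θ c) (mapS (th2 θ) l) := by
  induction l with
  | nil => rfl
  | cons y l ih => rw [scaleL, mapS, ih, mapS, scaleL, th2_smulS h]

lemma mapS_linM (h : ArHom A A' θ) (cs : List (R × R)) (ms : List (List (ℕ × (R × R)))) :
    mapS (th2 θ) (linM A cs ms) = linM A' (cs.map (th2 θ)) (ms.map (mapS (th2 θ))) := by
  induction cs generalizing ms with
  | nil => rfl
  | cons c cs ih =>
    cases ms with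
    | nil => rfl
    | cons m ms =>
      rw [linM]
      have e := mapS_mergeL (engA A) (engA A') (th2 θ) θ (engHom h) (scaleL A c m)
        (linM A cs ms)
      have e' : mapS (th2 θ) (mergeL (sadd A) (scaleL A c m) (linM A cs ms)) =
          mergeL (sadd A') (mapS (th2 θ) (scaleL A c m)) (mapS (th2 θ) (linM A cs ms)) := e
      rw [e', mapS_scaleL h, ih]
      rfl

lemma mapS_shiftL (h : ArHom A A' θ) (k : ℕ) (c : R × R) (l : List (ℕ × (R × R))) :
    mapS (th2 θ) (shiftL A k c l) = shiftL A' k (th2 θ c) (mapS (th2 θ) l) := by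
  induction l with
  | nil => rfl
  | cons y l ih => rw [shiftL, mapS, ih, mapS, shiftL, th2_smulS h]

lemma map_tensL (h : ArHom A A' θ) (w l : List (ℕ × (R × R))) :
    (tensL A w l).map (mapS (th2 θ)) = tensL A' (mapS (th2 θ) w) (mapS (th2 θ) l) := by
  induction l with
  | nil => rfl
  | cons y l ih => rw [tensL, List.map_cons, ih, mapS_shiftL h, mapS, tensL]

lemma map_quadL (h : ArHom A A' θ) (H : List (List (R × R)))
    (ms : List (List (ℕ × (R × R)))) :
    (quadL A H ms).map (mapS (th2 θ)) =
      quadL A' (H.map (List.map (th2 θ))) (ms.map (mapS (th2 θ))) := by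
  induction H generalizing ms with
  | nil => rfl
  | cons r H ih =>
    cases ms with
    | nil => rfl
    | cons m ms =>
      rw [quadL]
      have e : List.append (tensL A (linM A r (m :: ms)) m) (quadL A H ms) =
        tensL A (linM A r (m :: ms)) m ++ quadL A H ms := rfl
      rw [e, List.map_append, ih, map_tensL h, mapS_linM h]
      rfl

lemma map_pairUp (h : ArHom A A' θ) (ls : List (List (ℕ × (R × R)))) :
    (pairUp (sadd A) ls).map (mapS (th2 θ)) = pairUp (sadd A') (ls.map (mapS (th2 θ))) := by
  induction ls using pairUp.induct with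
  | case1 a b ls ih =>
    rw [pairUp, List.map_cons, ih]
    have e : mapS (th2 θ) (mergeL (sadd A) a b) =
        mergeL (sadd A') (mapS (th2 θ) a) (mapS (th2 θ) b) :=
      mapS_mergeL (engA A) (engA A') (th2 θ) θ (engHom h) a b
    rw [e]
    rfl
  | case2 ls hls =>
    rcases ls with _ | ⟨a, _ | ⟨b, ls⟩⟩
    · rfl
    · rfl
    · exact absurd rfl (hls a b ls)

lemma mapS_append (l l' : List (ℕ × (R × R))) :
    mapS (th2 θ) (l ++ l') = mapS (th2 θ) l ++ mapS (th2 θ) l' := by
  induction l with
  | nil => rfl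
  | cons y l ih => rw [List.cons_append, mapS, ih, mapS, List.cons_append]

lemma mapS_flat (ls : List (List (ℕ × (R × R)))) :
    mapS (th2 θ) (flat ls) = flat (ls.map (mapS (th2 θ))) := by
  induction ls with
  | nil => rfl
  | cons a ls ih =>
    rw [flat]
    have e : List.append a (flat ls) = a ++ flat ls := rfl
    rw [e, mapS_append, ih]
    rfl

lemma mapS_mergeAll (h : ArHom A A' θ) (n : ℕ) (ls : List (List (ℕ × (R × R)))) :
    mapS (th2 θ) (mergeAll (sadd A) n ls) =
      mergeAll (sadd A') n (ls.map (mapS (th2 θ))) := by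
  induction n generalizing ls with
  | zero => exact mapS_flat ls
  | succ n ih => rw [mergeAll, ih, map_pairUp h, mergeAll]

lemma map_cRow (h : ArHom A A' θ) (c : R) (p : List ℤ) :
    (cRow A c p).map (th2 θ) = cRow A' (θ c) p := by
  induction p with
  | nil => rfl
  | cons a p ih => rw [cRow, List.map_cons, ih, th2_kmulS h, th2_sint h, cRow]

lemma map_cMat (h : ArHom A A' θ) (c : R) (H : List (List ℤ)) :
    (cMat A c H).map (List.map (th2 θ)) = cMat A' (θ c) H := by
  induction H with
  | nil => rfl
  | cons a H ih => rw [cMat, List.map_cons, ih, map_cRow h, cMat]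

lemma map_addRowM (h : ArHom A A' θ) (p q : List (R × R)) :
    (addRowM A p q).map (th2 θ) = addRowM A' (p.map (th2 θ)) (q.map (th2 θ)) := by
  induction p generalizing q with
  | nil => simp [addRowM]
  | cons a p ih =>
    cases q with
    | nil => simp [addRowM]
    | cons b q => simp only [addRowM, List.map_cons, ih, th2_sadd h]

lemma map_addHM (h : ArHom A A' θ) (p q : List (List (R × R))) :
    (addHM A p q).map (List.map (th2 θ)) =
      addHM A' (p.map (List.map (th2 θ))) (q.map (List.map (th2 θ))) := by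
  induction p generalizing q with
  | nil => simp [addHM]
  | cons a p ih =>
    cases q with
    | nil => simp [addHM]
    | cons b q => simp only [addHM, List.map_cons, ih, map_addRowM h]

lemma map_totH (h : ArHom A A' θ) (x : R) (l : List Blk) :
    (totH A x l).map (List.map (th2 θ)) = totH A' (θ x) l := by
  induction l with
  | nil => rfl
  | cons b l ih => rw [totH, map_addHM h, map_cMat h, ih, th_npoly h, totH]

lemma map_slists (h : ArHom A A' θ) (x : R) (l : List (List (ℕ × List ℤ))) :
    (slists A x l).map (mapS (th2 θ)) = slists A' (θ x) l := by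
  induction l with
  | nil => rfl
  | cons b l ih => rw [slists, List.map_cons, ih, mapS_slist h, slists]

lemma map_singles (cf : ℕ → ℕ) (l : List (ℕ × (R × R))) :
    (singles cf l).map (mapS (th2 θ)) = singles cf (mapS (th2 θ) l) := by
  induction l with
  | nil => rfl
  | cons b l ih => rw [singles, List.map_cons, ih]; rfl

lemma mapS_gramRun (h : ArHom A A' θ) (x : R) (KG : ℕ → List (ℕ × List ℕ)) (c : Cert) :
    mapS (th2 θ) (gramRun A x KG c) = gramRun A' (θ x) KG c := by
  rw [gramRun, mapS_run (engA A) (engA A') (th2 θ) θ (engHom h), mapS_mergeAll h, map_quadL h,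
    map_totH h, map_slists h, gramRun]
  congr 1
  funext i
  exact mapS_krow h x _

lemma mapS_targRun (h : ArHom A A' θ) (x : R) (KM : ℕ → List (ℕ × List ℕ)) (c : Cert) :
    mapS (th2 θ) (targRun A x KM c) = targRun A' (θ x) KM c := by
  rw [targRun, mapS_run (engA A) (engA A') (th2 θ) θ (engHom h), mapS_neglist, mapS_slist h,
    targRun]
  congr 1
  funext i
  exact mapS_krow h x _

lemma mapS_total (h : ArHom A A' θ) (x : R) (KG KM : ℕ → List (ℕ × List ℕ)) (c : Cert) :
    mapS (th2 θ) (total A x KG KM c) = total A' (θ x) KG KM c := by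
  have e : ∀ a b : List (List (ℕ × (R × R))), List.append a b = a ++ b := fun _ _ => rfl
  have e' : ∀ a b : List (List (ℕ × (R' × R'))), List.append a b = a ++ b := fun _ _ => rfl
  rw [total, total, mapS_mergeAll h, e, e', List.map_append, map_singles, map_singles,
    mapS_targRun h, mapS_gramRun h]

end ArHom

section Quad

/-- row of a half matrix against a list of vectors -/
noncomputable def rowG {α V : Type} (cv : α → ℝ) : List α → (V → ℝ) → List V → ℝ
  | [], _, _ => 0
  | _ :: _, _, [] => 0
  | a :: as, f, m :: ms => cv a * f m + rowG cv as f ms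

/-- quadratic form of a half matrix -/
noncomputable def QG {α V : Type} (cv : α → ℝ) (B : V → V → ℝ) : List (List α) → List V → ℝ
  | [], _ => 0
  | _ :: _, [] => 0
  | h :: H, m :: ms => rowG cv h (B m) (m :: ms) + QG cv B H ms

lemma rowG_map {α V V' : Type} (cv : α → ℝ) (w : V → V') (as : List α) (f : V' → ℝ)
    (ms : List V) : rowG cv as f (ms.map w) = rowG cv as (fun v => f (w v)) ms := by
  induction as generalizing ms with
  | nil => rfl
  | cons a as ih =>
    cases ms with
    | nil => rfl
    | cons m ms => simp only [List.map_cons, rowG, ih]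

lemma QG_map {α V V' : Type} (cv : α → ℝ) (w : V → V') (B : V → V → ℝ) (B' : V' → V' → ℝ)
    (hB : ∀ u v, B u v = B' (w u) (w v)) (H : List (List α)) (ms : List V) :
    QG cv B H ms = QG cv B' H (ms.map w) := by
  induction H generalizing ms with
  | nil => rfl
  | cons h H ih =>
    cases ms with
    | nil => rfl
    | cons m ms =>
      rw [QG, List.map_cons, QG, ih, ← List.map_cons, rowG_map]
      congr 2
      funext v
      exact hB m v

lemma rowG_zero {α V : Type} (cv : α → ℝ) (as : List α) (ms : List V) :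
    rowG cv as (fun _ => 0) ms = 0 := by
  induction as generalizing ms with
  | nil => rfl
  | cons a as ih =>
    cases ms with
    | nil => rfl
    | cons m ms => simp only [rowG, ih]; ring

lemma rowG_addRow {V : Type} (p q : List ℤ) (f : V → ℝ) (ms : List V) :
    rowG (fun z : ℤ => (z : ℝ)) (addRow p q) f ms =
      rowG (fun z : ℤ => (z : ℝ)) p f ms + rowG (fun z : ℤ => (z : ℝ)) q f ms := by
  induction p generalizing q ms with
  | nil => simp [addRow, rowG]
  | cons a p ih =>
    cases q with
    | nil => cases ms <;> simp [addRow, rowG]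
    | cons b q =>
      cases ms with
      | nil => simp [addRow, rowG]
      | cons m ms =>
        simp only [addRow, rowG, ih]
        have e : ((Int.add a b : ℤ) : ℝ) = (a : ℝ) + (b : ℝ) := by
          have : Int.add a b = a + b := rfl
          rw [this]; push_cast; ring
        rw [e]; ring

lemma rowG_mulRow {V : Type} (c : ℤ) (p : List ℤ) (f : V → ℝ) (ms : List V) :
    rowG (fun z : ℤ => (z : ℝ)) (mulRow c p) f ms =
      (c : ℝ) * rowG (fun z : ℤ => (z : ℝ)) p f ms := by
  induction p generalizing ms with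
  | nil => simp [mulRow, rowG]
  | cons a p ih =>
    cases ms with
    | nil => simp [mulRow, rowG]
    | cons m ms =>
      simp only [mulRow, rowG, ih]
      have e : ((Int.mul c a : ℤ) : ℝ) = (c : ℝ) * (a : ℝ) := by
        have : Int.mul c a = c * a := rfl
        rw [this]; push_cast; ring
      rw [e]; ring

lemma QG_addH {V : Type} (B : V → V → ℝ) (p q : List (List ℤ)) (ms : List V) :
    QG (fun z : ℤ => (z : ℝ)) B (addH p q) ms =
      QG (fun z : ℤ => (z : ℝ)) B p ms + QG (fun z : ℤ => (z : ℝ)) B q ms := by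
  induction p generalizing q ms with
  | nil => simp [addH, QG]
  | cons a p ih =>
    cases q with
    | nil => cases ms <;> simp [addH, QG]
    | cons b q =>
      cases ms with
      | nil => simp [addH, QG]
      | cons m ms =>
        simp only [addH, QG, ih, rowG_addRow]
        ring

variable {E : Type} [AddCommGroup E] [Module ℝ E] (B : E →ₗ[ℝ] E →ₗ[ℝ] ℝ)

/-- linear combination -/
noncomputable def lc : List ℤ → List E → E
  | [], _ => 0
  | _ :: _, [] => 0
  | a :: as, m :: ms => (a : ℝ) • m + lc as ms

lemma B_lc (u : E) (c : List ℤ) (ms : List E) :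
    B u (lc c ms) = rowG (fun z : ℤ => (z : ℝ)) c (fun w => B u w) ms := by
  induction c generalizing ms with
  | nil => simp [lc, rowG]
  | cons a c ih =>
    cases ms with
    | nil => simp [lc, rowG]
    | cons m ms => simp only [lc, rowG, map_add, map_smul, smul_eq_mul, ih]

lemma isZ_eq (z : ℤ) (h : isZ z = true) : z = 0 := by
  cases z with
  | ofNat n =>
    have : n = 0 := Nat.eq_of_beq_eq_true h
    rw [this]; rfl
  | negSucc n => exact absurd h (by simp [isZ])

theorem QG_outer (hs : ∀ u w, B u w = B w u) (d : ℕ) (c : List ℤ) (ms : List E) :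
    QG (fun z : ℤ => (z : ℝ)) (fun u w => B u w) (outer d c) ms =
      (d : ℝ) * B (lc c ms) (lc c ms) := by
  induction c generalizing ms with
  | nil => simp [outer, QG, lc]
  | cons a c ih =>
    cases ms with
    | nil => simp [outer, QG, lc]
    | cons m ms =>
      rw [outer, QG, ih]
      have key : rowG (fun z : ℤ => (z : ℝ)) (cond (isZ a) []
          (mulRow (Int.mul (Int.ofNat d) a) (a :: mulRow 2 c))) (fun w => B m w) (m :: ms) =
          (d : ℝ) * a * (a * B m m + 2 * B m (lc c ms)) := by
        rcases h : isZ a with _ | _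
        · rw [cond_false, rowG_mulRow, rowG, rowG_mulRow, B_lc]
          have e : ((Int.mul (Int.ofNat d) a : ℤ) : ℝ) = (d : ℝ) * a := by
            have : Int.mul (Int.ofNat d) a = (d : ℤ) * a := rfl
            rw [this]; push_cast; ring
          rw [e]
          push_cast
          ring
        · rw [isZ_eq a h, cond_true]
          simp [rowG]
      rw [key, lc]
      simp only [map_add, map_smul, smul_eq_mul, LinearMap.add_apply, LinearMap.smul_apply]
      rw [hs (lc c ms) m]
      ring

lemma iabs_eq (z : ℤ) : ((iabs z : ℕ) : ℝ) = |(z : ℝ)| := by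
  cases z with
  | ofNat n => simp [iabs]
  | negSucc n =>
    simp only [iabs]
    rw [Int.negSucc_eq]
    push_cast
    rw [abs_of_neg (by linarith [(Nat.cast_nonneg n : (0 : ℝ) ≤ (n : ℝ))])]
    ring

/-- sum of `|a_j| B(m_j, m_j)` -/
noncomputable def dg2 : List ℤ → List E → ℝ
  | [], _ => 0
  | _ :: _, [] => 0
  | a :: as, m :: ms => |(a : ℝ)| * B m m + dg2 as ms

lemma QG_addDiag (p : List ℤ) (H : List (List ℤ)) (ms : List E) :
    QG (fun z : ℤ => (z : ℝ)) (fun u w => B u w) (addDiag p H) ms =
      dg2 B p ms + QG (fun z : ℤ => (z : ℝ)) (fun u w => B u w) H ms := by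
  have e0 : ∀ a : ℤ, ((Int.ofNat (iabs a) : ℤ) : ℝ) = |(a : ℝ)| := by
    intro a
    have : (Int.ofNat (iabs a) : ℤ) = ((iabs a : ℕ) : ℤ) := rfl
    rw [this, Int.cast_natCast, iabs_eq]
  induction p generalizing H ms with
  | nil => simp [addDiag, dg2]
  | cons a p ih =>
    cases H with
    | nil =>
      cases ms with
      | nil => simp [addDiag, QG, dg2]
      | cons m ms =>
        simp only [addDiag, QG, rowG, e0, ih, dg2]
        ring
    | cons h H =>
      cases ms with
      | nil => simp [addDiag, QG, dg2]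
      | cons m ms =>
        rw [addDiag, QG, ih, rowG_addRow, QG, dg2]
        simp only [rowG, e0]
        ring

lemma dd_row (hs : ∀ u w, B u w = B w u) (hp : ∀ u, 0 ≤ B u u) (m : E) (p : List ℤ)
    (ms : List E) : 0 ≤ (sumAbs p : ℝ) * B m m +
      2 * rowG (fun z : ℤ => (z : ℝ)) p (fun w => B m w) ms + dg2 B p ms := by
  induction p generalizing ms with
  | nil => simp [sumAbs, rowG, dg2]
  | cons a p ih =>
    have e1 : ((sumAbs (a :: p) : ℕ) : ℝ) = |(a : ℝ)| + sumAbs p := by
      have : sumAbs (a :: p) = iabs a + sumAbs p := rfl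
      rw [this, Nat.cast_add, iabs_eq]
    cases ms with
    | nil =>
      simp only [rowG, dg2, mul_zero, add_zero]
      exact mul_nonneg (Nat.cast_nonneg _) (hp m)
    | cons w ms =>
      rw [e1, rowG, dg2]
      have h1 := ih ms
      have h2 : 0 ≤ |(a : ℝ)| * (B m m + B w w) + 2 * ((a : ℝ) * B m w) := by
        rcases le_total 0 (a : ℝ) with ha | ha
        · rw [abs_of_nonneg ha]
          have h3 := hp (m + w)
          simp only [map_add, LinearMap.add_apply] at h3
          rw [hs w m] at h3
          nlinarith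
        · rw [abs_of_nonpos ha]
          have h3 := hp (m - w)
          simp only [map_sub, LinearMap.sub_apply] at h3
          rw [hs w m] at h3
          nlinarith
      linarith

theorem QG_ddH_nonneg (hs : ∀ u w, B u w = B w u) (hp : ∀ u, 0 ≤ B u u)
    (l : List (ℕ × List ℤ)) (ms : List E) :
    0 ≤ QG (fun z : ℤ => (z : ℝ)) (fun u w => B u w) (ddH l) ms := by
  induction l generalizing ms with
  | nil => simp [ddH, QG]
  | cons y l ih =>
    cases ms with
    | nil => simp [ddH, QG]
    | cons m ms =>
      rw [ddH, QG, QG_addDiag, rowG, rowG_mulRow]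
      have e : ((Int.ofNat (Nat.add y.1 (sumAbs y.2)) : ℤ) : ℝ) = (y.1 : ℝ) + sumAbs y.2 := by
        have : (Int.ofNat (Nat.add y.1 (sumAbs y.2)) : ℤ) = ((y.1 + sumAbs y.2 : ℕ) : ℤ) := rfl
        rw [this]; push_cast; ring
      rw [e]
      have h1 := dd_row B hs hp m y.2 ms
      have h2 := ih ms
      have h3 : 0 ≤ (y.1 : ℝ) * B m m := mul_nonneg (Nat.cast_nonneg _) (hp m)
      push_cast
      nlinarith

theorem QG_blkH_nonneg (hs : ∀ u w, B u w = B w u) (hp : ∀ u, 0 ≤ B u u)
    (b : Blk) (ms : List E) :
    0 ≤ QG (fun z : ℤ => (z : ℝ)) (fun u w => B u w) (blkH b) ms := by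
  unfold blkH
  generalize hH : ddH b.dd = H
  have h0 : 0 ≤ QG (fun z : ℤ => (z : ℝ)) (fun u w => B u w) H ms := by
    rw [← hH]; exact QG_ddH_nonneg B hs hp _ ms
  clear hH
  induction b.sq with
  | nil => exact h0
  | cons y l ih =>
    rw [sumSq, QG_addH, QG_outer B hs]
    have := mul_nonneg (Nat.cast_nonneg (α := ℝ) y.1) (hp (lc y.2 ms))
    linarith

end Quad

section Value

variable {R : Type} {A : Ar R} {φ : R → ℝ}

/-- value of a signed number -/
noncomputable def vs (φ : R → ℝ) (a : R × R) : ℝ := φ a.1 - φ a.2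

/-- value of an integer polynomial -/
noncomputable def evI (r : ℝ) : List ℤ → ℝ
  | [] => 0
  | a :: p => (a : ℝ) + r * evI r p

lemma ph_add (h : ArHom A (arT ℝ) φ) (a b : R) : φ (A.add a b) = φ a + φ b := h.add a b
lemma ph_mul (h : ArHom A (arT ℝ) φ) (a b : R) : φ (A.mul a b) = φ a * φ b := h.mul a b
lemma ph_nc (h : ArHom A (arT ℝ) φ) (n : ℕ) : φ (A.nc n) = (n : ℝ) := h.nc n

lemma vs_sadd (h : ArHom A (arT ℝ) φ) (a b : R × R) :
    vs φ (sadd A a b) = vs φ a + vs φ b := by
  simp only [vs, sadd, ph_add h]; ring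

lemma vs_smulS (h : ArHom A (arT ℝ) φ) (a b : R × R) :
    vs φ (smulS A a b) = vs φ a * vs φ b := by
  simp only [vs, smulS, ph_add h, ph_mul h]; ring

lemma vs_kmulS (h : ArHom A (arT ℝ) φ) (k : R) (b : R × R) :
    vs φ (kmulS A k b) = φ k * vs φ b := by
  simp only [vs, kmulS, ph_mul h]; ring

lemma vs_nmulS (h : ArHom A (arT ℝ) φ) (n : ℕ) (b : R × R) :
    vs φ (nmulS A n b) = (n : ℝ) * vs φ b := by
  rw [nmulS, vs_kmulS h, ph_nc h]

lemma vs_sint (h : ArHom A (arT ℝ) φ) (z : ℤ) : vs φ (sint A z) = (z : ℝ) := by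
  cases z with
  | ofNat n => simp only [sint, vs, ph_nc h]; simp
  | negSucc n =>
    simp only [sint, vs, ph_nc h]
    rw [Int.negSucc_eq]; push_cast; ring

lemma vs_spoly (h : ArHom A (arT ℝ) φ) (x : R) (p : List ℤ) :
    vs φ (spoly A x p) = evI (φ x) p := by
  induction p with
  | nil => simp only [spoly, vs, ph_nc h, evI]; simp
  | cons a p ih => rw [spoly, vs_sadd h, vs_sint h, vs_kmulS h, ih, evI]

lemma ph_npoly (h : ArHom A (arT ℝ) φ) (x : R) (p : List ℕ) :
    φ (npoly A x p) = evT (φ x) p := by
  induction p with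
  | nil => simp only [npoly, ph_nc h, evT]; simp
  | cons a p ih => rw [npoly, ph_add h, ph_nc h, ph_mul h, ih, evT]

/-- value of a sparse list of integer polynomials -/
noncomputable def valI (r : ℝ) (sem : ℕ → ℝ) : List (ℕ × List ℤ) → ℝ
  | [] => 0
  | y :: l => evI r y.2 * sem y.1 + valI r sem l

lemma val_slist (h : ArHom A (arT ℝ) φ) (x : R) (sem : ℕ → ℝ) (l : List (ℕ × List ℤ)) :
    val (vs φ) sem (slist A x l) = valI (φ x) sem l := by
  induction l with
  | nil => rfl
  | cons y l ih => rw [slist, val, ih, vs_spoly h, valI]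

lemma val_neglist (sem : ℕ → ℝ) (l : List (ℕ × (R × R))) :
    val (vs φ) sem (neglist l) = -val (vs φ) sem l := by
  induction l with
  | nil => simp [neglist, val]
  | cons y l ih => simp only [neglist, val, ih, vs]; ring

lemma val_scaleL (h : ArHom A (arT ℝ) φ) (sem : ℕ → ℝ) (c : R × R)
    (l : List (ℕ × (R × R))) :
    val (vs φ) sem (scaleL A c l) = vs φ c * val (vs φ) sem l := by
  induction l with
  | nil => simp [scaleL, val]
  | cons y l ih => simp only [scaleL, val, ih, vs_smulS h]; ring

lemma val_linM (h : ArHom A (arT ℝ) φ) (f : ℕ → ℝ) (cs : List (R × R))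
    (ms : List (List (ℕ × (R × R)))) :
    val (vs φ) f (linM A cs ms) = rowG (vs φ) cs (fun m => val (vs φ) f m) ms := by
  induction cs generalizing ms with
  | nil => rfl
  | cons c cs ih =>
    cases ms with
    | nil => rfl
    | cons m ms =>
      rw [linM, val_mergeL (vs φ) f (sadd A) (vs_sadd h), val_scaleL h, ih, rowG]

lemma val_shiftL (h : ArHom A (arT ℝ) φ) (sem : ℕ → ℝ) (k : ℕ) (c : R × R)
    (l : List (ℕ × (R × R))) :
    val (vs φ) sem (shiftL A k c l) =
      vs φ c * val (vs φ) (fun j => sem (k + 16 ^ 6 * j)) l := by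
  induction l with
  | nil => simp [shiftL, val]
  | cons y l ih =>
    simp only [shiftL, val, ih, vs_smulS h]
    have e : Nat.add k (Nat.mul (Nat.pow 16 6) y.1) = k + 16 ^ 6 * y.1 := rfl
    rw [e]; ring

/-- value of a list of sparse lists -/
noncomputable def valLL (φ : R → ℝ) (sem : ℕ → ℝ) : List (List (ℕ × (R × R))) → ℝ
  | [] => 0
  | l :: ls => val (vs φ) sem l + valLL φ sem ls

lemma valLL_append (sem : ℕ → ℝ) (a b : List (List (ℕ × (R × R)))) :
    valLL φ sem (a ++ b) = valLL φ sem a + valLL φ sem b := by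
  induction a with
  | nil => simp [valLL]
  | cons l a ih => simp only [List.cons_append, valLL, ih]; ring

lemma val_append (sem : ℕ → ℝ) (a b : List (ℕ × (R × R))) :
    val (vs φ) sem (a ++ b) = val (vs φ) sem a + val (vs φ) sem b := by
  induction a with
  | nil => simp [val]
  | cons l a ih => simp only [List.cons_append, val, ih]; ring

lemma valLL_pairUp (h : ArHom A (arT ℝ) φ) (sem : ℕ → ℝ)
    (ls : List (List (ℕ × (R × R)))) : valLL φ sem (pairUp (sadd A) ls) = valLL φ sem ls := by
  induction ls using pairUp.induct with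
  | case1 a b ls ih =>
    rw [pairUp, valLL, ih, val_mergeL (vs φ) sem (sadd A) (vs_sadd h), valLL, valLL]
    ring
  | case2 ls hls =>
    rcases ls with _ | ⟨a, _ | ⟨b, ls⟩⟩
    · rfl
    · rfl
    · exact absurd rfl (hls a b ls)

lemma val_mergeAll (h : ArHom A (arT ℝ) φ) (sem : ℕ → ℝ) (n : ℕ)
    (ls : List (List (ℕ × (R × R)))) :
    val (vs φ) sem (mergeAll (sadd A) n ls) = valLL φ sem ls := by
  induction n generalizing ls with
  | zero =>
    rw [mergeAll]
    induction ls with
    | nil => rfl
    | cons a ls ih =>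
      rw [flat]
      have e : List.append a (flat ls) = a ++ flat ls := rfl
      rw [e, val_append, ih, valLL]
  | succ n ih => rw [mergeAll, ih, valLL_pairUp h]

lemma valLL_tensL (h : ArHom A (arT ℝ) φ) (sem : ℕ → ℝ) (w l : List (ℕ × (R × R))) :
    valLL φ sem (tensL A w l) =
      val (vs φ) (fun k => val (vs φ) (fun j => sem (k + 16 ^ 6 * j)) w) l := by
  induction l with
  | nil => rfl
  | cons y l ih => rw [tensL, valLL, ih, val_shiftL h, val]

/-- the bilinear form on sparse lists -/
noncomputable def bilL (φ : R → ℝ) (β : ℕ → ℕ → ℝ) (u w : List (ℕ × (R × R))) : ℝ :=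
  val (vs φ) (fun i => val (vs φ) (β i) w) u

lemma val_rowG (β : ℕ → ℕ → ℝ) (m : List (ℕ × (R × R))) (h : List (R × R))
    (ms : List (List (ℕ × (R × R)))) :
    val (vs φ) (fun k => rowG (vs φ) h (fun w => val (vs φ) (β k) w) ms) m =
      rowG (vs φ) h (bilL φ β m) ms := by
  have h0 : val (vs φ) (fun _ => (0 : ℝ)) m = 0 := by
    have := val_smul_sem (vs φ) 0 (fun _ => 0) m
    simpa using this
  induction h generalizing ms with
  | nil => exact h0
  | cons a h ih =>
    cases ms with
    | nil => exact h0
    | cons w ms =>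
      rw [rowG, ← ih ms]
      have e := val_add_sem (vs φ) (fun k => vs φ a * val (vs φ) (β k) w)
        (fun k => rowG (vs φ) h (fun w => val (vs φ) (β k) w) ms) m
      have e2 := val_smul_sem (vs φ) (vs φ a) (fun k => val (vs φ) (β k) w) m
      show val (vs φ) (fun k => vs φ a * val (vs φ) (β k) w +
        rowG (vs φ) h (fun w => val (vs φ) (β k) w) ms) m = _
      rw [e, e2]
      rfl

/-- all the codes are small -/
def SmallL (l : List (ℕ × (R × R))) : Prop := ∀ y ∈ l, y.1 < 16 ^ 6

lemma valLL_quadL (h : ArHom A (arT ℝ) φ) (sem : ℕ → ℝ) (β : ℕ → ℕ → ℝ)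
    (hsem : ∀ i j, i < 16 ^ 6 → sem (i + 16 ^ 6 * j) = β i j)
    (H : List (List (R × R))) (ms : List (List (ℕ × (R × R)))) (hms : ∀ m ∈ ms, SmallL m) :
    valLL φ sem (quadL A H ms) = QG (vs φ) (bilL φ β) H ms := by
  induction H generalizing ms with
  | nil => rfl
  | cons r H ih =>
    cases ms with
    | nil => rfl
    | cons m ms =>
      rw [quadL, QG]
      have e : List.append (tensL A (linM A r (m :: ms)) m) (quadL A H ms) =
        tensL A (linM A r (m :: ms)) m ++ quadL A H ms := rfl
      rw [e, valLL_append, ih ms (fun w hw => hms w (List.mem_cons_of_mem _ hw)),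
        valLL_tensL h, ← val_rowG]
      congr 1
      refine val_congr (vs φ) _ _ m fun y hy => ?_
      have hy' := hms m (List.mem_cons_self) y hy
      have e1 : (fun j => sem (y.1 + 16 ^ 6 * j)) = β y.1 := by
        funext j
        exact hsem y.1 j hy'
      rw [e1, val_linM h]

lemma QG_cMat (h : ArHom A (arT ℝ) φ) {V : Type} (B : V → V → ℝ) (c : R)
    (H : List (List ℤ)) (ms : List V) :
    QG (vs φ) B (cMat A c H) ms = φ c * QG (fun z : ℤ => (z : ℝ)) B H ms := by
  have hrow : ∀ (f : V → ℝ) (p : List ℤ) (ms : List V), rowG (vs φ) (cRow A c p) f ms =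
      φ c * rowG (fun z : ℤ => (z : ℝ)) p f ms := by
    intro f p
    induction p with
    | nil => intro ms; simp [cRow, rowG]
    | cons a p ih =>
      intro ms
      cases ms with
      | nil => simp [cRow, rowG]
      | cons m ms => simp only [cRow, rowG, ih, vs_kmulS h, vs_sint h]; ring
  induction H generalizing ms with
  | nil => simp [cMat, QG]
  | cons r H ih =>
    cases ms with
    | nil => simp [cMat, QG]
    | cons m ms => simp only [cMat, QG, ih, hrow]; ring

lemma QG_addHM (h : ArHom A (arT ℝ) φ) {V : Type} (B : V → V → ℝ)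
    (p q : List (List (R × R))) (ms : List V) :
    QG (vs φ) B (addHM A p q) ms = QG (vs φ) B p ms + QG (vs φ) B q ms := by
  have hrow : ∀ (f : V → ℝ) (p q : List (R × R)) (ms : List V),
      rowG (vs φ) (addRowM A p q) f ms = rowG (vs φ) p f ms + rowG (vs φ) q f ms := by
    intro f p
    induction p with
    | nil => intro q ms; simp [addRowM, rowG]
    | cons a p ih =>
      intro q ms
      cases q with
      | nil => cases ms <;> simp [addRowM, rowG]
      | cons b q =>
        cases ms with
        | nil => simp [addRowM, rowG]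
        | cons m ms => simp only [addRowM, rowG, ih, vs_sadd h]; ring
  induction p generalizing q ms with
  | nil => simp [addHM, QG]
  | cons a p ih =>
    cases q with
    | nil => cases ms <;> simp [addHM, QG]
    | cons b q =>
      cases ms with
      | nil => simp [addHM, QG]
      | cons m ms => simp only [addHM, QG, ih, hrow]; ring

lemma evT_nonneg (r : ℝ) (hr : 0 ≤ r) (p : List ℕ) : 0 ≤ evT r p := by
  induction p with
  | nil => exact le_refl _
  | cons a p ih => exact add_nonneg (Nat.cast_nonneg _) (mul_nonneg hr ih)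

lemma QG_totH_nonneg (h : ArHom A (arT ℝ) φ) {V : Type} (B : V → V → ℝ) (x : R)
    (hx : 0 ≤ φ x) (l : List Blk) (ms : List V)
    (hB : ∀ b : Blk, 0 ≤ QG (fun z : ℤ => (z : ℝ)) B (blkH b) ms) :
    0 ≤ QG (vs φ) B (totH A x l) ms := by
  induction l with
  | nil => simp [totH, QG]
  | cons b l ih =>
    rw [totH, QG_addHM h, QG_cMat h, ph_npoly h]
    exact add_nonneg (mul_nonneg (evT_nonneg _ hx _) (hB b)) ih

lemma smallCodes_iff (l : List (ℕ × List ℤ)) (hl : smallCodes l = true) (x : R) :
    SmallL (slist A x l) := by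
  induction l with
  | nil => intro y hy; simp [slist] at hy
  | cons z l ih =>
    rw [smallCodes, Bool.and_eq_true] at hl
    intro y hy
    rw [slist, List.mem_cons] at hy
    rcases hy with rfl | hy
    · have := Nat.le_of_ble_eq_true hl.1
      show z.1 < 16 ^ 6
      norm_num
      omega
    · exact ih hl.2 y hy

lemma smallBasis_iff (l : List (List (ℕ × List ℤ))) (hl : smallBasis l = true) (x : R) :
    ∀ m ∈ slists A x l, SmallL m := by
  induction l with
  | nil => intro y hy; simp [slists] at hy
  | cons z l ih =>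
    rw [smallBasis, Bool.and_eq_true] at hl
    intro y hy
    rw [slists, List.mem_cons] at hy
    rcases hy with rfl | hy
    · exact smallCodes_iff z hl.1 x
    · exact ih hl.2 y hy

lemma valLL_singles (sem sem' : ℕ → ℝ) (cf : ℕ → ℕ) (l : List (ℕ × (R × R)))
    (h : ∀ y ∈ l, sem (cf y.1) = sem' y.1) :
    valLL φ sem (singles cf l) = val (vs φ) sem' l := by
  induction l with
  | nil => rfl
  | cons y l ih =>
    rw [singles, valLL, val, val, val, h y (List.mem_cons_self ..),
      ih (fun z hz => h z (List.mem_cons_of_mem _ hz))]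
    simp

lemma allW_mapS {M M' : Type} (θ : M → M') (l : List (ℕ × M)) :
    allW (mapS θ l) = allW l := by
  induction l with
  | nil => rfl
  | cons y l ih => rw [mapS, allW, allW, ih]

lemma allW_mem {M : Type} (l : List (ℕ × M)) (h : allW l = true) :
    ∀ y ∈ l, isW y.1 = true := by
  induction l with
  | nil => intro y hy; simp at hy
  | cons z l ih =>
    rw [allW, Bool.and_eq_true] at h
    intro y hy
    rw [List.mem_cons] at hy
    rcases hy with rfl | hy
    · exact h.1
    · exact ih h.2 y hy

lemma mem_prg (c : Bool × ℕ) (hc : c ∈ List.append (prgSide false) (prgSide true)) : c.2 < 3 := by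
  have e : List.append (prgSide false) (prgSide true) = prgSide false ++ prgSide true := rfl
  rw [e] at hc
  simp only [prgSide, List.mem_append, List.mem_cons, List.not_mem_nil, or_false] at hc
  rcases hc with hc | hc <;> (rcases hc with rfl | rfl | rfl | rfl | rfl | rfl <;> norm_num)

/-- value of the total list -/
theorem val_total (h : ArHom A (arT ℝ) φ) (x : R) (hx : 0 ≤ φ x)
    (KG KM : ℕ → List (ℕ × List ℕ)) (c : Cert) (semG semM : ℕ → ℝ)
    (hG : RecH semG φ (fun i => krow A x (KG i))) (hM : RecH semM φ (fun i => krow A x (KM i)))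
    (hcG : ∀ k, isW k = true → semM (cfG k) = semG k) (hcM : ∀ k, semM (cfM k) = semM k)
    (hW : allW (gramRun A x KG c) = true) (hsm : smallBasis c.basis = true)
    (β : ℕ → ℕ → ℝ) (hβ : ∀ i j, i < 16 ^ 6 → semG (i + 16 ^ 6 * j) = β i j)
    {E : Type} [AddCommGroup E] [Module ℝ E] (B : E →ₗ[ℝ] E →ₗ[ℝ] ℝ)
    (hs : ∀ u w, B u w = B w u) (hp : ∀ u, 0 ≤ B u u) (vec : List (ℕ × (R × R)) → E)
    (hvec : ∀ u w, bilL φ β u w = B (vec u) (vec w)) :
    -valI (φ x) semM c.target ≤ val (vs φ) semM (total A x KG KM c) := by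
  have hadd := vs_sadd h
  have hk := vs_kmulS h
  have hn := vs_nmulS h
  have e0 : ∀ a b : List (List (ℕ × (R × R))), List.append a b = a ++ b := fun _ _ => rfl
  rw [total, val_mergeAll h, e0, valLL_append,
    valLL_singles semM semM cfM _ (fun y _ => hcM y.1),
    valLL_singles semM semG cfG _ (fun y hy => hcG y.1 (allW_mem _ hW y hy))]
  have e1 : val (vs φ) semM (targRun A x KM c) = -valI (φ x) semM c.target := by
    rw [targRun, val_run (vs φ) semM φ (engA A) hadd hk hn _ hM _ mem_prg, val_neglist,
      val_slist h]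
  have e2 : val (vs φ) semG (gramRun A x KG c) =
      QG (vs φ) (bilL φ β) (totH A x c.blks) (slists A x c.basis) := by
    rw [gramRun, val_run (vs φ) semG φ (engA A) hadd hk hn _ hG _ mem_prg, val_mergeAll h,
      valLL_quadL h semG β hβ _ _ (smallBasis_iff c.basis hsm x)]
  rw [e1, e2]
  have h3 : 0 ≤ QG (vs φ) (bilL φ β) (totH A x c.blks) (slists A x c.basis) := by
    rw [QG_map (vs φ) vec (bilL φ β) (fun u w => B u w) hvec]
    exact QG_totH_nonneg h _ x hx _ _ (fun b => QG_blkH_nonneg B hs hp b _)
  linarith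

lemma allEq_mem (X : ℕ) (l : List (ℕ × (List ℕ × List ℕ)))
    (h1 : allEq (mapS (th2 (evT X)) l) = true) (h2 : allLt X (mapS (th2 (evT 1)) l) = true)
    (r : ℝ) (sem : ℕ → ℝ) : val (vs (evT r)) sem l = 0 := by
  induction l with
  | nil => rfl
  | cons y l ih =>
    rw [mapS, allEq, Bool.and_eq_true] at h1
    rw [mapS, allLt, Bool.and_eq_true, Bool.and_eq_true] at h2
    rw [val, ih h1.2 h2.2]
    have a1 : evT X y.2.1 = evT X y.2.2 := Nat.eq_of_beq_eq_true h1.1
    have a2 : evT 1 y.2.1 < X := Nat.le_of_ble_eq_true h2.1.1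
    have a3 : evT 1 y.2.2 < X := Nat.le_of_ble_eq_true h2.1.2
    rw [vs, evT_unique X y.2.1 y.2.2 a1 a2 a3 r]
    ring

lemma homN (t : ℕ) : ArHom arL arN (evT t) where
  add a b := evT_addN t a b
  mul a b := evT_mulN t a b
  nc n := by
    show evT t [n] = n
    simp [evT]

lemma homR (t : ℝ) : ArHom arL (arT ℝ) (evT t) where
  add a b := evT_addN t a b
  mul a b := evT_mulN t a b
  nc n := by
    show evT t [n] = (n : ℝ)
    simp [evT]

lemma evT_X {T : Type} [CommSemiring T] (t : T) : evT t [0, 1] = t := by
  simp [evT]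

/-- **soundness of the two checks** -/
theorem target_nonneg (X : ℕ) (KG KM : ℕ → List (ℕ × List ℕ)) (c : Cert)
    (h1 : check1 X KG KM c = true) (h2 : check2 X KG KM c = true) (r : ℝ) (hr : 0 ≤ r)
    (semG semM : ℕ → ℝ)
    (hG : RecH semG (evT r) (fun i => krow arL [0, 1] (KG i)))
    (hM : RecH semM (evT r) (fun i => krow arL [0, 1] (KM i)))
    (hcG : ∀ k, isW k = true → semM (cfG k) = semG k) (hcM : ∀ k, semM (cfM k) = semM k)
    (β : ℕ → ℕ → ℝ) (hβ : ∀ i j, i < 16 ^ 6 → semG (i + 16 ^ 6 * j) = β i j)
    {E : Type} [AddCommGroup E] [Module ℝ E] (B : E →ₗ[ℝ] E →ₗ[ℝ] ℝ)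
    (hs : ∀ u w, B u w = B w u) (hp : ∀ u, 0 ≤ B u u)
    (vec : List (ℕ × (List ℕ × List ℕ)) → E)
    (hvec : ∀ u w, bilL (evT r) β u w = B (vec u) (vec w)) :
    0 ≤ valI r semM c.target := by
  rw [check1, Bool.and_eq_true, Bool.and_eq_true] at h1
  have hW : allW (gramRun arL [0, 1] KG c) = true := by
    have := mapS_gramRun (homN X) [0, 1] KG c
    rw [evT_X] at this
    rw [← allW_mapS (th2 (evT X)), this]
    exact h1.2.1
  have ht := val_total (homR r) [0, 1] (by rw [evT_X]; exact hr) KG KM c semG semM hG hM hcG hcM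
    hW h1.1 β hβ B hs hp vec hvec
  have e1 : mapS (th2 (evT X)) (total arL [0, 1] KG KM c) = total arN X KG KM c := by
    rw [mapS_total (homN X), evT_X]
  have e2 : mapS (th2 (evT 1)) (total arL [0, 1] KG KM c) = total arN 1 KG KM c := by
    rw [mapS_total (homN 1), evT_X]
  have h0 := allEq_mem X (total arL [0, 1] KG KM c) (by rw [e1]; exact h1.2.2)
    (by rw [e2]; exact h2) r semM
  rw [h0, evT_X] at ht
  linarith

end Value

end Pool.Agent.Work.MP_8d2b2d_co.RP
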