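import Pool.Agent.Work.MP_8d2b2d_co.RP.EvalE

/-!
# From a checked certificate to the row inequality (`a = 5/2`)
-/

namespace Pool.Agent.Work.MP_8d2b2d_co.RP

open Finset MvPolynomial

set_option linter.unusedSectionVars false

section Data

/-- codes of the correlations in the row term -/
def key1 (a b : ZMod 3) : ℕ := (273 - 16 ^ a.val) + 16777216 * (273 - 16 ^ b.val)

def key2 (a b : ZMod 3) : ℕ := 273 + 16 ^ (3 + a.val) + 16777216 * (273 - 16 ^ b.val)

end Data

section PolyI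

lemma evI_addI (r : ℝ) (p q : List ℤ) : evI r (addI p q) = evI r p + evI r q := by
  induction p generalizing q with
  | nil => simp [addI, evI]
  | cons a p ih =>
    cases q with
    | nil => simp [addI, evI]
    | cons b q =>
      simp only [addI, evI, ih]
      have e : ((Int.add a b : ℤ) : ℝ) = (a : ℝ) + (b : ℝ) := by
        have : Int.add a b = a + b := rfl
        rw [this]; push_cast; ring
      rw [e]; ring

lemma evI_smulI (r : ℝ) (c : ℤ) (p : List ℤ) : evI r (smulI c p) = (c : ℝ) * evI r p := by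
  induction p with
  | nil => simp [smulI, evI]
  | cons a p ih =>
    simp only [smulI, evI, ih]
    have e : ((Int.mul c a : ℤ) : ℝ) = (c : ℝ) * (a : ℝ) := by
      have : Int.mul c a = c * a := rfl
      rw [this]; push_cast; ring
    rw [e]; ring

lemma evI_mulI (r : ℝ) (p q : List ℤ) : evI r (mulI p q) = evI r p * evI r q := by
  induction p with
  | nil => simp [mulI, evI]
  | cons a p ih =>
    simp only [mulI, evI_addI, evI_smulI, evI, ih]
    push_cast; ring

end PolyI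

section Rows

lemma sum3 (f : ZMod 3 → ℝ) : ∑ b, f b = f 0 + f 1 + f 2 := Fin.sum_univ_three f

/-- the data describe the matrix `c` -/
lemma rowsOK_of (r : ℝ) (K : ℕ → List (ℕ × List ℕ)) (c : ZMod 3 → ZMod 3 → ℝ)
    (h : ∀ (a : ZMod 3) (f : ℕ → ℝ), ((K a.val).map (fun y => evT r y.2 * f y.1)).sum =
      c a 0 * f 0 + c a 1 * f 1 + c a 2 * f 2) :
    RowsOK (evT r) (fun i => krow arL [0, 1] (K i)) c := by
  intro a sem s d e k
  have key : ∀ l : List (ℕ × List ℕ), rowV sem (evT r) s d e (krow arL [0, 1] l) k =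
      (l.map (fun y => evT r y.2 * (sem (k - 16 ^ s + 16 ^ (d + y.1)) +
        (dg (e + y.1) k : ℝ) * sem (k - 16 ^ s - 16 ^ (e + y.1))))).sum := by
    intro l
    induction l with
    | nil => rfl
    | cons y l ih =>
      rw [krow, rowV, ih, List.map_cons, List.sum_cons]
      have e1 : evT r (npoly arL [0, 1] y.2) = evT r y.2 := by
        rw [ph_npoly (homR r), evT_X]
      rw [e1]
  rw [key, h a (fun j => sem (k - 16 ^ s + 16 ^ (d + j)) +
        (dg (e + j) k : ℝ) * sem (k - 16 ^ s - 16 ^ (e + j))), sum3]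
  rfl

end Rows

section Codes5

lemma fd_key1 : ∀ a b : ZMod 3, fd 0 (key1 a b) = Function.update (fun _ => 1) a 0 ∧
    fd 3 (key1 a b) = (fun _ => 0) ∧ fd 6 (key1 a b) = Function.update (fun _ => 1) b 0 ∧
    fd 9 (key1 a b) = (fun _ => 0) := by decide +kernel

lemma fd_key2 : ∀ a b : ZMod 3, fd 0 (key2 a b) = (fun _ => 1) ∧
    fd 3 (key2 a b) = Function.update (fun _ => 0) a 1 ∧
    fd 6 (key2 a b) = Function.update (fun _ => 1) b 0 ∧
    fd 9 (key2 a b) = (fun _ => 0) := by decide +kernel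

lemma fd_keyT : fd 0 4580180241 = (fun _ => 1) ∧ fd 3 4580180241 = (fun _ => 0) ∧
    fd 6 4580180241 = (fun _ => 1) ∧ fd 9 4580180241 = (fun _ => 0) := by decide +kernel

lemma dg_low (l i j : ℕ) (hl : l < 6) : dg l (i + 16 ^ 6 * j) = dg l i := by
  obtain ⟨e, he⟩ : ∃ e, 6 = l + 1 + e := ⟨6 - (l + 1), by omega⟩
  rw [dg_eq, dg_eq]
  have h : (16 : ℕ) ^ 6 * j = 16 ^ l * (16 * (16 ^ e * j)) := by
    rw [he, pow_add, pow_add, pow_one]; ring
  rw [h, Nat.add_mul_div_left _ _ (by positivity), Nat.add_mul_mod_self_left]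

lemma dg_high (l i j : ℕ) (hi : i < 16 ^ 6) : dg (6 + l) (i + 16 ^ 6 * j) = dg l j := by
  rw [dg_eq, dg_eq, pow_add, ← Nat.div_div_eq_div_mul, Nat.add_mul_div_left _ _ (by positivity),
    Nat.div_eq_of_lt hi, Nat.zero_add]

lemma fd_tensor (i j : ℕ) (hi : i < 16 ^ 6) : fd 0 (i + 16 ^ 6 * j) = fd 0 i ∧
    fd 3 (i + 16 ^ 6 * j) = fd 3 i ∧ fd 6 (i + 16 ^ 6 * j) = fd 0 j ∧
    fd 9 (i + 16 ^ 6 * j) = fd 3 j := by
  refine ⟨?_, ?_, ?_, ?_⟩ <;> funext a <;> unfold fd
  · have := ZMod.val_lt a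
    exact dg_low _ _ _ (by omega)
  · have := ZMod.val_lt a
    exact dg_low _ _ _ (by omega)
  · rw [dg_high _ _ _ hi]
    rw [Nat.zero_add]
  · have e : 9 + a.val = 6 + (3 + a.val) := by omega
    rw [e, dg_high _ _ _ hi]

end Codes5

section Form

variable {d : Type} [Fintype d] [DecidableEq d] (S : ZMod 3 → ZMod 3 → ℝ)
  (hS : ∀ a b, S a b = S b a) (N : ZMod 3 → Prop) [DecidablePred N] (v : d → ℂ)
  (g : MvPolynomial d ℂ) (ρ : ℝ)

lemma real_smul_eq (c : ℝ) (u : MvPolynomial (ZMod 3 × d) ℂ) : c • u = C (c : ℂ) * u := by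
  rw [Algebra.smul_def, MvPolynomial.algebraMap_apply]
  rfl

/-- the form as a bilinear map -/
noncomputable def BB : MvPolynomial (ZMod 3 × d) ℂ →ₗ[ℝ] MvPolynomial (ZMod 3 × d) ℂ →ₗ[ℝ] ℝ :=
  LinearMap.mk₂ ℝ (RB S N) (RB_add_left S N)
    (fun c u w => by rw [real_smul_eq, RB_smul_left]; rfl)
    (fun u w w' => RB_add_right S N hS u w w')
    (fun c u w => by rw [real_smul_eq, RB_smul_right S N hS]; rfl)

lemma BB_apply (u w : MvPolynomial (ZMod 3 × d) ℂ) : BB S hS N u w = RB S N u w := rfl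

/-- the scaled monomial with a code -/
noncomputable def nvh (k : ℕ) : MvPolynomial (ZMod 3 × d) ℂ :=
  (ρ ^ (∑ a, fd 3 k a) * (ρ⁻¹) ^ (∑ a, fd 0 k a)) • nv S N v g (fd 0 k) (fd 3 k)

include hS in
lemma sem_tensor (i j : ℕ) (hi : i < 16 ^ 6) :
    semF (hatF ρ (gr S N v g)) (i + 16 ^ 6 * j) =
      BB S hS N (nvh S N v g ρ i) (nvh S N v g ρ j) := by
  obtain ⟨h0, h3, h6, h9⟩ := fd_tensor i j hi
  unfold semF hatF nvh
  rw [h0, h3, h6, h9, map_smul, map_smul, LinearMap.smul_apply, smul_eq_mul, smul_eq_mul,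
    BB_apply]
  simp only [Finset.sum_add_distrib, pow_add]
  unfold gr
  ring

/-- the vector of a sparse list -/
noncomputable def vecL {R : Type} (φ : R → ℝ) : List (ℕ × (R × R)) →
    MvPolynomial (ZMod 3 × d) ℂ
  | [] => 0
  | y :: l => vs φ y.2 • nvh S N v g ρ y.1 + vecL φ l

lemma bil_vecL {R : Type} (φ : R → ℝ) (u w : List (ℕ × (R × R))) :
    bilL φ (fun i j => BB S hS N (nvh S N v g ρ i) (nvh S N v g ρ j)) u w =
      BB S hS N (vecL S N v g ρ φ u) (vecL S N v g ρ φ w) := by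
  have h1 : ∀ (i : ℕ) (w : List (ℕ × (R × R))),
      val (vs φ) (fun j => BB S hS N (nvh S N v g ρ i) (nvh S N v g ρ j)) w =
      BB S hS N (nvh S N v g ρ i) (vecL S N v g ρ φ w) := by
    intro i w
    induction w with
    | nil => simp [val, vecL]
    | cons y w ih => rw [val, ih, vecL, map_add, map_smul, smul_eq_mul]
  unfold bilL
  have h2 : (fun i => val (vs φ) ((fun i j => BB S hS N (nvh S N v g ρ i) (nvh S N v g ρ j)) i) w) =
      fun i => BB S hS N (nvh S N v g ρ i) (vecL S N v g ρ φ w) := by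
    funext i; exact h1 i w
  rw [h2]
  induction u with
  | nil => simp [val, vecL]
  | cons y u ih =>
    rw [val, ih, vecL, map_add, map_smul, LinearMap.add_apply, LinearMap.smul_apply, smul_eq_mul]

end Form

section Main

variable {d : Type} [Fintype d] [DecidableEq d]

/-- the inequality from a checked certificate, scaled form -/
theorem hat_ineq (X : ℕ) (c : Cert) (E : List ℤ) (htg : c.target = tgt5 E)
    (h1 : check1 X KG5 KM5 c = true) (h2 : check2 X KG5 KM5 c = true)
    (r ρ : ℝ) (hr : 0 ≤ r) (hρ : 0 < ρ) (s : ZMod 3 → ℝ) (hs0 : s 0 = ρ ^ 2 * (1 + 5 * r))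
    (hs1 : s 1 = ρ ^ 2 * (1 + r)) (hs2 : s 2 = ρ ^ 2) (v : d → ℂ) (hv : ∑ c, ‖v c‖ ^ 2 = 1)
    (g : MvPolynomial d ℂ) :
    0 ≤ evI r E * ((42 * r + 192 * r ^ 2) * hatF ρ (mmR (fun a b => s (a + b)) v g)
        (fun _ => 1) (fun _ => 0) (fun _ => 1) (fun _ => 0) +
      (6 + 36 * r + 93 * r ^ 2 + 126 * r ^ 3) * ∑ a, ∑ b,
        (if a + b = 0 then -3 else if a + b = 1 then 1 else 2) *
        (hatF ρ (mmR (fun a b => s (a + b)) v g) (Function.update (fun _ => 1) a 0) (fun _ => 0)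
          (Function.update (fun _ => 1) b 0) (fun _ => 0) +
        hatF ρ (mmR (fun a b => s (a + b)) v g) (fun _ => 1) (Function.update (fun _ => 0) a 1)
          (Function.update (fun _ => 1) b 0) (fun _ => 0))) := by
  set S : ZMod 3 → ZMod 3 → ℝ := fun a b => s (a + b) with hSdef
  have hS : ∀ a b, S a b = S b a := by
    intro a b
    show s (a + b) = s (b + a)
    rw [add_comm]
  have hss : ∀ a b : ZMod 3, s (a + b) = s (b + a) := fun a b => by rw [add_comm]
  set N : ZMod 3 → Prop := fun a => a = 1 with hN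
  have hρ2 : 0 < ρ ^ 2 := by positivity
  have hρ0 : ρ ≠ 0 := hρ.ne'
  -- the two recursions
  have hG : RecH (semF (hatF ρ (gr S N v g))) (evT r) (fun i => krow arL [0, 1] (KG5 i)) := by
    refine recH_of_FRec (evT r) _ _ ?_ _ ((gr_FRec S v g N hS hv).hat ρ hρ)
    refine rowsOK_of r KG5 _ ?_
    intro a f
    rcases z3 a with rfl | rfl | rfl
    · have e0 : Kc S N 0 0 = ρ ^ 2 * (1 + 5 * r) := by
        unfold Kc; rw [if_pos (by decide)]; exact hs0
      have e1 : Kc S N 0 1 = 0 := by unfold Kc; rw [if_neg (by decide)]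
      have e2 : Kc S N 0 2 = ρ ^ 2 := by unfold Kc; rw [if_pos (by decide)]; exact hs2
      rw [e0, e1, e2]
      show (([(0, [1, 5]), (2, [1])] : List (ℕ × List ℕ)).map
        (fun y => evT r y.2 * f y.1)).sum = _
      simp only [List.map_cons, List.map_nil, List.sum_cons, List.sum_nil, evT]
      push_cast
      field_simp
      ring
    · have e0 : Kc S N 1 0 = 0 := by unfold Kc; rw [if_neg (by decide)]
      have e1 : Kc S N 1 1 = ρ ^ 2 := by unfold Kc; rw [if_pos (by decide)]; exact hs2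
      have e2 : Kc S N 1 2 = 0 := by unfold Kc; rw [if_neg (by decide)]
      rw [e0, e1, e2]
      show (([(1, [1])] : List (ℕ × List ℕ)).map (fun y => evT r y.2 * f y.1)).sum = _
      simp only [List.map_cons, List.map_nil, List.sum_cons, List.sum_nil, evT]
      push_cast
      field_simp
      ring
    · have e0 : Kc S N 2 0 = ρ ^ 2 := by unfold Kc; rw [if_pos (by decide)]; exact hs2
      have e1 : Kc S N 2 1 = 0 := by unfold Kc; rw [if_neg (by decide)]
      have e2 : Kc S N 2 2 = ρ ^ 2 * (1 + r) := by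
        unfold Kc; rw [if_pos (by decide)]; exact hs1
      rw [e0, e1, e2]
      show (([(0, [1]), (2, [1, 1])] : List (ℕ × List ℕ)).map
        (fun y => evT r y.2 * f y.1)).sum = _
      simp only [List.map_cons, List.map_nil, List.sum_cons, List.sum_nil, evT]
      push_cast
      field_simp
      ring
  have hM : RecH (semF (hatF ρ (mmR S v g))) (evT r) (fun i => krow arL [0, 1] (KM5 i)) := by
    refine recH_of_FRec (evT r) _ _ ?_ _ ((mmR_FRec S v g hS hv).hat ρ hρ)
    refine rowsOK_of r KM5 _ ?_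
    intro a f
    rcases z3 a with rfl | rfl | rfl
    · have e0 : S 0 0 = ρ ^ 2 * (1 + 5 * r) := hs0
      have e1 : S 0 1 = ρ ^ 2 * (1 + r) := hs1
      have e2 : S 0 2 = ρ ^ 2 := hs2
      rw [e0, e1, e2]
      show (([(0, [1, 5]), (1, [1, 1]), (2, [1])] : List (ℕ × List ℕ)).map
        (fun y => evT r y.2 * f y.1)).sum = _
      simp only [List.map_cons, List.map_nil, List.sum_cons, List.sum_nil, evT]
      push_cast
      field_simp
      ring
    · have e0 : S 1 0 = ρ ^ 2 * (1 + r) := hs1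
      have e1 : S 1 1 = ρ ^ 2 := hs2
      have e2 : S 1 2 = ρ ^ 2 * (1 + 5 * r) := hs0
      rw [e0, e1, e2]
      show (([(0, [1, 1]), (1, [1]), (2, [1, 5])] : List (ℕ × List ℕ)).map
        (fun y => evT r y.2 * f y.1)).sum = _
      simp only [List.map_cons, List.map_nil, List.sum_cons, List.sum_nil, evT]
      push_cast
      field_simp
      ring
    · have e0 : S 2 0 = ρ ^ 2 := hs2
      have e1 : S 2 1 = ρ ^ 2 * (1 + 5 * r) := hs0
      have e2 : S 2 2 = ρ ^ 2 * (1 + r) := hs1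
      rw [e0, e1, e2]
      show (([(0, [1]), (1, [1, 5]), (2, [1, 1])] : List (ℕ × List ℕ)).map
        (fun y => evT r y.2 * f y.1)).sum = _
      simp only [List.map_cons, List.map_nil, List.sum_cons, List.sum_nil, evT]
      push_cast
      field_simp
      ring
  -- positivity of the form
  have hpsd1 : (Matrix.of (fun a b : {a // N a} => S a b)).PosSemidef := by
    have e : (Matrix.of (fun a b : {a // N a} => S a b)) =
        Matrix.diagonal (fun _ : {a // N a} => ρ ^ 2) := by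
      ext ⟨a, ha⟩ ⟨b, hb⟩
      have ha' : a = 1 := ha
      have hb' : b = 1 := hb
      subst ha' hb'
      rw [Matrix.diagonal_apply_eq]
      exact hs2
    rw [e]
    exact Matrix.PosSemidef.diagonal (fun _ => hρ2.le)
  have hpsd2 : (Matrix.of (fun a b : {a // ¬ N a} => S a b)).PosSemidef := by
    have z0 : ¬ N 0 := by rw [hN]; decide
    have z2 : ¬ N 2 := by rw [hN]; decide
    have hcase : ∀ x : {a // ¬ N a}, x = ⟨0, z0⟩ ∨ x = ⟨2, z2⟩ := by
      rintro ⟨x, hx⟩
      rcases z3 x with rfl | rfl | rfl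
      · exact Or.inl rfl
      · exact absurd rfl hx
      · exact Or.inr rfl
    refine Matrix.PosSemidef.of_dotProduct_mulVec_nonneg ?_ ?_
    · ext a b
      simp only [Matrix.conjTranspose_apply, Matrix.of_apply, star_trivial]
      exact hS _ _
    · intro x
      have hsum : ∀ f : {a // ¬ N a} → ℝ, ∑ a, f a = f ⟨0, z0⟩ + f ⟨2, z2⟩ := by
        intro f
        have hu : (Finset.univ : Finset {a // ¬ N a}) = {⟨0, z0⟩, ⟨2, z2⟩} := by
          ext y
          simp only [Finset.mem_univ, Finset.mem_insert, Finset.mem_singleton, true_iff]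
          exact hcase y
        rw [hu, Finset.sum_pair]
        intro h
        have h' : (0 : ZMod 3) = 2 := congrArg Subtype.val h
        exact absurd h' (by decide)
      simp only [dotProduct, Matrix.mulVec, Matrix.of_apply, hsum, star_trivial]
      have e00 : S 0 0 = ρ ^ 2 * (1 + 5 * r) := hs0
      have e02 : S 0 2 = ρ ^ 2 := hs2
      have e20 : S 2 0 = ρ ^ 2 := hs2
      have e22 : S 2 2 = ρ ^ 2 * (1 + r) := hs1
      rw [e00, e02, e20, e22]
      have key : x ⟨0, z0⟩ * (ρ ^ 2 * (1 + 5 * r) * x ⟨0, z0⟩ + ρ ^ 2 * x ⟨2, z2⟩) +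
          x ⟨2, z2⟩ * (ρ ^ 2 * x ⟨0, z0⟩ + ρ ^ 2 * (1 + r) * x ⟨2, z2⟩) =
          ρ ^ 2 * ((x ⟨0, z0⟩ + x ⟨2, z2⟩) ^ 2 + 5 * r * x ⟨0, z0⟩ ^ 2 + r * x ⟨2, z2⟩ ^ 2) := by
        ring
      rw [key]
      positivity
  have hpos : ∀ u : MvPolynomial (ZMod 3 × d) ℂ, 0 ≤ BB S hS N u u := fun u =>
    RB_nonneg S N hS hpsd1 hpsd2 u
  have h := target_nonneg X KG5 KM5 c h1 h2 r hr (semF (hatF ρ (gr S N v g)))
    (semF (hatF ρ (mmR S v g))) hG hM (fun k hk => sem_cfG v g s hss ρ k hk)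
    (fun k => sem_cfM v g s hss ρ k)
    (fun i j => BB S hS N (nvh S N v g ρ i) (nvh S N v g ρ j))
    (fun i j hi => sem_tensor S hS N v g ρ i j hi) (BB S hS N)
    (fun u w => RB_symm S N hS u w) hpos (vecL S N v g ρ (evT r))
    (fun u w => bil_vecL S hS N v g ρ (evT r) u w)
  rw [htg] at h
  have k1 : ∀ a b : ZMod 3, semF (hatF ρ (mmR S v g)) (key1 a b) =
      hatF ρ (mmR S v g) (Function.update (fun _ => 1) a 0) (fun _ => 0)
          (Function.update (fun _ => 1) b 0) (fun _ => 0) := by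
    intro a b
    obtain ⟨q0, q3, q6, q9⟩ := fd_key1 a b
    unfold semF
    rw [q0, q3, q6, q9]
  have k2 : ∀ a b : ZMod 3, semF (hatF ρ (mmR S v g)) (key2 a b) =
      hatF ρ (mmR S v g) (fun _ => 1) (Function.update (fun _ => 0) a 1)
          (Function.update (fun _ => 1) b 0) (fun _ => 0) := by
    intro a b
    obtain ⟨q0, q3, q6, q9⟩ := fd_key2 a b
    unfold semF
    rw [q0, q3, q6, q9]
  have kT : semF (hatF ρ (mmR S v g)) 4580180241 =
      hatF ρ (mmR S v g) (fun _ => 1) (fun _ => 0) (fun _ => 1) (fun _ => 0) := by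
    obtain ⟨q0, q3, q6, q9⟩ := fd_keyT
    unfold semF
    rw [q0, q3, q6, q9]
  have hval : valI r (semF (hatF ρ (mmR S v g))) (tgt5 E) = evI r E *
      ((42 * r + 192 * r ^ 2) * semF (hatF ρ (mmR S v g)) 4580180241 +
      (6 + 36 * r + 93 * r ^ 2 + 126 * r ^ 3) * ∑ a, ∑ b,
        (if a + b = 0 then -3 else if a + b = 1 then 1 else 2) *
        (semF (hatF ρ (mmR S v g)) (key1 a b) + semF (hatF ρ (mmR S v g)) (key2 a b))) := by
    simp only [tgt5, valI, evI_mulI, sum3]
    have c00 : (if (0 : ZMod 3) + 0 = 0 then (-3 : ℝ) else if (0 : ZMod 3) + 0 = 1 then 1 else 2) = -3 := by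
      rw [if_pos (by decide)]
    have c01 : (if (0 : ZMod 3) + 1 = 0 then (-3 : ℝ) else if (0 : ZMod 3) + 1 = 1 then 1 else 2) = 1 := by
      rw [if_neg (by decide), if_pos (by decide)]
    have c02 : (if (0 : ZMod 3) + 2 = 0 then (-3 : ℝ) else if (0 : ZMod 3) + 2 = 1 then 1 else 2) = 2 := by
      rw [if_neg (by decide), if_neg (by decide)]
    have c10 : (if (1 : ZMod 3) + 0 = 0 then (-3 : ℝ) else if (1 : ZMod 3) + 0 = 1 then 1 else 2) = 1 := by
      rw [if_neg (by decide), if_pos (by decide)]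
    have c11 : (if (1 : ZMod 3) + 1 = 0 then (-3 : ℝ) else if (1 : ZMod 3) + 1 = 1 then 1 else 2) = 2 := by
      rw [if_neg (by decide), if_neg (by decide)]
    have c12 : (if (1 : ZMod 3) + 2 = 0 then (-3 : ℝ) else if (1 : ZMod 3) + 2 = 1 then 1 else 2) = -3 := by
      rw [if_pos (by decide)]
    have c20 : (if (2 : ZMod 3) + 0 = 0 then (-3 : ℝ) else if (2 : ZMod 3) + 0 = 1 then 1 else 2) = 2 := by
      rw [if_neg (by decide), if_neg (by decide)]
    have c21 : (if (2 : ZMod 3) + 1 = 0 then (-3 : ℝ) else if (2 : ZMod 3) + 1 = 1 then 1 else 2) = -3 := by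
      rw [if_pos (by decide)]
    have c22 : (if (2 : ZMod 3) + 2 = 0 then (-3 : ℝ) else if (2 : ZMod 3) + 2 = 1 then 1 else 2) = 1 := by
      rw [if_neg (by decide), if_pos (by decide)]
    rw [c00, c01, c02, c10, c11, c12, c20, c21, c22]
    have m00 : key1 0 0 = 4563403024 := by decide +kernel
    have m10 : key1 1 0 = 4563403009 := by decide +kernel
    have m20 : key1 2 0 = 4563402769 := by decide +kernel
    have m01 : key1 0 1 = 4311744784 := by decide +kernel
    have m11 : key1 1 1 = 4311744769 := by decide +kernel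
    have m21 : key1 2 1 = 4311744529 := by decide +kernel
    have m02 : key1 0 2 = 285212944 := by decide +kernel
    have m12 : key1 1 2 = 285212929 := by decide +kernel
    have m22 : key1 2 2 = 285212689 := by decide +kernel
    have n00 : key2 0 0 = 4563407121 := by decide +kernel
    have n10 : key2 1 0 = 4563468561 := by decide +kernel
    have n20 : key2 2 0 = 4564451601 := by decide +kernel
    have n01 : key2 0 1 = 4311748881 := by decide +kernel
    have n11 : key2 1 1 = 4311810321 := by decide +kernel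
    have n21 : key2 2 1 = 4312793361 := by decide +kernel
    have n02 : key2 0 2 = 285217041 := by decide +kernel
    have n12 : key2 1 2 = 285278481 := by decide +kernel
    have n22 : key2 2 2 = 286261521 := by decide +kernel
    rw [m00, m10, m20, m01, m11, m21, m02, m12, m22, n00, n10, n20, n01, n11, n21, n02, n12, n22]
    simp only [evI]
    push_cast
    ring
  rw [hval, kT] at h
  simp only [k1, k2] at h
  exact h

/-- **from a checked certificate to the certified inequality of `pate_three_of_cert`** -/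
theorem cert_row (X : ℕ) (c : Cert) (E : List ℤ) (htg : c.target = tgt5 E)
    (hE : ∀ r : ℝ, 0 < r → 0 < evI r E)
    (h1 : check1 X KG5 KM5 c = true) (h2 : check2 X KG5 KM5 c = true) :
    ∀ t ∈ Set.Ioo (0:ℝ) 1, ∀ (n : ℕ) (v : Fin n → ℂ) (g : MvPolynomial (Fin n) ℂ),
      ∑ c, ‖v c‖ ^ 2 = 1 →
      0 ≤ (1 : ℝ) * ((ph' (5 / 2) t : ℂ) * TT (SA (5 / 2) t) v g -
        (ph (5 / 2) t : ℂ) * rowT (SA (5 / 2) t) (SA' (5 / 2)) v g).re := by
  intro t ht n v g hv
  obtain ⟨ht0, ht1⟩ := ht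
  have hσ : 0 < 1 - t := by linarith
  set σ : ℝ := 1 - t with hσd
  set ρ : ℝ := Real.sqrt σ with hρd
  have hρ : 0 < ρ := Real.sqrt_pos.2 hσ
  have hρ2 : ρ ^ 2 = σ := Real.sq_sqrt hσ.le
  set r : ℝ := t / (2 * σ) with hrd
  have hr : 0 < r := by positivity
  have htr : t = 2 * σ * r := by rw [hrd]; field_simp
  have hs0 : sp (5 / 2) 0 t = ρ ^ 2 * (1 + 5 * r) := by
    rw [sp_zero, hρ2]
    have : (5 / 2 : ℝ) * t = 5 * (σ * r) := by rw [htr]; ring
    rw [this, ← hσd]; ring
  have hs1 : sp (5 / 2) 1 t = ρ ^ 2 * (1 + r) := by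
    rw [sp_one, hρ2]
    have : (3 - 5 / 2 : ℝ) * t = σ * r := by rw [htr]; ring
    rw [this, ← hσd]; ring
  have hs2 : sp (5 / 2) 2 t = ρ ^ 2 := by
    rw [sp_two, hρ2]
  have key := hat_ineq X c E htg h1 h2 r ρ hr.le hρ (fun a => sp (5 / 2) a t) hs0 hs1 hs2 v hv g
  have key2 := nonneg_of_mul_nonneg_right key (hE r hr)
  -- scaling factors
  have hρ0 : ρ ≠ 0 := hρ.ne'
  set F := mmR (fun a b => (fun a => sp (5 / 2) a t) (a + b)) v g with hF
  have sT : hatF ρ F (fun _ => 1) (fun _ => 0) (fun _ => 1) (fun _ => 0) =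
      (ρ ^ 6)⁻¹ * F (fun _ => 1) (fun _ => 0) (fun _ => 1) (fun _ => 0) := by
    unfold hatF
    have e1 : ∑ a : ZMod 3, ((fun _ => 0 : ZMod 3 → ℕ) a + (fun _ => 0 : ZMod 3 → ℕ) a) = 0 := by
      decide
    have e2 : ∑ a : ZMod 3, ((fun _ => 1 : ZMod 3 → ℕ) a + (fun _ => 1 : ZMod 3 → ℕ) a) = 6 := by
      decide
    rw [e1, e2, pow_zero, one_mul, inv_pow]
  have s1 : ∀ a b : ZMod 3, hatF ρ F (Function.update (fun _ => 1) a 0) (fun _ => 0)
      (Function.update (fun _ => 1) b 0) (fun _ => 0) = (ρ ^ 4)⁻¹ *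
      F (Function.update (fun _ => 1) a 0) (fun _ => 0)
        (Function.update (fun _ => 1) b 0) (fun _ => 0) := by
    intro a b
    unfold hatF
    have e1 : ∑ a : ZMod 3, ((fun _ => 0 : ZMod 3 → ℕ) a + (fun _ => 0 : ZMod 3 → ℕ) a) = 0 := by
      decide
    have e2 : ∀ a b : ZMod 3, ∑ x : ZMod 3, (Function.update (fun _ => 1 : ZMod 3 → ℕ) a 0 x +
      Function.update (fun _ => 1 : ZMod 3 → ℕ) b 0 x) = 4 := by
      decide
    rw [e1, e2, pow_zero, one_mul, inv_pow]
  have s2 : ∀ a b : ZMod 3, hatF ρ F (fun _ => 1) (Function.update (fun _ => 0) a 1)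
      (Function.update (fun _ => 1) b 0) (fun _ => 0) = (ρ ^ 4)⁻¹ *
      F (fun _ => 1) (Function.update (fun _ => 0) a 1)
        (Function.update (fun _ => 1) b 0) (fun _ => 0) := by
    intro a b
    unfold hatF
    have e1 : ∀ a : ZMod 3, ∑ x : ZMod 3, (Function.update (fun _ => 0 : ZMod 3 → ℕ) a 1 x +
        (fun _ => 0 : ZMod 3 → ℕ) x) = 1 := by
      decide
    have e2 : ∀ b : ZMod 3, ∑ x : ZMod 3, ((fun _ => 1 : ZMod 3 → ℕ) x +
      Function.update (fun _ => 1 : ZMod 3 → ℕ) b 0 x) = 5 := by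
      decide
    rw [e1, e2, pow_one]
    field_simp
  simp only [sT, s1, s2] at key2
  -- the two correlations
  have hTT : (TT (SA (5 / 2) t) v g).re =
      F (fun _ => 1) (fun _ => 0) (fun _ => 1) (fun _ => 0) := by
    rw [TT_eq_MM]; rfl
  have hnu : nu v = 1 := hv
  have hrow : (rowT (SA (5 / 2) t) (SA' (5 / 2)) v g).re = ∑ a, ∑ b, sp' (5 / 2) (a + b) *
      (F (Function.update (fun _ => 1) a 0) (fun _ => 0) (Function.update (fun _ => 1) b 0)
        (fun _ => 0) + F (fun _ => 1) (Function.update (fun _ => 0) a 1)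
        (Function.update (fun _ => 1) b 0) (fun _ => 0)) := by
    rw [rowT_eq_MM, Complex.re_sum]
    refine Finset.sum_congr rfl fun a _ => ?_
    rw [Complex.re_sum]
    refine Finset.sum_congr rfl fun b _ => ?_
    rw [Complex.re_ofReal_mul, Complex.add_re, Complex.re_ofReal_mul, hnu, one_mul]
    rfl
  have hcoef : ∀ a b : ZMod 3, (if a + b = 0 then (-3 : ℝ) else if a + b = 1 then 1 else 2) =
      -2 * sp' (5 / 2) (a + b) := by
    intro a b
    unfold sp'
    by_cases h0 : a + b = 0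
    · rw [if_pos h0, if_pos h0]; norm_num
    · rw [if_neg h0, if_neg h0]
      by_cases h1 : a + b = 1
      · rw [if_pos h1, if_pos h1]; norm_num
      · rw [if_neg h1, if_neg h1]; norm_num
  have hsum : ∑ a : ZMod 3, ∑ b : ZMod 3,
        (if a + b = 0 then (-3 : ℝ) else if a + b = 1 then 1 else 2) *
        ((ρ ^ 4)⁻¹ * F (Function.update (fun _ => 1) a 0) (fun _ => 0)
          (Function.update (fun _ => 1) b 0) (fun _ => 0) +
        (ρ ^ 4)⁻¹ * F (fun _ => 1) (Function.update (fun _ => 0) a 1)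
          (Function.update (fun _ => 1) b 0) (fun _ => 0)) =
      (ρ ^ 4)⁻¹ * (-2 * (rowT (SA (5 / 2) t) (SA' (5 / 2)) v g).re) := by
    rw [hrow, Finset.mul_sum, Finset.mul_sum]
    refine Finset.sum_congr rfl fun a _ => ?_
    rw [Finset.mul_sum, Finset.mul_sum]
    refine Finset.sum_congr rfl fun b _ => ?_
    rw [hcoef]
    ring
  rw [hsum, ← hTT] at key2
  have hph : ph (5 / 2) t = ρ ^ 6 * (6 + 36 * r + 93 * r ^ 2 + 126 * r ^ 3) := by
    rw [ph, hs0, hs1, hs2]; ring
  have hph' : ph' (5 / 2) t = ρ ^ 4 * ((42 * r + 192 * r ^ 2) / 2) := by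
    rw [ph', hs0, hs1, hs2, sp'_zero, sp'_one, sp'_two]; ring
  rw [Complex.sub_re, Complex.re_ofReal_mul, Complex.re_ofReal_mul, hph, hph', one_mul]
  have hfin : ρ ^ 4 * ((42 * r + 192 * r ^ 2) / 2) * (TT (SA (5 / 2) t) v g).re -
      ρ ^ 6 * (6 + 36 * r + 93 * r ^ 2 + 126 * r ^ 3) *
        (rowT (SA (5 / 2) t) (SA' (5 / 2)) v g).re =
      (ρ ^ 10 / 2) * ((42 * r + 192 * r ^ 2) * ((ρ ^ 6)⁻¹ * (TT (SA (5 / 2) t) v g).re) +
        (6 + 36 * r + 93 * r ^ 2 + 126 * r ^ 3) * ((ρ ^ 4)⁻¹ *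
          (-2 * (rowT (SA (5 / 2) t) (SA' (5 / 2)) v g).re))) := by
    field_simp
    ring
  rw [hfin]
  exact mul_nonneg (by positivity) key2

open scoped ComplexOrder in
/-- **Pate's inequality for `k = 3` from a checked certificate** -/
theorem pate_three_of_check (X : ℕ) (c : Cert) (E : List ℤ) (htg : c.target = tgt5 E)
    (hE : ∀ r : ℝ, 0 < r → 0 < evI r E)
    (h1 : check1 X KG5 KM5 c = true) (h2 : check2 X KG5 KM5 c = true)
    (m : ℕ) (M : Matrix (Fin m) (Fin m) ℂ) (hM : M.PosSemidef) :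
    ((Nat.factorial 3 : ℕ) : ℂ) ^ m * M.permanent ^ 3 ≤
      (Matrix.kroneckerMap (fun x y => x * y) (Matrix.of fun _ _ : Fin 3 => (1 : ℂ))
        M).permanent :=
  pate_three_of_cert' (5 / 2) ⟨by norm_num, by norm_num⟩ (fun _ => 1) (fun _ _ => one_pos)
    (cert_row X c E htg hE h1 h2) m M hM

end Main

end Pool.Agent.Work.MP_8d2b2d_co.RP
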