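import Pool.Agent.Work.MP_8d2b2d_co.RP.Sites

/-!
# Monotonicity wrapper: derivative of `per (S ⊗ M)` along a path as a sum of row terms
-/

namespace Pool.Agent.Work.MP_8d2b2d_co.RP

open MvPolynomial Finset
open scoped ComplexOrder

set_option linter.unusedSectionVars false

section Wrap

variable {κ d : Type} [Fintype κ] [DecidableEq κ] [Fintype d] [DecidableEq d]

/-- derivative of `per (S ⊗ M)` along a path = sum of the row terms -/
theorem W_deriv_rows {m : ℕ} (S : ℝ → κ → κ → ℝ) (S' : κ → κ → ℝ) (s : ℝ)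
    (hS : ∀ a b, HasDerivAt (fun t => S t a b) (S' a b) s) (v : Fin m → d → ℂ) :
    HasDerivAt (fun t => W (cov (S t)) ((∏ a, bra a (∏ i, Lf (v i))) * ∏ b, ket b (∏ i, Lf (v i))))
      (∑ i, rowT (S s) S' (v i) (∏ j ∈ univ.erase i, Lf (v j))) s := by
  set h : MvPolynomial d ℂ := ∏ i, Lf (v i) with hh
  set BB : MvPolynomial (Site κ d) ℂ := ∏ a, bra a h with hBB
  have hder := W_hasDerivAt (σ := Site κ d) (fun t : ℝ => cov (S t)) (cov S') s (by
      intro p q
      rcases p with p | p <;> rcases q with q | q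
      · simpa [cov] using hasDerivAt_const s _
      · by_cases hpq : p.2 = q.2
        · simpa [cov, hpq] using (hS p.1 q.1).ofReal_comp
        · simpa [cov, hpq] using hasDerivAt_const s _
      · by_cases hpq : q.2 = p.2
        · simpa [cov, hpq] using (hS q.1 p.1).ofReal_comp
        · simpa [cov, hpq] using hasDerivAt_const s _
      · simpa [cov] using hasDerivAt_const s _) (BB * ∏ b, ket b h)
  refine hder.congr_deriv ?_
  have hg : ∀ i, h = Lf (v i) * ∏ j ∈ univ.erase i, Lf (v j) := fun i =>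
    (Finset.mul_prod_erase univ (fun j => Lf (v j)) (Finset.mem_univ i)).symm
  -- the derivative of the kets
  have hket : ∀ b c, pderiv (Sum.inr (b, c) : Site κ d) (∏ b', ket b' h) =
      ∑ i, C (v i c) * ((∏ b' ∈ univ.erase b, ket b' (Lf (v i))) *
        ∏ b', ket b' (∏ j ∈ univ.erase i, Lf (v j))) := by
    intro b c
    rw [pderiv_inr_prod_ket b c (fun _ => h), hh, pderiv_prod_Lf, ket_sum, Finset.sum_mul]
    refine Finset.sum_congr rfl fun i _ => ?_
    rw [ket_mul, ket_C, ← hh]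
    have e : ∏ b' ∈ univ.erase b, (ket b' h : MvPolynomial (Site κ d) ℂ) =
        (∏ b' ∈ univ.erase b, ket b' (Lf (v i))) *
          ∏ b' ∈ univ.erase b, ket b' (∏ j ∈ univ.erase i, Lf (v j)) := by
      rw [← Finset.prod_mul_distrib]
      refine Finset.prod_congr rfl fun b' _ => ?_
      rw [hg i, ket_mul]
    rw [e, ← Finset.mul_prod_erase univ
      (fun b' => (ket b' (∏ j ∈ univ.erase i, Lf (v j)) : MvPolynomial (Site κ d) ℂ))
      (Finset.mem_univ b)]
    ring
  have e1 : ∀ (p q : κ × d), pderiv (Sum.inl p : Site κ d) (pderiv (Sum.inr q)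
      (BB * ∏ b, ket b h)) = pderiv (Sum.inl p) BB * pderiv (Sum.inr q) (∏ b, ket b h) := by
    intro p q
    rw [pderiv_mul, hBB, pderiv_inr_prod_bra q.1 q.2 univ (fun _ => h), zero_mul, zero_add,
      pderiv_mul, ← hBB]
    rw [hket q.1 q.2, map_sum]
    have : ∑ i, pderiv (Sum.inl p : Site κ d) (C (v i q.2) *
        ((∏ b' ∈ univ.erase q.1, ket b' (Lf (v i))) *
        ∏ b', ket b' (∏ j ∈ univ.erase i, Lf (v j)))) = 0 := by
      refine Finset.sum_eq_zero fun i _ => ?_
      rw [pderiv_C_mul, pderiv_mul, pderiv_inl_prod_ket p.1 p.2 _ (fun _ => Lf (v i)),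
        pderiv_inl_prod_ket p.1 p.2 _ (fun _ => ∏ j ∈ univ.erase i, Lf (v j))]
      simp
    rw [this, mul_zero, add_zero]
  have e2 : ∀ (p q : κ × d), pderiv (Sum.inr p : Site κ d) (pderiv (Sum.inl q)
      (BB * ∏ b, ket b h)) = pderiv (Sum.inl q) BB * pderiv (Sum.inr p) (∏ b, ket b h) := by
    intro p q
    rw [pderiv_comm, e1 q p]
  simp only [Fintype.sum_sum_type, e1, e2, cov, zero_mul, Finset.sum_const_zero, zero_add,
    add_zero]
  set Z : ℂ := ∑ p : κ × d, ∑ q : κ × d, (if p.2 = q.2 then (S' p.1 q.1 : ℂ) else 0) *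
    W (cov (S s)) (pderiv (Sum.inl p : Site κ d) BB *
      pderiv (Sum.inr q : Site κ d) (∏ b, ket b h)) with hZ
  have hZ' : ∑ p : κ × d, ∑ q : κ × d, (if q.2 = p.2 then (S' q.1 p.1 : ℂ) else 0) *
    W (cov (S s)) (pderiv (Sum.inl q : Site κ d) BB *
      pderiv (Sum.inr p : Site κ d) (∏ b, ket b h)) = Z := Finset.sum_comm
  rw [hZ']
  have hZr : Z = ∑ i, rowT (S s) S' (v i) (∏ j ∈ univ.erase i, Lf (v j)) := by
    have e3 : ∀ i, rowT (S s) S' (v i) (∏ j ∈ univ.erase i, Lf (v j)) =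
        ∑ a, ∑ c, ∑ b, (S' a b : ℂ) * (v i c * W (cov (S s))
          (pderiv (Sum.inl (a, c) : Site κ d) BB *
          ((∏ b' ∈ univ.erase b, ket b' (Lf (v i))) *
            ∏ b', ket b' (∏ j ∈ univ.erase i, Lf (v j))))) := by
      intro i
      rw [rowT]
      refine Finset.sum_congr rfl fun a _ => ?_
      rw [Finset.sum_comm]
      refine Finset.sum_congr rfl fun b _ => ?_
      rw [← Finset.mul_sum]
      congr 1
      rw [Dbra, Finset.sum_mul, map_sum]
      refine Finset.sum_congr rfl fun c _ => ?_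
      rw [mul_assoc, ← smul_eq_C_mul, map_smul, smul_eq_mul, hBB, ← hg i]
    simp only [e3]
    rw [hZ, Fintype.sum_prod_type]
    symm
    rw [Finset.sum_comm]
    refine Finset.sum_congr rfl fun a _ => ?_
    rw [Finset.sum_comm]
    refine Finset.sum_congr rfl fun c _ => ?_
    rw [Finset.sum_comm]
    symm
    rw [Fintype.sum_prod_type]
    refine Finset.sum_congr rfl fun b _ => ?_
    rw [Finset.sum_eq_single c]
    · rw [if_pos rfl, hket, Finset.mul_sum, map_sum, Finset.mul_sum]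
      refine Finset.sum_congr rfl fun i _ => ?_
      rw [mul_left_comm, ← smul_eq_C_mul, map_smul, smul_eq_mul]
    · intro c' _ hc'
      rw [if_neg (fun hh => hc' hh.symm), zero_mul]
    · intro hh
      exact absurd (Finset.mem_univ c) hh
  rw [← hZr]
  ring

/-- MONOTONICITY WRAPPER: if all row inequalities hold on `(0,1)`, the quotient
`per (S ⊗ M) / (per S)^m` does not increase -/
theorem wrapper {m : ℕ} (S : ℝ → κ → κ → ℝ) (S' : ℝ → κ → κ → ℝ) (v : Fin m → d → ℂ)
    (hS : ∀ t a b, HasDerivAt (fun t => S t a b) (S' t a b) t)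
    (φ φ' : ℝ → ℝ) (hφ : ∀ t ∈ Set.Icc (0:ℝ) 1, HasDerivAt φ (φ' t) t ∧ 0 < φ t)
    (row : ∀ t ∈ Set.Ioo (0:ℝ) 1, ∀ i,
      0 ≤ (φ' t / φ t * W (cov (S t)) ((∏ a, bra a (∏ i, Lf (v i))) * ∏ b, ket b (∏ i, Lf (v i)))
        - rowT (S t) (S' t) (v i) (∏ j ∈ univ.erase i, Lf (v j))).re) :
    (W (cov (S 1)) ((∏ a, bra a (∏ i, Lf (v i))) * ∏ b, ket b (∏ i, Lf (v i)))).re / φ 1 ^ m ≤
    (W (cov (S 0)) ((∏ a, bra a (∏ i, Lf (v i))) * ∏ b, ket b (∏ i, Lf (v i)))).re / φ 0 ^ m := by
  set P : MvPolynomial (Site κ d) ℂ := (∏ a, bra a (∏ i, Lf (v i))) * ∏ b, ket b (∏ i, Lf (v i))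
    with hP
  set T : ℝ → ℂ := fun t => W (cov (S t)) P with hT
  set R : ℝ → Fin m → ℂ := fun t i =>
    rowT (S t) (S' t) (v i) (∏ j ∈ univ.erase i, Lf (v j)) with hR
  have hder : ∀ t, HasDerivAt T (∑ i, R t i) t := fun t =>
    W_deriv_rows S (S' t) t (hS t) v
  have hre : ∀ t, HasDerivAt (fun t => (T t).re) (∑ i, R t i).re t := fun t =>
    (Complex.reCLM.hasFDerivAt (x := T t)).comp_hasDerivAt t (hder t)
  have hq : ∀ t ∈ Set.Icc (0:ℝ) 1, HasDerivAt (fun t => (T t).re / φ t ^ m)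
      (((∑ i, R t i).re * φ t ^ m - (T t).re * (m * φ t ^ (m - 1) * φ' t)) / (φ t ^ m) ^ 2) t := by
    intro t ht
    obtain ⟨h1, h2⟩ := hφ t ht
    exact (hre t).div (h1.pow m) (pow_ne_zero _ h2.ne')
  have hanti : AntitoneOn (fun t => (T t).re / φ t ^ m) (Set.Icc 0 1) := by
    refine antitoneOn_of_deriv_nonpos (convex_Icc 0 1)
      (fun x hx => (hq x hx).continuousAt.continuousWithinAt)
      (fun x hx => ?_) (fun x hx => ?_)
    · rw [interior_Icc] at hx
      exact (hq x (Set.Ioo_subset_Icc_self hx)).differentiableAt.differentiableWithinAt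
    · rw [interior_Icc] at hx
      have hx' := Set.Ioo_subset_Icc_self hx
      rw [(hq x hx').deriv]
      obtain ⟨h1, h2⟩ := hφ x hx'
      refine div_nonpos_of_nonpos_of_nonneg ?_ (by positivity)
      have h3 : (∑ i, R x i).re ≤ m * (φ' x / φ x * (T x).re) := by
        rw [Complex.re_sum]
        have h4 : ∀ i ∈ (univ : Finset (Fin m)), (R x i).re ≤ φ' x / φ x * (T x).re := by
          intro i _
          have h5 := row x hx i
          rw [Complex.sub_re, ← Complex.ofReal_div, Complex.re_ofReal_mul] at h5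
          linarith
        have h6 := Finset.sum_le_card_nsmul univ _ _ h4
        rwa [Finset.card_univ, Fintype.card_fin, nsmul_eq_mul] at h6
      rcases Nat.eq_zero_or_pos m with hm | hm
      · subst hm
        simp
      · have h7 : φ x ^ m = φ x ^ (m - 1) * φ x := by
          rw [← pow_succ, Nat.sub_add_cancel hm]
        have h8 : (m : ℝ) * (φ' x / φ x * (T x).re) * φ x ^ m =
            (T x).re * (m * φ x ^ (m - 1) * φ' x) := by
          rw [h7]
          field_simp
        have h9 : 0 < φ x ^ m := pow_pos h2 m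
        nlinarith [mul_le_mul_of_nonneg_right h3 h9.le]
  exact hanti (Set.left_mem_Icc.2 zero_le_one) (Set.right_mem_Icc.2 zero_le_one) zero_le_one

end Wrap

end Pool.Agent.Work.MP_8d2b2d_co.RP
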