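import Pool.Agent.Work.MP_8d2b2d_co.RP.WPerm
import Pool.Agent.Work.MP_8d2b2d_co.RP.Wrap

/-!
# Assembly: Pate's inequality for `k = 3` and every `m` from the row inequality
-/

namespace Pool.Agent.Work.MP_8d2b2d_co.RP

open MvPolynomial Finset

set_option linter.unusedSectionVars false

section Last

open scoped ComplexOrder Kronecker

open scoped MatrixOrder in
theorem posSemidef_gram {n : Type} [Fintype n] [DecidableEq n] {M : Matrix n n ℂ}
    (hM : M.PosSemidef) : ∃ B : Matrix n n ℂ, M = B.conjTranspose * B := by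
  obtain ⟨B, hB⟩ := CStarAlgebra.nonneg_iff_eq_star_mul_self.mp hM.nonneg
  exact ⟨B, hB⟩

theorem permanent_real {n : Type} [Fintype n] [DecidableEq n] (M : Matrix n n ℂ)
    (hM : M.IsHermitian) : M.permanent.im = 0 := by
  have h : (starRingEnd ℂ) M.permanent = M.permanent := by
    rw [← Matrix.permanent_transpose M]
    conv_rhs => rw [Matrix.permanent_transpose]
    unfold Matrix.permanent
    rw [map_sum]
    refine Finset.sum_congr rfl fun σ _ => ?_
    rw [map_prod]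
    refine Finset.prod_congr rfl fun i _ => ?_
    rw [Matrix.transpose_apply]
    exact congrFun (congrFun hM (σ i)) i
  exact Complex.conj_eq_iff_im.1 h

/-- the path of the proof -/
noncomputable def sp (a : ℝ) (r : ZMod 3) (t : ℝ) : ℝ :=
  if r = 0 then 1 - t + a * t else if r = 1 then 1 - t + (3 - a) * t else 1 - t

/-- its derivative -/
noncomputable def sp' (a : ℝ) (r : ZMod 3) : ℝ :=
  if r = 0 then a - 1 else if r = 1 then 2 - a else -1

theorem sp_hasDerivAt (a : ℝ) (r : ZMod 3) (t : ℝ) : HasDerivAt (sp a r) (sp' a r) t := by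
  unfold sp sp'
  split_ifs
  · have h := ((hasDerivAt_id t).const_sub 1).add ((hasDerivAt_id t).const_mul a)
    have e : (-1 + a * 1 : ℝ) = a - 1 := by ring
    rw [e] at h
    exact h
  · have h := ((hasDerivAt_id t).const_sub 1).add ((hasDerivAt_id t).const_mul (3 - a))
    have e : (-1 + (3 - a) * 1 : ℝ) = 2 - a := by ring
    rw [e] at h
    exact h
  · exact (hasDerivAt_id t).const_sub 1

/-- `hcyc` is `cycle_bound` for `k = 3` (module `Cyc.lean`). -/
theorem pate_three_of_row_of_cycle (a : ℝ) (ha : 0 ≤ a ∧ a ≤ 3)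
    (hcyc : ∀ (m : ℕ) (p q : ℝ), 0 ≤ p → 0 ≤ q → ∀ M : Matrix (Fin m) (Fin m) ℂ, M.PosSemidef →
      (((p ^ 3 + q ^ 3) ^ m : ℝ) : ℂ) * M.permanent ^ 3 ≤
        (Matrix.kroneckerMap (· * ·) (Matrix.of (fun a b : Fin 3 =>
          (((if a + b = 0 then p else 0) + (if a + b = 1 then q else 0) : ℝ) : ℂ))) M).permanent)
    (row : ∀ t ∈ Set.Ioo (0:ℝ) 1, ∀ (n : ℕ) (v : Fin n → ℂ) (g : MvPolynomial (Fin n) ℂ),
      let s : ZMod 3 → ℝ → ℝ := fun r t => if r = 0 then 1 - t + a * t else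
        if r = 1 then 1 - t + (3 - a) * t else 1 - t
      let s' : ZMod 3 → ℝ := fun r => if r = 0 then a - 1 else if r = 1 then 2 - a else -1
      let φ := s 0 t ^ 3 + s 1 t ^ 3 + s 2 t ^ 3 + 3 * s 0 t * s 1 t * s 2 t
      let φ' := 3 * s 0 t ^ 2 * s' 0 + 3 * s 1 t ^ 2 * s' 1 + 3 * s 2 t ^ 2 * s' 2 +
        3 * (s' 0 * s 1 t * s 2 t + s 0 t * s' 1 * s 2 t + s 0 t * s 1 t * s' 2)
      (rowT (fun a b : ZMod 3 => s (a + b) t) (fun a b => s' (a + b)) v g).re ≤
        φ' / φ * (W (cov (fun a b : ZMod 3 => s (a + b) t))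
          ((∏ a, bra a (Lf v * g)) * ∏ b, ket b (Lf v * g))).re)
    (m : ℕ) (M : Matrix (Fin m) (Fin m) ℂ) (hM : M.PosSemidef) :
    (6 : ℂ) ^ m * M.permanent ^ 3 ≤
      (Matrix.kroneckerMap (· * ·) (Matrix.of (fun _ _ : Fin 3 => (1 : ℂ))) M).permanent := by
  obtain ⟨B, hB⟩ := posSemidef_gram hM
  set v : Fin m → Fin m → ℂ := fun i c => B c i with hv
  have hMv : ∀ i j, M i j = ∑ c, (starRingEnd ℂ) (v i c) * v j c := by
    intro i j
    rw [hB, Matrix.mul_apply]
    rfl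
  let S : ℝ → ZMod 3 → ZMod 3 → ℝ := fun t x y => sp a (x + y) t
  let S' : ℝ → ZMod 3 → ZMod 3 → ℝ := fun _ x y => sp' a (x + y)
  let φ : ℝ → ℝ := fun t => sp a 0 t ^ 3 + sp a 1 t ^ 3 + sp a 2 t ^ 3 +
    3 * sp a 0 t * sp a 1 t * sp a 2 t
  let φ' : ℝ → ℝ := fun t => 3 * sp a 0 t ^ 2 * sp' a 0 + 3 * sp a 1 t ^ 2 * sp' a 1 +
    3 * sp a 2 t ^ 2 * sp' a 2 + 3 * (sp' a 0 * sp a 1 t * sp a 2 t +
      sp a 0 t * sp' a 1 * sp a 2 t + sp a 0 t * sp a 1 t * sp' a 2)
  have hφ : ∀ t ∈ Set.Icc (0:ℝ) 1, HasDerivAt φ (φ' t) t ∧ 0 < φ t := by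
    intro t ht
    refine ⟨?_, ?_⟩
    · have h0 := sp_hasDerivAt a 0 t
      have h1 := sp_hasDerivAt a 1 t
      have h2 := sp_hasDerivAt a 2 t
      have h := (((h0.pow 3).add (h1.pow 3)).add (h2.pow 3)).add (((h0.const_mul 3).mul h1).mul h2)
      refine h.congr_deriv ?_
      show _ = 3 * sp a 0 t ^ 2 * sp' a 0 + 3 * sp a 1 t ^ 2 * sp' a 1 +
        3 * sp a 2 t ^ 2 * sp' a 2 + 3 * (sp' a 0 * sp a 1 t * sp a 2 t +
          sp a 0 t * sp' a 1 * sp a 2 t + sp a 0 t * sp a 1 t * sp' a 2)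
      simp only [Pi.mul_apply]
      norm_num
      ring
    · have e0 : sp a 0 t = 1 - t + a * t := by simp [sp]
      have e1 : sp a 1 t = 1 - t + (3 - a) * t := by
        unfold sp; rw [if_neg (by decide), if_pos rfl]
      have e2 : sp a 2 t = 1 - t := by
        unfold sp; rw [if_neg (by decide), if_neg (by decide)]
      show 0 < sp a 0 t ^ 3 + sp a 1 t ^ 3 + sp a 2 t ^ 3 + 3 * sp a 0 t * sp a 1 t * sp a 2 t
      rw [e0, e1, e2]
      obtain ⟨ht0, ht1⟩ := ht
      obtain ⟨ha0, ha3⟩ := ha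
      have p0 : 0 ≤ 1 - t + a * t := by nlinarith
      have p1 : 0 ≤ 1 - t + (3 - a) * t := by nlinarith
      have p2 : 0 ≤ 1 - t := by linarith
      have hs : (1 - t + a * t) + (1 - t + (3 - a) * t) + (1 - t) = 3 := by ring
      have q0 : 0 ≤ (1 - t + a * t) ^ 3 := pow_nonneg p0 3
      have q1 : 0 ≤ (1 - t + (3 - a) * t) ^ 3 := pow_nonneg p1 3
      have q2 : 0 ≤ (1 - t) ^ 3 := pow_nonneg p2 3
      have q3 : 0 ≤ 3 * (1 - t + a * t) * (1 - t + (3 - a) * t) * (1 - t) := by positivity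
      by_contra hneg
      rw [not_lt] at hneg
      have z0 : (1 - t + a * t) ^ 3 = 0 := by linarith
      have z1 : (1 - t + (3 - a) * t) ^ 3 = 0 := by linarith
      have z2 : (1 - t) ^ 3 = 0 := by linarith
      have y0 := pow_eq_zero_iff (n := 3) (by norm_num) |>.1 z0
      have y1 := pow_eq_zero_iff (n := 3) (by norm_num) |>.1 z1
      have y2 := pow_eq_zero_iff (n := 3) (by norm_num) |>.1 z2
      linarith
  have hw := wrapper (κ := ZMod 3) (d := Fin m) S S' v
    (fun t x y => sp_hasDerivAt a (x + y) t) φ φ' hφ (by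
      intro t ht i
      have hr := row t ht m (v i) (∏ j ∈ univ.erase i, Lf (v j))
      have hp : Lf (v i) * ∏ j ∈ univ.erase i, Lf (v j) = ∏ j, Lf (v j) :=
        Finset.mul_prod_erase _ _ (Finset.mem_univ i)
      simp only [hp] at hr
      have e : ∀ z : ℂ, ((φ' t / φ t : ℝ) * z).re = φ' t / φ t * z.re := fun z => by
        rw [Complex.re_ofReal_mul]
      have e2 : ((φ' t : ℂ) / (φ t : ℂ)) = ((φ' t / φ t : ℝ) : ℂ) := by push_cast; rfl
      rw [Complex.sub_re, e2, Complex.re_ofReal_mul, sub_nonneg]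
      exact hr)
  -- values of the functional
  have hper : ∀ t, W (cov (S t)) ((∏ a, bra a (∏ i, Lf (v i))) * ∏ b, ket b (∏ i, Lf (v i))) =
      (Matrix.kroneckerMap (· * ·) (Matrix.of fun x y : Fin 3 => ((S t x y : ℝ) : ℂ)) M).permanent := by
    intro t
    rw [W_permanent]
    congr 1
    ext p q
    rw [Matrix.of_apply, Matrix.kroneckerMap_apply, hMv]
    rfl
  have hM0 := permanent_real M hM.isHermitian
  -- the endpoint t = 1
  have hcyc := hcyc m a (3 - a) ha.1 (by linarith [ha.2]) M hM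
  have hS1 : (Matrix.of fun x y : Fin 3 => ((S 1 x y : ℝ) : ℂ)) =
      Matrix.of (fun a' b : Fin 3 =>
        (((if a' + b = 0 then a else 0) + (if a' + b = 1 then (3 - a) else 0) : ℝ) : ℂ)) := by
    ext x y
    simp only [Matrix.of_apply]
    congr 1
    show sp a (x + y) 1 = _
    have key : ∀ r : Fin 3, sp a r 1 = (if r = 0 then a else 0) + (if r = 1 then (3 - a) else 0) := by
      intro r
      fin_cases r
      · show sp a (0 : ZMod 3) 1 = _
        simp [sp]
      · show sp a (1 : ZMod 3) 1 = _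
        unfold sp
        rw [if_neg (by decide), if_pos rfl]
        simp
      · show sp a (2 : ZMod 3) 1 = _
        unfold sp
        rw [if_neg (by decide), if_neg (by decide)]
        simp
    exact key (x + y)
  have hφ1 : φ 1 = a ^ 3 + (3 - a) ^ 3 := by
    show sp a 0 1 ^ 3 + sp a 1 1 ^ 3 + sp a 2 1 ^ 3 + 3 * sp a 0 1 * sp a 1 1 * sp a 2 1 = _
    have e0 : sp a 0 1 = a := by simp [sp]
    have e1 : sp a 1 1 = 3 - a := by
      unfold sp; rw [if_neg (by decide), if_pos rfl]; ring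
    have e2 : sp a 2 1 = 0 := by
      unfold sp; rw [if_neg (by decide), if_neg (by decide)]; ring
    rw [e0, e1, e2]; ring
  have hφ0 : φ 0 = 6 := by
    show sp a 0 0 ^ 3 + sp a 1 0 ^ 3 + sp a 2 0 ^ 3 + 3 * sp a 0 0 * sp a 1 0 * sp a 2 0 = _
    have e0 : ∀ r, sp a r 0 = 1 := by
      intro r; unfold sp; split_ifs <;> ring
    rw [e0, e0, e0]; norm_num
  have hS0 : (Matrix.of fun x y : Fin 3 => ((S 0 x y : ℝ) : ℂ)) =
      Matrix.of (fun _ _ : Fin 3 => (1 : ℂ)) := by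
    ext x y
    simp only [Matrix.of_apply]
    have e0 : ∀ r, sp a r 0 = 1 := by
      intro r; unfold sp; split_ifs <;> ring
    show ((sp a (x + y) 0 : ℝ) : ℂ) = 1
    rw [e0]; norm_num
  rw [hper 1, hper 0, hS1, hS0, hφ1, hφ0] at hw
  have hφ1pos : 0 < a ^ 3 + (3 - a) ^ 3 := by
    rw [← hφ1]; exact (hφ 1 (by norm_num)).2
  rw [Complex.le_def] at hcyc ⊢
  set P1 := (Matrix.kroneckerMap (· * ·) (Matrix.of (fun a' b : Fin 3 =>
        (((if a' + b = 0 then a else 0) + (if a' + b = 1 then (3 - a) else 0) : ℝ) : ℂ))) M).permanent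
    with hP1
  set P0 := (Matrix.kroneckerMap (· * ·) (Matrix.of (fun _ _ : Fin 3 => (1 : ℂ))) M).permanent
    with hP0
  have hMr : M.permanent = ((M.permanent.re : ℝ) : ℂ) := by
    apply Complex.ext
    · simp
    · simpa using hM0
  have hP0im : P0.im = 0 := by
    refine permanent_real _ ?_
    ext p q
    simp only [Matrix.conjTranspose_apply, Matrix.kroneckerMap_apply, Matrix.of_apply, one_mul]
    exact congrFun (congrFun hM.isHermitian p.2) q.2
  constructor
  · have h1 := hcyc.1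
    rw [hMr] at h1 ⊢
    rw [← Complex.ofReal_pow, ← Complex.ofReal_mul, Complex.ofReal_re] at h1
    have e6 : ((6 : ℂ) ^ m * ((M.permanent.re : ℝ) : ℂ) ^ 3) =
        ((6 ^ m * M.permanent.re ^ 3 : ℝ) : ℂ) := by push_cast; rfl
    rw [e6, Complex.ofReal_re]
    have hpos : 0 < (a ^ 3 + (3 - a) ^ 3) ^ m := pow_pos hφ1pos m
    have h2 : M.permanent.re ^ 3 ≤ P1.re / (a ^ 3 + (3 - a) ^ 3) ^ m := by
      rw [le_div_iff₀ hpos]
      linarith
    have h3 : M.permanent.re ^ 3 ≤ P0.re / 6 ^ m := h2.trans hw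
    rw [le_div_iff₀ (by positivity)] at h3
    linarith
  · rw [hMr, hP0im]
    have e6 : ((6 : ℂ) ^ m * ((M.permanent.re : ℝ) : ℂ) ^ 3) =
        ((6 ^ m * M.permanent.re ^ 3 : ℝ) : ℂ) := by push_cast; rfl
    rw [e6, Complex.ofReal_im]

end Last

end Pool.Agent.Work.MP_8d2b2d_co.RP
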