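import Pool.Agent.Work.MP_8d2b2d_co.RP.Wick

/-!
# Sites: shared definitions for the Pate module (bra and ket variables, their covariance)
-/

namespace Pool.Agent.Work.MP_8d2b2d_co.RP

open MvPolynomial Finset
open scoped ComplexOrder

set_option linter.unusedSectionVars false

section Sites

variable {κ d : Type} [Fintype κ] [DecidableEq κ] [Fintype d] [DecidableEq d]

/-- `inl (a, c)`: coordinate `c` of the bra variable `x̄_a`; `inr (b, c)`: of the ket variable `y_b` -/
abbrev Site (κ d : Type) := (κ × d) ⊕ (κ × d)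

/-- covariance of the sites: `⟨x̄_{a,c} y_{b,c'}⟩ = S a b δ_{c c'}` -/
noncomputable def cov (S : κ → κ → ℝ) : Site κ d → Site κ d → ℂ
  | .inl p, .inr q => if p.2 = q.2 then (S p.1 q.1 : ℂ) else 0
  | .inr q, .inl p => if p.2 = q.2 then (S p.1 q.1 : ℂ) else 0
  | _, _ => 0

/-- a polynomial in `d` variables at the bra `a` (conjugated) -/
noncomputable def bra (a : κ) (f : MvPolynomial d ℂ) : MvPolynomial (Site κ d) ℂ :=
  rename (fun c => Sum.inl (a, c)) (cj f)

/-- a polynomial in `d` variables at the ket `b` -/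
noncomputable def ket (b : κ) (f : MvPolynomial d ℂ) : MvPolynomial (Site κ d) ℂ :=
  rename (fun c => Sum.inr (b, c)) f

/-- linear form -/
noncomputable def Lf (v : d → ℂ) : MvPolynomial d ℂ := ∑ c, C (v c) * X c

/-- derivative in the direction `v̄` at the ket `b`: IBP partner of `l̄_v` at a bra -/
noncomputable def Dket (b : κ) (v : d → ℂ) (P : MvPolynomial (Site κ d) ℂ) :
    MvPolynomial (Site κ d) ℂ := ∑ c, C ((starRingEnd ℂ) (v c)) * pderiv (Sum.inr (b, c)) P

/-- derivative in the direction `v` at the bra `a`: IBP partner of `l_v` at a ket -/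
noncomputable def Dbra (a : κ) (v : d → ℂ) (P : MvPolynomial (Site κ d) ℂ) :
    MvPolynomial (Site κ d) ℂ := ∑ c, C (v c) * pderiv (Sum.inl (a, c)) P

/-- row term: `Σ_ab S'_ab W (D^{x̄_a}_{v_i} (bra) * ket / l_i(y_b))` with `h = l_v g` -/
noncomputable def rowT (S S' : κ → κ → ℝ) (v : d → ℂ) (g : MvPolynomial d ℂ) : ℂ :=
  ∑ a, ∑ b, (S' a b : ℂ) * W (cov S)
    (Dbra a v (∏ a, bra a (Lf v * g)) * ((∏ b' ∈ univ.erase b, ket b' (Lf v)) * ∏ b', ket b' g))

end Sites

section Calculus

variable {κ d : Type} [Fintype κ] [DecidableEq κ] [Fintype d] [DecidableEq d]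

lemma pderiv_inl_bra_of_ne (a a' : κ) (h : a ≠ a') (c : d) (f : MvPolynomial d ℂ) :
    pderiv (Sum.inl (a, c) : Site κ d) (bra a' f) = 0 := by
  refine pderiv_eq_zero_of_notMem_vars fun hh => ?_
  have := vars_rename (fun c => (Sum.inl (a', c) : Site κ d)) (cj f) hh
  rw [Finset.mem_image] at this
  obtain ⟨x, _, h1⟩ := this
  rw [Sum.inl.injEq, Prod.mk.injEq] at h1
  exact h h1.1.symm

lemma pderiv_inl_ket (a b : κ) (c : d) (f : MvPolynomial d ℂ) :
    pderiv (Sum.inl (a, c) : Site κ d) (ket b f) = 0 := by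
  refine pderiv_eq_zero_of_notMem_vars fun hh => ?_
  have := vars_rename (fun c => (Sum.inr (b, c) : Site κ d)) f hh
  simp at this

lemma pderiv_inr_bra (a b : κ) (c : d) (f : MvPolynomial d ℂ) :
    pderiv (Sum.inr (b, c) : Site κ d) (bra a f) = 0 := by
  refine pderiv_eq_zero_of_notMem_vars fun hh => ?_
  have := vars_rename (fun c => (Sum.inl (a, c) : Site κ d)) (cj f) hh
  simp at this

lemma pderiv_inr_ket_of_ne (b b' : κ) (h : b ≠ b') (c : d) (f : MvPolynomial d ℂ) :
    pderiv (Sum.inr (b, c) : Site κ d) (ket b' f) = 0 := by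
  refine pderiv_eq_zero_of_notMem_vars fun hh => ?_
  have := vars_rename (fun c => (Sum.inr (b', c) : Site κ d)) f hh
  rw [Finset.mem_image] at this
  obtain ⟨x, _, h1⟩ := this
  rw [Sum.inr.injEq, Prod.mk.injEq] at h1
  exact h h1.1.symm

lemma pderiv_inr_ket (b : κ) (c : d) (f : MvPolynomial d ℂ) :
    pderiv (Sum.inr (b, c) : Site κ d) (ket b f) = ket b (pderiv c f) := by
  have hinj : Function.Injective (fun c : d => (Sum.inr (b, c) : Site κ d)) := by
    intro x y h
    simpa using h
  exact pderiv_rename hinj c f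

lemma pderiv_inl_bra (b : κ) (c : d) (f : MvPolynomial d ℂ) :
    pderiv (Sum.inl (b, c) : Site κ d) (bra b f) = bra b (pderiv c f) := by
  have hinj : Function.Injective (fun c : d => (Sum.inl (b, c) : Site κ d)) := by
    intro x y h
    simpa using h
  have h1 : cj (pderiv c f) = pderiv c (cj f) := by
    simp only [cj]; rw [pderiv_map]
  rw [bra, bra, h1]
  exact pderiv_rename hinj c (cj f)

lemma ket_mul (b : κ) (f g : MvPolynomial d ℂ) : (ket b (f * g) : MvPolynomial (Site κ d) ℂ) =
    ket b f * ket b g := by simp [ket]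
lemma bra_mul (b : κ) (f g : MvPolynomial d ℂ) : (bra b (f * g) : MvPolynomial (Site κ d) ℂ) =
    bra b f * bra b g := by simp [bra, cj]

lemma ket_prod {ι : Type*} (s : Finset ι) (b : κ) (f : ι → MvPolynomial d ℂ) :
    (ket b (∏ i ∈ s, f i) : MvPolynomial (Site κ d) ℂ) = ∏ i ∈ s, ket b (f i) := by
  simp [ket]

lemma ket_sum {ι : Type*} (s : Finset ι) (b : κ) (f : ι → MvPolynomial d ℂ) :
    (ket b (∑ i ∈ s, f i) : MvPolynomial (Site κ d) ℂ) = ∑ i ∈ s, ket b (f i) := by
  simp [ket]

lemma ket_C (b : κ) (z : ℂ) : (ket b (C z) : MvPolynomial (Site κ d) ℂ) = C z := by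
  simp [ket]

lemma pderiv_inl_prod_ket (a : κ) (c : d) (s : Finset κ) (f : κ → MvPolynomial d ℂ) :
    pderiv (Sum.inl (a, c) : Site κ d) (∏ b ∈ s, ket b (f b)) = 0 := by
  classical
  induction s using Finset.induction_on with
  | empty => simp
  | insert b s hb ih => rw [Finset.prod_insert hb, pderiv_mul, ih, pderiv_inl_ket]; simp

lemma pderiv_inr_prod_bra (a : κ) (c : d) (s : Finset κ) (f : κ → MvPolynomial d ℂ) :
    pderiv (Sum.inr (a, c) : Site κ d) (∏ b ∈ s, bra b (f b)) = 0 := by
  classical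
  induction s using Finset.induction_on with
  | empty => simp
  | insert b s hb ih => rw [Finset.prod_insert hb, pderiv_mul, ih, pderiv_inr_bra]; simp

lemma pderiv_inr_prod_ket_of_notMem (b : κ) (c : d) (s : Finset κ) (hb : b ∉ s)
    (f : κ → MvPolynomial d ℂ) :
    pderiv (Sum.inr (b, c) : Site κ d) (∏ b' ∈ s, ket b' (f b')) = 0 := by
  classical
  induction s using Finset.induction_on with
  | empty => simp
  | insert b' s hb' ih =>
    rw [Finset.prod_insert hb', pderiv_mul, ih (fun h => hb (Finset.mem_insert_of_mem h)),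
      pderiv_inr_ket_of_ne b b' (fun h => hb (h ▸ Finset.mem_insert_self _ _))]
    simp

lemma pderiv_inr_prod_ket (b : κ) (c : d) (f : κ → MvPolynomial d ℂ) :
    pderiv (Sum.inr (b, c) : Site κ d) (∏ b', ket b' (f b')) =
      ket b (pderiv c (f b)) * ∏ b' ∈ univ.erase b, ket b' (f b') := by
  rw [← Finset.mul_prod_erase univ _ (Finset.mem_univ b), pderiv_mul,
    pderiv_inr_prod_ket_of_notMem b c _ (Finset.notMem_erase b univ), pderiv_inr_ket, mul_zero,
    add_zero]

lemma pderiv_Lf (c : d) (v : d → ℂ) : pderiv c (Lf v) = C (v c) := by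
  rw [Lf, map_sum, Finset.sum_eq_single c]
  · rw [pderiv_C_mul, pderiv_X_self, mul_one]
  · intro x _ hx
    rw [pderiv_C_mul, pderiv_X_of_ne hx, mul_zero]
  · intro h
    exact absurd (Finset.mem_univ c) h

lemma pderiv_prod_Lf {m : ℕ} (c : d) (v : Fin m → d → ℂ) (s : Finset (Fin m)) :
    pderiv c (∏ i ∈ s, Lf (v i)) = ∑ i ∈ s, C (v i c) * ∏ j ∈ s.erase i, Lf (v j) := by
  classical
  induction s using Finset.induction_on with
  | empty => simp
  | insert i s hi ih =>
    rw [Finset.prod_insert hi, pderiv_mul, ih, pderiv_Lf, Finset.sum_insert hi,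
      Finset.erase_insert hi, Finset.mul_sum]
    congr 1
    refine Finset.sum_congr rfl fun j hj => ?_
    have hij : i ≠ j := fun h => hi (h ▸ hj)
    rw [Finset.erase_insert_of_ne hij, Finset.prod_insert (fun h => hi (Finset.mem_of_mem_erase h))]
    ring

end Calculus

end Pool.Agent.Work.MP_8d2b2d_co.RP
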