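import Pool.Agent.Work.MP_8d2b2d_co.RP.Sites

/-!
# The permanent of `S ⊗ M` as a Wick functional, and integration by parts at the sites
-/

namespace Pool.Agent.Work.MP_8d2b2d_co.RP

open MvPolynomial Finset

set_option linter.unusedSectionVars false

section WickProd

variable {σ : Type} [Fintype σ] [DecidableEq σ]

/-- the linear form with coefficients `a` -/
noncomputable def LF (a : σ → ℂ) : MvPolynomial σ ℂ := ∑ s, C (a s) * X s

/-- covariance of two linear forms -/
noncomputable def Cv (K : σ → σ → ℂ) (a b : σ → ℂ) : ℂ := ∑ t, (∑ s, a s * K s t) * b t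

/-- the derivation paired with the linear form `a` -/
noncomputable def DL (K : σ → σ → ℂ) (a : σ → ℂ) :
    Derivation ℂ (MvPolynomial σ ℂ) (MvPolynomial σ ℂ) :=
  ∑ t, (∑ s, a s * K s t) • pderiv t

theorem DL_apply (K : σ → σ → ℂ) (a : σ → ℂ) (P : MvPolynomial σ ℂ) :
    DL K a P = ∑ t, (∑ s, a s * K s t) • pderiv t P := by
  have h := map_sum (Derivation.coeFnAddMonoidHom (R := ℂ) (A := MvPolynomial σ ℂ)
    (M := MvPolynomial σ ℂ)) (fun t : σ => (∑ s, a s * K s t) • pderiv t) univ
  have h2 := congrFun h P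
  rw [Finset.sum_apply] at h2
  exact h2

theorem DL_LF (K : σ → σ → ℂ) (a b : σ → ℂ) : DL K a (LF b) = C (Cv K a b) := by
  rw [DL_apply, Cv, map_sum]
  refine Finset.sum_congr rfl fun t _ => ?_
  have : pderiv t (LF b) = C (b t) := by
    unfold LF
    rw [map_sum, Finset.sum_eq_single t]
    · simp
    · intro s _ hs
      rw [pderiv_C_mul, pderiv_X_of_ne hs, mul_zero]
    · intro h; exact absurd (Finset.mem_univ t) h
  rw [this, smul_eq_C_mul, ← map_mul]

theorem W_LF_mul (K : σ → σ → ℂ) (hK : ∀ i j, K i j = K j i) (a : σ → ℂ) (P : MvPolynomial σ ℂ) :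
    W K (LF a * P) = W K (DL K a P) := by
  unfold LF
  rw [Finset.sum_mul, map_sum, DL_apply, map_sum]
  have h1 : ∀ s, W K (C (a s) * X s * P) = ∑ t, a s * K s t * W K (pderiv t P) := by
    intro s
    rw [mul_assoc, ← smul_eq_C_mul, map_smul, W_X_mul K hK, smul_eq_mul, Finset.mul_sum]
    exact Finset.sum_congr rfl fun t _ => by ring
  rw [Finset.sum_congr rfl fun s _ => h1 s, Finset.sum_comm]
  refine Finset.sum_congr rfl fun t _ => ?_
  rw [map_smul, smul_eq_mul, Finset.sum_mul]

theorem deriv_prod {ι : Type} [DecidableEq ι]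
    (D : Derivation ℂ (MvPolynomial σ ℂ) (MvPolynomial σ ℂ)) (s : Finset ι)
    (f : ι → MvPolynomial σ ℂ) :
    D (∏ i ∈ s, f i) = ∑ i ∈ s, (∏ j ∈ s.erase i, f j) * D (f i) := by
  induction s using Finset.induction_on with
  | empty => simp
  | insert a s ha ih =>
    rw [Finset.prod_insert ha, D.leibniz, ih, Finset.sum_insert ha, Finset.erase_insert ha,
      smul_eq_mul, smul_eq_mul, add_comm, Finset.mul_sum]
    congr 1
    refine Finset.sum_congr rfl fun i hi => ?_
    have hia : i ≠ a := fun h => ha (h ▸ hi)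
    rw [Finset.erase_insert_of_ne hia.symm, Finset.prod_insert (fun h => ha (Finset.mem_of_mem_erase h)),
      mul_assoc]

theorem prod_erase_swap {M : Type} [CommMonoid M] {n : ℕ} (f : Fin (n + 1) → M) (p : Fin (n + 1)) :
    ∏ j ∈ univ.erase p, f j = ∏ k : Fin n, f (Equiv.swap 0 p k.succ) := by
  have h : (univ.erase p : Finset (Fin (n + 1))) =
      (univ.map (Fin.succEmb n)).map (Equiv.swap 0 p).toEmbedding := by
    ext x
    simp only [Finset.mem_erase, Finset.mem_univ, and_true, Finset.mem_map, true_and,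
      Equiv.coe_toEmbedding, Fin.coe_succEmb, exists_exists_eq_and]
    constructor
    · intro hx
      have h0 : Equiv.swap 0 p x ≠ 0 := fun h => hx (by
        have := congrArg (Equiv.swap 0 p) h
        rwa [Equiv.swap_apply_self, Equiv.swap_apply_left] at this)
      obtain ⟨k, hk⟩ := Fin.exists_succ_eq.2 h0
      exact ⟨k, by rw [hk, Equiv.swap_apply_self]⟩
    · rintro ⟨k, rfl⟩ h
      have := congrArg (Equiv.swap 0 p) h
      rw [Equiv.swap_apply_self, Equiv.swap_apply_right] at this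
      exact Fin.succ_ne_zero k this
  rw [h, Finset.prod_map, Finset.prod_map]
  rfl

/-- ISSERLIS, bipartite form -/
theorem W_prod_prod (K : σ → σ → ℂ) (hK : ∀ i j, K i j = K j i) : ∀ (n : ℕ)
    (u w : Fin n → σ → ℂ), (∀ i j, Cv K (u i) (u j) = 0) →
    W K ((∏ i, LF (u i)) * ∏ j, LF (w j)) = ∑ e : Equiv.Perm (Fin n), ∏ i, Cv K (u i) (w (e i)) := by
  intro n
  induction n with
  | zero => intro u w _; simp [W_one]
  | succ n ih =>
    intro u w huu
    rw [Fin.prod_univ_succ, mul_assoc, W_LF_mul K hK, (DL K (u 0)).leibniz, deriv_prod, deriv_prod]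
    have h0 : ∑ i : Fin n, (∏ j ∈ univ.erase i, LF (u j.succ)) * DL K (u 0) (LF (u i.succ)) = 0 :=
      Finset.sum_eq_zero fun i _ => by rw [DL_LF, huu, map_zero, mul_zero]
    rw [h0, smul_zero, add_zero, smul_eq_mul, Finset.mul_sum, map_sum]
    have h1 : ∀ p : Fin (n + 1), W K ((∏ i : Fin n, LF (u i.succ)) *
        ((∏ j ∈ univ.erase p, LF (w j)) * DL K (u 0) (LF (w p)))) =
        ∑ e : Equiv.Perm (Fin n), Cv K (u 0) (w p) *
          ∏ i : Fin n, Cv K (u i.succ) (w (Equiv.swap 0 p (e i).succ)) := by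
      intro p
      rw [DL_LF, ← mul_assoc, mul_comm, ← smul_eq_C_mul, map_smul, prod_erase_swap, smul_eq_mul,
        ih (fun i => u i.succ) (fun k => w (Equiv.swap 0 p k.succ)) (fun i j => huu _ _),
        Finset.mul_sum]
    rw [Finset.sum_congr rfl fun p _ => h1 p]
    rw [← Equiv.sum_comp Equiv.Perm.decomposeFin.symm, Fintype.sum_prod_type]
    refine Finset.sum_congr rfl fun p _ => Finset.sum_congr rfl fun e _ => ?_
    rw [Fin.prod_univ_succ, Equiv.Perm.decomposeFin_symm_apply_zero]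
    congr 1
    exact Finset.prod_congr rfl fun i _ => by rw [Equiv.Perm.decomposeFin_symm_apply_succ]

/-- the same over any finite index type, as a permanent -/
theorem W_prod_prod_perm (K : σ → σ → ℂ) (hK : ∀ i j, K i j = K j i) {ι : Type} [Fintype ι]
    [DecidableEq ι] (u w : ι → σ → ℂ) (huu : ∀ i j, Cv K (u i) (u j) = 0) :
    W K ((∏ i, LF (u i)) * ∏ j, LF (w j)) =
      (Matrix.of fun i j => Cv K (u i) (w j)).permanent := by
  classical
  let e := (Fintype.equivFin ι).symm
  have h := W_prod_prod K hK _ (fun i => u (e i)) (fun i => w (e i)) (fun i j => huu _ _)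
  rw [← Matrix.permanent_transpose, Matrix.permanent]
  simp only [Matrix.transpose_apply, Matrix.of_apply]
  rw [← e.prod_comp (fun i => LF (u i)), ← e.prod_comp (fun i => LF (w i)), h,
    ← Equiv.sum_comp e.permCongr]
  refine Finset.sum_congr rfl fun τ _ => ?_
  rw [← e.prod_comp]
  refine Finset.prod_congr rfl fun i _ => ?_
  simp

end WickProd

section Sites

variable {κ d : Type} [Fintype κ] [DecidableEq κ] [Fintype d] [DecidableEq d]

/-- coefficients of the bra form -/
noncomputable def braF (a : κ) (v : d → ℂ) : Site κ d → ℂ :=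
  Sum.elim (fun p => if p.1 = a then (starRingEnd ℂ) (v p.2) else 0) (fun _ => 0)

/-- coefficients of the ket form -/
noncomputable def ketF (b : κ) (v : d → ℂ) : Site κ d → ℂ :=
  Sum.elim (fun _ => 0) (fun p => if p.1 = b then v p.2 else 0)

theorem cov_comm (S : κ → κ → ℝ) (p q : Site κ d) : cov (d := d) S p q = cov S q p := by
  rcases p with p | p <;> rcases q with q | q <;> rfl

theorem bra_Lf (a : κ) (v : d → ℂ) : bra a (Lf v) = LF (braF a v) := by
  unfold bra Lf LF braF cj
  rw [Fintype.sum_sum_type, Fintype.sum_prod_type]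
  simp only [Sum.elim_inl, Sum.elim_inr, map_zero, zero_mul, Finset.sum_const_zero, add_zero,
    map_sum, map_mul, MvPolynomial.map_C, MvPolynomial.map_X, rename_C, rename_X]
  rw [Finset.sum_eq_single a]
  · simp
  · intro b _ hb
    refine Finset.sum_eq_zero fun c _ => ?_
    rw [if_neg hb, map_zero, zero_mul]
  · intro h; exact absurd (Finset.mem_univ a) h

theorem ket_Lf (b : κ) (v : d → ℂ) : ket b (Lf v) = LF (ketF b v) := by
  unfold ket Lf LF ketF
  rw [Fintype.sum_sum_type, Fintype.sum_prod_type, Fintype.sum_prod_type]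
  simp only [Sum.elim_inl, Sum.elim_inr, map_zero, zero_mul, Finset.sum_const_zero, zero_add,
    map_sum, map_mul, rename_C, rename_X]
  rw [Finset.sum_eq_single b]
  · simp
  · intro a _ ha
    refine Finset.sum_eq_zero fun c _ => ?_
    rw [if_neg ha, map_zero, zero_mul]
  · intro h; exact absurd (Finset.mem_univ b) h

theorem Cv_bra_bra (S : κ → κ → ℝ) (a b : κ) (v w : d → ℂ) :
    Cv (cov S) (braF a v) (braF b w) = 0 := by
  unfold Cv
  rw [Fintype.sum_sum_type]
  have h1 : ∀ p : κ × d, (∑ s, braF a v s * cov S s (Sum.inl p)) * braF b w (Sum.inl p) = 0 := by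
    intro p
    rw [Fintype.sum_sum_type]
    simp [braF, cov]
  have h2 : ∀ p : κ × d, (∑ s, braF a v s * cov S s (Sum.inr p)) * braF b w (Sum.inr p) = 0 := by
    intro p
    simp [braF]
  rw [Finset.sum_eq_zero fun p _ => h1 p, Finset.sum_eq_zero fun p _ => h2 p, add_zero]

theorem Cv_bra_ket (S : κ → κ → ℝ) (a b : κ) (v w : d → ℂ) :
    Cv (cov S) (braF a v) (ketF b w) = (S a b : ℂ) * ∑ c, (starRingEnd ℂ) (v c) * w c := by
  unfold Cv
  rw [Fintype.sum_sum_type]
  have h1 : ∀ p : κ × d, (∑ s, braF a v s * cov S s (Sum.inl p)) * ketF b w (Sum.inl p) = 0 := by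
    intro p
    simp [ketF]
  have h2 : ∀ q : κ × d, (∑ s, braF a v s * cov S s (Sum.inr q)) * ketF b w (Sum.inr q) =
      if q.1 = b then (S a b : ℂ) * ((starRingEnd ℂ) (v q.2) * w q.2) else 0 := by
    intro q
    rw [Fintype.sum_sum_type, Fintype.sum_prod_type]
    have h3 : ∀ a', ∑ c, braF a v (Sum.inl (a', c)) * cov S (Sum.inl (a', c)) (Sum.inr q) =
        if a' = a then (starRingEnd ℂ) (v q.2) * (S a q.1 : ℂ) else 0 := by
      intro a'
      rw [Finset.sum_eq_single q.2]
      · simp only [braF, Sum.elim_inl, cov, if_true]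
        split_ifs with h
        · rw [h]
        · rw [zero_mul]
      · intro c _ hc
        simp only [cov]
        rw [if_neg hc, mul_zero]
      · intro h; exact absurd (Finset.mem_univ _) h
    have h4 : ∀ p : κ × d, braF a v (Sum.inr p) * cov S (Sum.inr p) (Sum.inr q) = 0 := by
      intro p; simp [braF]
    rw [Finset.sum_congr rfl fun a' _ => h3 a', Finset.sum_eq_zero fun p _ => h4 p, add_zero,
      Finset.sum_ite_eq' univ a, if_pos (Finset.mem_univ _)]
    simp only [ketF, Sum.elim_inr]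
    split_ifs with h
    · rw [h]; ring
    · rw [mul_zero]
  rw [Finset.sum_eq_zero fun p _ => h1 p, zero_add, Finset.sum_congr rfl fun q _ => h2 q,
    Fintype.sum_prod_type, Finset.sum_eq_single b]
  · simp only [if_true]
    rw [Finset.mul_sum]
  · intro b' _ hb
    exact Finset.sum_eq_zero fun c _ => if_neg hb
  · intro h; exact absurd (Finset.mem_univ _) h

theorem bra_prod {ι : Type} (a : κ) (s : Finset ι) (f : ι → MvPolynomial d ℂ) :
    bra a (∏ i ∈ s, f i) = ∏ i ∈ s, bra a (f i) := by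
  simp [bra, cj, map_prod]

/-- per (S ⊗ M) as a Wick functional -/
theorem W_permanent {m : ℕ} (S : κ → κ → ℝ) (v : Fin m → d → ℂ) :
    W (cov S) ((∏ a, bra a (∏ i, Lf (v i))) * ∏ b, ket b (∏ i, Lf (v i))) =
      (Matrix.of (fun p q : κ × Fin m =>
        (S p.1 q.1 : ℂ) * ∑ c, (starRingEnd ℂ) (v p.2 c) * v q.2 c)).permanent := by
  have h1 : ∏ a : κ, bra a (∏ i, Lf (v i)) =
      ∏ p : κ × Fin m, LF (braF p.1 (v p.2)) := by
    rw [Fintype.prod_prod_type]
    refine Finset.prod_congr rfl fun a _ => ?_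
    rw [bra_prod]
    exact Finset.prod_congr rfl fun i _ => bra_Lf _ _
  have h2 : ∏ a : κ, ket a (∏ i, Lf (v i)) =
      ∏ p : κ × Fin m, LF (ketF p.1 (v p.2)) := by
    rw [Fintype.prod_prod_type]
    refine Finset.prod_congr rfl fun a _ => ?_
    rw [ket_prod]
    exact Finset.prod_congr rfl fun i _ => ket_Lf _ _
  rw [h1, h2, W_prod_prod_perm (cov S) (cov_comm S) _ _ (fun p q => Cv_bra_bra S _ _ _ _)]
  congr 1
  ext p q
  exact Cv_bra_ket S _ _ _ _

theorem ibp_bra (S : κ → κ → ℝ) (a : κ) (v : d → ℂ) (P : MvPolynomial (Site κ d) ℂ) :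
    W (cov S) (bra a (Lf v) * P) = ∑ b, (S a b : ℂ) * W (cov S) (Dket b v P) := by
  have h0 : bra a (Lf v) = ∑ c, C ((starRingEnd ℂ) (v c)) *
      (X (Sum.inl (a, c)) : MvPolynomial (Site κ d) ℂ) := by
    simp [bra, Lf, cj]
  rw [h0, Finset.sum_mul, map_sum]
  have h1 : ∀ c : d, W (cov S) (C ((starRingEnd ℂ) (v c)) *
      (X (Sum.inl (a, c)) : MvPolynomial (Site κ d) ℂ) * P) =
      ∑ b, (S a b : ℂ) * ((starRingEnd ℂ) (v c) * W (cov S) (pderiv (Sum.inr (b, c)) P)) := by
    intro c
    rw [mul_assoc, ← smul_eq_C_mul, map_smul, W_X_mul _ (cov_comm S), smul_eq_mul,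
      Fintype.sum_sum_type]
    have e1 : ∀ p : κ × d, cov S (Sum.inl (a, c)) (Sum.inl p) *
        W (cov S) (pderiv (Sum.inl p) P) = 0 := by
      intro p; simp [cov]
    rw [Finset.sum_eq_zero fun p _ => e1 p, zero_add, Fintype.sum_prod_type, Finset.mul_sum]
    refine Finset.sum_congr rfl fun b _ => ?_
    rw [Finset.sum_eq_single c]
    · simp only [cov, if_true]
      ring
    · intro c' _ hc
      simp only [cov]
      rw [if_neg (fun h => hc h.symm), zero_mul]
    · intro h; exact absurd (Finset.mem_univ _) h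
  rw [Finset.sum_congr rfl fun c _ => h1 c, Finset.sum_comm]
  refine Finset.sum_congr rfl fun b _ => ?_
  rw [← Finset.mul_sum, Dket, map_sum]
  congr 1
  refine Finset.sum_congr rfl fun c _ => ?_
  rw [← smul_eq_C_mul, map_smul, smul_eq_mul]

theorem ibp_ket (S : κ → κ → ℝ) (b : κ) (v : d → ℂ) (P : MvPolynomial (Site κ d) ℂ) :
    W (cov S) (ket b (Lf v) * P) = ∑ a, (S a b : ℂ) * W (cov S) (Dbra a v P) := by
  have h0 : ket b (Lf v) = ∑ c, C (v c) *
      (X (Sum.inr (b, c)) : MvPolynomial (Site κ d) ℂ) := by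
    simp [ket, Lf]
  rw [h0, Finset.sum_mul, map_sum]
  have h1 : ∀ c : d, W (cov S) (C (v c) *
      (X (Sum.inr (b, c)) : MvPolynomial (Site κ d) ℂ) * P) =
      ∑ a, (S a b : ℂ) * (v c * W (cov S) (pderiv (Sum.inl (a, c)) P)) := by
    intro c
    rw [mul_assoc, ← smul_eq_C_mul, map_smul, W_X_mul _ (cov_comm S), smul_eq_mul,
      Fintype.sum_sum_type]
    have e1 : ∀ p : κ × d, cov S (Sum.inr (b, c)) (Sum.inr p) *
        W (cov S) (pderiv (Sum.inr p) P) = 0 := by
      intro p; simp [cov]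
    rw [Finset.sum_eq_zero fun p _ => e1 p, add_zero, Fintype.sum_prod_type, Finset.mul_sum]
    refine Finset.sum_congr rfl fun a _ => ?_
    rw [Finset.sum_eq_single c]
    · simp only [cov, if_true]
      ring
    · intro c' _ hc
      simp only [cov]
      rw [if_neg hc, zero_mul]
    · intro h; exact absurd (Finset.mem_univ _) h
  rw [Finset.sum_congr rfl fun c _ => h1 c, Finset.sum_comm]
  refine Finset.sum_congr rfl fun a _ => ?_
  rw [← Finset.mul_sum, Dbra, map_sum]
  congr 1
  refine Finset.sum_congr rfl fun c _ => ?_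
  rw [← smul_eq_C_mul, map_smul, smul_eq_mul]

end Sites

end Pool.Agent.Work.MP_8d2b2d_co.RP
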