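import Mathlib

/-!
# The Wick (Gaussian) functional on polynomials

`W C P = (exp (1/2 ∑ C i j ∂ i ∂ j) P) (0)`; integration by parts, uniqueness, renaming, conjugation
and the derivative along a path of covariances.
-/

namespace Pool.Agent.Work.MP_8d2b2d_co.RP

open MvPolynomial Finset

set_option linter.unusedSectionVars false

section Wick

variable {σ τ : Type} [Fintype σ] [DecidableEq σ] [Fintype τ] [DecidableEq τ]

/-- `pderiv` as a linear endomorphism -/
noncomputable def pd (i : σ) : Module.End ℂ (MvPolynomial σ ℂ) := (pderiv i).toLinearMap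

omit [Fintype σ] [DecidableEq σ] in
@[simp] theorem pd_apply (i : σ) (P : MvPolynomial σ ℂ) : pd i P = pderiv i P := rfl

omit [Fintype σ] in
theorem pderiv_comm (i j : σ) (P : MvPolynomial σ ℂ) :
    pderiv i (pderiv j P) = pderiv j (pderiv i P) := by
  induction P using MvPolynomial.induction_on with
  | C a => simp
  | add p q hp hq => simp [hp, hq]
  | mul_X p n hp =>
    simp only [pderiv_mul, map_add, hp, pderiv_X]
    have h1 : pderiv i (Pi.single (M := fun _ => MvPolynomial σ ℂ) j 1 n) = 0 := by
      rcases eq_or_ne j n with h | h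
      · subst h; simp
      · rw [Pi.single_eq_of_ne' h]; simp
    have h2 : pderiv j (Pi.single (M := fun _ => MvPolynomial σ ℂ) i 1 n) = 0 := by
      rcases eq_or_ne i n with h | h
      · subst h; simp
      · rw [Pi.single_eq_of_ne' h]; simp
    rw [h1, h2]
    ring

omit [Fintype σ] in
theorem pd_comm (i j : σ) : pd i * pd j = pd j * pd i :=
  LinearMap.ext fun P => pderiv_comm i j P

/-- the Laplacian `1/2 ∑ C i j ∂ i ∂ j` -/
noncomputable def Lap (C : σ → σ → ℂ) : Module.End ℂ (MvPolynomial σ ℂ) :=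
  (1 / 2 : ℂ) • ∑ i, ∑ j, C i j • (pd i * pd j)

theorem Lap_apply (C : σ → σ → ℂ) (P : MvPolynomial σ ℂ) :
    Lap C P = (1 / 2 : ℂ) • ∑ i, ∑ j, C i j • pderiv i (pderiv j P) := by
  simp [Lap, LinearMap.sum_apply]

omit [Fintype σ] [DecidableEq σ] in
theorem totalDegree_pderiv_le (i : σ) (P : MvPolynomial σ ℂ) :
    (pderiv i P).totalDegree ≤ P.totalDegree - 1 := by
  classical
  unfold MvPolynomial.totalDegree
  refine Finset.sup_le fun s hs => ?_
  rw [mem_support_iff, coeff_pderiv] at hs
  have h1 : coeff (s + Finsupp.single i 1) P ≠ 0 := fun h => hs (by rw [h, zero_mul])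
  have h2 : (s + Finsupp.single i 1) ∈ P.support := mem_support_iff.2 h1
  have h3 := Finset.le_sup (f := fun s : σ →₀ ℕ => s.sum fun _ e => e) h2
  have h4 : ((s + Finsupp.single i 1).sum fun _ e => e) = (s.sum fun _ e => e) + 1 := by
    rw [Finsupp.sum_add_index' (by intros; rfl) (by intros; rfl), Finsupp.sum_single_index rfl]
  have h5 : ((s + Finsupp.single i 1).sum fun _ e => e) ≤
      P.support.sup fun s : σ →₀ ℕ => s.sum fun _ e => e := h3
  omega

theorem totalDegree_Lap_le (C : σ → σ → ℂ) (P : MvPolynomial σ ℂ) :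
    (Lap C P).totalDegree ≤ P.totalDegree - 1 := by
  have key : Lap C P ∈ restrictTotalDegree σ ℂ (P.totalDegree - 1) := by
    rw [Lap_apply]
    refine Submodule.smul_mem _ _ (Submodule.sum_mem _ fun i _ => Submodule.sum_mem _ fun j _ =>
      Submodule.smul_mem _ _ ?_)
    rw [mem_restrictTotalDegree]
    have h1 := totalDegree_pderiv_le i (pderiv j P)
    have h2 := totalDegree_pderiv_le j P
    omega
  exact (mem_restrictTotalDegree _ _ _).1 key

theorem Lap_pow_zero (C : σ → σ → ℂ) (n : ℕ) : ∀ P : MvPolynomial σ ℂ, P.totalDegree < n →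
    (Lap C ^ n) P = 0 := by
  induction n with
  | zero => intro P h; omega
  | succ n ih =>
    intro P h
    rw [pow_succ, Module.End.mul_apply]
    rcases Nat.eq_zero_or_pos P.totalDegree with h0 | h0
    · have h1 := (totalDegree_eq_zero_iff_eq_C).1 h0
      have h2 : Lap C P = 0 := by
        rw [Lap_apply, h1]; simp
      rw [h2, map_zero]
    · refine ih _ ?_
      have := totalDegree_Lap_le C P
      omega

/-- partial sums of the exponential series at `0` -/
noncomputable def Ws (C : σ → σ → ℂ) (N : ℕ) : MvPolynomial σ ℂ →ₗ[ℂ] ℂ :=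
  ∑ n ∈ range N, ((n.factorial : ℂ)⁻¹) • ((lcoeff ℂ (0 : σ →₀ ℕ)) ∘ₗ (Lap C ^ n))

theorem Ws_apply (C : σ → σ → ℂ) (N : ℕ) (P : MvPolynomial σ ℂ) :
    Ws C N P = ∑ n ∈ range N, ((n.factorial : ℂ)⁻¹) * constantCoeff ((Lap C ^ n) P) := by
  simp [Ws, LinearMap.sum_apply, constantCoeff_eq]

theorem Ws_stable (C : σ → σ → ℂ) (P : MvPolynomial σ ℂ) {M N : ℕ} (hM : P.totalDegree < M)
    (hN : P.totalDegree < N) : Ws C M P = Ws C N P := by
  wlog h : M ≤ N generalizing M N with H
  · exact (H hN hM (by omega)).symm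
  rw [Ws_apply, Ws_apply]
  refine Finset.sum_subset (range_subset_range.2 h) fun n _ hn => ?_
  rw [Finset.mem_range, not_lt] at hn
  rw [Lap_pow_zero C n P (by omega), map_zero, mul_zero]

/-- `W C P = (exp (1/2 ∑ C i j ∂ i ∂ j) P) (0)`: the Gaussian (Wick) functional with covariance `C`. -/
noncomputable def W (C : σ → σ → ℂ) : MvPolynomial σ ℂ →ₗ[ℂ] ℂ where
  toFun P := Ws C (P.totalDegree + 1) P
  map_add' P Q := by
    have h := totalDegree_add P Q
    rw [Ws_stable C (P + Q) (M := (P + Q).totalDegree + 1)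
        (N := max P.totalDegree Q.totalDegree + 1) (by omega) (by omega),
      Ws_stable C P (M := P.totalDegree + 1)
        (N := max P.totalDegree Q.totalDegree + 1) (by omega) (by omega),
      Ws_stable C Q (M := Q.totalDegree + 1)
        (N := max P.totalDegree Q.totalDegree + 1) (by omega) (by omega), map_add]
  map_smul' c P := by
    have h := totalDegree_smul_le c P
    rw [Ws_stable C (c • P) (M := (c • P).totalDegree + 1)
        (N := P.totalDegree + 1) (by omega) (by omega), map_smul]
    rfl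

theorem W_eq_Ws (C : σ → σ → ℂ) (P : MvPolynomial σ ℂ) {N : ℕ} (hN : P.totalDegree < N) :
    W C P = Ws C N P := Ws_stable C P (by omega) hN

theorem W_one (C : σ → σ → ℂ) : W C 1 = 1 := by
  rw [W_eq_Ws C 1 (N := 1) (by simp), Ws_apply]
  simp

theorem W_C (C : σ → σ → ℂ) (c : ℂ) : W C (MvPolynomial.C c) = c := by
  rw [← mul_one (MvPolynomial.C c), ← smul_eq_C_mul, map_smul, W_one, smul_eq_mul, mul_one]

/-- the first order operator `∑ C i j ∂ j` -/
noncomputable def Dop (C : σ → σ → ℂ) (i : σ) : Module.End ℂ (MvPolynomial σ ℂ) :=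
  ∑ j, C i j • pd j

theorem Dop_apply (C : σ → σ → ℂ) (i : σ) (P : MvPolynomial σ ℂ) :
    Dop C i P = ∑ j, C i j • pderiv j P := by
  simp [Dop, LinearMap.sum_apply]

theorem Lap_X_mul (C : σ → σ → ℂ) (hC : ∀ i j, C i j = C j i) (i : σ) (P : MvPolynomial σ ℂ) :
    Lap C (X i * P) = X i * Lap C P + Dop C i P := by
  have h1 : ∀ j k : σ, pderiv j (pderiv k (X i * P)) =
      X i * pderiv j (pderiv k P) + ((if k = i then pderiv j P else 0) +
        (if j = i then pderiv k P else 0)) := by
    intro j k
    simp only [pderiv_mul, map_add, pderiv_X]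
    have e1 : (Pi.single (M := fun _ => MvPolynomial σ ℂ) k 1 i) = if k = i then 1 else 0 := by
      rcases eq_or_ne k i with h | h
      · subst h; simp
      · rw [Pi.single_eq_of_ne' h, if_neg h]
    have e2 : (Pi.single (M := fun _ => MvPolynomial σ ℂ) j 1 i) = if j = i then 1 else 0 := by
      rcases eq_or_ne j i with h | h
      · subst h; simp
      · rw [Pi.single_eq_of_ne' h, if_neg h]
    rw [e1, e2]
    split_ifs <;> simp <;> ring
  rw [Lap_apply, Lap_apply, Dop_apply]
  simp only [h1, smul_add, Finset.sum_add_distrib, smul_ite, smul_zero, Finset.sum_ite_eq',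
    Finset.mem_univ, if_true]
  have h2 : ∑ x, ∑ x_1, (if x = i then C x x_1 • pderiv x_1 P else 0) =
      ∑ j, C i j • pderiv j P := by
    rw [Finset.sum_comm]
    refine Finset.sum_congr rfl fun j _ => ?_
    rw [Finset.sum_ite_eq' univ i, if_pos (Finset.mem_univ _)]
  have h3 : ∑ x, C x i • pderiv x P = ∑ j, C i j • pderiv j P :=
    Finset.sum_congr rfl fun j _ => by rw [hC j i]
  rw [h2, h3, ← smul_add, ← two_smul ℂ (∑ j, C i j • pderiv j P), smul_smul]
  norm_num
  rw [Finset.mul_sum]
  refine Finset.sum_congr rfl fun x _ => ?_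
  rw [Finset.mul_sum]
  refine Finset.sum_congr rfl fun y _ => ?_
  rw [mul_smul_comm]

theorem pd_commute (i j : σ) : Commute (pd i) (pd j) := pd_comm i j

theorem Lap_commute_pd (C : σ → σ → ℂ) (k : σ) : Commute (Lap C) (pd k) := by
  unfold Lap
  refine Commute.smul_left ?_ _
  refine Commute.sum_left _ _ _ fun i _ => Commute.sum_left _ _ _ fun j _ => ?_
  exact Commute.smul_left ((pd_commute i k).mul_left (pd_commute j k)) _

theorem Lap_commute_Dop (C C' : σ → σ → ℂ) (i : σ) : Commute (Lap C) (Dop C' i) := by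
  unfold Dop
  exact Commute.sum_right _ _ _ fun j _ => Commute.smul_right (Lap_commute_pd C j) _

theorem Lap_commute_Lap (C C' : σ → σ → ℂ) : Commute (Lap C) (Lap C') := by
  have h : Lap C' = (1 / 2 : ℂ) • ∑ i, ∑ j, C' i j • (pd i * pd j) := rfl
  rw [h]
  refine Commute.smul_right ?_ _
  refine Commute.sum_right _ _ _ fun i _ => Commute.sum_right _ _ _ fun j _ => ?_
  exact Commute.smul_right ((Lap_commute_pd C i).mul_right (Lap_commute_pd C j)) _

theorem Lap_pow_X_mul (C : σ → σ → ℂ) (hC : ∀ i j, C i j = C j i) (i : σ) (P : MvPolynomial σ ℂ)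
    (n : ℕ) : (Lap C ^ (n + 1)) (X i * P) =
      X i * (Lap C ^ (n + 1)) P + ((n : ℂ) + 1) • (Lap C ^ n) (Dop C i P) := by
  induction n with
  | zero => simpa using Lap_X_mul C hC i P
  | succ n ih =>
    rw [pow_succ' (Lap C) (n + 1), Module.End.mul_apply, ih, map_add, map_smul,
      Lap_X_mul C hC i, Module.End.mul_apply]
    have h1 : Dop C i ((Lap C ^ (n + 1)) P) = (Lap C ^ (n + 1)) (Dop C i P) := by
      have h := ((Lap_commute_Dop C C i).pow_left (n + 1)).eq
      exact (congrArg (fun F : Module.End ℂ (MvPolynomial σ ℂ) => F P) h).symm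
    have h2 : Lap C ((Lap C ^ n) (Dop C i P)) = (Lap C ^ (n + 1)) (Dop C i P) := by
      rw [pow_succ', Module.End.mul_apply]
    rw [h1, h2, add_assoc]
    congr 1
    set Q := (Lap C ^ (n + 1)) (Dop C i P) with hQ
    have h3 : Q = (1 : ℂ) • Q := (one_smul ℂ Q).symm
    rw [h3, smul_smul, ← add_smul, mul_one]
    congr 1
    push_cast
    ring

theorem W_X_mul (C : σ → σ → ℂ) (hC : ∀ i j, C i j = C j i) (i : σ) (P : MvPolynomial σ ℂ) :
    W C (X i * P) = ∑ j, C i j * W C (pderiv j P) := by
  have h0 : (X i * P).totalDegree ≤ P.totalDegree + 1 := by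
    have h := totalDegree_mul (X i : MvPolynomial σ ℂ) P
    rw [totalDegree_X] at h
    omega
  have h1 : ∑ j, C i j * W C (pderiv j P) = W C (Dop C i P) := by
    rw [Dop_apply, map_sum]
    exact Finset.sum_congr rfl fun j _ => by rw [map_smul, smul_eq_mul]
  have h2 : (Dop C i P).totalDegree ≤ P.totalDegree := by
    have key : Dop C i P ∈ restrictTotalDegree σ ℂ P.totalDegree := by
      rw [Dop_apply]
      refine Submodule.sum_mem _ fun j _ => Submodule.smul_mem _ _ ?_
      rw [mem_restrictTotalDegree]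
      have h2 := totalDegree_pderiv_le j P
      omega
    exact (mem_restrictTotalDegree _ _ _).1 key
  rw [h1, W_eq_Ws C (X i * P) (N := P.totalDegree + 2) (by omega),
    W_eq_Ws C (Dop C i P) (N := P.totalDegree + 1) (by omega), Ws_apply, Ws_apply,
    Finset.sum_range_succ']
  simp only [pow_zero, Module.End.one_apply, map_mul, constantCoeff_X, zero_mul, mul_zero, add_zero]
  refine Finset.sum_congr rfl fun n _ => ?_
  rw [Lap_pow_X_mul C hC, map_add, map_mul, constantCoeff_X, zero_mul, zero_add,
    Nat.factorial_succ, smul_eq_C_mul, map_mul, constantCoeff_C]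
  have : ((n : ℂ) + 1) ≠ 0 := by exact_mod_cast Nat.succ_ne_zero n
  push_cast
  field_simp

theorem W_unique (C : σ → σ → ℂ) (hC : ∀ i j, C i j = C j i) (F : MvPolynomial σ ℂ →ₗ[ℂ] ℂ)
    (h1 : F 1 = 1) (h2 : ∀ i P, F (X i * P) = ∑ j, C i j * F (pderiv j P)) : F = W C := by
  have key : ∀ n : ℕ, ∀ P : MvPolynomial σ ℂ, P.totalDegree ≤ n → F P = W C P := by
    intro n
    induction n with
    | zero =>
      intro P hP
      have h := (totalDegree_eq_zero_iff_eq_C).1 (Nat.le_zero.1 hP)
      rw [h, ← mul_one (MvPolynomial.C (coeff 0 P)), ← smul_eq_C_mul, map_smul, map_smul, h1,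
        W_one]
    | succ n ih =>
      intro P hP
      rw [P.as_sum, map_sum, map_sum]
      refine Finset.sum_congr rfl fun s hs => ?_
      rcases eq_or_ne s 0 with h0 | h0
      · subst h0
        refine ih _ ?_
        rw [← C_apply, totalDegree_C]
        omega
      · obtain ⟨i, hi⟩ : ∃ i, s i ≠ 0 := by
          by_contra h
          push Not at h
          exact h0 (Finsupp.ext h)
        have hs' : s = Finsupp.single i 1 + (s - Finsupp.single i 1) := by
          ext j
          rcases eq_or_ne i j with h | h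
          · subst h
            simp
            omega
          · simp [Finsupp.single_eq_of_ne' h]
        have hd : ((s - Finsupp.single i 1).sum fun _ e => e) ≤ n := by
          have h3 : ((s).sum fun _ e => e) ≤ P.totalDegree := by
            exact Finset.le_sup (f := fun s : σ →₀ ℕ => s.sum fun _ e => e) hs
          have h4 : (s.sum fun _ e => e) = ((s - Finsupp.single i 1).sum fun _ e => e) + 1 := by
            conv_lhs => rw [hs']
            rw [add_comm, Finsupp.sum_add_index' (by intros; rfl) (by intros; rfl),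
              Finsupp.sum_single_index rfl]
          omega
        have he : monomial s (coeff s P) =
            X i * monomial (s - Finsupp.single i 1) (coeff s P) := by
          rw [X, monomial_mul, one_mul, ← hs']
        rw [he, h2, W_X_mul C hC]
        refine Finset.sum_congr rfl fun j _ => ?_
        congr 1
        refine ih _ ?_
        have h5 := totalDegree_pderiv_le j (monomial (s - Finsupp.single i 1) (coeff s P))
        have h6 : (monomial (s - Finsupp.single i 1) (coeff s P)).totalDegree ≤ n :=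
          (totalDegree_monomial_le _ _).trans hd
        omega
  exact LinearMap.ext fun P => key _ P le_rfl

theorem W_rename (C : σ → σ → ℂ) (hC : ∀ i j, C i j = C j i) (e : τ ≃ σ) (P : MvPolynomial τ ℂ) :
    W C (rename e P) = W (fun i j => C (e i) (e j)) P := by
  have h := W_unique (fun i j => C (e i) (e j)) (fun i j => hC _ _)
    ((W C) ∘ₗ (rename e : MvPolynomial τ ℂ →ₐ[ℂ] MvPolynomial σ ℂ).toLinearMap)
    (by simp [W_one]) (fun i Q => by
      simp only [LinearMap.comp_apply, AlgHom.toLinearMap_apply, map_mul, rename_X]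
      rw [W_X_mul C hC, ← e.sum_comp]
      refine Finset.sum_congr rfl fun j _ => ?_
      rw [pderiv_rename e.injective])
  exact congrArg (fun F : MvPolynomial τ ℂ →ₗ[ℂ] ℂ => F P) h

/-- conjugation of the coefficients -/
noncomputable def cj (P : MvPolynomial σ ℂ) : MvPolynomial σ ℂ := MvPolynomial.map (starRingEnd ℂ) P

theorem W_cj (C : σ → σ → ℂ) (hC : ∀ i j, C i j = C j i) (P : MvPolynomial σ ℂ) :
    W (fun i j => (starRingEnd ℂ) (C i j)) (cj P) = (starRingEnd ℂ) (W C P) := by
  have hC' : ∀ i j, (starRingEnd ℂ) (C i j) = (starRingEnd ℂ) (C j i) := fun i j => by rw [hC]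
  let F : MvPolynomial σ ℂ →ₗ[ℂ] ℂ :=
    { toFun := fun P => (starRingEnd ℂ) (W (fun i j => (starRingEnd ℂ) (C i j)) (cj P))
      map_add' := fun P Q => by simp [cj]
      map_smul' := fun c P => by
        have : cj (c • P) = ((starRingEnd ℂ) c) • cj P := by
          simp [cj, smul_eq_C_mul]
        simp [this] }
  have h := W_unique C hC F (by simp [F, cj, W_one]) (fun i Q => by
    have h1 : cj (X i * Q) = X i * cj Q := by simp [cj]
    have h2 : ∀ j, cj (pderiv j Q) = pderiv j (cj Q) := fun j => by
      rw [cj, cj, pderiv_map]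
    show (starRingEnd ℂ) (W (fun i j => (starRingEnd ℂ) (C i j)) (cj (X i * Q))) = _
    rw [h1, W_X_mul _ hC', map_sum]
    refine Finset.sum_congr rfl fun j _ => ?_
    show _ = C i j * (starRingEnd ℂ) (W (fun i j => (starRingEnd ℂ) (C i j)) (cj (pderiv j Q)))
    rw [h2, map_mul, RingHomCompTriple.comp_apply, RingHom.id_apply])
  have h3 := congrArg (fun G : MvPolynomial σ ℂ →ₗ[ℂ] ℂ => (starRingEnd ℂ) (G P)) h
  simpa [F] using h3

/-- derivative of the functional along a path of covariances -/
theorem W_hasDerivAt (C : ℝ → σ → σ → ℂ) (C' : σ → σ → ℂ) (s : ℝ)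
    (hC : ∀ i j, HasDerivAt (fun t => C t i j) (C' i j) s) (P : MvPolynomial σ ℂ) :
    HasDerivAt (fun t => W (C t) P)
      (1 / 2 * ∑ i, ∑ j, C' i j * W (C s) (pderiv i (pderiv j P))) s := by
  have hR : 1 / 2 * ∑ i, ∑ j, C' i j * W (C s) (pderiv i (pderiv j P)) = W (C s) (Lap C' P) := by
    rw [Lap_apply, map_smul, map_sum, smul_eq_mul]
    congr 1
    refine Finset.sum_congr rfl fun i _ => ?_
    rw [map_sum]
    exact Finset.sum_congr rfl fun j _ => by rw [map_smul, smul_eq_mul]
  -- the derivative of each power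
  have hpow : ∀ n : ℕ, ∀ Q : MvPolynomial σ ℂ,
      HasDerivAt (fun t => constantCoeff ((Lap (C t) ^ n) Q))
        ((n : ℂ) * constantCoeff ((Lap (C s) ^ (n - 1)) (Lap C' Q))) s := by
    intro n
    induction n with
    | zero => intro Q; simpa using hasDerivAt_const s (constantCoeff Q)
    | succ n ih =>
      intro Q
      have e1 : (fun t => constantCoeff ((Lap (C t) ^ (n + 1)) Q)) =
          fun t => (1 / 2 : ℂ) * ∑ i, ∑ j, C t i j *
            constantCoeff ((Lap (C t) ^ n) (pderiv i (pderiv j Q))) := by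
        funext t
        rw [pow_succ, Module.End.mul_apply, Lap_apply, map_smul, map_sum, smul_eq_C_mul, map_mul,
          constantCoeff_C, map_sum]
        congr 1
        refine Finset.sum_congr rfl fun i _ => ?_
        rw [map_sum, map_sum]
        refine Finset.sum_congr rfl fun j _ => ?_
        rw [map_smul, smul_eq_C_mul, map_mul, constantCoeff_C]
      rw [e1]
      have e2 : HasDerivAt (fun t => (1 / 2 : ℂ) * ∑ i, ∑ j, C t i j *
            constantCoeff ((Lap (C t) ^ n) (pderiv i (pderiv j Q))))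
          ((1 / 2 : ℂ) * ∑ i, ∑ j, (C' i j *
            constantCoeff ((Lap (C s) ^ n) (pderiv i (pderiv j Q))) + C s i j *
              ((n : ℂ) * constantCoeff ((Lap (C s) ^ (n - 1))
                (Lap C' (pderiv i (pderiv j Q))))))) s := by
        refine HasDerivAt.const_mul _ (HasDerivAt.fun_sum fun i _ => HasDerivAt.fun_sum fun j _ => ?_)
        exact (hC i j).mul (ih _)
      convert e2 using 1
      simp only [Finset.sum_add_distrib, mul_add]
      have e3 : (1 / 2 : ℂ) * ∑ i, ∑ j, C' i j *
            constantCoeff ((Lap (C s) ^ n) (pderiv i (pderiv j Q))) =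
          constantCoeff ((Lap (C s) ^ n) (Lap C' Q)) := by
        rw [Lap_apply C', map_smul, map_sum, smul_eq_C_mul, map_mul,
          constantCoeff_C, map_sum]
        congr 1
        refine Finset.sum_congr rfl fun i _ => ?_
        rw [map_sum, map_sum]
        refine Finset.sum_congr rfl fun j _ => ?_
        rw [map_smul, smul_eq_C_mul, map_mul, constantCoeff_C]
      have e4 : (1 / 2 : ℂ) * ∑ i, ∑ j, C s i j * ((n : ℂ) * constantCoeff
            ((Lap (C s) ^ (n - 1)) (Lap C' (pderiv i (pderiv j Q))))) =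
          (n : ℂ) * constantCoeff ((Lap (C s) ^ (n - 1)) (Lap C' (Lap (C s) Q))) := by
        rw [Lap_apply (C s) Q, map_smul, map_sum, map_smul, map_sum, smul_eq_C_mul, map_mul,
          constantCoeff_C, map_sum]
        have e5 : ∀ i, constantCoeff ((Lap (C s) ^ (n - 1)) (Lap C' (∑ j, C s i j •
            pderiv i (pderiv j Q)))) = ∑ j, C s i j * constantCoeff ((Lap (C s) ^ (n - 1))
              (Lap C' (pderiv i (pderiv j Q)))) := by
          intro i
          rw [map_sum, map_sum, map_sum]
          refine Finset.sum_congr rfl fun j _ => ?_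
          rw [map_smul, map_smul, smul_eq_C_mul, map_mul, constantCoeff_C]
        simp only [e5]
        simp only [Finset.mul_sum]
        refine Finset.sum_congr rfl fun i _ => Finset.sum_congr rfl fun j _ => ?_
        ring
      rw [e3, e4, Nat.add_sub_cancel]
      rcases Nat.eq_zero_or_pos n with h0 | h0
      · subst h0; simp
      · have e6 : (Lap (C s) ^ (n - 1)) (Lap C' (Lap (C s) Q)) =
            (Lap (C s) ^ n) (Lap C' Q) := by
          have h1 : Lap C' (Lap (C s) Q) = Lap (C s) (Lap C' Q) :=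
            congrArg (fun F : Module.End ℂ (MvPolynomial σ ℂ) => F Q) (Lap_commute_Lap C' (C s)).eq
          obtain ⟨k, rfl⟩ : ∃ k, n = k + 1 := ⟨n - 1, by omega⟩
          rw [h1, Nat.add_sub_cancel, pow_succ, Module.End.mul_apply]
        rw [e6]
        push_cast
        ring
  rw [hR]
  have hN : ∀ t, W (C t) P = ∑ n ∈ range (P.totalDegree + 2),
      ((n.factorial : ℂ)⁻¹) * constantCoeff ((Lap (C t) ^ n) P) := fun t => by
    rw [W_eq_Ws (C t) P (N := P.totalDegree + 2) (by omega), Ws_apply]
  have hfun : (fun t => W (C t) P) = fun t => ∑ n ∈ range (P.totalDegree + 2),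
      ((n.factorial : ℂ)⁻¹) * constantCoeff ((Lap (C t) ^ n) P) := funext hN
  rw [hfun]
  have hd : HasDerivAt (fun t => ∑ n ∈ range (P.totalDegree + 2),
      ((n.factorial : ℂ)⁻¹) * constantCoeff ((Lap (C t) ^ n) P))
      (∑ n ∈ range (P.totalDegree + 2), ((n.factorial : ℂ)⁻¹) *
        ((n : ℂ) * constantCoeff ((Lap (C s) ^ (n - 1)) (Lap C' P)))) s :=
    HasDerivAt.fun_sum fun n _ => (hpow n P).const_mul _
  convert hd using 1
  have h1 := totalDegree_Lap_le C' P
  rw [W_eq_Ws (C s) (Lap C' P) (N := P.totalDegree + 1) (by omega), Ws_apply]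
  have h2 := Finset.sum_range_succ' (fun n : ℕ => ((n.factorial : ℂ)⁻¹) *
    ((n : ℂ) * constantCoeff ((Lap (C s) ^ (n - 1)) (Lap C' P)))) (P.totalDegree + 1)
  rw [h2, Nat.cast_zero, zero_mul, mul_zero, add_zero]
  refine Finset.sum_congr rfl fun n _ => ?_
  rw [Nat.add_sub_cancel]
  rw [Nat.factorial_succ]
  have : ((n : ℂ) + 1) ≠ 0 := by exact_mod_cast Nat.succ_ne_zero n
  push_cast
  field_simp

end Wick

end Pool.Agent.Work.MP_8d2b2d_co.RP
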